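import Mathlib

set_option autoImplicit false

/-!
# Divisors on finite multigraphs

A finite multigraph without loops, chip-firing equivalence, rank at least one, gonality.
-/

namespace Q122.Gon

/-- A multigraph without loops with vertex type `V` and edge type `E`; every edge is given with an
(arbitrary) orientation, from `src e` to `tgt e`. Parallel edges are allowed. -/
structure MGraph (V E : Type) where
  /-- first endpoint -/
  src : E → V
  /-- second endpoint -/
  tgt : E → V
  /-- no loops -/
  loopless : ∀ e, src e ≠ tgt e

namespace MGraph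

variable {V E : Type}

/-- Two vertices are adjacent if some edge joins them. -/
def Adj (G : MGraph V E) (u v : V) : Prop :=
  ∃ e, (G.src e = u ∧ G.tgt e = v) ∨ (G.src e = v ∧ G.tgt e = u)

/-- A multigraph is connected if it has a vertex and any two vertices are joined by a path. -/
def Connected (G : MGraph V E) : Prop :=
  Nonempty V ∧ ∀ u v : V, Relation.ReflTransGen G.Adj u v

variable [Fintype V] [Fintype E] [DecidableEq V]

/-- If every vertex `w` is fired `f w` times (negative numbers being reverse firings), the number
of chips at `v` changes by `G.fire f v`: each edge joining `v` to `w` brings `f w` chips and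
takes `f v` chips away. -/
def fire (G : MGraph V E) (f : V → ℤ) (v : V) : ℤ :=
  ∑ e, ((if G.src e = v then f (G.tgt e) - f v else 0) +
    (if G.tgt e = v then f (G.src e) - f v else 0))

/-- Two divisors are equivalent if one arises from the other by firings and reverse firings. -/
def Equiv (G : MGraph V E) (D D' : V → ℤ) : Prop :=
  ∃ f : V → ℤ, ∀ v, D' v = D v + G.fire f v

/-- A divisor `D` has rank at least one if for every vertex `v` the divisor `D - v` is equivalent
to an effective divisor. -/
def RankOne (G : MGraph V E) (D : V → ℤ) : Prop :=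
  ∀ v, ∃ D' : V → ℤ, G.Equiv (fun w => D w - if w = v then 1 else 0) D' ∧ ∀ w, 0 ≤ D' w

/-! ### Elementary facts -/

theorem fire_eq (G : MGraph V E) (f : V → ℤ) (v : V) :
    G.fire f v = ∑ e, ((if G.src e = v then (1 : ℤ) else 0) - (if G.tgt e = v then 1 else 0)) *
      (f (G.tgt e) - f (G.src e)) := by
  unfold fire
  refine Finset.sum_congr rfl fun e _ => ?_
  have hl := G.loopless e
  by_cases h1 : G.src e = v
  · have h2 : G.tgt e ≠ v := fun h => hl (h1.trans h.symm)
    simp [h1, h2]
  · by_cases h2 : G.tgt e = v
    · simp [h1, h2]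
    · simp [h1, h2]

/-- Green's identity. -/
theorem green (G : MGraph V E) (ω f : V → ℤ) :
    ∑ v, ω v * G.fire f v =
      ∑ e, (ω (G.src e) - ω (G.tgt e)) * (f (G.tgt e) - f (G.src e)) := by
  simp only [fire_eq, Finset.mul_sum]
  rw [Finset.sum_comm]
  refine Finset.sum_congr rfl fun e _ => ?_
  have h1 : ∀ v, ω v * (((if G.src e = v then (1 : ℤ) else 0) - (if G.tgt e = v then 1 else 0)) *
      (f (G.tgt e) - f (G.src e))) =
      (if G.src e = v then ω v * (f (G.tgt e) - f (G.src e)) else 0) -
      (if G.tgt e = v then ω v * (f (G.tgt e) - f (G.src e)) else 0) := by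
    intro v
    by_cases h1 : G.src e = v <;> by_cases h2 : G.tgt e = v <;> simp [h1, h2] <;> ring
  rw [Finset.sum_congr rfl fun v _ => h1 v, Finset.sum_sub_distrib, Finset.sum_ite_eq,
    Finset.sum_ite_eq]
  simp
  ring

theorem sum_fire (G : MGraph V E) (f : V → ℤ) : ∑ v, G.fire f v = 0 := by
  have := G.green (fun _ => 1) f
  simpa using this

theorem fire_add (G : MGraph V E) (f g : V → ℤ) (v : V) :
    G.fire (fun w => f w + g w) v = G.fire f v + G.fire g v := by
  simp only [fire_eq]
  rw [← Finset.sum_add_distrib]
  refine Finset.sum_congr rfl fun e _ => ?_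
  ring

theorem fire_neg (G : MGraph V E) (f : V → ℤ) (v : V) :
    G.fire (fun w => - f w) v = - G.fire f v := by
  simp only [fire_eq]
  rw [← Finset.sum_neg_distrib]
  refine Finset.sum_congr rfl fun e _ => ?_
  ring

theorem fire_sub (G : MGraph V E) (f g : V → ℤ) (v : V) :
    G.fire (fun w => f w - g w) v = G.fire f v - G.fire g v := by
  simp only [fire_eq]
  rw [← Finset.sum_sub_distrib]
  refine Finset.sum_congr rfl fun e _ => ?_
  ring

theorem rankOne_iff (G : MGraph V E) (D : V → ℤ) :
    G.RankOne D ↔ ∀ v, ∃ f : V → ℤ, (∀ w, 0 ≤ D w + G.fire f w) ∧ 1 ≤ D v + G.fire f v := by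
  constructor
  · intro h v
    obtain ⟨D', ⟨f, hf⟩, hD⟩ := h v
    refine ⟨f, fun w => ?_, ?_⟩
    · have h1 := hf w
      have h2 := hD w
      by_cases hw : w = v
      · simp only [hw, if_true] at h1 ⊢
        rw [hw] at h2
        linarith
      · simp only [hw, if_false] at h1
        linarith
    · have h1 := hf v
      have h2 := hD v
      simp only [if_true] at h1
      linarith
  · intro h v
    obtain ⟨f, h1, h2⟩ := h v
    refine ⟨fun w => (D w - if w = v then 1 else 0) + G.fire f w, ⟨f, fun _ => rfl⟩, fun w => ?_⟩
    by_cases hw : w = v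
    · subst hw
      simp only [if_true]
      linarith
    · simp only [hw, if_false]
      have := h1 w
      linarith

/-- Effective divisors of small degree stay effective only if the potential is constant along a
bundle of many parallel edges. -/
theorem rigid (G : MGraph V E) (D f : V → ℤ) (M : ℕ) (hD : ∀ v, 0 ≤ D v)
    (hD' : ∀ v, 0 ≤ D v + G.fire f v) (hM : ∑ v, D v < M) (a b : V) (g : Fin M → E)
    (hg : Function.Injective g) (hga : ∀ i, G.src (g i) = a) (hgb : ∀ i, G.tgt (g i) = b) :
    f a = f b := by
  classical
  -- general statement with a threshold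
  have key : ∀ t : ℤ, (∀ i : Fin M, ((if t ≤ f a then (1 : ℤ) else 0) -
      (if t ≤ f b then 1 else 0)) * (f b - f a) ≤ -1) → False := by
    intro t ht
    have h1 := G.green (fun v => if t ≤ f v then 1 else 0) f
    have h2 : ∑ v, (fun v => if t ≤ f v then (1 : ℤ) else 0) v * G.fire f v ≥ - ∑ v, D v := by
      rw [← Finset.sum_neg_distrib]
      refine Finset.sum_le_sum fun v _ => ?_
      have h3 := hD v
      have h4 := hD' v
      by_cases hv : t ≤ f v
      · simp only [hv, if_true]
        linarith
      · simp only [hv, if_false]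
        linarith
    have h5 : ∑ e, ((if t ≤ f (G.src e) then (1 : ℤ) else 0) - (if t ≤ f (G.tgt e) then 1 else 0)) *
        (f (G.tgt e) - f (G.src e)) ≤ - M := by
      have h6 : ∀ e, ((if t ≤ f (G.src e) then (1 : ℤ) else 0) -
          (if t ≤ f (G.tgt e) then 1 else 0)) * (f (G.tgt e) - f (G.src e)) ≤ 0 := by
        intro e
        by_cases h7 : t ≤ f (G.src e) <;> by_cases h8 : t ≤ f (G.tgt e)
        · simp [h7, h8]
        · simp only [h7, h8, if_true, if_false]
          push Not at h8
          linarith
        · simp only [h7, h8, if_true, if_false]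
          push Not at h7
          linarith
        · simp [h7, h8]
      calc ∑ e, ((if t ≤ f (G.src e) then (1 : ℤ) else 0) -
              (if t ≤ f (G.tgt e) then 1 else 0)) * (f (G.tgt e) - f (G.src e))
          ≤ ∑ e ∈ Finset.univ.map ⟨g, hg⟩, ((if t ≤ f (G.src e) then (1 : ℤ) else 0) -
              (if t ≤ f (G.tgt e) then 1 else 0)) * (f (G.tgt e) - f (G.src e)) := by
            refine Finset.sum_le_sum_of_subset_of_nonpos' (Finset.subset_univ _) ?_
            intro e _ _
            exact h6 e
        _ = ∑ i : Fin M, ((if t ≤ f a then (1 : ℤ) else 0) -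
              (if t ≤ f b then 1 else 0)) * (f b - f a) := by
            rw [Finset.sum_map]
            refine Finset.sum_congr rfl fun i _ => ?_
            simp [hga, hgb]
        _ ≤ ∑ i : Fin M, (-1 : ℤ) := Finset.sum_le_sum fun i _ => ht i
        _ = - M := by simp
    simp only at h1 h2
    rw [h1] at h2
    linarith
  rcases lt_trichotomy (f a) (f b) with h | h | h
  · exfalso
    refine key (f b) fun i => ?_
    have h1 : ¬ (f b ≤ f a) := not_le.mpr h
    simp only [h1, le_refl, if_true, if_false]
    linarith
  · exact h
  · exfalso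
    refine key (f a) fun i => ?_
    have h1 : ¬ (f a ≤ f b) := not_le.mpr h
    simp only [h1, le_refl, if_true, if_false]
    linarith

end MGraph

end Q122.Gon
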