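import Pool.Agent.Q122.Gon.Basic

set_option autoImplicit false

/-!
# Cluster graphs

`Cl` is a set of clusters, `C` a set of centres, `S` a set of spokes and `H` a set of long edges.
Each cluster has a hub; every centre, every outer end of a spoke and every end of a long edge is
joined to the hub of its cluster by a bundle of `M` parallel edges. A spoke is a bundle of `μ`
parallel edges between its centre and its outer end; a long edge is a single edge.
-/

namespace Q122.Gon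

/-- The combinatorial data of a cluster graph. -/
structure CData (Cl C S H : Type) where
  /-- cluster of a centre -/
  cc : C → Cl
  /-- centre of a spoke -/
  sc : S → C
  /-- cluster of the outer end of a spoke -/
  st : S → Cl
  /-- clusters of the two ends of a long edge -/
  hd : H → Bool → Cl

namespace CData

variable {Cl C S H : Type}

/-- Vertices: hubs, centres, outer ends of spokes, ends of long edges. -/
abbrev CV (Cl C S H : Type) : Type := Cl ⊕ C ⊕ S ⊕ H × Bool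

/-- Edges: spokes (`μ` copies each), long edges, thick edges (`M` copies each). -/
abbrev CE (C S H : Type) (μ M : ℕ) : Type := (S × Fin μ ⊕ H) ⊕ (C ⊕ S ⊕ H × Bool) × Fin M

/-- hub of a cluster -/
def vh (Cl C S H : Type) (c : Cl) : CV Cl C S H := Sum.inl c
/-- centre vertex -/
def vz (Cl C S H : Type) (c : C) : CV Cl C S H := Sum.inr (Sum.inl c)
/-- outer end of a spoke -/
def vu (Cl C S H : Type) (s : S) : CV Cl C S H := Sum.inr (Sum.inr (Sum.inl s))
/-- end of a long edge -/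
def va (Cl C S H : Type) (e : H) (b : Bool) : CV Cl C S H := Sum.inr (Sum.inr (Sum.inr (e, b)))

/-- The cluster graph. -/
def graph (X : CData Cl C S H) (μ M : ℕ) : MGraph (CV Cl C S H) (CE C S H μ M) where
  src := fun e => match e with
    | Sum.inl (Sum.inl (s, _)) => Sum.inr (Sum.inl (X.sc s))
    | Sum.inl (Sum.inr e) => Sum.inr (Sum.inr (Sum.inr (e, false)))
    | Sum.inr (Sum.inl c, _) => Sum.inr (Sum.inl c)
    | Sum.inr (Sum.inr (Sum.inl s), _) => Sum.inr (Sum.inr (Sum.inl s))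
    | Sum.inr (Sum.inr (Sum.inr q), _) => Sum.inr (Sum.inr (Sum.inr q))
  tgt := fun e => match e with
    | Sum.inl (Sum.inl (s, _)) => Sum.inr (Sum.inr (Sum.inl s))
    | Sum.inl (Sum.inr e) => Sum.inr (Sum.inr (Sum.inr (e, true)))
    | Sum.inr (Sum.inl c, _) => Sum.inl (X.cc c)
    | Sum.inr (Sum.inr (Sum.inl s), _) => Sum.inl (X.st s)
    | Sum.inr (Sum.inr (Sum.inr q), _) => Sum.inl (X.hd q.1 q.2)
  loopless := by
    rintro ((⟨s, i⟩ | e) | ⟨c | s | q, i⟩) <;> simp

variable [Fintype Cl] [Fintype C] [Fintype S] [Fintype H]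
  [DecidableEq Cl] [DecidableEq C] [DecidableEq S] [DecidableEq H]

section rigid

variable (X : CData Cl C S H) (μ M : ℕ) (D f : CV Cl C S H → ℤ)
  (hD : ∀ v, 0 ≤ D v) (hD' : ∀ v, 0 ≤ D v + (X.graph μ M).fire f v) (hM : ∑ v, D v < M)

include hD hD' hM

theorem rigid_z (c : C) : f (Sum.inr (Sum.inl c)) = f (Sum.inl (X.cc c)) :=
  (X.graph μ M).rigid D f M hD hD' hM _ _ (fun i => Sum.inr (Sum.inl c, i))
    (fun i j h => by simpa using h) (fun _ => rfl) (fun _ => rfl)

theorem rigid_u (s : S) : f (Sum.inr (Sum.inr (Sum.inl s))) = f (Sum.inl (X.st s)) :=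
  (X.graph μ M).rigid D f M hD hD' hM _ _ (fun i => Sum.inr (Sum.inr (Sum.inl s), i))
    (fun i j h => by simpa using h) (fun _ => rfl) (fun _ => rfl)

theorem rigid_a (e : H) (b : Bool) :
    f (Sum.inr (Sum.inr (Sum.inr (e, b)))) = f (Sum.inl (X.hd e b)) :=
  (X.graph μ M).rigid D f M hD hD' hM _ _ (fun i => Sum.inr (Sum.inr (Sum.inr (e, b)), i))
    (fun i j h => by simpa using h) (fun _ => rfl) (fun _ => rfl)

end rigid

section fire

variable (X : CData Cl C S H) (μ M : ℕ) (f : CV Cl C S H → ℤ)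
  (hz : ∀ c, f (Sum.inr (Sum.inl c)) = f (Sum.inl (X.cc c)))
  (hu : ∀ s, f (Sum.inr (Sum.inr (Sum.inl s))) = f (Sum.inl (X.st s)))
  (ha : ∀ e b, f (Sum.inr (Sum.inr (Sum.inr (e, b)))) = f (Sum.inl (X.hd e b)))

include hz hu ha

theorem fire_thin (v : CV Cl C S H) : (X.graph μ M).fire f v =
    (μ : ℤ) * ∑ s, ((if (Sum.inr (Sum.inl (X.sc s)) : CV Cl C S H) = v then (1 : ℤ) else 0) -
      (if (Sum.inr (Sum.inr (Sum.inl s)) : CV Cl C S H) = v then 1 else 0)) *
      (f (Sum.inl (X.st s)) - f (Sum.inl (X.cc (X.sc s)))) +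
    ∑ e, ((if (Sum.inr (Sum.inr (Sum.inr (e, false))) : CV Cl C S H) = v then (1 : ℤ) else 0) -
      (if (Sum.inr (Sum.inr (Sum.inr (e, true))) : CV Cl C S H) = v then 1 else 0)) *
      (f (Sum.inl (X.hd e true)) - f (Sum.inl (X.hd e false))) := by
  rw [MGraph.fire_eq, Fintype.sum_sum_type, Fintype.sum_sum_type]
  have h1 : ∑ e : (C ⊕ S ⊕ H × Bool) × Fin M,
      ((if (X.graph μ M).src (Sum.inr e) = v then (1 : ℤ) else 0) -
        (if (X.graph μ M).tgt (Sum.inr e) = v then 1 else 0)) *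
      (f ((X.graph μ M).tgt (Sum.inr e)) - f ((X.graph μ M).src (Sum.inr e))) = 0 := by
    refine Finset.sum_eq_zero fun e _ => ?_
    rcases e with ⟨c | s | q, i⟩
    · have : f ((X.graph μ M).tgt (Sum.inr (Sum.inl c, i))) -
          f ((X.graph μ M).src (Sum.inr (Sum.inl c, i))) = 0 := by
        simp [graph, hz]
      rw [this, mul_zero]
    · have : f ((X.graph μ M).tgt (Sum.inr (Sum.inr (Sum.inl s), i))) -
          f ((X.graph μ M).src (Sum.inr (Sum.inr (Sum.inl s), i))) = 0 := by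
        simp [graph, hu]
      rw [this, mul_zero]
    · have : f ((X.graph μ M).tgt (Sum.inr (Sum.inr (Sum.inr q), i))) -
          f ((X.graph μ M).src (Sum.inr (Sum.inr (Sum.inr q), i))) = 0 := by
        obtain ⟨e, b⟩ := q
        simp [graph, ha]
      rw [this, mul_zero]
  rw [h1, add_zero, Fintype.sum_prod_type]
  congr 1
  · rw [Finset.mul_sum]
    refine Finset.sum_congr rfl fun s _ => ?_
    have h2 : ∀ i : Fin μ,
        ((if (X.graph μ M).src (Sum.inl (Sum.inl (s, i))) = v then (1 : ℤ) else 0) -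
          (if (X.graph μ M).tgt (Sum.inl (Sum.inl (s, i))) = v then 1 else 0)) *
        (f ((X.graph μ M).tgt (Sum.inl (Sum.inl (s, i)))) -
          f ((X.graph μ M).src (Sum.inl (Sum.inl (s, i))))) =
        ((if (Sum.inr (Sum.inl (X.sc s)) : CV Cl C S H) = v then (1 : ℤ) else 0) -
          (if (Sum.inr (Sum.inr (Sum.inl s)) : CV Cl C S H) = v then 1 else 0)) *
          (f (Sum.inl (X.st s)) - f (Sum.inl (X.cc (X.sc s)))) := by
      intro i
      rw [← hz, ← hu]
      rfl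
    rw [Finset.sum_congr rfl fun i _ => h2 i]
    simp
  · refine Finset.sum_congr rfl fun e _ => ?_
    rw [← ha, ← ha]
    rfl

theorem fire_z (c : C) : (X.graph μ M).fire f (Sum.inr (Sum.inl c)) =
    (μ : ℤ) * ∑ s ∈ Finset.univ.filter (fun s => X.sc s = c),
      (f (Sum.inl (X.st s)) - f (Sum.inl (X.cc c))) := by
  rw [X.fire_thin μ M f hz hu ha, Finset.sum_filter]
  simp only [Sum.inr.injEq, Sum.inl.injEq, reduceCtorEq, if_false, sub_zero, zero_mul,
    Finset.sum_const_zero, add_zero, sub_self]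
  congr 1
  refine Finset.sum_congr rfl fun s _ => ?_
  by_cases h : X.sc s = c
  · simp [h]
  · simp [h]

theorem fire_u (s : S) : (X.graph μ M).fire f (Sum.inr (Sum.inr (Sum.inl s))) =
    (μ : ℤ) * (f (Sum.inl (X.cc (X.sc s))) - f (Sum.inl (X.st s))) := by
  rw [X.fire_thin μ M f hz hu ha]
  simp only [Sum.inr.injEq, Sum.inl.injEq, reduceCtorEq, if_false, zero_sub, sub_self, zero_mul,
    Finset.sum_const_zero, add_zero]
  congr 1
  have : ∀ t : S, (-(if t = s then (1 : ℤ) else 0)) *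
      (f (Sum.inl (X.st t)) - f (Sum.inl (X.cc (X.sc t)))) =
      if t = s then (f (Sum.inl (X.cc (X.sc t))) - f (Sum.inl (X.st t))) else 0 := by
    intro t
    by_cases h : t = s <;> simp [h]
  rw [Finset.sum_congr rfl fun t _ => this t, Finset.sum_ite_eq']
  simp

theorem fire_a0 (e : H) : (X.graph μ M).fire f (Sum.inr (Sum.inr (Sum.inr (e, false)))) =
    f (Sum.inl (X.hd e true)) - f (Sum.inl (X.hd e false)) := by
  rw [X.fire_thin μ M f hz hu ha]
  have : ∀ t : H, ((if (Sum.inr (Sum.inr (Sum.inr (t, false))) : CV Cl C S H) =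
      Sum.inr (Sum.inr (Sum.inr (e, false))) then (1 : ℤ) else 0) -
      (if (Sum.inr (Sum.inr (Sum.inr (t, true))) : CV Cl C S H) =
      Sum.inr (Sum.inr (Sum.inr (e, false))) then 1 else 0)) *
      (f (Sum.inl (X.hd t true)) - f (Sum.inl (X.hd t false))) =
      if t = e then (f (Sum.inl (X.hd t true)) - f (Sum.inl (X.hd t false))) else 0 := by
    intro t
    by_cases h : t = e <;> simp [h]
  rw [Finset.sum_congr rfl fun t _ => this t, Finset.sum_ite_eq']
  simp

theorem fire_a1 (e : H) : (X.graph μ M).fire f (Sum.inr (Sum.inr (Sum.inr (e, true)))) =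
    f (Sum.inl (X.hd e false)) - f (Sum.inl (X.hd e true)) := by
  rw [X.fire_thin μ M f hz hu ha]
  have : ∀ t : H, ((if (Sum.inr (Sum.inr (Sum.inr (t, false))) : CV Cl C S H) =
      Sum.inr (Sum.inr (Sum.inr (e, true))) then (1 : ℤ) else 0) -
      (if (Sum.inr (Sum.inr (Sum.inr (t, true))) : CV Cl C S H) =
      Sum.inr (Sum.inr (Sum.inr (e, true))) then 1 else 0)) *
      (f (Sum.inl (X.hd t true)) - f (Sum.inl (X.hd t false))) =
      if t = e then (f (Sum.inl (X.hd t false)) - f (Sum.inl (X.hd t true))) else 0 := by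
    intro t
    by_cases h : t = e <;> simp [h]
  rw [Finset.sum_congr rfl fun t _ => this t, Finset.sum_ite_eq']
  simp

end fire

/-- The possible states of a divisor of rank at least one and of small degree on a cluster graph,
seen on the level of clusters. -/
structure States (X : CData Cl C S H) (μ : ℕ) (d : ℤ) where
  /-- chips at hubs -/
  nh : Cl → ℤ
  /-- chips at centres -/
  nz : C → ℤ
  /-- chips at outer ends of spokes -/
  nu : S → ℤ
  /-- chips at ends of long edges -/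
  na : H → Bool → ℤ
  /-- the attainable potentials -/
  P : Set (Cl → ℤ)
  total : ∑ c, nh c + (∑ c, nz c + (∑ s, nu s + ∑ e, (na e false + na e true))) = d
  nh0 : ∀ c, 0 ≤ nh c
  nz0 : ∀ c, 0 ≤ nz c
  nu0 : ∀ s, 0 ≤ nu s
  na0 : ∀ e b, 0 ≤ na e b
  cz : ∀ h ∈ P, ∀ c, 0 ≤ nz c - μ * ∑ s ∈ Finset.univ.filter (fun s => X.sc s = c),
    (h (X.st s) - h (X.cc c))
  cu : ∀ h ∈ P, ∀ s, 0 ≤ nu s + μ * (h (X.st s) - h (X.cc (X.sc s)))
  ca0 : ∀ h ∈ P, ∀ e, 0 ≤ na e false + (h (X.hd e false) - h (X.hd e true))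
  ca1 : ∀ h ∈ P, ∀ e, 0 ≤ na e true - (h (X.hd e false) - h (X.hd e true))
  cov0 : ∀ e, ∃ h ∈ P, 1 ≤ na e false + (h (X.hd e false) - h (X.hd e true))
  cov1 : ∀ e, ∃ h ∈ P, 1 ≤ na e true - (h (X.hd e false) - h (X.hd e true))

theorem exists_states (X : CData Cl C S H) (μ M : ℕ) (hne : Nonempty Cl)
    (D : CV Cl C S H → ℤ) (hr : (X.graph μ M).RankOne D) (hM : ∑ v, D v < M) :
    Nonempty (States X μ (∑ v, D v)) := by
  obtain ⟨c0⟩ := hne
  rw [MGraph.rankOne_iff] at hr
  obtain ⟨f0, h0, -⟩ := hr (Sum.inl c0)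
  set D0 : CV Cl C S H → ℤ := fun v => D v + (X.graph μ M).fire f0 v with hD0
  have hsum : ∑ v, D0 v = ∑ v, D v := by
    rw [hD0, Finset.sum_add_distrib, MGraph.sum_fire, add_zero]
  have hr0 : ∀ v, ∃ f : CV Cl C S H → ℤ, (∀ w, 0 ≤ D0 w + (X.graph μ M).fire f w) ∧
      1 ≤ D0 v + (X.graph μ M).fire f v := by
    intro v
    obtain ⟨f, h1, h2⟩ := hr v
    refine ⟨fun w => f w - f0 w, fun w => ?_, ?_⟩
    · rw [MGraph.fire_sub]
      have := h1 w
      simp only [hD0]
      linarith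
    · rw [MGraph.fire_sub]
      simp only [hD0]
      linarith
  have hM0 : ∑ v, D0 v < M := by rw [hsum]; exact hM
  refine ⟨{
    nh := fun c => D0 (Sum.inl c)
    nz := fun c => D0 (Sum.inr (Sum.inl c))
    nu := fun s => D0 (Sum.inr (Sum.inr (Sum.inl s)))
    na := fun e b => D0 (Sum.inr (Sum.inr (Sum.inr (e, b))))
    P := {h | ∃ f : CV Cl C S H → ℤ, (∀ w, 0 ≤ D0 w + (X.graph μ M).fire f w) ∧
      ∀ c, h c = - f (Sum.inl c)}
    total := ?_
    nh0 := fun c => h0 _
    nz0 := fun c => h0 _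
    nu0 := fun s => h0 _
    na0 := fun e b => h0 _
    cz := ?_
    cu := ?_
    ca0 := ?_
    ca1 := ?_
    cov0 := ?_
    cov1 := ?_ }⟩
  · rw [← hsum, Fintype.sum_sum_type, Fintype.sum_sum_type, Fintype.sum_sum_type,
      Fintype.sum_prod_type]
    congr 3
    refine Finset.sum_congr rfl fun e _ => ?_
    rw [Fintype.sum_bool]
    ring
  · rintro h ⟨f, hf, hh⟩ c
    have h1 := hf (Sum.inr (Sum.inl c))
    rw [X.fire_z μ M f (X.rigid_z μ M D0 f h0 hf hM0) (X.rigid_u μ M D0 f h0 hf hM0)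
      (X.rigid_a μ M D0 f h0 hf hM0)] at h1
    have h2 : ∑ s ∈ Finset.univ.filter (fun s => X.sc s = c), (h (X.st s) - h (X.cc c)) =
        - ∑ s ∈ Finset.univ.filter (fun s => X.sc s = c),
          (f (Sum.inl (X.st s)) - f (Sum.inl (X.cc c))) := by
      rw [← Finset.sum_neg_distrib]
      refine Finset.sum_congr rfl fun s _ => ?_
      rw [hh, hh]
      ring
    rw [h2]
    linarith
  · rintro h ⟨f, hf, hh⟩ s
    have h1 := hf (Sum.inr (Sum.inr (Sum.inl s)))
    rw [X.fire_u μ M f (X.rigid_z μ M D0 f h0 hf hM0) (X.rigid_u μ M D0 f h0 hf hM0)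
      (X.rigid_a μ M D0 f h0 hf hM0)] at h1
    rw [hh, hh]
    linarith
  · rintro h ⟨f, hf, hh⟩ e
    have h1 := hf (Sum.inr (Sum.inr (Sum.inr (e, false))))
    rw [X.fire_a0 μ M f (X.rigid_z μ M D0 f h0 hf hM0) (X.rigid_u μ M D0 f h0 hf hM0)
      (X.rigid_a μ M D0 f h0 hf hM0)] at h1
    rw [hh, hh]
    linarith
  · rintro h ⟨f, hf, hh⟩ e
    have h1 := hf (Sum.inr (Sum.inr (Sum.inr (e, true))))
    rw [X.fire_a1 μ M f (X.rigid_z μ M D0 f h0 hf hM0) (X.rigid_u μ M D0 f h0 hf hM0)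
      (X.rigid_a μ M D0 f h0 hf hM0)] at h1
    rw [hh, hh]
    linarith
  · intro e
    obtain ⟨f, hf, h1⟩ := hr0 (Sum.inr (Sum.inr (Sum.inr (e, false))))
    refine ⟨fun c => - f (Sum.inl c), ⟨f, hf, fun _ => rfl⟩, ?_⟩
    rw [X.fire_a0 μ M f (X.rigid_z μ M D0 f h0 hf hM0) (X.rigid_u μ M D0 f h0 hf hM0)
      (X.rigid_a μ M D0 f h0 hf hM0)] at h1
    linarith
  · intro e
    obtain ⟨f, hf, h1⟩ := hr0 (Sum.inr (Sum.inr (Sum.inr (e, true))))
    refine ⟨fun c => - f (Sum.inl c), ⟨f, hf, fun _ => rfl⟩, ?_⟩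
    rw [X.fire_a1 μ M f (X.rigid_z μ M D0 f h0 hf hM0) (X.rigid_u μ M D0 f h0 hf hM0)
      (X.rigid_a μ M D0 f h0 hf hM0)] at h1
    linarith

end CData

end Q122.Gon
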