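import Pool.Agent.Q122.Gon.MSlide

set_option autoImplicit false

/-!
# The gonality of a graph is at most twice the gonality of its metric graph
-/

namespace Q122.Gon

open Filter Topology

theorem PLOn.restrict {g : ℝ → ℝ} {a b : ℝ} (h : PLOn g a b) :
    ∀ c d : ℝ, a ≤ c → c < d → d ≤ b → PLOn g c d := by
  induction h with
  | @affine a b s hab hs =>
    intro c d hac hcd hdb
    refine PLOn.affine s hcd fun x hx => ?_
    rw [hs x ⟨hac.trans hx.1, hx.2.trans hdb⟩, hs c ⟨hac, hcd.le.trans hdb⟩]
    ring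
  | @glue a m b h1 h2 ih1 ih2 =>
    intro c d hac hcd hdb
    rcases le_or_gt d m with h | h
    · exact ih1 c d hac hcd h
    · rcases le_or_gt m c with h' | h'
      · exact ih2 c d h' hcd hdb
      · exact PLOn.glue (ih1 c m hac h' le_rfl) (ih2 m d le_rfl h hdb)

theorem PLOn.add_affine {k : ℝ → ℝ} {a b : ℝ} (h : PLOn k a b) (g : ℝ → ℝ) (s : ℤ)
    (hg : ∀ x ∈ Set.Icc a b, g x = g a + s * (x - a)) : PLOn (fun x => g x + k x) a b := by
  induction h with
  | @affine a b t hab ht =>
    refine PLOn.affine (s + t) hab fun x hx => ?_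
    rw [hg x hx, ht x hx]
    push_cast
    ring
  | @glue a m b h1 h2 ih1 ih2 =>
    have ham := h1.lt
    have hmb := h2.lt
    refine PLOn.glue (ih1 fun x hx => hg x ⟨hx.1, hx.2.trans hmb.le⟩) (ih2 fun x hx => ?_)
    rw [hg x ⟨ham.le.trans hx.1, hx.2⟩, hg m ⟨ham.le, hmb.le⟩]
    ring

theorem PLOn.add {g k : ℝ → ℝ} {a b : ℝ} (hg : PLOn g a b) (hk : PLOn k a b) :
    PLOn (fun x => g x + k x) a b := by
  induction hg with
  | affine s _ hs => exact hk.add_affine g s hs
  | glue h1 h2 ih1 ih2 =>
    exact PLOn.glue (ih1 (hk.restrict _ _ le_rfl h1.lt h2.lt.le))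
      (ih2 (hk.restrict _ _ h1.lt.le h2.lt le_rfl))

theorem PLOn.neg {g : ℝ → ℝ} {a b : ℝ} (hg : PLOn g a b) : PLOn (fun x => - g x) a b := by
  induction hg with
  | affine s hab hs =>
    refine PLOn.affine (-s) hab fun x hx => ?_
    rw [hs x hx]
    push_cast
    ring
  | glue h1 h2 ih1 ih2 => exact PLOn.glue ih1 ih2

variable {V E : Type}

/-- sum of rational functions -/
def RatFun.add {G : MGraph V E} (f g : RatFun G) : RatFun G where
  val := fun v => f.val v + g.val v
  fn := fun e x => f.fn e x + g.fn e x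
  fn_zero := fun e => by rw [f.fn_zero, g.fn_zero]
  fn_one := fun e => by rw [f.fn_one, g.fn_one]
  pl := fun e => (f.pl e).add (g.pl e)
  slR := fun e x => f.slR e x + g.slR e x
  slL := fun e x => f.slL e x + g.slL e x
  slR_spec := fun e x hx => by
    filter_upwards [f.slR_spec e x hx, g.slR_spec e x hx] with y h1 h2
    rw [h1, h2]
    push_cast
    ring
  slL_spec := fun e x hx => by
    filter_upwards [f.slL_spec e x hx, g.slL_spec e x hx] with y h1 h2
    rw [h1, h2]
    push_cast
    ring

/-- negative of a rational function -/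
def RatFun.neg {G : MGraph V E} (f : RatFun G) : RatFun G where
  val := fun v => - f.val v
  fn := fun e x => - f.fn e x
  fn_zero := fun e => by rw [f.fn_zero]
  fn_one := fun e => by rw [f.fn_one]
  pl := fun e => (f.pl e).neg
  slR := fun e x => - f.slR e x
  slL := fun e x => - f.slL e x
  slR_spec := fun e x hx => by
    filter_upwards [f.slR_spec e x hx] with y h1
    rw [h1]
    push_cast
    ring
  slL_spec := fun e x hx => by
    filter_upwards [f.slL_spec e x hx] with y h1
    rw [h1]
    push_cast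
    ring

/-- zero rational function -/
def RatFun.zero (G : MGraph V E) : RatFun G where
  val := fun _ => 0
  fn := fun _ _ => 0
  fn_zero := fun _ => rfl
  fn_one := fun _ => rfl
  pl := fun _ => PLOn.affine 0 zero_lt_one (fun x _ => by simp)
  slR := fun _ _ => 0
  slL := fun _ _ => 0
  slR_spec := fun e x hx => Filter.Eventually.of_forall fun y => by simp
  slL_spec := fun e x hx => Filter.Eventually.of_forall fun y => by simp

section

variable [Fintype E] [DecidableEq V]

theorem RatFun.div_add {G : MGraph V E} (f g : RatFun G) (q : Pt V E) :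
    (f.add g).div q = f.div q + g.div q := by
  rcases q with v | ⟨e, x⟩
  · simp only [RatFun.div, RatFun.add]
    rw [← Finset.sum_add_distrib]
    refine Finset.sum_congr rfl fun e _ => ?_
    split_ifs <;> ring
  · simp only [RatFun.div, RatFun.add]
    ring

theorem RatFun.div_neg {G : MGraph V E} (f : RatFun G) (q : Pt V E) :
    f.neg.div q = - f.div q := by
  rcases q with v | ⟨e, x⟩
  · simp only [RatFun.div, RatFun.neg]
    rw [← Finset.sum_neg_distrib]
    refine Finset.sum_congr rfl fun e _ => ?_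
    split_ifs <;> ring
  · simp only [RatFun.div, RatFun.neg]
    ring

theorem RatFun.div_zero (G : MGraph V E) (q : Pt V E) : (RatFun.zero G).div q = 0 := by
  rcases q with v | ⟨e, x⟩
  · simp [RatFun.div, RatFun.zero]
  · simp [RatFun.div, RatFun.zero]

end

namespace MGraph

variable [Fintype V] [Fintype E] [DecidableEq V]

omit [Fintype V] in
theorem mrankOne_iff (G : MGraph V E) (D : Pt V E →₀ ℤ) :
    G.MRankOne D ↔ ∀ q, ∃ f : RatFun G, (∃ D' : Pt V E →₀ ℤ, ∀ w, D' w = f.div w) ∧
      (∀ w, 0 ≤ D w + f.div w) ∧ 1 ≤ D q + f.div q := by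
  classical
  constructor
  · intro h q
    obtain ⟨D', ⟨f, hf⟩, hD⟩ := h q
    refine ⟨f, ⟨D' - (D - Finsupp.single q 1), fun w => ?_⟩, fun w => ?_, ?_⟩
    · have := hf w
      simp only [Finsupp.coe_sub, Pi.sub_apply] at this ⊢
      linarith
    · have h1 := hf w
      have h2 := hD w
      simp only [Finsupp.coe_sub, Pi.sub_apply, Finsupp.single_apply] at h1
      by_cases hw : q = w
      · simp only [hw, if_true] at h1
        linarith
      · simp only [hw, if_false] at h1
        linarith
    · have h1 := hf q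
      have h2 := hD q
      simp only [Finsupp.coe_sub, Pi.sub_apply, Finsupp.single_apply, if_true] at h1
      linarith
  · intro h q
    obtain ⟨f, ⟨D', h3⟩, h1, h2⟩ := h q
    refine ⟨D - Finsupp.single q 1 + D', ⟨f, fun w => ?_⟩, fun w => ?_⟩
    · simp only [Finsupp.coe_add, Pi.add_apply, h3]
    · simp only [Finsupp.coe_add, Pi.add_apply, h3, Finsupp.coe_sub, Pi.sub_apply,
        Finsupp.single_apply]
      by_cases hw : q = w
      · simp only [hw, if_true]
        rw [hw] at h2
        linarith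
      · simp only [hw, if_false]
        have := h1 w
        linarith

omit [Fintype E] [DecidableEq V] in
theorem mdeg_eq [Fintype E] [DecidableEq V] (D : Pt V E →₀ ℤ) :
    mdeg D = ∑ v, D (Sum.inl v) + ∑ q ∈ D.support.filter (fun q => q.isRight), D q := by
  classical
  unfold mdeg Finsupp.sum
  rw [← Finset.sum_filter_add_sum_filter_not D.support (fun q => q.isRight), add_comm]
  congr 1
  have h1 : D.support.filter (fun q => ¬ q.isRight) ⊆ Finset.univ.map
      ⟨Sum.inl, Sum.inl_injective⟩ := by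
    intro q hq
    simp only [Finset.mem_filter] at hq
    rcases q with v | x
    · simp
    · simp at hq
  rw [Finset.sum_subset h1, Finset.sum_map]
  · rfl
  · intro q hq hq'
    simp only [Finset.mem_map, Finset.mem_univ, true_and, Function.Embedding.coeFn_mk] at hq
    obtain ⟨v, rfl⟩ := hq
    simpa using hq'

variable [DecidableEq E]

theorem mdgonSet_nonempty (G : MGraph V E) : G.mdgonSet.Nonempty := by
  classical
  set D : Pt V E →₀ ℤ := ∑ v, Finsupp.single (Sum.inl v) 1 with hD
  have h1 : ∀ v, D (Sum.inl v) = 1 := by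
    intro v
    rw [hD, Finsupp.finsetSum_apply]
    simp [Finsupp.single_apply]
  have h2 : ∀ q, D (Sum.inr q) = 0 := by
    intro q
    rw [hD, Finsupp.finsetSum_apply]
    simp [Finsupp.single_apply]
  have h0 : ∀ w, 0 ≤ D w := by
    rintro (v | q)
    · rw [h1]; norm_num
    · rw [h2]
  have hdeg : 0 ≤ mdeg D := Finset.sum_nonneg fun q _ => h0 q
  refine ⟨(mdeg D).toNat, D, by rw [Int.toNat_of_nonneg hdeg], ?_⟩
  rw [mrankOne_iff]
  rintro (v | ⟨e, x⟩)
  · refine ⟨RatFun.zero G, ⟨0, fun w => by rw [RatFun.div_zero]; rfl⟩, fun w => ?_, ?_⟩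
    · rw [RatFun.div_zero, add_zero]
      exact h0 w
    · rw [RatFun.div_zero, add_zero, h1]
  · obtain ⟨f, h3, h4, h5⟩ := mbump G D h0 e (by rw [h1]) (by rw [h1]) x.1
      ⟨x.2.1.le, x.2.2.le⟩
    rw [mpt_mem] at h5
    exact ⟨f, h3, h4, h5⟩

open Classical in
/-- The number of chips in the interior of an edge. -/
noncomputable def inner (D : Pt V E →₀ ℤ) (e : E) : ℤ :=
  ∑ q ∈ D.support.filter (fun q => ∃ x, q = Sum.inr (e, x)), D q

omit [Fintype V] [DecidableEq V] [DecidableEq E] in
theorem sum_inner (D : Pt V E →₀ ℤ) :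
    ∑ e, inner D e = ∑ q ∈ D.support.filter (fun q => q.isRight), D q := by
  classical
  unfold inner
  rw [← Finset.sum_biUnion]
  · refine Finset.sum_congr ?_ fun _ _ => rfl
    ext q
    simp only [Finset.mem_biUnion, Finset.mem_univ, true_and, Finset.mem_filter]
    rcases q with v | ⟨e, x⟩
    · simp
    · constructor
      · rintro ⟨_, h, _⟩
        exact ⟨h, rfl⟩
      · rintro ⟨h, _⟩
        exact ⟨e, h, x, rfl⟩
  · intro e _ e' _ hne
    rw [Function.onFun, Finset.disjoint_left]
    intro q hq hq'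
    simp only [Finset.mem_filter] at hq hq'
    obtain ⟨_, x, h1⟩ := hq
    obtain ⟨_, y, h2⟩ := hq'
    rw [h1] at h2
    have := Sum.inr.inj h2
    exact hne (congrArg Prod.fst this)

omit [Fintype V] [DecidableEq V] [Fintype E] [DecidableEq E] in
theorem inner_nonneg (D : Pt V E →₀ ℤ) (hD : ∀ q, 0 ≤ D q) (e : E) : 0 ≤ inner D e := by
  classical
  exact Finset.sum_nonneg fun q _ => hD q

/-- the function on the edge `e` given by a divisor -/
noncomputable def onEdge (D : Pt V E →₀ ℤ) (e : E) (x : ℝ) : ℤ :=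
  if h : 0 < x ∧ x < 1 then D (Sum.inr (e, ⟨x, h⟩)) else 0

open Classical in
/-- the positions of the chips in the interior of an edge -/
noncomputable def chipSet (D : Pt V E →₀ ℤ) (e : E) : Finset ℝ :=
  (D.support.filter (fun q => ∃ x, q = Sum.inr (e, x))).image
    (Sum.elim (fun _ => 0) (fun q => q.2.1))

omit [Fintype V] [DecidableEq V] [Fintype E] [DecidableEq E] in
theorem mem_chipSet (D : Pt V E →₀ ℤ) (e : E) (x : ℝ) (hx : onEdge D e x ≠ 0) :
    x ∈ chipSet D e := by
  classical
  unfold onEdge at hx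
  by_cases h : 0 < x ∧ x < 1
  · rw [dif_pos h] at hx
    unfold chipSet
    rw [Finset.mem_image]
    refine ⟨Sum.inr (e, ⟨x, h⟩), ?_, rfl⟩
    simp only [Finset.mem_filter, Finsupp.mem_support_iff]
    exact ⟨hx, ⟨x, h⟩, rfl⟩
  · rw [dif_neg h] at hx
    exact absurd rfl hx

omit [Fintype V] [DecidableEq V] [Fintype E] [DecidableEq E] in
theorem sum_chipSet (D : Pt V E →₀ ℤ) (e : E) :
    ∑ x ∈ chipSet D e, onEdge D e x = inner D e := by
  classical
  unfold chipSet inner
  rw [Finset.sum_image]
  · refine Finset.sum_congr rfl fun q hq => ?_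
    simp only [Finset.mem_filter] at hq
    obtain ⟨_, x, rfl⟩ := hq
    exact dif_pos (show 0 < x.1 ∧ x.1 < 1 from x.2)
  · intro q hq q' hq' h
    simp only [Finset.coe_filter, Set.mem_ofPred_eq] at hq hq'
    obtain ⟨_, x, rfl⟩ := hq
    obtain ⟨_, x', rfl⟩ := hq'
    simp only [Sum.elim_inr] at h
    rw [Subtype.ext h]

omit [Fintype V] [DecidableEq V] [Fintype E] [DecidableEq E] in
theorem between_eq (D : Pt V E →₀ ℤ) (e : E) :
    between (chipSet D e) (onEdge D e) 0 1 = inner D e := by
  classical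
  rw [← sum_chipSet]
  unfold between
  rw [Finset.sum_filter_of_ne]
  intro x _ hx
  unfold onEdge at hx
  by_contra h
  rw [dif_neg h] at hx
  exact hx rfl

end MGraph

/-- The jumps of the slope of a piecewise linear function add up. -/
theorem PLOn.jump_sum {g : ℝ → ℝ} {a b : ℝ} (h : PLOn g a b) (R L : ℝ → ℤ)
    (T : Finset ℝ) (hT : ∀ x ∈ Set.Ioo a b, R x - L x ≠ 0 → x ∈ T)
    (hR : ∀ x ∈ Set.Ico a b, ∀ᶠ y in 𝓝[>] x, g y = g x + R x * (y - x))
    (hL : ∀ x ∈ Set.Ioc a b, ∀ᶠ y in 𝓝[<] x, g y = g x + L x * (y - x)) :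
    between T (fun x => R x - L x) a b = L b - R a := by
  induction h with
  | @affine a b s hab hs =>
    have hRx : ∀ x ∈ Set.Ico a b, R x = s := by
      intro x hx
      refine slope_unique_right (hR x hx) ?_
      filter_upwards [Ioc_mem_nhdsGT hx.2] with y hy
      rw [hs y ⟨hx.1.trans hy.1.le, hy.2⟩, hs x ⟨hx.1, hx.2.le⟩]
      ring
    have hLx : ∀ x ∈ Set.Ioc a b, L x = s := by
      intro x hx
      refine slope_unique_left (hL x hx) ?_
      filter_upwards [Ico_mem_nhdsLT hx.1] with y hy
      rw [hs y ⟨hy.1, hy.2.le.trans hx.2⟩, hs x ⟨hx.1.le, hx.2⟩]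
      ring
    rw [hRx a ⟨le_rfl, hab⟩, hLx b ⟨hab, le_rfl⟩, sub_self]
    refine Finset.sum_eq_zero fun x hx => ?_
    simp only [Finset.mem_filter] at hx
    rw [hRx x ⟨hx.2.1.le, hx.2.2⟩, hLx x ⟨hx.2.1, hx.2.2.le⟩, sub_self]
  | @glue a c b h1 h2 ih1 ih2 =>
    have hac := h1.lt
    have hcb := h2.lt
    have i1 := ih1 (fun x hx => hT x ⟨hx.1, hx.2.trans hcb⟩)
      (fun x hx => hR x ⟨hx.1, hx.2.trans hcb⟩)
      (fun x hx => hL x ⟨hx.1, hx.2.trans hcb.le⟩)
    have i2 := ih2 (fun x hx => hT x ⟨hac.trans hx.1, hx.2⟩)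
      (fun x hx => hR x ⟨hac.le.trans hx.1, hx.2⟩)
      (fun x hx => hL x ⟨hac.trans_le hx.1.le, hx.2⟩)
    have hc : ∑ x ∈ T.filter (fun x => x = c), (R x - L x) = R c - L c := by
      by_cases h3 : c ∈ T
      · rw [Finset.filter_eq', if_pos h3]
        simp
      · have h4 : R c - L c = 0 := by
          by_contra h5
          exact h3 (hT c ⟨hac, hcb⟩ h5)
        rw [Finset.filter_eq', if_neg h3, h4]
        simp
    unfold between at i1 i2 ⊢
    have hu : T.filter (fun x => a < x ∧ x < b) = T.filter (fun x => a < x ∧ x < c) ∪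
        (T.filter (fun x => x = c)) ∪ T.filter (fun x => c < x ∧ x < b) := by
      ext x
      simp only [Finset.mem_union, Finset.mem_filter]
      constructor
      · rintro ⟨hx, h3, h4⟩
        rcases lt_trichotomy x c with h5 | h5 | h5
        · exact Or.inl (Or.inl ⟨hx, h3, h5⟩)
        · exact Or.inl (Or.inr ⟨hx, h5⟩)
        · exact Or.inr ⟨hx, h5, h4⟩
      · rintro ((⟨hx, h3, h4⟩ | ⟨hx, h3⟩) | ⟨hx, h3, h4⟩)
        · exact ⟨hx, h3, h4.trans hcb⟩
        · exact ⟨hx, by rw [h3]; exact hac, by rw [h3]; exact hcb⟩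
        · exact ⟨hx, hac.trans h3, h4⟩
    rw [hu, Finset.sum_union, Finset.sum_union]
    · rw [i1, i2, hc]
      ring
    · rw [Finset.disjoint_left]
      intro x hx hx'
      simp only [Finset.mem_filter] at hx hx'
      rw [hx'.2] at hx
      exact lt_irrefl _ hx.2.2
    · rw [Finset.disjoint_left]
      intro x hx hx'
      simp only [Finset.mem_union, Finset.mem_filter] at hx hx'
      rcases hx with ⟨_, _, h4⟩ | ⟨_, h3⟩
      · exact lt_irrefl _ (h4.trans hx'.2.1)
      · rw [h3] at hx'
        exact lt_irrefl _ hx'.2.1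

namespace MGraph

variable [Fintype V] [Fintype E] [DecidableEq V]

/-- The divisor of a rational function has degree zero. -/
theorem mdeg_div (G : MGraph V E) (f : RatFun G) (D : Pt V E →₀ ℤ) (hD : ∀ q, D q = f.div q) :
    mdeg D = 0 := by
  classical
  rw [mdeg_eq, ← sum_inner]
  have h1 : ∀ e, inner D e = f.slL e 1 - f.slR e 0 := by
    intro e
    rw [← between_eq]
    have h2 : ∀ x : ℝ, 0 < x ∧ x < 1 → onEdge D e x = f.slR e x - f.slL e x := by
      intro x hx
      unfold onEdge
      rw [dif_pos hx, hD]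
      simp only [RatFun.div]
      ring
    rw [← (f.pl e).jump_sum (f.slR e) (f.slL e) (chipSet D e) ?_ (f.slR_spec e) (f.slL_spec e)]
    · unfold between
      refine Finset.sum_congr rfl fun x hx => ?_
      simp only [Finset.mem_filter] at hx
      exact h2 x hx.2
    · intro x hx hne
      refine mem_chipSet D e x ?_
      rw [h2 x hx]
      exact hne
  have h3 : ∑ v, D (Sum.inl v) = ∑ e, (f.slR e 0 - f.slL e 1) := by
    have h4 : ∀ v, D (Sum.inl v) = ∑ e, ((if G.src e = v then f.slR e 0 else 0) +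
        (if G.tgt e = v then - f.slL e 1 else 0)) := fun v => hD _
    rw [Finset.sum_congr rfl fun v _ => h4 v, Finset.sum_comm]
    refine Finset.sum_congr rfl fun e _ => ?_
    rw [Finset.sum_add_distrib, Finset.sum_ite_eq, Finset.sum_ite_eq]
    simp
    ring
  rw [h3, Finset.sum_congr rfl fun e _ => h1 e, ← Finset.sum_add_distrib]
  refine Finset.sum_eq_zero fun e _ => ?_
  ring

omit [Fintype V] [Fintype E] [DecidableEq V] in
theorem mdeg_add (D D' : Pt V E →₀ ℤ) : mdeg (D + D') = mdeg D + mdeg D' := by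
  classical
  unfold mdeg
  exact Finsupp.sum_add_index (fun _ _ => rfl) (fun _ _ _ _ => rfl)

variable [DecidableEq E]

/-- Rounding down: the gonality of the graph is at most twice that of the metric graph. -/
theorem dgon_le (G : MGraph V E) (hG : G.Connected) : G.dgon ≤ 2 * G.mdgon := by
  classical
  obtain ⟨⟨v0⟩, -⟩ := hG
  obtain ⟨D, hdeg, hr⟩ := Nat.sInf_mem G.mdgonSet_nonempty
  change mdeg D = (G.mdgon : ℤ) at hdeg
  rw [mrankOne_iff] at hr
  obtain ⟨f0, ⟨D0, hD0⟩, h0, -⟩ := hr (Sum.inl v0)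
  set D2 : Pt V E →₀ ℤ := D + D0 with hD2
  have hdeg2 : mdeg D2 = (G.mdgon : ℤ) := by
    rw [hD2, mdeg_add, mdeg_div G f0 D0 hD0, hdeg, add_zero]
  have hD2' : ∀ q, D2 q = D q + f0.div q := by
    intro q
    rw [hD2, Finsupp.add_apply, hD0]
  have hpos : ∀ q, 0 ≤ D2 q := fun q => by rw [hD2']; exact h0 q
  set DG : V → ℤ := fun v => D2 (Sum.inl v) + ∑ e, ((if G.src e = v then inner D2 e else 0) +
    (if G.tgt e = v then inner D2 e else 0)) with hDG
  have hsum : ∑ v, DG v ≤ 2 * (G.mdgon : ℤ) := by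
    rw [← hdeg2, mdeg_eq, ← sum_inner, hDG, Finset.sum_add_distrib, Finset.sum_comm]
    have h1 : ∀ e, ∑ v, ((if G.src e = v then inner D2 e else 0) +
        (if G.tgt e = v then inner D2 e else 0)) = 2 * inner D2 e := by
      intro e
      rw [Finset.sum_add_distrib, Finset.sum_ite_eq, Finset.sum_ite_eq]
      simp
      ring
    rw [Finset.sum_congr rfl fun e _ => h1 e, ← Finset.mul_sum]
    have h2 : 0 ≤ ∑ v, D2 (Sum.inl v) := Finset.sum_nonneg fun v _ => hpos _
    linarith
  have hDGpos : ∀ v, 0 ≤ DG v := by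
    intro v
    refine add_nonneg (hpos _) (Finset.sum_nonneg fun e _ => ?_)
    have := inner_nonneg D2 hpos e
    split_ifs <;> linarith
  have hrank : G.RankOne DG := by
    rw [rankOne_iff]
    intro v
    obtain ⟨f, -, h1, h2⟩ := hr (Sum.inl v)
    set F : RatFun G := f.add f0.neg with hF
    have hFd : ∀ q, D2 q + F.div q = D q + f.div q := by
      intro q
      rw [hF, RatFun.div_add, RatFun.div_neg, hD2']
      ring
    refine ⟨fun w => ⌊F.val w⌋, ?_⟩
    have key : ∀ w, D2 (Sum.inl w) + F.div (Sum.inl w) ≤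
        DG w + G.fire (fun w => ⌊F.val w⌋) w := by
      intro w
      simp only [hDG, RatFun.div, fire]
      rw [add_assoc, ← Finset.sum_add_distrib]
      refine add_le_add le_rfl (Finset.sum_le_sum fun e _ => ?_)
      obtain ⟨-, b1, b2⟩ := (F.pl e).slope_bound (F.slR e) (F.slL e) (chipSet D2 e) (onEdge D2 e)
        (by
          intro x
          unfold onEdge
          split_ifs
          · exact hpos _
          · exact le_rfl) (mem_chipSet D2 e) (F.slR_spec e) (F.slL_spec e)
        (by
          intro x hx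
          unfold onEdge
          rw [dif_pos (show 0 < x ∧ x < 1 from hx)]
          have h3 := h1 (Sum.inr (e, ⟨x, hx⟩))
          rw [← hFd] at h3
          simp only [RatFun.div] at h3
          linarith)
      rw [between_eq, F.fn_zero, F.fn_one] at b1 b2
      have c1 : F.slR e 0 ≤ inner D2 e + (⌊F.val (G.tgt e)⌋ - ⌊F.val (G.src e)⌋) := by
        have h4 : F.val (G.src e) + ((F.slR e 0 - inner D2 e : ℤ) : ℝ) ≤ F.val (G.tgt e) := by
          linarith
        have h5 := Int.floor_le_floor h4
        rw [Int.floor_add_intCast] at h5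
        linarith
      have c2 : - F.slL e 1 ≤ inner D2 e + (⌊F.val (G.src e)⌋ - ⌊F.val (G.tgt e)⌋) := by
        have h4 : F.val (G.tgt e) ≤ F.val (G.src e) + ((F.slL e 1 + inner D2 e : ℤ) : ℝ) := by
          linarith
        have h5 := Int.floor_le_floor h4
        rw [Int.floor_add_intCast] at h5
        linarith
      by_cases hs : G.src e = w
      · by_cases ht : G.tgt e = w
        · exact absurd (hs.trans ht.symm) (G.loopless e)
        · simp only [hs, ht, if_true, if_false] at c1 ⊢
          linarith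
      · by_cases ht : G.tgt e = w
        · simp only [hs, ht, if_true, if_false] at c2 ⊢
          linarith
        · simp only [hs, ht, if_false]
          linarith
    refine ⟨fun w => ?_, ?_⟩
    · refine le_trans ?_ (key w)
      rw [hFd]
      exact h1 _
    · refine le_trans ?_ (key v)
      rw [hFd]
      exact h2
  have hnn : 0 ≤ ∑ v, DG v := Finset.sum_nonneg fun v _ => hDGpos v
  have : G.dgon ≤ (∑ v, DG v).toNat := by
    refine Nat.sInf_le ⟨DG, ?_, hrank⟩
    rw [Int.toNat_of_nonneg hnn]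
  omega

end MGraph

end Q122.Gon
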