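import Pool.Agent.Q122.Gon.Cluster
import Pool.Agent.Q122.Gon.MUpper

set_option autoImplicit false
set_option synthInstance.maxSize 4000

/-!
# Divisors of rank at least one on the metric graphs of cluster graphs
-/

namespace Q122.Gon

namespace CData

variable {Cl C S H : Type}

/-- position of the chip of a long edge -/
def pM (X : CData Cl C S H) (P : H → ℝ) (h : Cl → ℝ) (e : H) : ℝ :=
  P e + h (X.hd e true) - h (X.hd e false)

/-- position of the bundle of chips of a spoke -/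
def wM (X : CData Cl C S H) (h : Cl → ℝ) (s : S) : ℝ :=
  h (X.st s) - h (X.cc (X.sc s))

/-- admissible potentials -/
structure MValid (X : CData Cl C S H) (P : H → ℝ) (h : Cl → ℝ) : Prop where
  e0 : ∀ e, 0 ≤ X.pM P h e
  e1 : ∀ e, X.pM P h e ≤ 1
  s0 : ∀ s, 0 ≤ X.wM h s
  s1 : ∀ s, X.wM h s ≤ 1
  one : ∀ s s', X.sc s = X.sc s' → 0 < X.wM h s → 0 < X.wM h s' → s = s'

/-- cluster of a vertex -/
def cluM (X : CData Cl C S H) : CV Cl C S H → Cl :=
  Sum.elim id (Sum.elim X.cc (Sum.elim X.st (fun q => X.hd q.1 q.2)))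

variable [Fintype Cl] [Fintype C] [Fintype S] [Fintype H]
  [DecidableEq Cl] [DecidableEq C] [DecidableEq S] [DecidableEq H]

/-- points of the metric graph -/
abbrev MP (Cl C S H : Type) (μ M : ℕ) : Type := Pt (CV Cl C S H) (CE C S H μ M)

/-- The divisor that belongs to a potential. -/
noncomputable def dvM (X : CData Cl C S H) (μ M : ℕ) (P : H → ℝ) (h : Cl → ℝ) :
    MP Cl C S H μ M →₀ ℤ :=
  (∑ c : Cl, Finsupp.single (Sum.inl (Sum.inl c)) 1) +
  (∑ s : S, Finsupp.single (Sum.inl (Sum.inr (Sum.inr (Sum.inl s)))) 1) +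
  (μ : ℤ) • (∑ c : C, Finsupp.single (Sum.inl (Sum.inr (Sum.inl c))) 1) +
  (∑ e : H, Finsupp.single (mpt (X.graph μ M) (Sum.inl (Sum.inr e)) (X.pM P h e)) 1) +
  ∑ q : S × Fin μ, (Finsupp.single (mpt (X.graph μ M) (Sum.inl (Sum.inl q)) (X.wM h q.1)) 1 -
    Finsupp.single (Sum.inl (Sum.inr (Sum.inl (X.sc q.1)))) 1)

theorem dvM_apply (X : CData Cl C S H) (μ M : ℕ) (P : H → ℝ) (h : Cl → ℝ)
    (w : MP Cl C S H μ M) : X.dvM μ M P h w =
    (∑ c : Cl, mind (Sum.inl (Sum.inl c)) w) +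
    (∑ s : S, mind (Sum.inl (Sum.inr (Sum.inr (Sum.inl s)))) w) +
    (μ : ℤ) * (∑ c : C, mind (Sum.inl (Sum.inr (Sum.inl c))) w) +
    (∑ e : H, mind (mpt (X.graph μ M) (Sum.inl (Sum.inr e)) (X.pM P h e)) w) +
    ∑ q : S × Fin μ, (mind (mpt (X.graph μ M) (Sum.inl (Sum.inl q)) (X.wM h q.1)) w -
      mind (Sum.inl (Sum.inr (Sum.inl (X.sc q.1)))) w) := by
  unfold dvM mind
  simp only [Finsupp.add_apply, Finsupp.finsetSum_apply, Finsupp.smul_apply, smul_eq_mul,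
    Finsupp.sub_apply]

omit [Fintype Cl] [Fintype C] [Fintype S] [Fintype H]
  [DecidableEq Cl] [DecidableEq C] [DecidableEq S] [DecidableEq H] in
theorem mdeg_single {V E : Type} (q : Pt V E) (a : ℤ) : MGraph.mdeg (Finsupp.single q a) = a := by
  unfold MGraph.mdeg
  rw [Finsupp.sum_single_index rfl]

omit [Fintype Cl] [Fintype C] [Fintype S] [Fintype H]
  [DecidableEq Cl] [DecidableEq C] [DecidableEq S] [DecidableEq H] in
theorem mdeg_zero {V E : Type} : MGraph.mdeg (0 : Pt V E →₀ ℤ) = 0 := by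
  unfold MGraph.mdeg
  rw [Finsupp.sum_zero_index]

omit [Fintype Cl] [Fintype C] [Fintype S] [Fintype H]
  [DecidableEq Cl] [DecidableEq C] [DecidableEq S] [DecidableEq H] in
/-- the degree as an additive map -/
theorem mdeg_hom {V E : Type} : ∃ φ : (Pt V E →₀ ℤ) →+ ℤ, ∀ D, φ D = MGraph.mdeg D :=
  ⟨{ toFun := MGraph.mdeg, map_zero' := mdeg_zero, map_add' := MGraph.mdeg_add }, fun _ => rfl⟩

theorem dvM_deg (X : CData Cl C S H) (μ M : ℕ) (P : H → ℝ) (h : Cl → ℝ) :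
    MGraph.mdeg (X.dvM μ M P h) = Fintype.card Cl + Fintype.card S + μ * Fintype.card C +
      Fintype.card H := by
  obtain ⟨φ, hφ⟩ := mdeg_hom (V := CV Cl C S H) (E := CE C S H μ M)
  rw [← hφ]
  unfold dvM
  rw [map_add, map_add, map_add, map_add, map_zsmul, map_sum, map_sum, map_sum, map_sum, map_sum]
  have h5 : ∑ q : S × Fin μ, φ (Finsupp.single (mpt (X.graph μ M) (Sum.inl (Sum.inl q))
      (X.wM h q.1)) 1 - Finsupp.single (Sum.inl (Sum.inr (Sum.inl (X.sc q.1)))) 1) = 0 := by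
    refine Finset.sum_eq_zero fun q _ => ?_
    rw [map_sub, hφ, hφ, mdeg_single, mdeg_single, sub_self]
  rw [h5]
  simp only [hφ, mdeg_single]
  simp

/-- Divisors of two admissible potentials are equivalent. -/
theorem dvM_equiv (X : CData Cl C S H) (μ M : ℕ) (P : H → ℝ)
    (h h' : Cl → ℝ) (hv : X.MValid P h) (hv' : X.MValid P h') :
    ∃ F : RatFun (X.graph μ M), ∀ w, X.dvM μ M P h' w = X.dvM μ M P h w + F.div w := by
  obtain ⟨F, key⟩ := mslide (X.graph μ M) (I := H ⊕ S × Fin μ)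
    (Sum.elim (fun e => Sum.inl (Sum.inr e)) (fun q => Sum.inl (Sum.inl q)))
    (Sum.elim (fun e => X.pM P h e) (fun q => X.wM h q.1))
    (Sum.elim (fun e => X.pM P h' e) (fun q => X.wM h' q.1))
    (fun v => h' (X.cluM v) * (-1) + h (X.cluM v))
    (by
      rintro (e | q)
      · exact ⟨hv.e0 e, hv.e1 e⟩
      · exact ⟨hv.s0 q.1, hv.s1 q.1⟩)
    (by
      rintro (e | q)
      · exact ⟨hv'.e0 e, hv'.e1 e⟩
      · exact ⟨hv'.s0 q.1, hv'.s1 q.1⟩)
    (by
      intro e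
      rw [Fintype.sum_sum_type]
      rcases e with (q | e) | ⟨c | s | q, i⟩
      · simp only [Sum.elim_inl, Sum.elim_inr, Sum.inl.injEq, reduceCtorEq, if_false,
          Finset.sum_const_zero, zero_add, Finset.sum_ite_eq', Finset.mem_univ, if_true]
        simp only [graph, cluM, Sum.elim_inl, Sum.elim_inr, wM]
        ring
      · simp only [Sum.elim_inl, Sum.elim_inr, Sum.inl.injEq, Sum.inr.injEq, reduceCtorEq,
          if_false, Finset.sum_const_zero, add_zero, Finset.sum_ite_eq', Finset.mem_univ, if_true]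
        simp only [graph, cluM, Sum.elim_inr, pM]
        ring
      · simp only [Sum.elim_inl, Sum.elim_inr, reduceCtorEq, if_false, Finset.sum_const_zero,
          add_zero, graph, cluM, id]
        ring
      · simp only [Sum.elim_inl, Sum.elim_inr, reduceCtorEq, if_false, Finset.sum_const_zero,
          add_zero, graph, cluM, id]
        ring
      · simp only [Sum.elim_inl, Sum.elim_inr, reduceCtorEq, if_false, Finset.sum_const_zero,
          add_zero, graph, cluM, id]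
        ring)
  refine ⟨F, fun w => ?_⟩
  rw [key w, Fintype.sum_sum_type, dvM_apply, dvM_apply]
  simp only [Sum.elim_inl, Sum.elim_inr, Finset.sum_sub_distrib]
  ring

theorem spoke_geM (X : CData Cl C S H) (μ M : ℕ)
    (h : Cl → ℝ) (hs0 : ∀ s, 0 ≤ X.wM h s) (w : MP Cl C S H μ M) :
    - ((μ : ℤ) * ∑ s : S, (if 0 < X.wM h s then
      mind (Sum.inl (Sum.inr (Sum.inl (X.sc s)))) w else 0)) ≤
      ∑ q : S × Fin μ, (mind (mpt (X.graph μ M) (Sum.inl (Sum.inl q))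
        (X.wM h q.1)) w - mind (Sum.inl (Sum.inr (Sum.inl (X.sc q.1)))) w) := by
  classical
  have h1 : ∀ q : S × Fin μ, - (if 0 < X.wM h q.1 then
      mind (Sum.inl (Sum.inr (Sum.inl (X.sc q.1)))) w else 0) ≤
      (mind (mpt (X.graph μ M) (Sum.inl (Sum.inl q)) (X.wM h q.1)) w -
      mind (Sum.inl (Sum.inr (Sum.inl (X.sc q.1)))) w) := by
    intro q
    by_cases h2 : 0 < X.wM h q.1
    · simp only [h2, if_true]
      have := mind_nonneg (mpt (X.graph μ M) (Sum.inl (Sum.inl q)) (X.wM h q.1)) w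
      linarith
    · have h3 := hs0 q.1
      have h4 : X.wM h q.1 = 0 := le_antisymm (not_lt.mp h2) h3
      rw [h4, mpt_zero]
      simp [graph]
  refine le_trans ?_ (Finset.sum_le_sum fun q _ => h1 q)
  rw [Finset.sum_neg_distrib, neg_le_neg_iff, Fintype.sum_prod_type]
  have h0 : ∀ s : S, ∑ m : Fin μ, (if 0 < X.wM h (s, m).1 then
      mind (Sum.inl (Sum.inr (Sum.inl (X.sc (s, m).1)))) w else 0) =
      (μ : ℤ) * (if 0 < X.wM h s then mind (Sum.inl (Sum.inr (Sum.inl (X.sc s)))) w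
        else 0) := by
    intro s
    by_cases hs : 0 < X.wM h s <;> simp [hs]
  rw [Finset.sum_congr rfl fun s _ => h0 s, ← Finset.mul_sum]

theorem sum_mind_inj {α V E : Type} [Fintype α] [DecidableEq α] (g : α → Pt V E)
    (hg : Function.Injective g) (a : α) : ∑ b, mind (g b) (g a) = 1 := by
  rw [Finset.sum_eq_single a]
  · exact mind_self _
  · intro b _ hb
    exact mind_ne fun h => hb (hg h)
  · intro h
    exact absurd (Finset.mem_univ a) h

theorem centre_nonnegM (X : CData Cl C S H) (μ M : ℕ) (P : H → ℝ)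
    (h : Cl → ℝ) (hv : X.MValid P h) (w : MP Cl C S H μ M) :
    0 ≤ (μ : ℤ) * (∑ c : C, mind (Sum.inl (Sum.inr (Sum.inl c))) w) +
      ∑ q : S × Fin μ, (mind (mpt (X.graph μ M) (Sum.inl (Sum.inl q))
        (X.wM h q.1)) w - mind (Sum.inl (Sum.inr (Sum.inl (X.sc q.1)))) w) := by
  classical
  have h0 := X.spoke_geM μ M h hv.s0 w
  have h1 : (μ : ℤ) * ∑ s : S, (if 0 < X.wM h s then
      mind (Sum.inl (Sum.inr (Sum.inl (X.sc s)))) w else 0) ≤
      (μ : ℤ) * (∑ c : C, mind (Sum.inl (Sum.inr (Sum.inl c))) w) := by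
    refine mul_le_mul_of_nonneg_left ?_ (by positivity)
    by_cases hw : ∃ c : C, (Sum.inl (Sum.inr (Sum.inl c)) : MP Cl C S H μ M) = w
    · obtain ⟨c, rfl⟩ := hw
      have h6 : ∑ c' : C, mind (Sum.inl (Sum.inr (Sum.inl c')) : MP Cl C S H μ M)
          (Sum.inl (Sum.inr (Sum.inl c))) = 1 :=
        sum_mind_inj (fun c' : C => (Sum.inl (Sum.inr (Sum.inl c')) : MP Cl C S H μ M))
          (fun a b hab => by simpa using hab) c
      rw [h6]
      have h9 : ∀ s : S, (if 0 < X.wM h s then mind (Sum.inl (Sum.inr (Sum.inl (X.sc s))) :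
          MP Cl C S H μ M) (Sum.inl (Sum.inr (Sum.inl c))) else 0) =
          if 0 < X.wM h s ∧ X.sc s = c then (1 : ℤ) else 0 := by
        intro s
        by_cases h7 : 0 < X.wM h s <;> by_cases h8 : X.sc s = c
        · rw [if_pos h7, if_pos ⟨h7, h8⟩, h8, mind_self]
        · rw [if_pos h7, if_neg (fun h => h8 h.2), mind_ne (by simpa using h8)]
        · rw [if_neg h7, if_neg (fun h => h7 h.1)]
        · rw [if_neg h7, if_neg (fun h => h7 h.1)]
      rw [Finset.sum_congr rfl fun s _ => h9 s, ← Finset.sum_filter]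
      simp only [Finset.sum_const, nsmul_eq_mul, mul_one]
      have h10 : (Finset.univ.filter (fun s => 0 < X.wM h s ∧ X.sc s = c)).card ≤ 1 := by
        rw [Finset.card_le_one]
        intro a ha b hb
        simp only [Finset.mem_filter, Finset.mem_univ, true_and] at ha hb
        exact hv.one a b (ha.2.trans hb.2.symm) ha.1 hb.1
      exact_mod_cast h10
    · have h7 : ∀ s : S, (if 0 < X.wM h s then
          mind (Sum.inl (Sum.inr (Sum.inl (X.sc s)))) w else 0) = 0 := by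
        intro s
        rw [mind_ne (fun h8 => hw ⟨_, h8⟩)]
        simp
      rw [Finset.sum_congr rfl fun s _ => h7 s]
      simp only [Finset.sum_const_zero]
      exact Finset.sum_nonneg fun _ _ => mind_nonneg _ _
  linarith

omit [DecidableEq Cl] [DecidableEq C] [DecidableEq S] [DecidableEq H] [Fintype Cl] [Fintype C]
  [Fintype S] [Fintype H] in
theorem one_le_sum_mind {α V E : Type} [Fintype α] (g : α → Pt V E) (a : α) :
    1 ≤ ∑ b, mind (g b) (g a) := by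
  have := Finset.single_le_sum (f := fun b => mind (g b) (g a))
    (fun _ _ => mind_nonneg _ _) (Finset.mem_univ a)
  rw [mind_self] at this
  exact this

section

variable (X : CData Cl C S H) (μ M : ℕ) (P : H → ℝ)
    (h : Cl → ℝ) (hv : X.MValid P h)

include hv

theorem dvM_ge (w : MP Cl C S H μ M) :
    (∑ c : Cl, mind (Sum.inl (Sum.inl c)) w) +
    (∑ s : S, mind (Sum.inl (Sum.inr (Sum.inr (Sum.inl s)))) w) +
    (∑ e : H, mind (mpt (X.graph μ M) (Sum.inl (Sum.inr e)) (X.pM P h e)) w) ≤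
    X.dvM μ M P h w := by
  have := X.centre_nonnegM μ M P h hv w
  rw [dvM_apply]
  linarith

theorem dvM_nonneg (w : MP Cl C S H μ M) : 0 ≤ X.dvM μ M P h w := by
  refine le_trans ?_ (X.dvM_ge μ M P h hv w)
  have t1 : 0 ≤ ∑ c : Cl, mind (Sum.inl (Sum.inl c)) w :=
    Finset.sum_nonneg fun _ _ => mind_nonneg _ _
  have t2 : 0 ≤ ∑ s : S, mind (Sum.inl (Sum.inr (Sum.inr (Sum.inl s)))) w :=
    Finset.sum_nonneg fun _ _ => mind_nonneg _ _
  have t4 : 0 ≤ ∑ e : H, mind (mpt (X.graph μ M) (Sum.inl (Sum.inr e)) (X.pM P h e)) w :=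
    Finset.sum_nonneg fun _ _ => mind_nonneg _ _
  linarith

theorem dvM_hub (c : Cl) : 1 ≤ X.dvM μ M P h (Sum.inl (Sum.inl c)) := by
  refine le_trans ?_ (X.dvM_ge μ M P h hv _)
  have t1 := one_le_sum_mind (fun c' : Cl => (Sum.inl (Sum.inl c') : MP Cl C S H μ M)) c
  have t2 : 0 ≤ ∑ s : S, mind (Sum.inl (Sum.inr (Sum.inr (Sum.inl s))) : MP Cl C S H μ M)
      (Sum.inl (Sum.inl c)) := Finset.sum_nonneg fun _ _ => mind_nonneg _ _
  have t4 : 0 ≤ ∑ e : H, mind (mpt (X.graph μ M) (Sum.inl (Sum.inr e)) (X.pM P h e))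
      (Sum.inl (Sum.inl c)) := Finset.sum_nonneg fun _ _ => mind_nonneg _ _
  linarith

theorem dvM_u (s : S) : 1 ≤ X.dvM μ M P h (Sum.inl (Sum.inr (Sum.inr (Sum.inl s)))) := by
  refine le_trans ?_ (X.dvM_ge μ M P h hv _)
  have t1 : 0 ≤ ∑ c' : Cl, mind (Sum.inl (Sum.inl c') : MP Cl C S H μ M)
      (Sum.inl (Sum.inr (Sum.inr (Sum.inl s)))) := Finset.sum_nonneg fun _ _ => mind_nonneg _ _
  have t2 := one_le_sum_mind
    (fun s' : S => (Sum.inl (Sum.inr (Sum.inr (Sum.inl s'))) : MP Cl C S H μ M)) s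
  have t4 : 0 ≤ ∑ e : H, mind (mpt (X.graph μ M) (Sum.inl (Sum.inr e)) (X.pM P h e))
      (Sum.inl (Sum.inr (Sum.inr (Sum.inl s)))) := Finset.sum_nonneg fun _ _ => mind_nonneg _ _
  linarith

theorem dvM_pt (e : H) :
    1 ≤ X.dvM μ M P h (mpt (X.graph μ M) (Sum.inl (Sum.inr e)) (X.pM P h e)) := by
  refine le_trans ?_ (X.dvM_ge μ M P h hv _)
  have t1 : 0 ≤ ∑ c' : Cl, mind (Sum.inl (Sum.inl c') : MP Cl C S H μ M)
      (mpt (X.graph μ M) (Sum.inl (Sum.inr e)) (X.pM P h e)) :=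
    Finset.sum_nonneg fun _ _ => mind_nonneg _ _
  have t2 : 0 ≤ ∑ s : S, mind (Sum.inl (Sum.inr (Sum.inr (Sum.inl s))) : MP Cl C S H μ M)
      (mpt (X.graph μ M) (Sum.inl (Sum.inr e)) (X.pM P h e)) :=
    Finset.sum_nonneg fun _ _ => mind_nonneg _ _
  have t4 := one_le_sum_mind
    (fun e' : H => mpt (X.graph μ M) (Sum.inl (Sum.inr e')) (X.pM P h e')) e
  linarith

theorem dvM_z (c : C) (hc : ∀ s, X.sc s = c → X.wM h s = 0) (hμ : 1 ≤ μ) :
    1 ≤ X.dvM μ M P h (Sum.inl (Sum.inr (Sum.inl c))) := by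
  classical
  have h0 := X.spoke_geM μ M h hv.s0 (Sum.inl (Sum.inr (Sum.inl c)))
  have h1 : ∑ s : S, (if 0 < X.wM h s then
      mind (Sum.inl (Sum.inr (Sum.inl (X.sc s))) : MP Cl C S H μ M)
        (Sum.inl (Sum.inr (Sum.inl c))) else 0) = 0 := by
    refine Finset.sum_eq_zero fun s _ => ?_
    by_cases hs : X.sc s = c
    · rw [hc s hs]
      simp
    · rw [mind_ne (fun h8 => hs (by simpa using h8))]
      simp
  rw [h1] at h0
  have t1 : 0 ≤ ∑ c' : Cl, mind (Sum.inl (Sum.inl c') : MP Cl C S H μ M)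
      (Sum.inl (Sum.inr (Sum.inl c))) := Finset.sum_nonneg fun _ _ => mind_nonneg _ _
  have t2 : 0 ≤ ∑ s : S, mind (Sum.inl (Sum.inr (Sum.inr (Sum.inl s))) : MP Cl C S H μ M)
      (Sum.inl (Sum.inr (Sum.inl c))) := Finset.sum_nonneg fun _ _ => mind_nonneg _ _
  have t4 : 0 ≤ ∑ e : H, mind (mpt (X.graph μ M) (Sum.inl (Sum.inr e)) (X.pM P h e))
      (Sum.inl (Sum.inr (Sum.inl c))) := Finset.sum_nonneg fun _ _ => mind_nonneg _ _
  have h6 : 1 ≤ ∑ c' : C, mind (Sum.inl (Sum.inr (Sum.inl c')) : MP Cl C S H μ M)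
      (Sum.inl (Sum.inr (Sum.inl c))) :=
    one_le_sum_mind (fun c' : C => (Sum.inl (Sum.inr (Sum.inl c')) : MP Cl C S H μ M)) c
  have h7 : (1 : ℤ) ≤ μ := by exact_mod_cast hμ
  rw [dvM_apply]
  nlinarith

end

/-- The gonality of the metric graph of a cluster graph. -/
theorem upperM (X : CData Cl C S H) (μ M : ℕ) (hμ : 1 ≤ μ) (P : H → ℝ)
    (h0 : Cl → ℝ) (hv0 : X.MValid P h0)
    (hE : ∀ e, ∀ x ∈ Set.Icc (0 : ℝ) 1, ∃ h, X.MValid P h ∧ X.pM P h e = x)
    (hC : ∀ c, ∃ h, X.MValid P h ∧ ∀ s, X.sc s = c → X.wM h s = 0) :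
    Fintype.card Cl + Fintype.card S + μ * Fintype.card C + Fintype.card H ∈
      (X.graph μ M).mdgonSet := by
  classical
  refine ⟨X.dvM μ M P h0, ?_, ?_⟩
  · rw [X.dvM_deg]
    push_cast
    ring
  rw [MGraph.mrankOne_iff]
  have reach : ∀ h, X.MValid P h → ∀ v, (∃ f : RatFun (X.graph μ M),
      (∃ D' : MP Cl C S H μ M →₀ ℤ, ∀ w, D' w = f.div w) ∧
      (∀ w, 0 ≤ X.dvM μ M P h w + f.div w) ∧ 1 ≤ X.dvM μ M P h v + f.div v) →
      ∃ f : RatFun (X.graph μ M), (∃ D' : MP Cl C S H μ M →₀ ℤ, ∀ w, D' w = f.div w) ∧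
      (∀ w, 0 ≤ X.dvM μ M P h0 w + f.div w) ∧ 1 ≤ X.dvM μ M P h0 v + f.div v := by
    rintro h hv v ⟨f, ⟨D', hD'⟩, h1, h2⟩
    obtain ⟨F, h3⟩ := X.dvM_equiv μ M P h0 h hv0 hv
    refine ⟨F.add f, ⟨X.dvM μ M P h - X.dvM μ M P h0 + D', fun w => ?_⟩, fun w => ?_, ?_⟩
    · rw [RatFun.div_add, Finsupp.add_apply, Finsupp.sub_apply, hD', h3 w]
      ring
    · rw [RatFun.div_add, ← add_assoc, ← h3]
      exact h1 w
    · rw [RatFun.div_add, ← add_assoc, ← h3]
      exact h2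
  have reach0 : ∀ h, X.MValid P h → ∀ v, 1 ≤ X.dvM μ M P h v →
      ∃ f : RatFun (X.graph μ M), (∃ D' : MP Cl C S H μ M →₀ ℤ, ∀ w, D' w = f.div w) ∧
      (∀ w, 0 ≤ X.dvM μ M P h0 w + f.div w) ∧ 1 ≤ X.dvM μ M P h0 v + f.div v := by
    intro h hv v hv1
    refine reach h hv v ⟨RatFun.zero _, ⟨0, fun w => by rw [RatFun.div_zero]; rfl⟩,
      fun w => ?_, ?_⟩
    · rw [RatFun.div_zero, add_zero]
      exact X.dvM_nonneg μ M P h hv w
    · rw [RatFun.div_zero, add_zero]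
      exact hv1
  have hA : ∀ e b, ∃ h, X.MValid P h ∧
      1 ≤ X.dvM μ M P h (Sum.inl (Sum.inr (Sum.inr (Sum.inr (e, b))))) := by
    intro e b
    cases b
    · obtain ⟨h, hv, hp⟩ := hE e 0 ⟨le_rfl, zero_le_one⟩
      refine ⟨h, hv, ?_⟩
      have := X.dvM_pt μ M P h hv e
      rwa [hp, mpt_zero] at this
    · obtain ⟨h, hv, hp⟩ := hE e 1 ⟨zero_le_one, le_rfl⟩
      refine ⟨h, hv, ?_⟩
      have := X.dvM_pt μ M P h hv e
      rwa [hp, mpt_one] at this
  have hbump : ∀ e (x : Set.Ioo (0 : ℝ) 1), ∀ h, X.MValid P h →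
      1 ≤ X.dvM μ M P h (Sum.inl ((X.graph μ M).src e)) →
      1 ≤ X.dvM μ M P h (Sum.inl ((X.graph μ M).tgt e)) →
      ∃ f : RatFun (X.graph μ M), (∃ D' : MP Cl C S H μ M →₀ ℤ, ∀ w, D' w = f.div w) ∧
      (∀ w, 0 ≤ X.dvM μ M P h0 w + f.div w) ∧
      1 ≤ X.dvM μ M P h0 (Sum.inr (e, x)) + f.div (Sum.inr (e, x)) := by
    intro e x h hv h1 h2
    refine reach h hv _ ?_
    have := mbump (X.graph μ M) (X.dvM μ M P h) (X.dvM_nonneg μ M P h hv) e h1 h2
      x.1 ⟨x.2.1.le, x.2.2.le⟩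
    rwa [mpt_mem] at this
  rintro ((c | c | s | ⟨e, b⟩) | ⟨(⟨s, m⟩ | e) | ⟨c | s | ⟨e, b⟩, m⟩, x⟩)
  · exact reach0 h0 hv0 _ (X.dvM_hub μ M P h0 hv0 c)
  · obtain ⟨h, hv, hc⟩ := hC c
    exact reach0 h hv _ (X.dvM_z μ M P h hv c hc hμ)
  · exact reach0 h0 hv0 _ (X.dvM_u μ M P h0 hv0 s)
  · obtain ⟨h, hv, h1⟩ := hA e b
    exact reach0 h hv _ h1
  · obtain ⟨h, hv, hc⟩ := hC (X.sc s)
    exact hbump _ x h hv (X.dvM_z μ M P h hv _ hc hμ) (X.dvM_u μ M P h hv s)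
  · obtain ⟨h, hv, hp⟩ := hE e x.1 ⟨x.2.1.le, x.2.2.le⟩
    have := X.dvM_pt μ M P h hv e
    rw [hp, mpt_mem] at this
    exact reach0 h hv _ this
  · obtain ⟨h, hv, hc⟩ := hC c
    exact hbump _ x h hv (X.dvM_z μ M P h hv _ hc hμ) (X.dvM_hub μ M P h hv _)
  · exact hbump _ x h0 hv0 (X.dvM_u μ M P h0 hv0 _) (X.dvM_hub μ M P h0 hv0 _)
  · obtain ⟨h, hv, h1⟩ := hA e b
    exact hbump _ x h hv h1 (X.dvM_hub μ M P h hv _)

end CData

end Q122.Gon
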