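import Pool.Agent.Q122.Gon.Basic

set_option autoImplicit false

/-!
# Regular subdivisions and gonality
-/

namespace Q122.Gon

namespace MGraph

variable {V E : Type}

/-- The `i`-th vertex (`0 ≤ i ≤ k`) of the path with `k` edges that replaces the edge `e`: the
vertex number `0` is `src e`, the vertices number `1, ..., k - 1` are new, and the vertex number
`k` is `tgt e`. -/
def subPt (G : MGraph V E) (k : ℕ) (e : E) (i : ℕ) : V ⊕ E × Fin (k - 1) :=
  if i = 0 then Sum.inl (G.src e)
  else if h : i - 1 < k - 1 then Sum.inr (e, ⟨i - 1, h⟩) else Sum.inl (G.tgt e)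

/-- The graph obtained from `G` by replacing every edge by a path of `k` edges. -/
def subdiv (G : MGraph V E) (k : ℕ) : MGraph (V ⊕ E × Fin (k - 1)) (E × Fin k) where
  src := fun p => G.subPt k p.1 p.2
  tgt := fun p => G.subPt k p.1 (p.2 + 1)
  loopless := by
    rintro ⟨e, i, hi⟩
    have hl := G.loopless e
    simp only [subPt]
    by_cases h0 : i = 0
    · subst h0
      by_cases h1 : 0 < k - 1
      · simp [h1]
      · simp [h1, hl]
    · have h1 : i - 1 < k - 1 := by omega
      by_cases h2 : i < k - 1
      · simp only [h0, h1, if_false, dif_pos, Nat.add_eq_zero_iff, one_ne_zero, and_false,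
          Nat.add_sub_cancel, h2]
        intro h
        simp only [Sum.inr.injEq, Prod.mk.injEq, Fin.mk.injEq, true_and] at h
        omega
      · simp [h0, h1, h2]

variable [Fintype V] [Fintype E] [DecidableEq V]

/-- The degrees of the effective divisors of rank at least one. -/
def gonSet (G : MGraph V E) : Set ℕ :=
  {d | ∃ D : V → ℤ, (∀ v, 0 ≤ D v) ∧ ∑ v, D v = (d : ℤ) ∧ G.RankOne D}

/-- The (divisorial) gonality: the minimum degree of an effective divisor of rank at least one. -/
noncomputable def gon (G : MGraph V E) : ℕ := sInf G.gonSet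

theorem gonSet_nonempty (G : MGraph V E) : G.gonSet.Nonempty := by
  refine ⟨Fintype.card V, fun _ => 1, fun _ => by norm_num, by simp, ?_⟩
  rw [rankOne_iff]
  intro v
  refine ⟨fun _ => 0, fun w => ?_, ?_⟩ <;> simp [fire]

end MGraph

section slide

/-- indicator of a point -/
def ind {β : Type} [DecidableEq β] (a b : β) : ℤ := if a = b then 1 else 0

theorem ind_nonneg {β : Type} [DecidableEq β] (a b : β) : 0 ≤ ind a b := by
  unfold ind; split_ifs <;> norm_num

theorem ind_self {β : Type} [DecidableEq β] (a : β) : ind a a = 1 := by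
  simp [ind]

theorem ind_ne {β : Type} [DecidableEq β] {a b : β} (h : a ≠ b) : ind a b = 0 := by
  simp [ind, h]

theorem sum_ind {α β : Type} [Fintype α] [Fintype β] [DecidableEq β] (g : α → β) :
    ∑ w, ∑ a, ind (g a) w = Fintype.card α := by
  rw [Finset.sum_comm]
  simp [ind]

theorem tele (δ : ℕ → ℤ) (p k : ℕ) (hp : p ≤ k) :
    ∑ m ∈ Finset.range k, (δ m - δ (m + 1)) * (if p ≤ m then 1 else 0) = δ p - δ k := by
  induction k with
  | zero =>
    have : p = 0 := by omega
    simp [this]
  | succ n ih =>
    rw [Finset.sum_range_succ]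
    by_cases h : p ≤ n
    · rw [ih h]
      simp [h]
    · have h1 : p = n + 1 := by omega
      subst h1
      have h2 : ∑ m ∈ Finset.range n, (δ m - δ (m + 1)) * (if n + 1 ≤ m then 1 else 0) = 0 := by
        refine Finset.sum_eq_zero fun m hm => ?_
        rw [Finset.mem_range] at hm
        have : ¬ (n + 1 ≤ m) := by omega
        simp [this]
      rw [h2]
      simp

variable {V E : Type}

/-- The potential on the subdivision that moves chips along edges. -/
def slideFun (G : MGraph V E) (k : ℕ) {I : Type} [Fintype I] [DecidableEq E] (ed : I → E)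
    (p p' : I → ℕ) (φ : V → ℤ) : V ⊕ E × Fin (k - 1) → ℤ :=
  Sum.elim φ (fun q => φ (G.src q.1) +
    ∑ i, if ed i = q.1 then (((q.2.val + 1 - p' i : ℕ) : ℤ) - ((q.2.val + 1 - p i : ℕ) : ℤ)) else 0)

theorem slideFun_subPt (G : MGraph V E) (k : ℕ) (hk : 1 ≤ k) {I : Type} [Fintype I]
    [DecidableEq E]
    (ed : I → E) (p p' : I → ℕ) (φ : V → ℤ) (hp : ∀ i, p i ≤ k) (hp' : ∀ i, p' i ≤ k)
    (hφ : ∀ e, φ (G.tgt e) - φ (G.src e) =
      ∑ i, if ed i = e then ((p i : ℤ) - (p' i : ℤ)) else 0)
    (e : E) (m : ℕ) (hm : m ≤ k) :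
    slideFun G k ed p p' φ (G.subPt k e m) = φ (G.src e) +
      ∑ i, if ed i = e then (((m - p' i : ℕ) : ℤ) - ((m - p i : ℕ) : ℤ)) else 0 := by
  unfold MGraph.subPt
  by_cases h0 : m = 0
  · subst h0
    simp [slideFun]
  · by_cases h1 : m - 1 < k - 1
    · simp only [h0, if_false, h1, dif_pos, slideFun, Sum.elim_inr]
      have : m - 1 + 1 = m := by omega
      rw [this]
    · simp only [h0, if_false, h1, dif_neg, not_false_eq_true, slideFun, Sum.elim_inl]
      have hmk : m = k := by omega
      subst hmk
      have h2 := hφ e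
      have h3 : ∑ i, (if ed i = e then (((m - p' i : ℕ) : ℤ) - ((m - p i : ℕ) : ℤ)) else 0) =
          ∑ i, if ed i = e then ((p i : ℤ) - (p' i : ℤ)) else 0 := by
        refine Finset.sum_congr rfl fun i _ => ?_
        by_cases h4 : ed i = e
        · simp only [h4, if_true]
          rw [Nat.cast_sub (hp i), Nat.cast_sub (hp' i)]
          ring
        · simp [h4]
      rw [h3, ← h2]
      ring

variable [Fintype V] [Fintype E] [DecidableEq V] [DecidableEq E]

/-- Sliding chips along edges of the subdivision: if the potential `φ` on the original vertices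
accounts for the movement of the chips on every edge, then the two divisors are equivalent. -/
theorem slide (G : MGraph V E) (k : ℕ) (hk : 1 ≤ k) {I : Type} [Fintype I]
    (ed : I → E) (p p' : I → ℕ) (φ : V → ℤ) (hp : ∀ i, p i ≤ k) (hp' : ∀ i, p' i ≤ k)
    (hφ : ∀ e, φ (G.tgt e) - φ (G.src e) =
      ∑ i, if ed i = e then ((p i : ℤ) - (p' i : ℤ)) else 0)
    (w : V ⊕ E × Fin (k - 1)) :
    (G.subdiv k).fire (slideFun G k ed p p' φ) w =
      ∑ i, ((if G.subPt k (ed i) (p' i) = w then (1 : ℤ) else 0) -
        (if G.subPt k (ed i) (p i) = w then 1 else 0)) := by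
  rw [MGraph.fire_eq, Fintype.sum_prod_type]
  have h1 : ∀ e : E, ∑ m : Fin k,
      ((if (G.subdiv k).src (e, m) = w then (1 : ℤ) else 0) -
        (if (G.subdiv k).tgt (e, m) = w then 1 else 0)) *
      (slideFun G k ed p p' φ ((G.subdiv k).tgt (e, m)) -
        slideFun G k ed p p' φ ((G.subdiv k).src (e, m))) =
      ∑ i, if ed i = e then ((if G.subPt k e (p' i) = w then (1 : ℤ) else 0) -
        (if G.subPt k e (p i) = w then 1 else 0)) else 0 := by
    intro e
    have h2 : ∀ m : Fin k,
        ((if (G.subdiv k).src (e, m) = w then (1 : ℤ) else 0) -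
          (if (G.subdiv k).tgt (e, m) = w then 1 else 0)) *
        (slideFun G k ed p p' φ ((G.subdiv k).tgt (e, m)) -
          slideFun G k ed p p' φ ((G.subdiv k).src (e, m))) =
        ∑ i, if ed i = e then
          (((if G.subPt k e m = w then (1 : ℤ) else 0) -
            (if G.subPt k e (m + 1) = w then 1 else 0)) * (if p' i ≤ m.val then 1 else 0) -
          ((if G.subPt k e m = w then (1 : ℤ) else 0) -
            (if G.subPt k e (m + 1) = w then 1 else 0)) * (if p i ≤ m.val then 1 else 0))
          else 0 := by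
      intro m
      have h3 : slideFun G k ed p p' φ ((G.subdiv k).tgt (e, m)) -
          slideFun G k ed p p' φ ((G.subdiv k).src (e, m)) =
          ∑ i, if ed i = e then ((if p' i ≤ m.val then (1 : ℤ) else 0) -
            (if p i ≤ m.val then 1 else 0)) else 0 := by
        change slideFun G k ed p p' φ (G.subPt k e (m.val + 1)) -
          slideFun G k ed p p' φ (G.subPt k e m.val) = _
        rw [slideFun_subPt G k hk ed p p' φ hp hp' hφ e _ (by omega),
          slideFun_subPt G k hk ed p p' φ hp hp' hφ e _ (by omega), add_sub_add_left_eq_sub,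
          ← Finset.sum_sub_distrib]
        refine Finset.sum_congr rfl fun i _ => ?_
        by_cases h4 : ed i = e
        · simp only [h4, if_true]
          by_cases h5 : p' i ≤ m.val <;> by_cases h6 : p i ≤ m.val <;> simp only [h5, h6,
            if_true, if_false] <;> omega
        · simp [h4]
      rw [h3, Finset.mul_sum]
      refine Finset.sum_congr rfl fun i _ => ?_
      change ((if G.subPt k e m.val = w then (1 : ℤ) else 0) -
        (if G.subPt k e (m.val + 1) = w then 1 else 0)) * _ = _
      by_cases h4 : ed i = e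
      · simp only [h4, if_true]
        ring
      · simp only [h4, if_false, mul_zero]
    rw [Finset.sum_congr rfl fun m _ => h2 m, Finset.sum_comm]
    refine Finset.sum_congr rfl fun i _ => ?_
    by_cases h4 : ed i = e
    · simp only [h4, if_true]
      rw [Finset.sum_sub_distrib]
      have h5 : ∀ q : ℕ, q ≤ k → ∑ m : Fin k, ((if G.subPt k e m = w then (1 : ℤ) else 0) -
            (if G.subPt k e (m + 1) = w then 1 else 0)) * (if q ≤ m.val then 1 else 0) =
          (if G.subPt k e q = w then (1 : ℤ) else 0) - (if G.subPt k e k = w then 1 else 0) := by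
        intro q hq
        have h6 := tele (fun m => if G.subPt k e m = w then (1 : ℤ) else 0) q k hq
        rw [← h6, ← Fin.sum_univ_eq_sum_range (fun m => ((if G.subPt k e m = w then (1 : ℤ) else 0)
          - (if G.subPt k e (m + 1) = w then 1 else 0)) * (if q ≤ m then 1 else 0)) k]
      rw [h5 _ (hp' i), h5 _ (hp i)]
      ring
    · simp [h4]
  rw [Finset.sum_congr rfl fun e _ => h1 e, Finset.sum_comm]
  refine Finset.sum_congr rfl fun i _ => ?_
  rw [Finset.sum_ite_eq]
  simp

theorem slide_ex (G : MGraph V E) (k : ℕ) (hk : 1 ≤ k) {I : Type} [Fintype I]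
    (ed : I → E) (p p' : I → ℕ) (φ : V → ℤ) (hp : ∀ i, p i ≤ k) (hp' : ∀ i, p' i ≤ k)
    (hφ : ∀ e, φ (G.tgt e) - φ (G.src e) =
      ∑ i, if ed i = e then ((p i : ℤ) - (p' i : ℤ)) else 0) :
    ∃ F : V ⊕ E × Fin (k - 1) → ℤ, ∀ w, (G.subdiv k).fire F w =
      ∑ i, (ind (G.subPt k (ed i) (p' i)) w - ind (G.subPt k (ed i) (p i)) w) :=
  ⟨_, slide G k hk ed p p' φ hp hp' hφ⟩

/-- If both ends of an edge carry a chip, then every inner vertex of the path replacing it can be
reached. -/
theorem bump (G : MGraph V E) (k : ℕ) (hk : 1 ≤ k) (D : V ⊕ E × Fin (k - 1) → ℤ)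
    (hD : ∀ w, 0 ≤ D w) (e : E) (h0 : 1 ≤ D (Sum.inl (G.src e)))
    (h1 : 1 ≤ D (Sum.inl (G.tgt e))) (j : ℕ) (hj : j ≤ k) :
    ∃ F : V ⊕ E × Fin (k - 1) → ℤ, (∀ w, 0 ≤ D w + (G.subdiv k).fire F w) ∧
      1 ≤ D (G.subPt k e j) + (G.subdiv k).fire F (G.subPt k e j) := by
  have key := slide G k hk (I := Bool) (fun _ => e) (fun b => if b then 0 else k)
    (fun b => if b then j else k - j) (fun _ => 0) (by intro b; cases b <;> simp)
    (by intro b; cases b <;> simp [hj]) (by
      intro e'
      by_cases h : e = e'
      · simp [h, Nat.cast_sub hj]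
      · simp [h])
  have hpt0 : G.subPt k e 0 = Sum.inl (G.src e) := by simp [MGraph.subPt]
  have hptk : G.subPt k e k = Sum.inl (G.tgt e) := by
    have h2 : k ≠ 0 := by omega
    simp [MGraph.subPt, h2]
  have hl := G.loopless e
  refine ⟨slideFun G k (fun _ => e) (fun b : Bool => if b then 0 else k)
    (fun b => if b then j else k - j) (fun _ => 0), fun w => ?_, ?_⟩
  · rw [key w]
    simp only [Fintype.sum_bool, if_true, hpt0, Bool.false_eq_true, if_false, hptk]
    by_cases hw0 : Sum.inl (G.src e) = w
    · subst hw0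
      have h3 : (Sum.inl (G.tgt e) : V ⊕ E × Fin (k - 1)) ≠ Sum.inl (G.src e) := by
        intro h
        exact hl (Sum.inl.inj h).symm
      simp only [if_true, h3, if_false]
      split_ifs <;> linarith
    · by_cases hw1 : Sum.inl (G.tgt e) = w
      · subst hw1
        simp only [if_true, hw0, if_false]
        split_ifs <;> linarith
      · have h4 := hD w
        simp only [hw0, hw1, if_false]
        split_ifs <;> linarith
  · rw [key]
    simp only [Fintype.sum_bool, if_true, hpt0, Bool.false_eq_true, if_false, hptk]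
    by_cases hw0 : Sum.inl (G.src e) = G.subPt k e j
    · rw [← hw0]
      have h3 : (Sum.inl (G.tgt e) : V ⊕ E × Fin (k - 1)) ≠ Sum.inl (G.src e) := by
        intro h
        exact hl (Sum.inl.inj h).symm
      simp only [if_true, h3, if_false]
      split_ifs <;> linarith
    · by_cases hw1 : Sum.inl (G.tgt e) = G.subPt k e j
      · rw [← hw1]
        have h5 : (Sum.inl (G.src e) : V ⊕ E × Fin (k - 1)) ≠ Sum.inl (G.tgt e) := by
          intro h
          exact hl (Sum.inl.inj h)
        simp only [if_true, h5, if_false]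
        split_ifs <;> linarith
      · have h4 := hD (G.subPt k e j)
        simp only [hw0, hw1, if_false]
        split_ifs <;> linarith

end slide

end Q122.Gon
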