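import Pool.Agent.Q122.Gon.Cluster
import Pool.Agent.Q122.Gon.Subdiv

set_option autoImplicit false
set_option synthInstance.maxSize 4000

/-!
# Divisors of rank at least one on subdivisions of cluster graphs
-/

namespace Q122.Gon

namespace CData

variable {Cl C S H : Type}

/-- position of the chip of a long edge -/
def pE (X : CData Cl C S H) (P : H → ℤ) (h : Cl → ℤ) (e : H) : ℤ :=
  P e + h (X.hd e true) - h (X.hd e false)

/-- position of the bundle of chips of a spoke -/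
def wS (X : CData Cl C S H) (W : S → ℤ) (h : Cl → ℤ) (s : S) : ℤ :=
  W s + h (X.st s) - h (X.cc (X.sc s))

/-- admissible potentials -/
structure Valid (X : CData Cl C S H) (k : ℕ) (P : H → ℤ) (W : S → ℤ) (h : Cl → ℤ) : Prop where
  e0 : ∀ e, 0 ≤ X.pE P h e
  e1 : ∀ e, X.pE P h e ≤ k
  s0 : ∀ s, 0 ≤ X.wS W h s
  s1 : ∀ s, X.wS W h s ≤ k
  one : ∀ s s', X.sc s = X.sc s' → 0 < X.wS W h s → 0 < X.wS W h s' → s = s'

/-- cluster of a vertex -/
def clu (X : CData Cl C S H) : CV Cl C S H → Cl :=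
  Sum.elim id (Sum.elim X.cc (Sum.elim X.st (fun q => X.hd q.1 q.2)))

variable [Fintype Cl] [Fintype C] [Fintype S] [Fintype H]
  [DecidableEq Cl] [DecidableEq C] [DecidableEq S] [DecidableEq H]

/-- The divisor on the subdivision that belongs to a potential. -/
def dv (X : CData Cl C S H) (μ M k : ℕ) (P : H → ℤ) (W : S → ℤ) (h : Cl → ℤ)
    (w : CV Cl C S H ⊕ CE C S H μ M × Fin (k - 1)) : ℤ :=
  (∑ c : Cl, ind (Sum.inl (Sum.inl c)) w) +
  (∑ s : S, ind (Sum.inl (Sum.inr (Sum.inr (Sum.inl s)))) w) +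
  (μ : ℤ) * (∑ c : C, ind (Sum.inl (Sum.inr (Sum.inl c))) w) +
  (∑ e : H, ind ((X.graph μ M).subPt k (Sum.inl (Sum.inr e)) (X.pE P h e).toNat) w) +
  ∑ q : S × Fin μ, (ind ((X.graph μ M).subPt k (Sum.inl (Sum.inl q)) (X.wS W h q.1).toNat) w -
    ind (Sum.inl (Sum.inr (Sum.inl (X.sc q.1)))) w)

theorem dv_sum (X : CData Cl C S H) (μ M k : ℕ) (P : H → ℤ) (W : S → ℤ) (h : Cl → ℤ) :
    ∑ w, X.dv μ M k P W h w = Fintype.card Cl + Fintype.card S + μ * Fintype.card C +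
      Fintype.card H := by
  unfold dv
  rw [Finset.sum_add_distrib, Finset.sum_add_distrib, Finset.sum_add_distrib,
    Finset.sum_add_distrib, ← Finset.mul_sum, sum_ind, sum_ind, sum_ind, sum_ind]
  simp only [Finset.sum_sub_distrib]
  rw [sum_ind, sum_ind]
  ring

/-- Divisors of two admissible potentials are equivalent. -/
theorem dv_equiv (X : CData Cl C S H) (μ M k : ℕ) (hk : 1 ≤ k) (P : H → ℤ) (W : S → ℤ)
    (h h' : Cl → ℤ) (hv : X.Valid k P W h) (hv' : X.Valid k P W h') :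
    ∃ F, ∀ w, X.dv μ M k P W h' w = X.dv μ M k P W h w + ((X.graph μ M).subdiv k).fire F w := by
  obtain ⟨F, key⟩ := slide_ex (X.graph μ M) k hk (I := H ⊕ S × Fin μ)
    (Sum.elim (fun e => Sum.inl (Sum.inr e)) (fun q => Sum.inl (Sum.inl q)))
    (Sum.elim (fun e => (X.pE P h e).toNat) (fun q => (X.wS W h q.1).toNat))
    (Sum.elim (fun e => (X.pE P h' e).toNat) (fun q => (X.wS W h' q.1).toNat))
    (fun v => h' (X.clu v) * (-1) + h (X.clu v))
    (by
      rintro (e | q)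
      · have h1 := hv.e0 e
        have h2 := hv.e1 e
        simp only [Sum.elim_inl]
        omega
      · have h1 := hv.s0 q.1
        have h2 := hv.s1 q.1
        simp only [Sum.elim_inr]
        omega)
    (by
      rintro (e | q)
      · have h1 := hv'.e0 e
        have h2 := hv'.e1 e
        simp only [Sum.elim_inl]
        omega
      · have h1 := hv'.s0 q.1
        have h2 := hv'.s1 q.1
        simp only [Sum.elim_inr]
        omega)
    (by
      intro e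
      rw [Fintype.sum_sum_type]
      rcases e with (q | e) | ⟨c | s | q, i⟩
      · simp only [Sum.elim_inl, Sum.elim_inr, Sum.inl.injEq, reduceCtorEq, if_false,
          Finset.sum_const_zero, zero_add, Finset.sum_ite_eq', Finset.mem_univ, if_true]
        have h1 := hv.s0 q.1
        have h2 := hv'.s0 q.1
        rw [Int.toNat_of_nonneg h1, Int.toNat_of_nonneg h2]
        simp only [graph, clu, Sum.elim_inl, Sum.elim_inr, wS]
        ring
      · simp only [Sum.elim_inl, Sum.elim_inr, Sum.inl.injEq, Sum.inr.injEq, reduceCtorEq,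
          if_false, Finset.sum_const_zero, add_zero, Finset.sum_ite_eq', Finset.mem_univ, if_true]
        have h1 := hv.e0 e
        have h2 := hv'.e0 e
        rw [Int.toNat_of_nonneg h1, Int.toNat_of_nonneg h2]
        simp only [graph, clu, Sum.elim_inr, pE]
        ring
      · simp only [Sum.elim_inl, Sum.elim_inr, reduceCtorEq, if_false, Finset.sum_const_zero,
          add_zero, graph, clu, id]
        ring
      · simp only [Sum.elim_inl, Sum.elim_inr, reduceCtorEq, if_false, Finset.sum_const_zero,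
          add_zero, graph, clu, id]
        ring
      · simp only [Sum.elim_inl, Sum.elim_inr, reduceCtorEq, if_false, Finset.sum_const_zero,
          add_zero, graph, clu, id]
        ring)
  refine ⟨F, fun w => ?_⟩
  rw [key w, Fintype.sum_sum_type]
  simp only [Sum.elim_inl, Sum.elim_inr, dv, Finset.sum_sub_distrib]
  ring

theorem spoke_ge (X : CData Cl C S H) (μ M k : ℕ) (W : S → ℤ)
    (h : Cl → ℤ) (hs0 : ∀ s, 0 ≤ X.wS W h s) (w : CV Cl C S H ⊕ CE C S H μ M × Fin (k - 1)) :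
    - ((μ : ℤ) * ∑ s : S, (if 0 < X.wS W h s then
      ind (Sum.inl (Sum.inr (Sum.inl (X.sc s)))) w else 0)) ≤
      ∑ q : S × Fin μ, (ind ((X.graph μ M).subPt k (Sum.inl (Sum.inl q))
        (X.wS W h q.1).toNat) w - ind (Sum.inl (Sum.inr (Sum.inl (X.sc q.1)))) w) := by
  have h1 : ∀ q : S × Fin μ, - (if 0 < X.wS W h q.1 then
      ind (Sum.inl (Sum.inr (Sum.inl (X.sc q.1)))) w else 0) ≤
      (ind ((X.graph μ M).subPt k (Sum.inl (Sum.inl q)) (X.wS W h q.1).toNat) w -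
      ind (Sum.inl (Sum.inr (Sum.inl (X.sc q.1)))) w) := by
    intro q
    by_cases h2 : 0 < X.wS W h q.1
    · simp only [h2, if_true]
      have := ind_nonneg ((X.graph μ M).subPt k (Sum.inl (Sum.inl q))
        (X.wS W h q.1).toNat) w
      linarith
    · have h3 := hs0 q.1
      have h4 : X.wS W h q.1 = 0 := by omega
      rw [h4]
      have h5 : (X.graph μ M).subPt k (Sum.inl (Sum.inl q)) (0 : ℤ).toNat =
          Sum.inl (Sum.inr (Sum.inl (X.sc q.1))) := by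
        simp [MGraph.subPt, graph]
      rw [h5]
      simp
  refine le_trans ?_ (Finset.sum_le_sum fun q _ => h1 q)
  rw [Finset.sum_neg_distrib, neg_le_neg_iff, Fintype.sum_prod_type]
  have h0 : ∀ s : S, ∑ m : Fin μ, (if 0 < X.wS W h (s, m).1 then
      ind (Sum.inl (Sum.inr (Sum.inl (X.sc (s, m).1)))) w else 0) =
      (μ : ℤ) * (if 0 < X.wS W h s then ind (Sum.inl (Sum.inr (Sum.inl (X.sc s)))) w
        else 0) := by
    intro s
    by_cases hs : 0 < X.wS W h s <;> simp [hs]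
  rw [Finset.sum_congr rfl fun s _ => h0 s, ← Finset.mul_sum]

theorem centre_nonneg (X : CData Cl C S H) (μ M k : ℕ) (P : H → ℤ) (W : S → ℤ)
    (h : Cl → ℤ) (hv : X.Valid k P W h) (w : CV Cl C S H ⊕ CE C S H μ M × Fin (k - 1)) :
    0 ≤ (μ : ℤ) * (∑ c : C, ind (Sum.inl (Sum.inr (Sum.inl c))) w) +
      ∑ q : S × Fin μ, (ind ((X.graph μ M).subPt k (Sum.inl (Sum.inl q))
        (X.wS W h q.1).toNat) w - ind (Sum.inl (Sum.inr (Sum.inl (X.sc q.1)))) w) := by
  have h0 := X.spoke_ge μ M k W h hv.s0 w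
  have h1 : (μ : ℤ) * ∑ s : S, (if 0 < X.wS W h s then
      ind (Sum.inl (Sum.inr (Sum.inl (X.sc s)))) w else 0) ≤
      (μ : ℤ) * (∑ c : C, ind (Sum.inl (Sum.inr (Sum.inl c))) w) := by
    refine mul_le_mul_of_nonneg_left ?_ (by positivity)
    by_cases hw : ∃ c : C, (Sum.inl (Sum.inr (Sum.inl c)) :
        CV Cl C S H ⊕ CE C S H μ M × Fin (k - 1)) = w
    · obtain ⟨c, rfl⟩ := hw
      have h6 : ∑ c' : C, ind (Sum.inl (Sum.inr (Sum.inl c')) :
          CV Cl C S H ⊕ CE C S H μ M × Fin (k - 1)) (Sum.inl (Sum.inr (Sum.inl c))) = 1 := by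
        simp [ind]
      rw [h6]
      have h9 : ∀ s : S, (if 0 < X.wS W h s then ind (Sum.inl (Sum.inr (Sum.inl (X.sc s))) :
          CV Cl C S H ⊕ CE C S H μ M × Fin (k - 1)) (Sum.inl (Sum.inr (Sum.inl c))) else 0) =
          if 0 < X.wS W h s ∧ X.sc s = c then (1 : ℤ) else 0 := by
        intro s
        by_cases h7 : 0 < X.wS W h s <;> by_cases h8 : X.sc s = c <;> simp [ind, h7, h8]
      rw [Finset.sum_congr rfl fun s _ => h9 s, ← Finset.sum_filter]
      simp only [Finset.sum_const, nsmul_eq_mul, mul_one]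
      have h10 : (Finset.univ.filter (fun s => 0 < X.wS W h s ∧ X.sc s = c)).card ≤ 1 := by
        rw [Finset.card_le_one]
        intro a ha b hb
        simp only [Finset.mem_filter, Finset.mem_univ, true_and] at ha hb
        exact hv.one a b (ha.2.trans hb.2.symm) ha.1 hb.1
      exact_mod_cast h10
    · have h7 : ∀ s : S, (if 0 < X.wS W h s then
          ind (Sum.inl (Sum.inr (Sum.inl (X.sc s)))) w else 0) = 0 := by
        intro s
        rw [ind_ne (fun h8 => hw ⟨_, h8⟩)]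
        simp
      rw [Finset.sum_congr rfl fun s _ => h7 s]
      simp only [Finset.sum_const_zero]
      exact Finset.sum_nonneg fun _ _ => ind_nonneg _ _
  linarith

section

variable (X : CData Cl C S H) (μ M k : ℕ) (P : H → ℤ) (W : S → ℤ)
    (h : Cl → ℤ) (hv : X.Valid k P W h)

include hv

theorem dv_ge (w : CV Cl C S H ⊕ CE C S H μ M × Fin (k - 1)) :
    (∑ c : Cl, ind (Sum.inl (Sum.inl c)) w) +
    (∑ s : S, ind (Sum.inl (Sum.inr (Sum.inr (Sum.inl s)))) w) +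
    (∑ e : H, ind ((X.graph μ M).subPt k (Sum.inl (Sum.inr e)) (X.pE P h e).toNat) w) ≤
    X.dv μ M k P W h w := by
  have := X.centre_nonneg μ M k P W h hv w
  unfold dv
  linarith

theorem dv_nonneg (w : CV Cl C S H ⊕ CE C S H μ M × Fin (k - 1)) :
    0 ≤ X.dv μ M k P W h w := by
  refine le_trans ?_ (X.dv_ge μ M k P W h hv w)
  have t1 : 0 ≤ ∑ c : Cl, ind (Sum.inl (Sum.inl c)) w :=
    Finset.sum_nonneg fun _ _ => ind_nonneg _ _
  have t2 : 0 ≤ ∑ s : S, ind (Sum.inl (Sum.inr (Sum.inr (Sum.inl s)))) w :=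
    Finset.sum_nonneg fun _ _ => ind_nonneg _ _
  have t4 : 0 ≤ ∑ e : H,
      ind ((X.graph μ M).subPt k (Sum.inl (Sum.inr e)) (X.pE P h e).toNat) w :=
    Finset.sum_nonneg fun _ _ => ind_nonneg _ _
  linarith

theorem dv_hub (c : Cl) : 1 ≤ X.dv μ M k P W h (Sum.inl (Sum.inl c)) := by
  refine le_trans ?_ (X.dv_ge μ M k P W h hv _)
  have t1 : ind (Sum.inl (Sum.inl c)) (Sum.inl (Sum.inl c)) ≤
      ∑ c' : Cl, ind (Sum.inl (Sum.inl c') : CV Cl C S H ⊕ CE C S H μ M × Fin (k - 1))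
        (Sum.inl (Sum.inl c)) :=
    Finset.single_le_sum (f := fun c' : Cl => ind (Sum.inl (Sum.inl c') :
      CV Cl C S H ⊕ CE C S H μ M × Fin (k - 1)) (Sum.inl (Sum.inl c)))
      (fun _ _ => ind_nonneg _ _) (Finset.mem_univ c)
  rw [ind_self] at t1
  have t2 : 0 ≤ ∑ s : S, ind (Sum.inl (Sum.inr (Sum.inr (Sum.inl s))) :
      CV Cl C S H ⊕ CE C S H μ M × Fin (k - 1)) (Sum.inl (Sum.inl c)) :=
    Finset.sum_nonneg fun _ _ => ind_nonneg _ _
  have t4 : 0 ≤ ∑ e : H,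
      ind ((X.graph μ M).subPt k (Sum.inl (Sum.inr e)) (X.pE P h e).toNat)
        (Sum.inl (Sum.inl c)) :=
    Finset.sum_nonneg fun _ _ => ind_nonneg _ _
  linarith

theorem dv_u (s : S) : 1 ≤ X.dv μ M k P W h (Sum.inl (Sum.inr (Sum.inr (Sum.inl s)))) := by
  refine le_trans ?_ (X.dv_ge μ M k P W h hv _)
  have t1 : 0 ≤ ∑ c' : Cl, ind (Sum.inl (Sum.inl c') :
      CV Cl C S H ⊕ CE C S H μ M × Fin (k - 1)) (Sum.inl (Sum.inr (Sum.inr (Sum.inl s)))) :=
    Finset.sum_nonneg fun _ _ => ind_nonneg _ _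
  have t2 : ind (Sum.inl (Sum.inr (Sum.inr (Sum.inl s))))
      (Sum.inl (Sum.inr (Sum.inr (Sum.inl s)))) ≤
      ∑ s' : S, ind (Sum.inl (Sum.inr (Sum.inr (Sum.inl s'))) :
      CV Cl C S H ⊕ CE C S H μ M × Fin (k - 1)) (Sum.inl (Sum.inr (Sum.inr (Sum.inl s)))) :=
    Finset.single_le_sum (f := fun s' : S => ind (Sum.inl (Sum.inr (Sum.inr (Sum.inl s'))) :
      CV Cl C S H ⊕ CE C S H μ M × Fin (k - 1)) (Sum.inl (Sum.inr (Sum.inr (Sum.inl s)))))
      (fun _ _ => ind_nonneg _ _) (Finset.mem_univ s)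
  rw [ind_self] at t2
  have t4 : 0 ≤ ∑ e : H,
      ind ((X.graph μ M).subPt k (Sum.inl (Sum.inr e)) (X.pE P h e).toNat)
        (Sum.inl (Sum.inr (Sum.inr (Sum.inl s)))) :=
    Finset.sum_nonneg fun _ _ => ind_nonneg _ _
  linarith

theorem dv_pt (e : H) (j : ℕ) (hj : X.pE P h e = j) :
    1 ≤ X.dv μ M k P W h ((X.graph μ M).subPt k (Sum.inl (Sum.inr e)) j) := by
  refine le_trans ?_ (X.dv_ge μ M k P W h hv _)
  have t1 : 0 ≤ ∑ c' : Cl, ind (Sum.inl (Sum.inl c') :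
      CV Cl C S H ⊕ CE C S H μ M × Fin (k - 1))
      ((X.graph μ M).subPt k (Sum.inl (Sum.inr e)) j) :=
    Finset.sum_nonneg fun _ _ => ind_nonneg _ _
  have t2 : 0 ≤ ∑ s : S, ind (Sum.inl (Sum.inr (Sum.inr (Sum.inl s))) :
      CV Cl C S H ⊕ CE C S H μ M × Fin (k - 1))
      ((X.graph μ M).subPt k (Sum.inl (Sum.inr e)) j) :=
    Finset.sum_nonneg fun _ _ => ind_nonneg _ _
  have t4 : ind ((X.graph μ M).subPt k (Sum.inl (Sum.inr e)) (X.pE P h e).toNat)
      ((X.graph μ M).subPt k (Sum.inl (Sum.inr e)) j) ≤ ∑ e' : H,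
      ind ((X.graph μ M).subPt k (Sum.inl (Sum.inr e')) (X.pE P h e').toNat)
        ((X.graph μ M).subPt k (Sum.inl (Sum.inr e)) j) :=
    Finset.single_le_sum (f := fun e' : H =>
      ind ((X.graph μ M).subPt k (Sum.inl (Sum.inr e')) (X.pE P h e').toNat)
        ((X.graph μ M).subPt k (Sum.inl (Sum.inr e)) j))
      (fun _ _ => ind_nonneg _ _) (Finset.mem_univ e)
  have h3 : (X.pE P h e).toNat = j := by rw [hj]; simp
  rw [h3, ind_self] at t4
  linarith

theorem dv_z (c : C) (hc : ∀ s, X.sc s = c → X.wS W h s = 0) (hμ : 1 ≤ μ) :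
    1 ≤ X.dv μ M k P W h (Sum.inl (Sum.inr (Sum.inl c))) := by
  have h0 := X.spoke_ge μ M k W h hv.s0 (Sum.inl (Sum.inr (Sum.inl c)))
  have h1 : ∑ s : S, (if 0 < X.wS W h s then
      ind (Sum.inl (Sum.inr (Sum.inl (X.sc s))) : CV Cl C S H ⊕ CE C S H μ M × Fin (k - 1))
        (Sum.inl (Sum.inr (Sum.inl c))) else 0) = 0 := by
    refine Finset.sum_eq_zero fun s _ => ?_
    by_cases hs : X.sc s = c
    · rw [hc s hs]
      simp
    · have : ind (Sum.inl (Sum.inr (Sum.inl (X.sc s))) :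
          CV Cl C S H ⊕ CE C S H μ M × Fin (k - 1)) (Sum.inl (Sum.inr (Sum.inl c))) = 0 :=
        ind_ne (fun h8 => hs (by simpa using h8))
      rw [this]
      simp
  rw [h1] at h0
  have t1 : 0 ≤ ∑ c' : Cl, ind (Sum.inl (Sum.inl c') :
      CV Cl C S H ⊕ CE C S H μ M × Fin (k - 1)) (Sum.inl (Sum.inr (Sum.inl c))) :=
    Finset.sum_nonneg fun _ _ => ind_nonneg _ _
  have t2 : 0 ≤ ∑ s : S, ind (Sum.inl (Sum.inr (Sum.inr (Sum.inl s))) :
      CV Cl C S H ⊕ CE C S H μ M × Fin (k - 1)) (Sum.inl (Sum.inr (Sum.inl c))) :=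
    Finset.sum_nonneg fun _ _ => ind_nonneg _ _
  have t4 : 0 ≤ ∑ e : H,
      ind ((X.graph μ M).subPt k (Sum.inl (Sum.inr e)) (X.pE P h e).toNat)
        (Sum.inl (Sum.inr (Sum.inl c))) :=
    Finset.sum_nonneg fun _ _ => ind_nonneg _ _
  have h6 : ∑ c' : C, ind (Sum.inl (Sum.inr (Sum.inl c')) :
      CV Cl C S H ⊕ CE C S H μ M × Fin (k - 1)) (Sum.inl (Sum.inr (Sum.inl c))) = 1 := by
    simp [ind]
  have h7 : (1 : ℤ) ≤ μ := by exact_mod_cast hμ
  unfold dv
  rw [h6]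
  linarith

end

/-- The gonality of the subdivided cluster graph. -/
theorem upper (X : CData Cl C S H) (μ M k : ℕ) (hμ : 1 ≤ μ) (hk : 1 ≤ k) (P : H → ℤ)
    (W : S → ℤ) (h0 : Cl → ℤ) (hv0 : X.Valid k P W h0)
    (hE : ∀ e, ∀ j : ℕ, j ≤ k → ∃ h, X.Valid k P W h ∧ X.pE P h e = j)
    (hC : ∀ c, ∃ h, X.Valid k P W h ∧ ∀ s, X.sc s = c → X.wS W h s = 0) :
    Fintype.card Cl + Fintype.card S + μ * Fintype.card C + Fintype.card H ∈
      ((X.graph μ M).subdiv k).gonSet := by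
  refine ⟨X.dv μ M k P W h0, X.dv_nonneg μ M k P W h0 hv0, ?_, ?_⟩
  · rw [X.dv_sum]
    push_cast
    ring
  rw [MGraph.rankOne_iff]
  have reach : ∀ h, X.Valid k P W h → ∀ v, (∃ F : CV Cl C S H ⊕ CE C S H μ M × Fin (k - 1) → ℤ,
      (∀ w, 0 ≤ X.dv μ M k P W h w + ((X.graph μ M).subdiv k).fire F w) ∧
      1 ≤ X.dv μ M k P W h v + ((X.graph μ M).subdiv k).fire F v) →
      ∃ f : CV Cl C S H ⊕ CE C S H μ M × Fin (k - 1) → ℤ,
      (∀ w, 0 ≤ X.dv μ M k P W h0 w + ((X.graph μ M).subdiv k).fire f w) ∧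
      1 ≤ X.dv μ M k P W h0 v + ((X.graph μ M).subdiv k).fire f v := by
    rintro h hv v ⟨F, h1, h2⟩
    obtain ⟨F', h3⟩ := X.dv_equiv μ M k hk P W h0 h hv0 hv
    refine ⟨fun w => F' w + F w, fun w => ?_, ?_⟩
    · rw [MGraph.fire_add, ← add_assoc, ← h3]
      exact h1 w
    · rw [MGraph.fire_add, ← add_assoc, ← h3]
      exact h2
  have reach0 : ∀ h, X.Valid k P W h → ∀ v, 1 ≤ X.dv μ M k P W h v →
      ∃ f : CV Cl C S H ⊕ CE C S H μ M × Fin (k - 1) → ℤ,
      (∀ w, 0 ≤ X.dv μ M k P W h0 w + ((X.graph μ M).subdiv k).fire f w) ∧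
      1 ≤ X.dv μ M k P W h0 v + ((X.graph μ M).subdiv k).fire f v := by
    intro h hv v hv1
    refine reach h hv v ⟨fun _ => 0, fun w => ?_, ?_⟩
    · have := X.dv_nonneg μ M k P W h hv w
      simpa [MGraph.fire] using this
    · simpa [MGraph.fire] using hv1
  have hpt0 : ∀ e, (X.graph μ M).subPt k e 0 = Sum.inl ((X.graph μ M).src e) := by
    intro e; simp [MGraph.subPt]
  have hptk : ∀ e, (X.graph μ M).subPt k e k = Sum.inl ((X.graph μ M).tgt e) := by
    intro e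
    have h2 : k ≠ 0 := by omega
    simp [MGraph.subPt, h2]
  have hpti : ∀ e (i : Fin (k - 1)), (X.graph μ M).subPt k e (i.val + 1) = Sum.inr (e, i) := by
    intro e i
    simp [MGraph.subPt]
  have hA : ∀ e b, ∃ h, X.Valid k P W h ∧
      1 ≤ X.dv μ M k P W h (Sum.inl (Sum.inr (Sum.inr (Sum.inr (e, b))))) := by
    intro e b
    cases b
    · obtain ⟨h, hv, hp⟩ := hE e 0 (by omega)
      refine ⟨h, hv, ?_⟩
      have := X.dv_pt μ M k P W h hv e 0 hp
      rwa [hpt0] at this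
    · obtain ⟨h, hv, hp⟩ := hE e k le_rfl
      refine ⟨h, hv, ?_⟩
      have := X.dv_pt μ M k P W h hv e k hp
      rwa [hptk] at this
  have hbump : ∀ e (i : Fin (k - 1)), ∀ h, X.Valid k P W h →
      1 ≤ X.dv μ M k P W h (Sum.inl ((X.graph μ M).src e)) →
      1 ≤ X.dv μ M k P W h (Sum.inl ((X.graph μ M).tgt e)) →
      ∃ f : CV Cl C S H ⊕ CE C S H μ M × Fin (k - 1) → ℤ,
      (∀ w, 0 ≤ X.dv μ M k P W h0 w + ((X.graph μ M).subdiv k).fire f w) ∧
      1 ≤ X.dv μ M k P W h0 (Sum.inr (e, i)) +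
        ((X.graph μ M).subdiv k).fire f (Sum.inr (e, i)) := by
    intro e i h hv h1 h2
    refine reach h hv _ ?_
    have := bump (X.graph μ M) k hk (X.dv μ M k P W h) (X.dv_nonneg μ M k P W h hv) e h1 h2
      (i.val + 1) (by omega)
    rwa [hpti] at this
  rintro ((c | c | s | ⟨e, b⟩) | ⟨(⟨s, m⟩ | e) | ⟨c | s | ⟨e, b⟩, m⟩, i⟩)
  · exact reach0 h0 hv0 _ (X.dv_hub μ M k P W h0 hv0 c)
  · obtain ⟨h, hv, hc⟩ := hC c
    exact reach0 h hv _ (X.dv_z μ M k P W h hv c hc hμ)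
  · exact reach0 h0 hv0 _ (X.dv_u μ M k P W h0 hv0 s)
  · obtain ⟨h, hv, h1⟩ := hA e b
    exact reach0 h hv _ h1
  · obtain ⟨h, hv, hc⟩ := hC (X.sc s)
    exact hbump _ i h hv (X.dv_z μ M k P W h hv _ hc hμ) (X.dv_u μ M k P W h hv s)
  · obtain ⟨h, hv, hp⟩ := hE e (i.val + 1) (by omega)
    have := X.dv_pt μ M k P W h hv e _ hp
    rw [hpti] at this
    exact reach0 h hv _ this
  · obtain ⟨h, hv, hc⟩ := hC c
    exact hbump _ i h hv (X.dv_z μ M k P W h hv _ hc hμ) (X.dv_hub μ M k P W h hv _)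
  · exact hbump _ i h0 hv0 (X.dv_u μ M k P W h0 hv0 _) (X.dv_hub μ M k P W h0 hv0 _)
  · obtain ⟨h, hv, h1⟩ := hA e b
    exact hbump _ i h hv h1 (X.dv_hub μ M k P W h hv _)

end CData

end Q122.Gon
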