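import Pool.Agent.Q122.Gon.HRank

set_option autoImplicit false

/-!
# The metric complete graph: `k + 1` chips at a vertex have rank at least two
-/

namespace Q122.Gon

/-- edges of the complete graph -/
abbrev KE (k : ℕ) : Type := {p : Fin (k + 1) × Fin (k + 1) // p.1 < p.2}

/-- The complete graph on `k + 1` vertices. -/
def KG (k : ℕ) : MGraph (Fin (k + 1)) (KE k) where
  src := fun e => e.1.1
  tgt := fun e => e.1.2
  loopless := fun e => ne_of_lt e.2

variable {k : ℕ}

/-- the edge joining `a` and `u` -/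
def ke (a u : Fin (k + 1)) (h : u ≠ a) : KE k :=
  if h' : a < u then ⟨(a, u), h'⟩ else ⟨(u, a), lt_of_le_of_ne (not_lt.mp h') h⟩

/-- the parameter on that edge of the point at distance `x` from `a` -/
noncomputable def kp (a u : Fin (k + 1)) (x : ℝ) : ℝ := if a < u then x else 1 - x

/-- the point at distance `x` from `a` on the edge joining `a` and `u` -/
noncomputable def pp (a u : Fin (k + 1)) (h : u ≠ a) (x : ℝ) : Pt (Fin (k + 1)) (KE k) :=
  mpt (KG k) (ke a u h) (kp a u x)

theorem ke_eq_iff (a u : Fin (k + 1)) (h : u ≠ a) (e : KE k) :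
    ke a u h = e ↔ (a = e.1.1 ∧ u = e.1.2) ∨ (a = e.1.2 ∧ u = e.1.1) := by
  obtain ⟨⟨i, j⟩, hij⟩ := e
  unfold ke
  by_cases h' : a < u
  · rw [dif_pos h']
    simp only [Subtype.mk.injEq, Prod.mk.injEq]
    constructor
    · exact fun h => Or.inl h
    · rintro (h1 | ⟨h1, h2⟩)
      · exact h1
      · subst h1
        subst h2
        exact absurd h' (not_lt.mpr (le_of_lt hij))
  · rw [dif_neg h']
    simp only [Subtype.mk.injEq, Prod.mk.injEq]
    constructor
    · exact fun h => Or.inr ⟨h.2, h.1⟩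
    · rintro (⟨h1, h2⟩ | h1)
      · subst h1
        subst h2
        exact absurd hij h'
      · exact ⟨h1.2, h1.1⟩

theorem kp_mem (a u : Fin (k + 1)) {x : ℝ} (hx : x ∈ Set.Icc (0 : ℝ) 1) :
    kp a u x ∈ Set.Icc (0 : ℝ) 1 := by
  unfold kp
  split_ifs
  · exact hx
  · exact ⟨by linarith [hx.2], by linarith [hx.1]⟩

theorem pp_zero (a u : Fin (k + 1)) (h : u ≠ a) : pp a u h 0 = Sum.inl a := by
  unfold pp kp ke
  by_cases h' : a < u
  · rw [dif_pos h', if_pos h', mpt_zero]
    rfl
  · rw [dif_neg h', if_neg h', sub_zero, mpt_one]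
    rfl

theorem pp_symm (a u : Fin (k + 1)) (h : u ≠ a) (x : ℝ) : pp a u h x = pp u a h.symm (1 - x) := by
  unfold pp kp ke
  rcases lt_trichotomy a u with h' | h' | h'
  · rw [dif_pos h', if_pos h', dif_neg (not_lt.mpr h'.le), if_neg (not_lt.mpr h'.le)]
    congr 1
    ring
  · exact absurd h'.symm h
  · rw [dif_pos h', if_pos h', dif_neg (not_lt.mpr h'.le), if_neg (not_lt.mpr h'.le)]

theorem pp_one (a u : Fin (k + 1)) (h : u ≠ a) : pp a u h 1 = Sum.inl u := by
  rw [pp_symm, sub_self, pp_zero]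

theorem exists_pp (hk : 1 ≤ k) (q : Pt (Fin (k + 1)) (KE k)) :
    ∃ (a u : Fin (k + 1)) (h : u ≠ a) (x : ℝ), x ∈ Set.Icc (0 : ℝ) 1 ∧ q = pp a u h x := by
  rcases q with v | ⟨⟨⟨i, j⟩, hij⟩, x⟩
  · obtain ⟨u, hu⟩ : ∃ u : Fin (k + 1), u ≠ v := by
      have : Nontrivial (Fin (k + 1)) := Fin.nontrivial_iff_two_le.mpr (by omega)
      exact exists_ne v
    exact ⟨v, u, hu, 0, ⟨le_rfl, zero_le_one⟩, (pp_zero v u hu).symm⟩
  · refine ⟨i, j, (ne_of_lt hij).symm, x.1, ⟨x.2.1.le, x.2.2.le⟩, ?_⟩
    have hij' : i < j := hij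
    unfold pp kp ke
    rw [dif_pos hij', if_pos hij', mpt_mem]

/-- Moving the chips of a vertex along its edges. -/
theorem star (a b : Fin (k + 1)) (hb : b ≠ a) (σ ρ : ℝ) (h0 : 0 ≤ σ) (h1 : σ ≤ ρ) (h2 : ρ ≤ 1) :
    ∃ f : RatFun (KG k), ∀ q, f.div q =
      ∑ u : {u : Fin (k + 1) // u ≠ a}, (mind (pp a u.1 u.2 (if u.1 = b then ρ - σ else ρ)) q -
        mind (Sum.inl a) q) + (mind (pp a b hb σ) q - mind (Sum.inl a) q) := by
  have hr : ∀ u : {u : Fin (k + 1) // u ≠ a}, (if u.1 = b then ρ - σ else ρ) ∈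
      Set.Icc (0 : ℝ) 1 := by
    intro u
    split_ifs
    · exact ⟨by linarith, by linarith⟩
    · exact ⟨by linarith, h2⟩
  have hσ : σ ∈ Set.Icc (0 : ℝ) 1 := ⟨h0, h1.trans h2⟩
  have h00 : (0 : ℝ) ∈ Set.Icc (0 : ℝ) 1 := ⟨le_rfl, zero_le_one⟩
  obtain ⟨f, key⟩ := mslide (KG k) (I := {u : Fin (k + 1) // u ≠ a} ⊕ Unit)
    (Sum.elim (fun u => ke a u.1 u.2) (fun _ => ke a b hb))
    (Sum.elim (fun u => kp a u.1 0) (fun _ => kp a b 0))
    (Sum.elim (fun u => kp a u.1 (if u.1 = b then ρ - σ else ρ)) (fun _ => kp a b σ))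
    (fun v => if v = a then 0 else - ρ)
    (by
      rintro (u | u)
      · exact kp_mem _ _ h00
      · exact kp_mem _ _ h00)
    (by
      rintro (u | u)
      · exact kp_mem _ _ (hr u)
      · exact kp_mem _ _ hσ)
    (by
      rintro ⟨⟨i, j⟩, hij⟩
      rw [Fintype.sum_sum_type]
      simp only [Sum.elim_inl, Sum.elim_inr, Finset.univ_unique, Finset.sum_singleton]
      simp only [ke_eq_iff]
      change (if j = a then 0 else - ρ) - (if i = a then 0 else - ρ) = _
      have hij' : i < j := hij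
      by_cases hi : i = a
      · subst hi
        have hj : j ≠ i := (ne_of_lt hij').symm
        rw [if_pos rfl, if_neg hj]
        rw [Finset.sum_eq_single (⟨j, hj⟩ : {u : Fin (k + 1) // u ≠ i})]
        · rw [if_pos (Or.inl ⟨rfl, rfl⟩)]
          simp only [kp, if_pos hij']
          by_cases hjb : j = b
          · subst hjb
            rw [if_pos rfl, if_pos (Or.inl ⟨trivial, rfl⟩), if_pos hij', if_pos hij']
            ring
          · rw [if_neg hjb, if_neg]
            · ring
            · rintro (⟨_, h⟩ | ⟨h, _⟩)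
              · exact hjb h.symm
              · exact hj h.symm
        · intro u _ hu
          rw [if_neg]
          rintro (⟨_, h⟩ | ⟨h, _⟩)
          · exact hu (Subtype.ext h)
          · exact hj h.symm
        · intro h
          exact absurd (Finset.mem_univ _) h
      · by_cases hj : j = a
        · subst hj
          rw [if_pos rfl, if_neg hi]
          rw [Finset.sum_eq_single (⟨i, hi⟩ : {u : Fin (k + 1) // u ≠ j})]
          · rw [if_pos (Or.inr ⟨rfl, rfl⟩)]
            have hji : ¬ j < i := not_lt.mpr hij'.le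
            simp only [kp, if_neg hji]
            by_cases hib : i = b
            · subst hib
              rw [if_pos rfl, if_pos (Or.inr ⟨trivial, rfl⟩), if_neg hji, if_neg hji]
              ring
            · rw [if_neg hib, if_neg]
              · ring
              · rintro (⟨h, _⟩ | ⟨_, h⟩)
                · exact hi h.symm
                · exact hib h.symm
          · intro u _ hu
            rw [if_neg]
            rintro (⟨h, _⟩ | ⟨_, h⟩)
            · exact hi h.symm
            · exact hu (Subtype.ext h)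
          · intro h
            exact absurd (Finset.mem_univ _) h
        · rw [if_neg hj, if_neg hi]
          rw [Finset.sum_eq_zero, if_neg]
          · ring
          · rintro (⟨h, _⟩ | ⟨h, _⟩)
            · exact hi h.symm
            · exact hj h.symm
          · intro u _
            rw [if_neg]
            rintro (⟨h, _⟩ | ⟨h, _⟩)
            · exact hi h.symm
            · exact hj h.symm)
  refine ⟨f, fun q => ?_⟩
  rw [key q, Fintype.sum_sum_type]
  simp only [Sum.elim_inl, Sum.elim_inr, Finset.univ_unique, Finset.sum_singleton]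
  have e1 : ∀ u : {u : Fin (k + 1) // u ≠ a}, mpt (KG k) (ke a u.1 u.2) (kp a u.1 0) =
      Sum.inl a := fun u => pp_zero a u.1 u.2
  have e2 : mpt (KG k) (ke a b hb) (kp a b 0) = Sum.inl a := pp_zero a b hb
  simp only [e1, e2]
  rfl

theorem star_equiv (a b : Fin (k + 1)) (hb : b ≠ a) (σ ρ : ℝ) (h0 : 0 ≤ σ) (h1 : σ ≤ ρ)
    (h2 : ρ ≤ 1) :
    (KG k).MEquiv (Finsupp.single (Sum.inl a) ((k : ℤ) + 1))
      (∑ u : {u : Fin (k + 1) // u ≠ a},
        Finsupp.single (pp a u.1 u.2 (if u.1 = b then ρ - σ else ρ)) 1 +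
        Finsupp.single (pp a b hb σ) 1) := by
  obtain ⟨f, hf⟩ := star a b hb σ ρ h0 h1 h2
  refine ⟨f, fun q => ?_⟩
  rw [hf q, Finset.sum_sub_distrib, Finsupp.add_apply, Finsupp.finsetSum_apply]
  have h3 : (Finsupp.single (Sum.inl a) ((k : ℤ) + 1) : Pt (Fin (k + 1)) (KE k) →₀ ℤ) q =
      ((k : ℤ) + 1) * mind (Sum.inl a) q := by
    unfold mind
    rw [Finsupp.single_apply, Finsupp.single_apply]
    split_ifs <;> simp
  have h4 : ∑ _u : {u : Fin (k + 1) // u ≠ a}, mind (Sum.inl a) q =
      (k : ℤ) * mind (Sum.inl a) q := by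
    simp [Fintype.card_subtype_compl]
  rw [h3, h4]
  unfold mind
  ring

/-- all vertices carry one chip -/
theorem equivH (hk : 1 ≤ k) (a : Fin (k + 1)) :
    (KG k).MEquiv (Finsupp.single (Sum.inl a) ((k : ℤ) + 1))
      (∑ u : Fin (k + 1), Finsupp.single (Sum.inl u) 1) := by
  obtain ⟨b, hb⟩ : ∃ u : Fin (k + 1), u ≠ a := by
    have : Nontrivial (Fin (k + 1)) := Fin.nontrivial_iff_two_le.mpr (by omega)
    exact exists_ne a
  have h := star_equiv a b hb 0 1 le_rfl zero_le_one le_rfl
  have h1 : (∑ u : {u : Fin (k + 1) // u ≠ a},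
        Finsupp.single (pp a u.1 u.2 (if u.1 = b then 1 - 0 else 1)) (1 : ℤ) +
        Finsupp.single (pp a b hb 0) 1) = ∑ u : Fin (k + 1), Finsupp.single (Sum.inl u) 1 := by
    rw [pp_zero]
    have h2 : ∀ u : {u : Fin (k + 1) // u ≠ a},
        Finsupp.single (pp a u.1 u.2 (if u.1 = b then 1 - 0 else 1)) (1 : ℤ) =
        Finsupp.single (Sum.inl u.1) 1 := by
      intro u
      rw [sub_zero, ite_self, pp_one]
    rw [Finset.sum_congr rfl fun u _ => h2 u,
      Fintype.sum_eq_add_sum_subtype_ne (fun u => Finsupp.single (Sum.inl u) (1 : ℤ)) a]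
    exact add_comm _ _
  rwa [h1] at h

theorem win_star (hk : 1 ≤ k) (a b : Fin (k + 1)) (hb : b ≠ a) (σ ρ : ℝ) (h0 : 0 ≤ σ)
    (h1 : σ ≤ ρ) (h2 : ρ ≤ 1) (u : Fin (k + 1)) (hu : u ≠ a) :
    (KG k).Win (Finsupp.single (Sum.inl 0) ((k : ℤ) + 1) - (Finsupp.single (pp a b hb σ) 1 +
      Finsupp.single (pp a u hu (if u = b then ρ - σ else ρ)) 1)) := by
  classical
  refine MGraph.Win.of_equiv_sub ((equivH hk 0).trans (equivH hk a).symm) ?_
  refine MGraph.Win.of_equiv_sub (star_equiv a b hb σ ρ h0 h1 h2) ?_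
  refine MGraph.Win.of_nonneg _ fun w => ?_
  rw [Finsupp.sub_apply, Finsupp.add_apply, Finsupp.add_apply, Finsupp.finsetSum_apply]
  have h3 := Finset.single_le_sum (f := fun u : {u : Fin (k + 1) // u ≠ a} =>
    (Finsupp.single (pp a u.1 u.2 (if u.1 = b then ρ - σ else ρ)) (1 : ℤ)) w)
    (fun i _ => by rw [Finsupp.single_apply]; split_ifs <;> norm_num)
    (Finset.mem_univ (⟨u, hu⟩ : {u : Fin (k + 1) // u ≠ a}))
  simp only at h3
  linarith

theorem win_same (hk : 1 ≤ k) (a b e : Fin (k + 1)) (hb : b ≠ a) (he : e ≠ a) (s t : ℝ)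
    (hs : s ∈ Set.Icc (0 : ℝ) 1) (ht : t ∈ Set.Icc (0 : ℝ) 1) :
    (KG k).Win (Finsupp.single (Sum.inl 0) ((k : ℤ) + 1) - (Finsupp.single (pp a b hb s) 1 +
      Finsupp.single (pp a e he t) 1)) := by
  by_cases heb : e = b
  · subst heb
    rcases le_total (s + t) 1 with h | h
    · have := win_star hk a e hb s (s + t) hs.1 (by linarith [ht.1]) h e he
      rwa [if_pos rfl, add_sub_cancel_left] at this
    · rw [pp_symm a e hb s, pp_symm a e he t]
      have := win_star hk e a hb.symm (1 - s) (2 - s - t) (by linarith [hs.2])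
        (by linarith [ht.2]) (by linarith) a he.symm
      rw [if_pos rfl] at this
      have h3 : 2 - s - t - (1 - s) = 1 - t := by ring
      rwa [h3] at this
  · rcases le_total s t with h | h
    · have := win_star hk a b hb s t hs.1 h ht.2 e he
      rwa [if_neg heb] at this
    · have := win_star hk a e he t s ht.1 h hs.2 b hb
      rw [if_neg (fun h => heb h.symm), add_comm (Finsupp.single (pp a e he t) (1 : ℤ))] at this
      exact this

theorem win_edge (a b : Fin (k + 1)) (hb : b ≠ a) (s : ℝ) (hs : s ∈ Set.Icc (0 : ℝ) 1) :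
    (KG k).Win (Finsupp.single (Sum.inl a) 1 + Finsupp.single (Sum.inl b) 1 -
      Finsupp.single (pp a b hb s) 1) := by
  have h := MGraph.win_bump (KG k) (ke a b hb) (kp a b s) (kp_mem a b hs)
  change (KG k).Win (Finsupp.single (Sum.inl (ke a b hb).1.1) 1 +
    Finsupp.single (Sum.inl (ke a b hb).1.2) 1 - Finsupp.single (pp a b hb s) 1) at h
  by_cases h' : a < b
  · have h1 : (ke a b hb).1 = (a, b) := by
      unfold ke
      rw [dif_pos h']
    rwa [h1] at h
  · have h1 : (ke a b hb).1 = (b, a) := by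
      unfold ke
      rw [dif_neg h']
    rw [h1, add_comm (Finsupp.single (Sum.inl (b, a).1) (1 : ℤ))] at h
    exact h

/-- On the metric complete graph on `k + 1` vertices, `k + 1` chips at a vertex have rank at least
two. -/
theorem win_complete (hk : 1 ≤ k) (x y : Pt (Fin (k + 1)) (KE k)) :
    (KG k).Win (Finsupp.single (Sum.inl 0) ((k : ℤ) + 1) - (Finsupp.single x 1 +
      Finsupp.single y 1)) := by
  classical
  obtain ⟨a, b, hb, s, hs, rfl⟩ := exists_pp hk x
  obtain ⟨c, e, he, t, ht, rfl⟩ := exists_pp hk y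
  have hs' : 1 - s ∈ Set.Icc (0 : ℝ) 1 := ⟨by linarith [hs.2], by linarith [hs.1]⟩
  have ht' : 1 - t ∈ Set.Icc (0 : ℝ) 1 := ⟨by linarith [ht.2], by linarith [ht.1]⟩
  by_cases h1 : c = a
  · subst h1
    exact win_same hk c b e hb he s t hs ht
  by_cases h2 : c = b
  · subst h2
    rw [pp_symm a c hb s]
    exact win_same hk c a e hb.symm he (1 - s) t hs' ht
  by_cases h3 : e = a
  · subst h3
    rw [pp_symm c e he t]
    exact win_same hk e b c hb he.symm s (1 - t) hs ht'
  by_cases h4 : e = b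
  · subst h4
    rw [pp_symm c e he t, pp_symm a e hb s]
    exact win_same hk e a c hb.symm he.symm (1 - s) (1 - t) hs' ht'
  refine MGraph.Win.of_equiv_sub (equivH hk 0) ?_
  have h5 := (win_edge a b hb s hs).add (win_edge c e he t ht)
  have h6 : (KG k).Win (∑ u : Fin (k + 1), Finsupp.single (Sum.inl u) (1 : ℤ) -
      (Finsupp.single (Sum.inl a) 1 + Finsupp.single (Sum.inl b) 1 +
      (Finsupp.single (Sum.inl c) 1 + Finsupp.single (Sum.inl e) 1))) := by
    refine MGraph.Win.of_nonneg _ fun w => ?_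
    rw [Finsupp.sub_apply, Finsupp.add_apply, Finsupp.add_apply, Finsupp.add_apply,
      Finsupp.finsetSum_apply]
    rcases w with v | w
    · have h7 : ∑ u : Fin (k + 1), (Finsupp.single (Sum.inl u : Pt (Fin (k + 1)) (KE k)) (1 : ℤ))
          (Sum.inl v) = 1 := by
        simp [Finsupp.single_apply]
      rw [h7]
      simp only [Finsupp.single_apply, Sum.inl.injEq]
      by_cases c1 : a = v
      · subst c1
        rw [if_pos rfl, if_neg hb, if_neg h1, if_neg h3]
        norm_num
      by_cases c2 : b = v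
      · subst c2
        rw [if_neg c1, if_pos rfl, if_neg h2, if_neg h4]
        norm_num
      by_cases c3 : c = v
      · subst c3
        rw [if_neg c1, if_neg c2, if_pos rfl, if_neg he]
        norm_num
      rw [if_neg c1, if_neg c2, if_neg c3]
      split_ifs <;> norm_num
    · simp [Finsupp.single_apply]
  have h8 := h5.add h6
  have h9 : (Finsupp.single (Sum.inl a) (1 : ℤ) + Finsupp.single (Sum.inl b) 1 -
      Finsupp.single (pp a b hb s) 1 + (Finsupp.single (Sum.inl c) 1 +
      Finsupp.single (Sum.inl e) 1 - Finsupp.single (pp c e he t) 1) +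
      (∑ u : Fin (k + 1), Finsupp.single (Sum.inl u) (1 : ℤ) -
      (Finsupp.single (Sum.inl a) 1 + Finsupp.single (Sum.inl b) 1 +
      (Finsupp.single (Sum.inl c) 1 + Finsupp.single (Sum.inl e) 1)))) =
      ∑ u : Fin (k + 1), Finsupp.single (Sum.inl u) (1 : ℤ) -
      (Finsupp.single (pp a b hb s) 1 + Finsupp.single (pp c e he t) 1) := by abel
  rwa [h9] at h8

end Q122.Gon
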