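import Pool.Agent.Q122.Gon.HRank

set_option autoImplicit false

/-!
# Truncation of rational functions, the cut bound, and the clique bound
-/

namespace Q122.Gon

open Filter Topology

theorem PLOn.const (c : ℝ) {g : ℝ → ℝ} {a b : ℝ} (hab : a < b)
    (h : ∀ x ∈ Set.Icc a b, g x = c) : PLOn g a b :=
  PLOn.affine 0 hab (fun x hx => by
    rw [h x hx, h a ⟨le_rfl, hab.le⟩]
    simp)

theorem PLOn.maxc {g : ℝ → ℝ} {a b : ℝ} (h : PLOn g a b) (c : ℝ) :
    PLOn (fun x => max (g x) c) a b := by
  induction h with
  | @affine a b s hab hs =>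
    have hgb : g b = g a + s * (b - a) := hs b ⟨hab.le, le_rfl⟩
    have hba : 0 < b - a := sub_pos.mpr hab
    rcases le_total c (g a) with h1 | h1
    · rcases le_total c (g b) with h2 | h2
      · -- above
        refine PLOn.affine s hab fun x hx => ?_
        have h3 : c ≤ g x := by
          rw [hs x hx]
          rcases le_total 0 (s : ℝ) with h4 | h4
          · have := mul_nonneg h4 (sub_nonneg.mpr hx.1)
            linarith
          · have h5 : (s : ℝ) * (b - a) ≤ s * (x - a) :=
              mul_le_mul_of_nonpos_left (by linarith [hx.2]) h4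
            linarith
        simp only [max_eq_left h1, max_eq_left h3]
        exact hs x hx
      · rcases h1.eq_or_lt with h1 | h1
        · -- starts at c and goes down
          refine PLOn.const c hab fun x hx => ?_
          have h4 : (s : ℝ) * (b - a) ≤ 0 := by linarith
          have h5 : (s : ℝ) ≤ 0 := by
            by_contra h6
            push Not at h6
            have := mul_pos h6 hba
            linarith
          have h7 := mul_nonpos_of_nonpos_of_nonneg h5 (sub_nonneg.mpr hx.1)
          rw [max_eq_right]
          rw [hs x hx]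
          linarith
        · -- crossing downwards
          have hs0 : (s : ℝ) < 0 := by
            by_contra h6
            push Not at h6
            have := mul_nonneg h6 hba.le
            linarith
          rcases h2.eq_or_lt with h2 | h2
          · refine PLOn.affine s hab fun x hx => ?_
            have h3 : c ≤ g x := by
              rw [hs x hx]
              have h5 : (s : ℝ) * (b - a) ≤ s * (x - a) :=
                mul_le_mul_of_nonpos_left (by linarith [hx.2]) hs0.le
              linarith
            simp only [max_eq_left h1.le, max_eq_left h3]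
            exact hs x hx
          · set m : ℝ := a + (c - g a) / s with hm
            have hms : (s : ℝ) * (m - a) = c - g a := by
              have hsne : (s : ℝ) ≠ 0 := hs0.ne
              rw [hm, add_sub_cancel_left]
              field_simp
            have ham : a < m := by
              have : 0 < (c - g a) / s := div_pos_of_neg_of_neg (by linarith) hs0
              linarith
            have hmb : m < b := by
              by_contra h6
              push Not at h6
              have h5 : (s : ℝ) * (m - a) ≤ s * (b - a) :=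
                mul_le_mul_of_nonpos_left (by linarith) hs0.le
              linarith
            refine PLOn.glue (c := m) ?_ ?_
            · refine PLOn.affine s ham fun x hx => ?_
              have h3 : c ≤ g x := by
                rw [hs x ⟨hx.1, hx.2.trans hmb.le⟩]
                have h5 : (s : ℝ) * (m - a) ≤ s * (x - a) :=
                  mul_le_mul_of_nonpos_left (by linarith [hx.2]) hs0.le
                linarith
              simp only [max_eq_left h1.le, max_eq_left h3]
              exact hs x ⟨hx.1, hx.2.trans hmb.le⟩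
            · refine PLOn.const c hmb fun x hx => ?_
              rw [max_eq_right]
              rw [hs x ⟨ham.le.trans hx.1, hx.2⟩]
              have h5 : (s : ℝ) * (x - a) ≤ s * (m - a) :=
                mul_le_mul_of_nonpos_left (by linarith [hx.1]) hs0.le
              linarith
    · rcases le_total (g b) c with h2 | h2
      · -- below
        refine PLOn.const c hab fun x hx => ?_
        rw [max_eq_right]
        rw [hs x hx]
        rcases le_total 0 (s : ℝ) with h4 | h4
        · have h5 : (s : ℝ) * (x - a) ≤ s * (b - a) :=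
            mul_le_mul_of_nonneg_left (by linarith [hx.2]) h4
          linarith
        · have := mul_nonpos_of_nonpos_of_nonneg h4 (sub_nonneg.mpr hx.1)
          linarith
      · rcases h1.eq_or_lt with h1 | h1
        · -- starts at c and goes up
          refine PLOn.affine s hab fun x hx => ?_
          have h4 : 0 ≤ (s : ℝ) * (b - a) := by linarith
          have h5 : 0 ≤ (s : ℝ) := by
            by_contra h6
            push Not at h6
            have := mul_neg_of_neg_of_pos h6 hba
            linarith
          have h7 := mul_nonneg h5 (sub_nonneg.mpr hx.1)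
          have h3 : c ≤ g x := by
            rw [hs x hx]
            linarith
          simp only [max_eq_left h1.ge, max_eq_left h3]
          exact hs x hx
        · have hs0 : 0 < (s : ℝ) := by
            by_contra h6
            push Not at h6
            have := mul_nonpos_of_nonpos_of_nonneg h6 hba.le
            linarith
          rcases h2.eq_or_lt with h2 | h2
          · refine PLOn.const c hab fun x hx => ?_
            rw [max_eq_right]
            rw [hs x hx]
            have h5 : (s : ℝ) * (x - a) ≤ s * (b - a) :=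
              mul_le_mul_of_nonneg_left (by linarith [hx.2]) hs0.le
            linarith
          · set m : ℝ := a + (c - g a) / s with hm
            have hms : (s : ℝ) * (m - a) = c - g a := by
              rw [hm, add_sub_cancel_left]
              field_simp
            have ham : a < m := by
              have : 0 < (c - g a) / s := div_pos (by linarith) hs0
              linarith
            have hmb : m < b := by
              by_contra h6
              push Not at h6
              have h5 : (s : ℝ) * (b - a) ≤ s * (m - a) :=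
                mul_le_mul_of_nonneg_left (by linarith) hs0.le
              linarith
            refine PLOn.glue (c := m) ?_ ?_
            · refine PLOn.const c ham fun x hx => ?_
              rw [max_eq_right]
              rw [hs x ⟨hx.1, hx.2.trans hmb.le⟩]
              have h5 : (s : ℝ) * (x - a) ≤ s * (m - a) :=
                mul_le_mul_of_nonneg_left (by linarith [hx.2]) hs0.le
              linarith
            · have hgm : g m = c := by
                rw [hs m ⟨ham.le, hmb.le⟩]
                linarith
              refine PLOn.affine s hmb fun x hx => ?_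
              have h5 : (s : ℝ) * (m - a) ≤ s * (x - a) :=
                mul_le_mul_of_nonneg_left (by linarith [hx.1]) hs0.le
              have h3 : c ≤ g x := by
                rw [hs x ⟨ham.le.trans hx.1, hx.2⟩]
                linarith
              simp only [max_eq_left h3, hgm, max_self]
              rw [hs x ⟨ham.le.trans hx.1, hx.2⟩]
              linarith
  | glue _ _ ih1 ih2 => exact PLOn.glue ih1 ih2

variable {V E : Type}

/-- near a point where a linear germ is above `c` it stays above `c` -/
theorem germ_gt (x v c : ℝ) (s : ℤ) (h : c < v) : ∀ᶠ y in 𝓝 x, c < v + s * (y - x) := by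
  have h1 : ContinuousAt (fun y : ℝ => v + s * (y - x)) x := by fun_prop
  have h2 : c < (fun y : ℝ => v + s * (y - x)) x := by simpa using h
  exact h1.eventually (lt_mem_nhds h2)

theorem germ_lt (x v c : ℝ) (s : ℤ) (h : v < c) : ∀ᶠ y in 𝓝 x, v + s * (y - x) < c := by
  have h1 : ContinuousAt (fun y : ℝ => v + s * (y - x)) x := by fun_prop
  have h2 : (fun y : ℝ => v + s * (y - x)) x < c := by simpa using h
  exact h1.eventually (gt_mem_nhds h2)

open Classical in
/-- maximum of a rational function and a constant -/
noncomputable def RatFun.maxc {G : MGraph V E} (f : RatFun G) (c : ℝ) : RatFun G where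
  val := fun v => max (f.val v) c
  fn := fun e x => max (f.fn e x) c
  fn_zero := fun e => by rw [f.fn_zero]
  fn_one := fun e => by rw [f.fn_one]
  pl := fun e => (f.pl e).maxc c
  slR := fun e x => if c < f.fn e x then f.slR e x else if f.fn e x < c then 0 else
    max (f.slR e x) 0
  slL := fun e x => if c < f.fn e x then f.slL e x else if f.fn e x < c then 0 else
    min (f.slL e x) 0
  slR_spec := fun e x hx => by
    split_ifs with h1 h2
    · filter_upwards [f.slR_spec e x hx, (germ_gt x (f.fn e x) c (f.slR e x) h1).filter_mono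
        nhdsWithin_le_nhds] with y h3 h4
      rw [max_eq_left h1.le, h3, max_eq_left h4.le]
    · filter_upwards [f.slR_spec e x hx, (germ_lt x (f.fn e x) c (f.slR e x) h2).filter_mono
        nhdsWithin_le_nhds] with y h3 h4
      rw [max_eq_right h2.le, h3, max_eq_right h4.le]
      simp
    · have h5 : f.fn e x = c := le_antisymm (not_lt.mp h1) (not_lt.mp h2)
      filter_upwards [f.slR_spec e x hx, self_mem_nhdsWithin] with y h3 h4
      have h6 : 0 < y - x := sub_pos.mpr h4
      rw [h3, h5, max_self]
      push_cast
      rcases le_total 0 (f.slR e x) with h7 | h7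
      · have h8 : (0 : ℝ) ≤ (f.slR e x : ℝ) := by exact_mod_cast h7
        rw [max_eq_left h8, max_eq_left]
        have := mul_nonneg h8 h6.le
        linarith
      · have h8 : (f.slR e x : ℝ) ≤ 0 := by exact_mod_cast h7
        rw [max_eq_right h8, max_eq_right]
        · ring
        · have := mul_nonpos_of_nonpos_of_nonneg h8 h6.le
          linarith
  slL_spec := fun e x hx => by
    split_ifs with h1 h2
    · filter_upwards [f.slL_spec e x hx, (germ_gt x (f.fn e x) c (f.slL e x) h1).filter_mono
        nhdsWithin_le_nhds] with y h3 h4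
      rw [max_eq_left h1.le, h3, max_eq_left h4.le]
    · filter_upwards [f.slL_spec e x hx, (germ_lt x (f.fn e x) c (f.slL e x) h2).filter_mono
        nhdsWithin_le_nhds] with y h3 h4
      rw [max_eq_right h2.le, h3, max_eq_right h4.le]
      simp
    · have h5 : f.fn e x = c := le_antisymm (not_lt.mp h1) (not_lt.mp h2)
      filter_upwards [f.slL_spec e x hx, self_mem_nhdsWithin] with y h3 h4
      have h6 : y - x < 0 := sub_neg.mpr h4
      rw [h3, h5, max_self]
      push_cast
      rcases le_total 0 (f.slL e x) with h7 | h7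
      · have h8 : (0 : ℝ) ≤ (f.slL e x : ℝ) := by exact_mod_cast h7
        rw [min_eq_right h8, max_eq_right]
        · ring
        · have := mul_nonpos_of_nonneg_of_nonpos h8 h6.le
          linarith
      · have h8 : (f.slL e x : ℝ) ≤ 0 := by exact_mod_cast h7
        rw [min_eq_left h8, max_eq_left]
        have := mul_nonneg_of_nonpos_of_nonpos h8 h6.le
        linarith

section

variable [Fintype E] [DecidableEq V]

theorem RatFun.maxc_div_nonneg {G : MGraph V E} (f : RatFun G) (c : ℝ) (v : V)
    (hv : f.val v = c) : 0 ≤ (f.maxc c).div (Sum.inl v) ∧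
      f.div (Sum.inl v) ≤ (f.maxc c).div (Sum.inl v) := by
  have key : ∀ e, (0 ≤ (if G.src e = v then (f.maxc c).slR e 0 else 0) +
      (if G.tgt e = v then - (f.maxc c).slL e 1 else 0)) ∧
      ((if G.src e = v then f.slR e 0 else 0) +
      (if G.tgt e = v then - f.slL e 1 else 0) ≤ (if G.src e = v then (f.maxc c).slR e 0 else 0) +
      (if G.tgt e = v then - (f.maxc c).slL e 1 else 0)) := by
    intro e
    have h1 : G.src e = v → (f.maxc c).slR e 0 = max (f.slR e 0) 0 := by
      intro h
      simp only [RatFun.maxc]
      rw [f.fn_zero, h, hv, if_neg (lt_irrefl _), if_neg (lt_irrefl _)]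
    have h2 : G.tgt e = v → (f.maxc c).slL e 1 = min (f.slL e 1) 0 := by
      intro h
      simp only [RatFun.maxc]
      rw [f.fn_one, h, hv, if_neg (lt_irrefl _), if_neg (lt_irrefl _)]
    have m1 := le_max_left (f.slR e 0) 0
    have m2 := le_max_right (f.slR e 0) 0
    have m3 := min_le_left (f.slL e 1) 0
    have m4 := min_le_right (f.slL e 1) 0
    split_ifs with a b b
    · rw [h1 a, h2 b]
      constructor <;> linarith
    · rw [h1 a]
      constructor <;> linarith
    · rw [h2 b]
      constructor <;> linarith
    · constructor <;> linarith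
  exact ⟨Finset.sum_nonneg fun e _ => (key e).1, Finset.sum_le_sum fun e _ => (key e).2⟩

theorem RatFun.maxc_eff {G : MGraph V E} (f : RatFun G) (c : ℝ) (D : Pt V E → ℤ)
    (h0 : ∀ q, 0 ≤ D q) (h1 : ∀ q, 0 ≤ D q + f.div q) (q : Pt V E) :
    0 ≤ D q + (f.maxc c).div q := by
  rcases q with v | ⟨e, x⟩
  · rcases lt_trichotomy c (f.val v) with h | h | h
    · have : (f.maxc c).div (Sum.inl v) = f.div (Sum.inl v) := by
        simp only [RatFun.div]
        refine Finset.sum_congr rfl fun e _ => ?_
        congr 1
        · by_cases hs : G.src e = v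
          · rw [if_pos hs, if_pos hs]
            simp only [RatFun.maxc]
            rw [f.fn_zero, hs, if_pos h]
          · rw [if_neg hs, if_neg hs]
        · by_cases hs : G.tgt e = v
          · rw [if_pos hs, if_pos hs]
            simp only [RatFun.maxc]
            rw [f.fn_one, hs, if_pos h]
          · rw [if_neg hs, if_neg hs]
      rw [this]
      exact h1 _
    · exact add_nonneg (h0 _) (f.maxc_div_nonneg c v h.symm).1
    · have : (f.maxc c).div (Sum.inl v) = 0 := by
        simp only [RatFun.div]
        refine Finset.sum_eq_zero fun e _ => ?_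
        have e1 : (if G.src e = v then (f.maxc c).slR e 0 else 0) = 0 := by
          by_cases hs : G.src e = v
          · rw [if_pos hs]
            simp only [RatFun.maxc]
            rw [f.fn_zero, hs, if_neg (not_lt.mpr h.le), if_pos h]
          · rw [if_neg hs]
        have e2 : (if G.tgt e = v then - (f.maxc c).slL e 1 else 0) = 0 := by
          by_cases hs : G.tgt e = v
          · rw [if_pos hs]
            simp only [RatFun.maxc]
            rw [f.fn_one, hs, if_neg (not_lt.mpr h.le), if_pos h, neg_zero]
          · rw [if_neg hs]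
        rw [e1, e2, add_zero]
      rw [this, add_zero]
      exact h0 _
  · have h2 := h1 (Sum.inr (e, x))
    have h3 := h0 (Sum.inr (e, x))
    simp only [RatFun.div] at h2 ⊢
    simp only [RatFun.maxc]
    split_ifs with h4 h5
    · exact h2
    · linarith
    · have m2 := le_max_right (f.slR e x) 0
      have m4 := min_le_right (f.slL e x) 0
      linarith

end

/-- Piecewise linear functions have finitely many break points. -/
theorem PLOn.finite_breaks {g : ℝ → ℝ} {a b : ℝ} (h : PLOn g a b) (R L : ℝ → ℤ)
    (hR : ∀ x ∈ Set.Ico a b, ∀ᶠ y in 𝓝[>] x, g y = g x + R x * (y - x))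
    (hL : ∀ x ∈ Set.Ioc a b, ∀ᶠ y in 𝓝[<] x, g y = g x + L x * (y - x)) :
    Set.Finite {x | x ∈ Set.Ioo a b ∧ R x ≠ L x} := by
  induction h with
  | @affine a b s hab hs =>
    refine Set.Finite.subset Set.finite_empty ?_
    rintro x ⟨⟨hx1, hx2⟩, hne⟩
    exfalso
    refine hne ?_
    have h1 : R x = s := by
      refine slope_unique_right (hR x ⟨hx1.le, hx2⟩) ?_
      filter_upwards [Ioc_mem_nhdsGT hx2] with y hy
      rw [hs y ⟨hx1.le.trans hy.1.le, hy.2⟩, hs x ⟨hx1.le, hx2.le⟩]
      ring
    have h2 : L x = s := by
      refine slope_unique_left (hL x ⟨hx1, hx2.le⟩) ?_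
      filter_upwards [Ico_mem_nhdsLT hx1] with y hy
      rw [hs y ⟨hy.1, hy.2.le.trans hx2.le⟩, hs x ⟨hx1.le, hx2.le⟩]
      ring
    rw [h1, h2]
  | @glue a c b h1 h2 ih1 ih2 =>
    have hac := h1.lt
    have hcb := h2.lt
    have i1 := ih1 (fun x hx => hR x ⟨hx.1, hx.2.trans hcb⟩)
      (fun x hx => hL x ⟨hx.1, hx.2.trans hcb.le⟩)
    have i2 := ih2 (fun x hx => hR x ⟨hac.le.trans hx.1, hx.2⟩)
      (fun x hx => hL x ⟨hac.trans_le hx.1.le, hx.2⟩)
    refine ((i1.union i2).union (Set.finite_singleton c)).subset ?_
    rintro x ⟨⟨hx1, hx2⟩, hne⟩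
    rcases lt_trichotomy x c with h | h | h
    · exact Or.inl (Or.inl ⟨⟨hx1, h⟩, hne⟩)
    · exact Or.inr h
    · exact Or.inl (Or.inr ⟨⟨h, hx2⟩, hne⟩)

namespace MGraph

section

variable [Fintype V] [Fintype E] [DecidableEq V]

/-- The divisor of a rational function is finitely supported. -/
theorem exists_div {G : MGraph V E} (f : RatFun G) : ∃ D : Pt V E →₀ ℤ, ∀ q, D q = f.div q := by
  have hfin : Set.Finite (Function.support f.div) := by
    have h1 : ∀ e, Set.Finite {x : Set.Ioo (0 : ℝ) 1 | f.slR e x.1 ≠ f.slL e x.1} := by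
      intro e
      have := (f.pl e).finite_breaks (f.slR e) (f.slL e) (f.slR_spec e) (f.slL_spec e)
      refine Set.Finite.of_finite_image (f := Subtype.val) (this.subset ?_)
        Subtype.val_injective.injOn
      rintro _ ⟨x, hx, rfl⟩
      exact ⟨x.2, hx⟩
    have h2 : Function.support f.div ⊆ Set.range (Sum.inl : V → Pt V E) ∪
        ⋃ e : E, (fun x => (Sum.inr (e, x) : Pt V E)) ''
          {x : Set.Ioo (0 : ℝ) 1 | f.slR e x.1 ≠ f.slL e x.1} := by
      rintro (v | ⟨e, x⟩) hq
      · exact Or.inl ⟨v, rfl⟩
      · right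
        rw [Set.mem_iUnion]
        refine ⟨e, x, ?_, rfl⟩
        intro h
        refine hq ?_
        simp only [RatFun.div]
        rw [h]
        ring
    refine Set.Finite.subset ?_ h2
    exact (Set.finite_range _).union (Set.finite_iUnion fun e => (h1 e).image _)
  exact ⟨Finsupp.ofSupportFinite f.div hfin, fun q => rfl⟩

theorem mdeg_equiv {G : MGraph V E} {D D' : Pt V E →₀ ℤ} (h : G.MEquiv D D') :
    mdeg D' = mdeg D := by
  obtain ⟨f, hf⟩ := h
  have h1 := mdeg_div G f (D' - D) (fun q => by rw [Finsupp.sub_apply, hf]; ring)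
  have h2 := mdeg_add D (D' - D)
  rw [add_sub_cancel, h1, add_zero] at h2
  exact h2

theorem edge_bounds (G : MGraph V E) (D : Pt V E →₀ ℤ) (hD : ∀ q, 0 ≤ D q) (f : RatFun G)
    (hf : ∀ q, 0 ≤ D q + f.div q) (e : E) :
    f.slR e 0 - inner D e ≤ f.slL e 1 ∧
    ((f.slR e 0 - inner D e : ℤ) : ℝ) ≤ f.val (G.tgt e) - f.val (G.src e) ∧
    f.val (G.tgt e) - f.val (G.src e) ≤ ((f.slL e 1 + inner D e : ℤ) : ℝ) := by
  classical
  obtain ⟨b0, b1, b2⟩ := (f.pl e).slope_bound (f.slR e) (f.slL e) (chipSet D e) (onEdge D e)
    (by
      intro x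
      unfold onEdge
      split_ifs
      · exact hD _
      · exact le_rfl) (mem_chipSet D e) (f.slR_spec e) (f.slL_spec e)
    (by
      intro x hx
      unfold onEdge
      rw [dif_pos (show 0 < x ∧ x < 1 from hx)]
      have h3 := hf (Sum.inr (e, ⟨x, hx⟩))
      simp only [RatFun.div] at h3
      linarith)
  rw [between_eq] at b0 b1 b2
  rw [f.fn_zero, f.fn_one] at b1 b2
  refine ⟨b0, ?_, ?_⟩
  · linarith
  · linarith

open Classical in
/-- the edge `e` joins a vertex where `f` has the value `t` to one where it has not -/
noncomputable def crossing (G : MGraph V E) (f : V → ℝ) (t : ℝ) (e : E) : ℤ :=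
  if (f (G.src e) = t ∧ f (G.tgt e) ≠ t) ∨ (f (G.src e) ≠ t ∧ f (G.tgt e) = t) then 1 else 0

/-- The cut bound: if `D` and `D + div f` are effective then the degree of `D` is at least the
size of the cut around the vertices where `f` is maximal. -/
theorem cut (G : MGraph V E) (D : Pt V E →₀ ℤ) (hD : ∀ q, 0 ≤ D q) (f : RatFun G)
    (hf : ∀ q, 0 ≤ D q + f.div q) (t : ℝ) (ht : ∀ v, f.val v ≤ t) :
    ∑ e, G.crossing f.val t e ≤ mdeg D := by
  classical
  have key : ∀ e, G.crossing f.val t e + ((if f.val (G.src e) = t then f.slR e 0 else 0) +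
      (if f.val (G.tgt e) = t then - f.slL e 1 else 0)) ≤ inner D e := by
    intro e
    obtain ⟨b0, b1, b2⟩ := G.edge_bounds D hD f hf e
    have h0 := inner_nonneg D hD e
    have hs := ht (G.src e)
    have htt := ht (G.tgt e)
    unfold crossing
    by_cases c1 : f.val (G.src e) = t
    · by_cases c2 : f.val (G.tgt e) = t
      · rw [if_neg, if_pos c1, if_pos c2]
        · linarith
        · rintro (⟨_, h⟩ | ⟨h, _⟩)
          · exact h c2
          · exact h c1
      · rw [if_pos (Or.inl ⟨c1, c2⟩), if_pos c1, if_neg c2]
        have h3 : f.val (G.tgt e) < t := lt_of_le_of_ne htt c2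
        have h4 : ((f.slR e 0 - inner D e : ℤ) : ℝ) < 0 := by linarith
        have h5 : f.slR e 0 - inner D e < 0 := by exact_mod_cast h4
        linarith
    · by_cases c2 : f.val (G.tgt e) = t
      · rw [if_pos (Or.inr ⟨c1, c2⟩), if_neg c1, if_pos c2]
        have h3 : f.val (G.src e) < t := lt_of_le_of_ne hs c1
        have h4 : (0 : ℝ) < ((f.slL e 1 + inner D e : ℤ) : ℝ) := by linarith
        have h5 : 0 < f.slL e 1 + inner D e := by exact_mod_cast h4
        linarith
      · rw [if_neg, if_neg c1, if_neg c2]
        · linarith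
        · rintro (⟨h, _⟩ | ⟨_, h⟩)
          · exact c1 h
          · exact c2 h
  have hsum := Finset.sum_le_sum (s := Finset.univ) fun e (_ : e ∈ Finset.univ) => key e
  rw [Finset.sum_add_distrib] at hsum
  have h1 : ∑ e, ((if f.val (G.src e) = t then f.slR e 0 else 0) +
      (if f.val (G.tgt e) = t then - f.slL e 1 else 0)) =
      ∑ v ∈ Finset.univ.filter (fun v => f.val v = t), f.div (Sum.inl v) := by
    simp only [RatFun.div]
    rw [Finset.sum_comm]
    refine Finset.sum_congr rfl fun e _ => ?_
    rw [Finset.sum_add_distrib, Finset.sum_ite_eq, Finset.sum_ite_eq]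
    simp
  have h2 : - ∑ v, D (Sum.inl v) ≤
      ∑ v ∈ Finset.univ.filter (fun v => f.val v = t), f.div (Sum.inl v) := by
    have h3 : ∑ v ∈ Finset.univ.filter (fun v => f.val v = t), - D (Sum.inl v) ≤
        ∑ v ∈ Finset.univ.filter (fun v => f.val v = t), f.div (Sum.inl v) :=
      Finset.sum_le_sum fun v _ => by have := hf (Sum.inl v); linarith
    have h4 : ∑ v ∈ Finset.univ.filter (fun v => f.val v = t), D (Sum.inl v) ≤
        ∑ v, D (Sum.inl v) :=
      Finset.sum_le_sum_of_subset_of_nonneg (Finset.filter_subset _ _) fun v _ _ => hD _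
    rw [Finset.sum_neg_distrib] at h3
    linarith
  rw [mdeg_eq, ← sum_inner]
  rw [h1] at hsum
  linarith

theorem vertex_sum_le {α : Type} [Fintype α] (D : Pt V E →₀ ℤ) (hD : ∀ q, 0 ≤ D q) (β : α → V)
    (hβ : Function.Injective β) : ∑ i, D (Sum.inl (β i)) ≤ mdeg D := by
  classical
  rw [mdeg_eq, ← sum_inner]
  have h1 : 0 ≤ ∑ e, inner D e := Finset.sum_nonneg fun e _ => inner_nonneg D hD e
  have h2 : ∑ i, D (Sum.inl (β i)) = ∑ v ∈ Finset.univ.image β, D (Sum.inl v) :=
    (Finset.sum_image (f := fun v => D (Sum.inl v)) fun a _ b _ h => hβ h).symm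
  have h3 : ∑ v ∈ Finset.univ.image β, D (Sum.inl v) ≤ ∑ v, D (Sum.inl v) :=
    Finset.sum_le_sum_of_subset_of_nonneg (Finset.subset_univ _) fun v _ _ => hD _
  linarith

/-- The function is constant on a clique with more than `deg D` vertices. -/
theorem clique_const (G : MGraph V E) (k : ℕ) (β : Fin (k + 1) → V) (hβ : Function.Injective β)
    (hadj : ∀ i j, i ≠ j → ∃ e, (G.src e = β i ∧ G.tgt e = β j) ∨
      (G.src e = β j ∧ G.tgt e = β i))
    (D : Pt V E →₀ ℤ) (hD : ∀ q, 0 ≤ D q) (hdeg : mdeg D < k) (f : RatFun G)
    (hf : ∀ q, 0 ≤ D q + f.div q) (i j : Fin (k + 1)) : f.val (β i) = f.val (β j) := by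
  classical
  obtain ⟨i0, -, hi0⟩ := Finset.exists_min_image Finset.univ (fun i => f.val (β i))
    ⟨i, Finset.mem_univ i⟩
  set c := f.val (β i0) with hc
  suffices h : ∀ j, f.val (β j) = c by rw [h i, h j]
  by_contra hcon
  push Not at hcon
  obtain ⟨j0, hj0⟩ := hcon
  -- truncate
  obtain ⟨A, hA⟩ := exists_div (f.maxc c)
  set D1 : Pt V E →₀ ℤ := D + A with hD1
  have hD1' : ∀ q, D1 q = D q + (f.maxc c).div q := fun q => by
    rw [hD1, Finsupp.add_apply, hA]
  have h1 : ∀ q, 0 ≤ D1 q := by
    intro q
    rw [hD1']
    exact f.maxc_eff c D hD hf q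
  have h2 : ∀ q, 0 ≤ D1 q + (f.maxc c).neg.div q := by
    intro q
    rw [hD1', RatFun.div_neg]
    have := hD q
    linarith
  have h3 : mdeg D1 = mdeg D := mdeg_equiv ⟨f.maxc c, hD1'⟩
  have h4 := G.cut D1 h1 (f.maxc c).neg h2 (-c) (fun v => by
    change - max (f.val v) c ≤ -c
    exact neg_le_neg (le_max_right _ _))
  -- the values
  have hval : ∀ j, ((f.maxc c).neg.val (β j) = -c ↔ f.val (β j) = c) := by
    intro j
    change - max (f.val (β j)) c = -c ↔ _
    have h5 := hi0 j (Finset.mem_univ j)
    rw [max_eq_left h5, neg_inj]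
  choose ed hed using hadj
  -- crossing edges
  have hcross : ∀ i j, (h : i ≠ j) → f.val (β i) = c → f.val (β j) ≠ c →
      G.crossing (f.maxc c).neg.val (-c) (ed i j h) = 1 := by
    intro i j h h5 h6
    unfold crossing
    have h5' := (hval i).mpr h5
    have h6' : ¬ _ := fun h => h6 ((hval j).mp h)
    rcases hed i j h with ⟨e1, e2⟩ | ⟨e1, e2⟩
    · rw [if_pos]
      left
      rw [e1, e2]
      exact ⟨h5', h6'⟩
    · rw [if_pos]
      right
      rw [e1, e2]
      exact ⟨h6', h5'⟩
  have hne : ∀ j : Fin (k + 1), f.val (β j) = c → j ≠ j0 := by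
    intro j h5 h6
    rw [h6] at h5
    exact hj0 h5
  set F : {j : Fin (k + 1) // j ≠ i0} → E := fun j =>
    if h : f.val (β j.1) = c then ed j.1 j0 (hne j.1 h) else ed i0 j.1 j.2.symm with hF
  have hFc : ∀ j, G.crossing (f.maxc c).neg.val (-c) (F j) = 1 := by
    intro j
    simp only [hF]
    by_cases h : f.val (β j.1) = c
    · rw [dif_pos h]
      exact hcross _ _ _ h hj0
    · rw [dif_neg h]
      exact hcross _ _ _ rfl h
  have hends : ∀ (i j : Fin (k + 1)) (h : i ≠ j) (i' j' : Fin (k + 1)) (h' : i' ≠ j'),
      ed i j h = ed i' j' h' → (i = i' ∧ j = j') ∨ (i = j' ∧ j = i') := by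
    intro i j h i' j' h' he
    have a1 := hed i j h
    have a2 := hed i' j' h'
    rw [← he] at a2
    rcases a1 with ⟨e1, e2⟩ | ⟨e1, e2⟩ <;> rcases a2 with ⟨e3, e4⟩ | ⟨e3, e4⟩
    · exact Or.inl ⟨hβ (e1.symm.trans e3), hβ (e2.symm.trans e4)⟩
    · exact Or.inr ⟨hβ (e1.symm.trans e3), hβ (e2.symm.trans e4)⟩
    · exact Or.inr ⟨hβ (e2.symm.trans e4), hβ (e1.symm.trans e3)⟩
    · exact Or.inl ⟨hβ (e2.symm.trans e4), hβ (e1.symm.trans e3)⟩
  have hFinj : Function.Injective F := by
    intro a b hab
    simp only [hF] at hab
    by_cases ha : f.val (β a.1) = c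
    · by_cases hb : f.val (β b.1) = c
      · rw [dif_pos ha, dif_pos hb] at hab
        rcases hends _ _ _ _ _ _ hab with ⟨h, _⟩ | ⟨h, _⟩
        · exact Subtype.ext h
        · exact absurd h (hne _ ha)
      · rw [dif_pos ha, dif_neg hb] at hab
        rcases hends _ _ _ _ _ _ hab with ⟨h, _⟩ | ⟨h, _⟩
        · exact absurd h a.2
        · rw [h] at ha
          exact absurd ha hb
    · by_cases hb : f.val (β b.1) = c
      · rw [dif_neg ha, dif_pos hb] at hab
        rcases hends _ _ _ _ _ _ hab with ⟨h, _⟩ | ⟨_, h⟩
        · exact absurd h.symm b.2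
        · rw [h] at ha
          exact absurd hb ha
      · rw [dif_neg ha, dif_neg hb] at hab
        rcases hends _ _ _ _ _ _ hab with ⟨_, h⟩ | ⟨h, _⟩
        · exact Subtype.ext h
        · exact absurd h.symm b.2
  have h5 : (k : ℤ) ≤ ∑ e, G.crossing (f.maxc c).neg.val (-c) e := by
    have h6 : ∑ e ∈ Finset.univ.image F, G.crossing (f.maxc c).neg.val (-c) e ≤
        ∑ e, G.crossing (f.maxc c).neg.val (-c) e := by
      refine Finset.sum_le_sum_of_subset_of_nonneg (Finset.subset_univ _) fun e _ _ => ?_
      unfold crossing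
      split_ifs <;> norm_num
    rw [Finset.sum_image fun a _ b _ h => hFinj h, Finset.sum_congr rfl fun j _ => hFc j] at h6
    have h7 : ∑ _j : {j : Fin (k + 1) // j ≠ i0}, (1 : ℤ) = k := by
      simp [Fintype.card_subtype_compl]
    rw [h7] at h6
    exact h6
  linarith

/-- The gonality of a metric graph is at least the clique number minus one. -/
theorem clique_bound [DecidableEq E] (G : MGraph V E) (k : ℕ) (β : Fin (k + 1) → V)
    (hβ : Function.Injective β)
    (hadj : ∀ i j, i ≠ j → ∃ e, (G.src e = β i ∧ G.tgt e = β j) ∨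
      (G.src e = β j ∧ G.tgt e = β i)) : k ≤ G.mdgon := by
  classical
  by_contra hcon
  push Not at hcon
  obtain ⟨D, hdeg, hr⟩ := Nat.sInf_mem G.mdgonSet_nonempty
  change mdeg D = (G.mdgon : ℤ) at hdeg
  have hlt : mdeg D < (k : ℤ) := by rw [hdeg]; exact_mod_cast hcon
  have step : ∀ n : ℕ, ∃ D' : Pt V E →₀ ℤ, G.MEquiv D D' ∧ (∀ q, 0 ≤ D' q) ∧
      (n : ℤ) ≤ ∑ i, D' (Sum.inl (β i)) := by
    intro n
    induction n with
    | zero =>
      obtain ⟨D', h1, h2⟩ := hr (Sum.inl (β 0))
      refine ⟨D' + Finsupp.single (Sum.inl (β 0)) 1, ?_, ?_, ?_⟩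
      · have := h1.add (MEquiv.refl G (Finsupp.single (Sum.inl (β 0)) 1))
        rwa [sub_add_cancel] at this
      · intro q
        rw [Finsupp.add_apply, Finsupp.single_apply]
        have := h2 q
        split_ifs <;> linarith
      · rw [Nat.cast_zero]
        refine Finset.sum_nonneg fun i _ => ?_
        rw [Finsupp.add_apply, Finsupp.single_apply]
        have := h2 (Sum.inl (β i))
        split_ifs <;> linarith
    | succ n ih =>
      obtain ⟨D', h1, h2, h3⟩ := ih
      have hd' : mdeg D' < (k : ℤ) := by rw [mdeg_equiv h1]; exact hlt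
      obtain ⟨i, hi⟩ : ∃ i, D' (Sum.inl (β i)) = 0 := by
        by_contra hc
        push Not at hc
        have h4 : ∑ _i : Fin (k + 1), (1 : ℤ) ≤ ∑ i, D' (Sum.inl (β i)) := by
          refine Finset.sum_le_sum fun i _ => ?_
          have := h2 (Sum.inl (β i))
          have := hc i
          omega
        have h5 := vertex_sum_le D' h2 β hβ
        simp at h4
        linarith
      -- a representative with a chip at `β i`
      have hwin : G.Win (D' - Finsupp.single (Sum.inl (β i)) 1) :=
        Win.of_equiv_sub h1.symm (hr (Sum.inl (β i)))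
      obtain ⟨D2, ⟨f, hf⟩, h4⟩ := hwin
      have h5 : ∀ q, 0 ≤ D' q + f.div q := by
        intro q
        have h6 := h4 q
        rw [hf, Finsupp.sub_apply, Finsupp.single_apply] at h6
        split_ifs at h6 <;> linarith
      have h6 : 1 ≤ D' (Sum.inl (β i)) + f.div (Sum.inl (β i)) := by
        have h6 := h4 (Sum.inl (β i))
        rw [hf, Finsupp.sub_apply, Finsupp.single_apply, if_pos rfl] at h6
        linarith
      have h7 : ∀ j, f.val (β j) = f.val (β i) := fun j =>
        G.clique_const k β hβ hadj D' h2 hd' f h5 j i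
      obtain ⟨A, hA⟩ := exists_div (f.maxc (f.val (β i)))
      have h8 : ∀ q, (D' + A) q = D' q + (f.maxc (f.val (β i))).div q := fun q => by
        rw [Finsupp.add_apply, hA]
      refine ⟨D' + A, h1.trans ⟨_, h8⟩, fun q => ?_, ?_⟩
      · rw [h8]
        exact f.maxc_eff _ D' h2 h5 q
      · have h9 : ∀ j, D' (Sum.inl (β j)) + (if j = i then 1 else 0) ≤
            (D' + A) (Sum.inl (β j)) := by
          intro j
          rw [h8]
          obtain ⟨m1, m2⟩ := f.maxc_div_nonneg (f.val (β i)) (β j) (h7 j)
          by_cases hj : j = i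
          · subst hj
            rw [if_pos rfl]
            linarith
          · rw [if_neg hj]
            linarith
        have h10 := Finset.sum_le_sum (s := Finset.univ) fun j (_ : j ∈ Finset.univ) => h9 j
        rw [Finset.sum_add_distrib, Finset.sum_ite_eq'] at h10
        simp only [Finset.mem_univ, if_true] at h10
        rw [Nat.cast_succ]
        linarith
  obtain ⟨D', h1, h2, h3⟩ := step k
  have h5 := vertex_sum_le D' h2 β hβ
  rw [mdeg_equiv h1] at h5
  linarith

end

end MGraph

end Q122.Gon
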