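import Pool.Agent.Q122.Gon.TreeSum

set_option autoImplicit false
set_option synthInstance.maxSize 4000

/-!
# The ratio of the two gonalities can be arbitrarily close to 2
-/

namespace Q122.Gon

namespace MGraph

variable {V E : Type} [Fintype V] [Fintype E] [DecidableEq V]

theorem dgonSet_nonempty (G : MGraph V E) : G.dgonSet.Nonempty := by
  refine ⟨Fintype.card V, fun _ => 1, by simp, ?_⟩
  rw [rankOne_iff]
  intro v
  refine ⟨fun _ => 0, fun w => ?_, ?_⟩ <;> simp [fire]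

end MGraph

namespace Tree

theorem numeric0 (c s t : ℝ) (hc : c < 2) (hs : 1 ≤ s)
    (h16 : 16 ≤ (2 - c) * s) (ht4 : 4 ≤ t)
    (h5 : 4 * s * (s * (4 * s * t - 1) - 2 * (4 * s * t)) ≤
      c * (4 * s + 1) * (4 * s * t * s / 2 + 4 * s * t + 3)) : False := by
  have hs0 : 0 < s := by linarith
  have ht0 : 0 < t := by linarith
  have h6 : c * (4 * s + 1) * (4 * s * t * s / 2 + 4 * s * t + 3) =
      c * (8 * s ^ 3 * t) + c * (18 * s ^ 2 * t + 4 * s * t + 12 * s + 3) := by ring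
  have h7 : c * (8 * s ^ 3 * t) ≤ 16 * s ^ 3 * t - 128 * (s ^ 2 * t) := by
    have := mul_le_mul_of_nonneg_right h16 (show 0 ≤ 8 * s ^ 2 * t by positivity)
    have e : (2 - c) * s * (8 * s ^ 2 * t) = 16 * s ^ 3 * t - c * (8 * s ^ 3 * t) := by ring
    rw [e] at this
    linarith
  have h8 : c * (18 * s ^ 2 * t + 4 * s * t + 12 * s + 3) ≤
      2 * (18 * s ^ 2 * t + 4 * s * t + 12 * s + 3) :=
    mul_le_mul_of_nonneg_right hc.le (by positivity)
  have hss : s ≤ s ^ 2 := by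
    rw [sq]
    exact le_mul_of_one_le_left hs0.le hs
  have h9 : s * t ≤ s ^ 2 * t := mul_le_mul_of_nonneg_right hss ht0.le
  have h12 : s ^ 2 * 4 ≤ s ^ 2 * t := mul_le_mul_of_nonneg_left ht4 (by positivity)
  have h10 : 4 * s ≤ s ^ 2 * t := by linarith
  have h11 : 4 ≤ s ^ 2 * t := by linarith
  have h13 : 4 * s * (s * (4 * s * t - 1) - 2 * (4 * s * t)) =
      16 * s ^ 3 * t - 4 * s ^ 2 - 32 * (s ^ 2 * t) := by ring
  rw [h6, h13] at h5
  have h15 : 2 * (18 * s ^ 2 * t + 4 * s * t + 12 * s + 3) =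
      36 * (s ^ 2 * t) + 8 * (s * t) + 24 * s + 6 := by ring
  rw [h15] at h8
  linarith

theorem numeric1 (s l b β w T : ℝ) (hl : 2 ≤ l) (hb1 : 1 ≤ b) (hβ : b ^ 2 ≤ β)
    (hw : 2 * w = s * l) (hT : T ≤ (l + 1) * β + l * β * b + β * (l * β) + w * (β * β)) :
    b * T ≤ (l * (β * β)) * (b * s / 2 + b + 3) := by
  have hb0 : 0 < b := by linarith
  have hβ0 : 0 < β := lt_of_lt_of_le (by positivity) hβ
  have h1 := mul_le_mul_of_nonneg_left hT hb0.le
  have h31 : b ≤ b * b := le_mul_of_one_le_left hb0.le hb1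
  have h3 : (l + 1) * b + l * (b * b) ≤ 3 * l * (b * b) := by
    have h32 : (l + 1) * b ≤ 2 * l * b :=
      mul_le_mul_of_nonneg_right (by linarith) hb0.le
    have h33 := mul_le_mul_of_nonneg_left h31 (show 0 ≤ 2 * l by linarith)
    linarith
  have h5 := mul_le_mul_of_nonneg_right h3 hβ0.le
  have h6 := mul_le_mul_of_nonneg_left hβ (show 0 ≤ 3 * l * β by positivity)
  have h7 : w = s * l / 2 := by linarith
  rw [h7] at h1
  have e1 : b * ((l + 1) * β + l * β * b + β * (l * β) + s * l / 2 * (β * β)) =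
      ((l + 1) * b + l * (b * b)) * β + (l * (β * β)) * (b * s / 2 + b) := by ring
  have e2 : 3 * l * (b * b) * β = 3 * l * β * b ^ 2 := by ring
  have e3 : (l * (β * β)) * (b * s / 2 + b + 3) = (l * (β * β)) * (b * s / 2 + b) +
      3 * l * β * β := by ring
  rw [e1] at h1
  rw [e2] at h5
  rw [e3]
  linarith

theorem numeric (c s l b β w d T : ℝ) (hc0 : 0 ≤ c) (hc : c < 2) (hs : 1 ≤ s)
    (h16 : 16 ≤ (2 - c) * s) (hl : 2 ≤ l) (hb : b = 8 * s ^ 2 * l) (hβ : b ^ 2 ≤ β)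
    (hw : 2 * w = s * l) (hT : T ≤ (l + 1) * β + l * β * b + β * (l * β) + w * (β * β))
    (hd : d ≤ c * T)
    (hlow : 2 * w * (β * β * (b - 1)) ≤ b * d + 2 * b * l * (β * β) + 4 * w * d) : False := by
  obtain ⟨t, ht⟩ : ∃ t, t = 2 * s * l := ⟨_, rfl⟩
  have hs0 : 0 < s := by linarith
  have hsl : 2 ≤ s * l := by
    have := mul_le_mul hs hl (by norm_num) hs0.le
    linarith
  have ht4 : 4 ≤ t := by rw [ht]; linarith
  have ht0 : 0 < t := by linarith
  have hbt : b = 4 * s * t := by rw [hb, ht]; ring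
  have hb1 : 1 ≤ b := by
    rw [hbt]
    have := mul_le_mul hs ht4 (by norm_num) hs0.le
    linarith
  have hb0 : 0 < b := by linarith
  have hβ0 : 0 < β := lt_of_lt_of_le (by positivity) hβ
  have hl0 : 0 < l := by linarith
  have hA : 0 < l * (β * β) := by positivity
  have hbT := numeric1 s l b β w T hl hb1 hβ hw hT
  have h1 : (l * (β * β)) * (s * (b - 1) - 2 * b) ≤ d * (b + t) := by
    have e1 : 2 * w * (β * β * (b - 1)) = (l * (β * β)) * (s * (b - 1)) := by
      rw [hw]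
      ring
    have e2 : 4 * w * d = t * d := by
      rw [ht, show 4 * w = 2 * (2 * w) by ring, hw]
      ring
    rw [e1, e2] at hlow
    have e3 : (l * (β * β)) * (s * (b - 1) - 2 * b) = (l * (β * β)) * (s * (b - 1)) -
      2 * b * l * (β * β) := by ring
    rw [e3, mul_add]
    linarith
  have h2 : d * (b + t) ≤ c * T * (b + t) :=
    mul_le_mul_of_nonneg_right hd (by linarith)
  have hcbt : 0 ≤ c * (b + t) := mul_nonneg hc0 (by linarith)
  have h3 : (l * (β * β)) * (b * (s * (b - 1) - 2 * b)) ≤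
      (l * (β * β)) * (c * (b + t) * (b * s / 2 + b + 3)) := by
    have e1 := mul_le_mul_of_nonneg_left (h1.trans h2) hb0.le
    have e2 := mul_le_mul_of_nonneg_left hbT hcbt
    have e3 : b * ((l * (β * β)) * (s * (b - 1) - 2 * b)) =
      (l * (β * β)) * (b * (s * (b - 1) - 2 * b)) := by ring
    have e4 : b * (c * T * (b + t)) = c * (b + t) * (b * T) := by ring
    have e5 : c * (b + t) * ((l * (β * β)) * (b * s / 2 + b + 3)) =
      (l * (β * β)) * (c * (b + t) * (b * s / 2 + b + 3)) := by ring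
    rw [e3, e4] at e1
    rw [e5] at e2
    linarith
  have h4 : b * (s * (b - 1) - 2 * b) ≤ c * (b + t) * (b * s / 2 + b + 3) :=
    le_of_mul_le_mul_left h3 hA
  refine numeric0 c s t hc hs h16 ht4 ?_
  rw [hbt] at h4
  have h6 : t * (4 * s * (s * (4 * s * t - 1) - 2 * (4 * s * t))) ≤
      t * (c * (4 * s + 1) * (4 * s * t * s / 2 + 4 * s * t + 3)) := by
    have e1 : t * (4 * s * (s * (4 * s * t - 1) - 2 * (4 * s * t))) =
      4 * s * t * (s * (4 * s * t - 1) - 2 * (4 * s * t)) := by ring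
    have e2 : t * (c * (4 * s + 1) * (4 * s * t * s / 2 + 4 * s * t + 3)) =
      c * (4 * s * t + t) * (4 * s * t * s / 2 + 4 * s * t + 3) := by ring
    rw [e1, e2]
    exact h4
  exact le_of_mul_le_mul_left h6 ht0

theorem ratio (c : ℝ) (hc0 : 0 ≤ c) (hc : c < 2) :
    ∃ (V E : Type) (_ : Fintype V) (_ : Fintype E) (_ : DecidableEq V) (_ : DecidableEq E)
      (G : MGraph V E), G.Connected ∧ c * G.mdgon < G.dgon := by
  have h2c : 0 < 2 - c := by linarith
  obtain ⟨S, hS⟩ := exists_nat_ge (16 / (2 - c))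
  have hS0 : (0 : ℝ) < S := lt_of_lt_of_le (by positivity) hS
  have hS1 : 1 ≤ S := by
    have : 0 < S := by exact_mod_cast hS0
    omega
  have h16 : 16 ≤ (2 - c) * S := by
    rw [div_le_iff₀ h2c] at hS
    linarith
  obtain ⟨W, iF, iD, lo, len, hcard, w1, w2, w3⟩ := exists_windows S
  obtain ⟨L, hL⟩ : ∃ L, L = 2 ^ S := ⟨_, rfl⟩
  have hL2 : 2 ≤ L := by
    rw [hL]
    calc 2 = 2 ^ 1 := by norm_num
      _ ≤ 2 ^ S := Nat.pow_le_pow_right (by norm_num) hS1
  rw [← hL] at hcard w2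
  obtain ⟨b, hb⟩ : ∃ b, b = 8 * S ^ 2 * L := ⟨_, rfl⟩
  have hb1 : 1 ≤ b := by
    rw [hb]
    have : 0 < 8 * S ^ 2 * L := by positivity
    omega
  have : NeZero b := ⟨by omega⟩
  set mid : W → Fin L := fun w => ⟨lo w + len w, by
    have := w1 w
    have := w2 w
    omega⟩ with hmid
  set hi : W → ℕ := fun w => lo w + 2 * len w with hhi
  have a1 : ∀ w, (mid w).val < hi w := by
    intro w
    have := w1 w
    simp only [hmid, hhi]
    omega
  have a2 : ∀ w, hi w ≤ L := w2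
  obtain ⟨Tot, hTot⟩ : ∃ Tot, Tot = Fintype.card (Cl L b) +
      Fintype.card ((Fin L × Om L b) × Fin b) +
      b ^ L * Fintype.card (Fin L × Om L b) + Fintype.card (Ed L b W mid) := ⟨_, rfl⟩
  have hμ : 1 ≤ b ^ L := Nat.one_le_pow _ _ (by omega)
  refine ⟨CData.CV (Cl L b) (Fin L × Om L b) ((Fin L × Om L b) × Fin b) (Ed L b W mid),
    CData.CE (Fin L × Om L b) ((Fin L × Om L b) × Fin b) (Ed L b W mid) (b ^ L) (2 * Tot + 1),
    inferInstance, inferInstance, inferInstance, inferInstance,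
    (X L b W mid hi).graph (b ^ L) (2 * Tot + 1), connected L b W mid hi _ _ hμ (by omega), ?_⟩
  have hup : ((X L b W mid hi).graph (b ^ L) (2 * Tot + 1)).mdgon ≤ Tot := by
    rw [hTot]
    exact Nat.sInf_le (upper W mid hi (b ^ L) _ hμ (by omega) a1)
  have hupR : c * (((X L b W mid hi).graph (b ^ L) (2 * Tot + 1)).mdgon : ℝ) ≤ c * Tot :=
    mul_le_mul_of_nonneg_left (by exact_mod_cast hup) hc0
  refine lt_of_le_of_lt hupR ?_
  by_contra hcon
  push Not at hcon
  obtain ⟨D, hsum, hr⟩ := Nat.sInf_mem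
    ((X L b W mid hi).graph (b ^ L) (2 * Tot + 1)).dgonSet_nonempty
  change ∑ v, D v = (((X L b W mid hi).graph (b ^ L) (2 * Tot + 1)).dgon : ℤ) at hsum
  obtain ⟨d, hd⟩ : ∃ d, d = ((X L b W mid hi).graph (b ^ L) (2 * Tot + 1)).dgon := ⟨_, rfl⟩
  rw [← hd] at hcon hsum
  have hd2 : (d : ℝ) ≤ 2 * Tot := by
    refine hcon.trans ?_
    exact mul_le_mul_of_nonneg_right hc.le (by positivity)
  have hd2' : d ≤ 2 * Tot := by exact_mod_cast hd2
  obtain ⟨st⟩ := (X L b W mid hi).exists_states (b ^ L) (2 * Tot + 1) ⟨nd 0 (fun _ => 0)⟩ D hr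
    (by rw [hsum]; exact_mod_cast (by omega : d < 2 * Tot + 1))
  rw [hsum] at st
  have hlow := lower hb1 st a1 a2 lo (2 ^ S : ℤ) (by
    intro P
    refine (w3 P).trans ?_
    have h1 := ip_le_one (hit P 0 (2 ^ S))
    have h2 : (0 : ℤ) ≤ 2 ^ S := by positivity
    nlinarith)
  -- the size of the upper bound
  have c1 : Fintype.card (Cl L b) ≤ (L + 1) * b ^ L := by
    refine (Fintype.card_subtype_le _).trans ?_
    simp
  have c2 : Fintype.card ((Fin L × Om L b) × Fin b) = L * b ^ L * b := by simp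
  have c3 : Fintype.card (Fin L × Om L b) = L * b ^ L := by simp
  have c4 : Fintype.card (Ed L b W mid) ≤ Fintype.card W * (b ^ L * b ^ L) := by
    refine (Fintype.card_subtype_le _).trans ?_
    simp
  have hTle : Tot ≤ (L + 1) * b ^ L + L * b ^ L * b + b ^ L * (L * b ^ L) +
      Fintype.card W * (b ^ L * b ^ L) := by
    rw [hTot, c2, c3]
    omega
  have hLS : (L : ℝ) = 2 ^ S := by rw [hL]; push_cast; rfl
  refine numeric c S L b ((b : ℝ) ^ L) (Fintype.card W) d Tot hc0 hc (by exact_mod_cast hS1) h16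
    (by exact_mod_cast hL2) (by rw [hb]; push_cast; rfl) ?_ (by exact_mod_cast hcard)
    (by exact_mod_cast hTle) hcon ?_
  · exact pow_le_pow_right₀ (by exact_mod_cast hb1) hL2
  · rw [hLS]
    have hlow' : ((2 * (Fintype.card W : ℤ) * ((b : ℤ) ^ L * (b : ℤ) ^ L * (b - 1)) : ℤ) : ℝ) ≤
      ((b * d + 2 * b * 2 ^ S * ((b : ℤ) ^ L * (b : ℤ) ^ L) + 4 * Fintype.card W * d : ℤ) : ℝ) := by
      exact_mod_cast hlow
    push_cast at hlow'
    linarith

end Tree

end Q122.Gon
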