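import Pool.Agent.Q122.Gon.HWedgeLow
import Pool.Agent.Q122.Gon.HCut
import Pool.Agent.Q122.Gon.HComplete
import Pool.Agent.Q122.Gon.TreeFinal

set_option autoImplicit false

/-!
# A graph with equal first but different second gonalities
-/

namespace Q122.Gon

namespace MGraph

variable {V E : Type}

/-- the rational function that interpolates an integral function on the vertices -/
noncomputable def lin (G : MGraph V E) (f : V → ℤ) : RatFun G where
  val := fun v => f v
  fn := fun e x => f (G.src e) + ((f (G.tgt e) - f (G.src e) : ℤ) : ℝ) * x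
  fn_zero := fun e => by simp
  fn_one := fun e => by push_cast; ring
  pl := fun e => PLOn.affine (f (G.tgt e) - f (G.src e)) zero_lt_one (fun x _ => by simp)
  slR := fun e _ => f (G.tgt e) - f (G.src e)
  slL := fun e _ => f (G.tgt e) - f (G.src e)
  slR_spec := fun e x _ => Filter.Eventually.of_forall fun y => by ring
  slL_spec := fun e x _ => Filter.Eventually.of_forall fun y => by ring

variable [Fintype V] [Fintype E] [DecidableEq V]

omit [Fintype V] in
theorem lin_div_inl (G : MGraph V E) (f : V → ℤ) (v : V) :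
    (G.lin f).div (Sum.inl v) = G.fire f v := by
  simp only [RatFun.div, lin, fire]
  refine Finset.sum_congr rfl fun e _ => ?_
  by_cases hs : G.src e = v
  · by_cases ht : G.tgt e = v
    · exact absurd (hs.trans ht.symm) (G.loopless e)
    · rw [if_pos hs, if_neg ht, if_pos hs, if_neg ht, hs]
  · by_cases ht : G.tgt e = v
    · rw [if_neg hs, if_pos ht, if_neg hs, if_pos ht, ht]
      ring
    · rw [if_neg hs, if_neg ht, if_neg hs, if_neg ht]

omit [Fintype V] in
theorem lin_div_inr (G : MGraph V E) (f : V → ℤ) (q : E × Set.Ioo (0 : ℝ) 1) :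
    (G.lin f).div (Sum.inr q) = 0 := by
  obtain ⟨e, x⟩ := q
  simp only [RatFun.div, lin]
  ring

/-- divisors on the vertices as divisors on the metric graph -/
noncomputable def vdiv (D : V → ℤ) : Pt V E →₀ ℤ := ∑ v, Finsupp.single (Sum.inl v) (D v)

omit [Fintype E] [DecidableEq V] in
theorem vdiv_inl (D : V → ℤ) (v : V) : (vdiv D : Pt V E →₀ ℤ) (Sum.inl v) = D v := by
  classical
  unfold vdiv
  rw [Finsupp.finsetSum_apply]
  simp [Finsupp.single_apply]

omit [Fintype E] [DecidableEq V] in
theorem vdiv_inr (D : V → ℤ) (q : E × Set.Ioo (0 : ℝ) 1) :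
    (vdiv D : Pt V E →₀ ℤ) (Sum.inr q) = 0 := by
  classical
  unfold vdiv
  rw [Finsupp.finsetSum_apply]
  simp

omit [Fintype E] [DecidableEq V] in
theorem mdeg_vdiv (D : V → ℤ) : mdeg (vdiv D : Pt V E →₀ ℤ) = ∑ v, D v := by
  unfold vdiv
  obtain ⟨φ, hφ⟩ := CData.mdeg_hom (V := V) (E := E)
  rw [← hφ, map_sum]
  refine Finset.sum_congr rfl fun v _ => ?_
  rw [hφ, CData.mdeg_single]

theorem dgonSet_nonempty' (G : MGraph V E) : G.dgonSet.Nonempty := G.dgonSet_nonempty

/-- truncated firing -/
theorem fire_max_nonneg (G : MGraph V E) (f : V → ℤ) (c : ℤ) (v : V) :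
    (f v ≤ c → 0 ≤ G.fire (fun w => max (f w) c) v) ∧
    (c ≤ f v → G.fire f v ≤ G.fire (fun w => max (f w) c) v) := by
  constructor
  · intro h
    unfold fire
    refine Finset.sum_nonneg fun e _ => ?_
    have h1 := le_max_right (f (G.tgt e)) c
    have h2 := le_max_right (f (G.src e)) c
    have h3 : max (f v) c = c := max_eq_right h
    simp only [h3]
    split_ifs <;> linarith
  · intro h
    unfold fire
    refine Finset.sum_le_sum fun e _ => ?_
    have h1 := le_max_left (f (G.tgt e)) c
    have h2 := le_max_left (f (G.src e)) c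
    have h3 : max (f v) c = f v := max_eq_left h
    simp only [h3]
    split_ifs <;> linarith

/-- The gonality of a graph is at least the clique number minus one. -/
theorem clique_bound_int (G : MGraph V E) (k : ℕ) (β : Fin (k + 1) → V)
    (hβ : Function.Injective β)
    (hadj : ∀ i j, i ≠ j → ∃ e, (G.src e = β i ∧ G.tgt e = β j) ∨
      (G.src e = β j ∧ G.tgt e = β i)) : k ≤ G.dgon := by
  classical
  by_contra hcon
  push Not at hcon
  obtain ⟨D, hdeg, hr⟩ := Nat.sInf_mem G.dgonSet_nonempty
  change ∑ v, D v = (G.dgon : ℤ) at hdeg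
  have hlt : ∑ v, D v < (k : ℤ) := by rw [hdeg]; exact_mod_cast hcon
  rw [rankOne_iff] at hr
  have step : ∀ n : ℕ, ∃ g : V → ℤ, (∀ v, 0 ≤ D v + G.fire g v) ∧
      (n : ℤ) ≤ ∑ i, (D (β i) + G.fire g (β i)) := by
    intro n
    induction n with
    | zero =>
      obtain ⟨g, h1, -⟩ := hr (β 0)
      exact ⟨g, h1, Finset.sum_nonneg fun i _ => h1 _⟩
    | succ n ih =>
      obtain ⟨g, h2, h3⟩ := ih
      set D' : V → ℤ := fun v => D v + G.fire g v with hD'
      have hd' : ∑ v, D' v < (k : ℤ) := by
        rw [hD', Finset.sum_add_distrib, sum_fire, add_zero]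
        exact hlt
      obtain ⟨i, hi⟩ : ∃ i, D' (β i) = 0 := by
        by_contra hc
        push Not at hc
        have h4 : ∑ _i : Fin (k + 1), (1 : ℤ) ≤ ∑ i, D' (β i) := by
          refine Finset.sum_le_sum fun i _ => ?_
          have := h2 (β i)
          have := hc i
          simp only [hD'] at this ⊢
          omega
        have h5 : ∑ i, D' (β i) ≤ ∑ v, D' v := by
          have h6 : ∑ i, D' (β i) = ∑ v ∈ Finset.univ.image β, D' v :=
            (Finset.sum_image (f := D') fun a _ b _ h => hβ h).symm
          rw [h6]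
          exact Finset.sum_le_sum_of_subset_of_nonneg (Finset.subset_univ _) fun v _ _ => h2 v
        simp at h4
        linarith
      obtain ⟨f0, h4, h5⟩ := hr (β i)
      set f : V → ℤ := fun v => f0 v - g v with hf
      have e1 : ∀ v, D' v + G.fire f v = D v + G.fire f0 v := by
        intro v
        rw [hf, fire_sub]
        simp only [hD']
        ring
      have h6 : ∀ i j, f (β i) = f (β j) := by
        intro i j
        have := G.clique_const k β hβ hadj (vdiv D') (by
          rintro (v | q)
          · rw [vdiv_inl]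
            exact h2 v
          · rw [vdiv_inr]) (by rw [mdeg_vdiv]; exact hd') (G.lin f) (by
          rintro (v | q)
          · rw [vdiv_inl, lin_div_inl, e1]
            exact h4 v
          · rw [vdiv_inr, lin_div_inr, add_zero]) i j
        have h7 : ((f (β i) : ℤ) : ℝ) = ((f (β j) : ℤ) : ℝ) := this
        exact_mod_cast h7
      set c := f (β i) with hc
      refine ⟨fun v => g v + max (f v) c, fun v => ?_, ?_⟩
      · rw [fire_add]
        obtain ⟨m1, m2⟩ := G.fire_max_nonneg f c v
        rcases le_total (f v) c with h | h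
        · have := m1 h
          have h8 := h2 v
          linarith
        · have := m2 h
          have h8 := h4 v
          rw [← e1] at h8
          simp only [hD'] at h8
          linarith
      · have h9 : ∀ j, D' (β j) + (if j = i then 1 else 0) ≤
            D (β j) + G.fire (fun v => g v + max (f v) c) (β j) := by
          intro j
          rw [fire_add]
          obtain ⟨m1, m2⟩ := G.fire_max_nonneg f c (β j)
          have n1 := m1 (h6 j i).le
          have n2 := m2 (h6 j i).ge
          have h8 : D' (β j) = D (β j) + G.fire g (β j) := rfl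
          by_cases hj : j = i
          · subst hj
            rw [if_pos rfl]
            rw [← e1] at h5
            linarith
          · rw [if_neg hj]
            linarith
        have h10 := Finset.sum_le_sum (s := Finset.univ) fun j (_ : j ∈ Finset.univ) => h9 j
        rw [Finset.sum_add_distrib, Finset.sum_ite_eq'] at h10
        simp only [Finset.mem_univ, if_true] at h10
        have h11 : ∑ j, D' (β j) = ∑ i, (D (β i) + G.fire g (β i)) := rfl
        rw [h11] at h10
        rw [Nat.cast_succ]
        linarith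
  obtain ⟨g, h2, h3⟩ := step k
  have h5 : ∑ i, (D (β i) + G.fire g (β i)) ≤ ∑ v, (D v + G.fire g v) := by
    have h6 : ∑ i, (D (β i) + G.fire g (β i)) = ∑ v ∈ Finset.univ.image β, (D v + G.fire g v) :=
      (Finset.sum_image (f := fun v => D v + G.fire g v) fun a _ b _ h => hβ h).symm
    rw [h6]
    exact Finset.sum_le_sum_of_subset_of_nonneg (Finset.subset_univ _) fun v _ _ => h2 v
  rw [Finset.sum_add_distrib (f := D), sum_fire, add_zero] at h5
  linarith

/-! ### Many chips at one vertex -/

/-- reachable in `n` steps -/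
def walkN (G : MGraph V E) (v0 : V) : ℕ → V → Prop
  | 0 => fun w => w = v0
  | n + 1 => fun w => ∃ u, G.walkN v0 n u ∧ G.Adj u w

omit [Fintype V] [Fintype E] [DecidableEq V] in
theorem exists_walkN (G : MGraph V E) (hG : G.Connected) (v0 w : V) : ∃ n, G.walkN v0 n w := by
  induction hG.2 v0 w with
  | refl => exact ⟨0, rfl⟩
  | tail _ h ih =>
    obtain ⟨n, hn⟩ := ih
    exact ⟨n + 1, _, hn, h⟩

omit [DecidableEq V] [Fintype E] in
theorem exists_dist (G : MGraph V E) (hG : G.Connected) (v0 : V) :
    ∃ d : V → ℕ, ∀ w, w ≠ v0 → ∃ u, G.Adj u w ∧ d u < d w := by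
  classical
  refine ⟨fun w => Nat.find (G.exists_walkN hG v0 w), fun w hw => ?_⟩
  have h := Nat.find_spec (G.exists_walkN hG v0 w)
  cases hn : Nat.find (G.exists_walkN hG v0 w) with
  | zero =>
    rw [hn] at h
    exact absurd h hw
  | succ n =>
    rw [hn] at h
    obtain ⟨u, h1, h2⟩ := h
    refine ⟨u, h2, ?_⟩
    change Nat.find (G.exists_walkN hG v0 u) < Nat.find (G.exists_walkN hG v0 w)
    have := Nat.find_min' (G.exists_walkN hG v0 u) h1
    omega

/-- Some firing script gives every vertex except `v0` at least one chip. -/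
theorem exists_script (G : MGraph V E) (hG : G.Connected) (v0 : V) :
    ∃ f : V → ℤ, ∀ w, w ≠ v0 → 1 ≤ G.fire f w := by
  obtain ⟨d, hd⟩ := G.exists_dist hG v0
  set N := ∑ w, d w with hN
  have hdN : ∀ w, d w ≤ N := fun w => Finset.single_le_sum (fun _ _ => Nat.zero_le _)
    (Finset.mem_univ w)
  set Q : ℤ := 2 * Fintype.card E + 1 with hQ
  have hQ1 : 1 ≤ Q := by
    have : (0 : ℤ) ≤ Fintype.card E := by positivity
    linarith
  refine ⟨fun w => Q ^ (N - d w), fun w hw => ?_⟩
  obtain ⟨u, ⟨e0, he0⟩, hu⟩ := hd w hw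
  set q : ℤ := Q ^ (N - d w) with hq
  have hq1 : 1 ≤ q := one_le_pow₀ hQ1
  have huq : Q * q ≤ Q ^ (N - d u) := by
    rw [hq, ← pow_succ']
    refine pow_le_pow_right₀ hQ1 ?_
    have := hdN w
    omega
  have hpos : ∀ v, 0 ≤ Q ^ (N - d v) := fun v => pow_nonneg (by linarith) _
  have hterm : ∀ e, -(2 * q) ≤ ((if G.src e = w then Q ^ (N - d (G.tgt e)) - q else 0) +
      (if G.tgt e = w then Q ^ (N - d (G.src e)) - q else 0)) := by
    intro e
    have h1 := hpos (G.tgt e)
    have h2 := hpos (G.src e)
    split_ifs <;> linarith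
  have hspec : Q * q - 2 * q ≤ ((if G.src e0 = w then Q ^ (N - d (G.tgt e0)) - q else 0) +
      (if G.tgt e0 = w then Q ^ (N - d (G.src e0)) - q else 0)) := by
    have h1 := hpos (G.tgt e0)
    have h2 := hpos (G.src e0)
    rcases he0 with ⟨h3, h4⟩ | ⟨h3, h4⟩
    · rw [if_pos h4]
      rw [← h3] at huq
      split_ifs <;> linarith
    · rw [if_pos h3]
      rw [← h4] at huq
      split_ifs <;> linarith
  have htot : Q * q - 2 * q * Fintype.card E ≤ G.fire (fun w => Q ^ (N - d w)) w := by
    unfold fire
    classical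
    rw [← Finset.add_sum_erase Finset.univ _ (Finset.mem_univ e0)]
    have h5 := Finset.sum_le_sum (s := Finset.univ.erase e0) fun e _ => hterm e
    rw [Finset.sum_const, Finset.card_erase_of_mem (Finset.mem_univ e0), nsmul_eq_mul] at h5
    have h6 : 1 ≤ Fintype.card E := Fintype.card_pos_iff.mpr ⟨e0⟩
    rw [Finset.card_univ, Nat.cast_sub h6] at h5
    push_cast at h5
    linarith
  have h7 : Q * q - 2 * q * Fintype.card E = q := by
    rw [hQ]
    ring
  rw [h7] at htot
  linarith

variable [DecidableEq E]

/-- A divisor with a chip at every vertex wins everywhere. -/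
theorem win_of_pos (G : MGraph V E) (D : V → ℤ) (hD : ∀ v, 1 ≤ D v) (y : Pt V E) :
    G.Win (vdiv D - Finsupp.single y 1) := by
  rcases y with v | ⟨e, x⟩
  · refine Win.of_nonneg _ fun w => ?_
    rw [Finsupp.sub_apply]
    rcases w with u | q
    · rw [vdiv_inl, Finsupp.single_apply]
      have := hD u
      split_ifs <;> linarith
    · rw [vdiv_inr, Finsupp.single_apply, if_neg (by simp)]
      norm_num
  · have h1 := win_bump G e x.1 ⟨x.2.1.le, x.2.2.le⟩
    rw [mpt_mem] at h1
    have h2 : G.Win (vdiv D - (Finsupp.single (Sum.inl (G.src e)) 1 +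
        Finsupp.single (Sum.inl (G.tgt e)) 1)) := by
      refine Win.of_nonneg _ fun w => ?_
      rw [Finsupp.sub_apply, Finsupp.add_apply]
      rcases w with u | q
      · rw [vdiv_inl, Finsupp.single_apply, Finsupp.single_apply]
        simp only [Sum.inl.injEq]
        have h3 := hD u
        have h4 := G.loopless e
        by_cases h5 : G.src e = u
        · have h6 : ¬ G.tgt e = u := fun h => h4 (h5.trans h.symm)
          rw [if_pos h5, if_neg h6]
          linarith
        · rw [if_neg h5]
          split_ifs <;> linarith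
      · rw [vdiv_inr, Finsupp.single_apply, Finsupp.single_apply, if_neg (by simp),
          if_neg (by simp)]
        norm_num
    have h3 := h2.add h1
    have h4 : vdiv D - (Finsupp.single (Sum.inl (G.src e)) 1 +
        Finsupp.single (Sum.inl (G.tgt e)) 1) + (Finsupp.single (Sum.inl (G.src e)) 1 +
        Finsupp.single (Sum.inl (G.tgt e)) 1 - Finsupp.single (Sum.inr (e, x)) 1) =
        vdiv D - Finsupp.single (Sum.inr (e, x)) 1 := by abel
    rwa [h4] at h3

/-- Many chips at one vertex have rank at least one, on the graph and on the metric graph. -/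
theorem many_chips (G : MGraph V E) (hG : G.Connected) (v0 : V) : ∃ k0 : ℕ, ∀ k : ℕ, k0 ≤ k →
    (∃ f : V → ℤ, ∀ v, 1 ≤ (if v = v0 then (k : ℤ) else 0) + G.fire f v) ∧
    ∀ y : Pt V E, G.Win (Finsupp.single (Sum.inl v0) (k : ℤ) - Finsupp.single y 1) := by
  obtain ⟨f, hf⟩ := G.exists_script hG v0
  refine ⟨(1 - G.fire f v0).toNat, fun k hk => ?_⟩
  have h1 : ∀ v, 1 ≤ (if v = v0 then (k : ℤ) else 0) + G.fire f v := by
    intro v
    by_cases hv : v = v0
    · subst hv
      rw [if_pos rfl]
      omega
    · rw [if_neg hv, zero_add]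
      exact hf v hv
  refine ⟨⟨f, h1⟩, fun y => ?_⟩
  have h2 : G.MEquiv (Finsupp.single (Sum.inl v0) (k : ℤ))
      (vdiv (fun v => (if v = v0 then (k : ℤ) else 0) + G.fire f v)) := by
    refine ⟨G.lin f, ?_⟩
    rintro (v | q)
    · rw [vdiv_inl, lin_div_inl, Finsupp.single_apply]
      simp only [Sum.inl.injEq, eq_comm]
    · rw [vdiv_inr, lin_div_inr, Finsupp.single_apply, if_neg (by simp), add_zero]
  exact Win.of_equiv_sub h2 (G.win_of_pos _ h1 y)

end MGraph

end Q122.Gon
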