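import Pool.Agent.Q122.Gon.HFinal

set_option autoImplicit false
set_option synthInstance.maxSize 4000

/-!
# A graph with equal first but different second gonalities
-/

namespace Q122.Gon

theorem KG_fire (k : ℕ) (f : Fin (k + 1) → ℤ) (v : Fin (k + 1)) :
    (KG k).fire f v = ∑ u, (f u - f v) := by
  classical
  unfold MGraph.fire KG
  simp only
  rw [Tree.sum_subtype_ip (fun p : Fin (k + 1) × Fin (k + 1) => p.1 < p.2)
    (fun p => (if p.1 = v then f p.2 - f v else 0) + (if p.2 = v then f p.1 - f v else 0)),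
    Fintype.sum_prod_type]
  simp only [mul_add, Finset.sum_add_distrib]
  have h1 : ∑ i : Fin (k + 1), ∑ j : Fin (k + 1), ip (i < j) * (if i = v then f j - f v else 0) =
      ∑ j, ip (v < j) * (f j - f v) := by
    rw [Finset.sum_eq_single v]
    · simp
    · intro i _ hi
      simp [hi]
    · intro h
      exact absurd (Finset.mem_univ v) h
  have h2 : ∑ i : Fin (k + 1), ∑ j : Fin (k + 1), ip (i < j) * (if j = v then f i - f v else 0) =
      ∑ i, ip (i < v) * (f i - f v) := by
    refine Finset.sum_congr rfl fun i _ => ?_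
    rw [Finset.sum_eq_single v]
    · simp
    · intro j _ hj
      simp [hj]
    · intro h
      exact absurd (Finset.mem_univ v) h
  rw [h1, h2, ← Finset.sum_add_distrib]
  refine Finset.sum_congr rfl fun u _ => ?_
  rcases lt_trichotomy v u with h | h | h
  · rw [ip_true h, ip_false (not_lt.mpr h.le)]
    ring
  · subst h
    ring
  · rw [ip_true h, ip_false (not_lt.mpr h.le)]
    ring

theorem KG_adj (k : ℕ) (i j : Fin (k + 1)) (h : i ≠ j) : ∃ e, ((KG k).src e = i ∧
    (KG k).tgt e = j) ∨ ((KG k).src e = j ∧ (KG k).tgt e = i) := by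
  rcases lt_or_gt_of_ne h with h' | h'
  · exact ⟨⟨(i, j), h'⟩, Or.inl ⟨rfl, rfl⟩⟩
  · exact ⟨⟨(j, i), h'⟩, Or.inr ⟨rfl, rfl⟩⟩

theorem KG_connected (k : ℕ) : (KG k).Connected := by
  refine ⟨⟨0⟩, fun u v => ?_⟩
  by_cases h : u = v
  · rw [h]
  · obtain ⟨e, he⟩ := KG_adj k u v h
    exact Relation.ReflTransGen.single ⟨e, he⟩

theorem mapDomain_sub' {α β : Type} (f : α → β) (a b : α →₀ ℤ) :
    (a - b).mapDomain f = a.mapDomain f - b.mapDomain f :=
  map_sub (Finsupp.mapDomain.addMonoidHom f) a b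

namespace MGraph

variable {V E : Type} [Fintype V] [Fintype E] [DecidableEq V] [DecidableEq E]

omit [DecidableEq E] in
theorem dgonR_two_mem (G : MGraph V E) :
    ∃ D : V → ℤ, ∑ v, D v = (G.dgonR 2 : ℤ) ∧ G.RankGe 2 D := by
  refine Nat.sInf_mem (s := {d : ℕ | ∃ D : V → ℤ, ∑ v, D v = (d : ℤ) ∧ G.RankGe 2 D})
    ⟨2 * Fintype.card V, fun _ => 2, by simp [mul_comm], fun E' h0 hs => ?_⟩
  refine ⟨fun w => 2 - E' w, ⟨fun _ => 0, fun v => by simp [fire]⟩, fun w => ?_⟩
  have h1 : E' w ≤ ∑ v, E' v := Finset.single_le_sum (fun v _ => h0 v) (Finset.mem_univ w)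
  rw [hs] at h1
  push_cast at h1
  linarith

/-- Whenever the gonalities of a graph `A` and of its metric graph differ, some wedge of `A` with a
complete graph has equal first gonalities but different second gonalities. -/
theorem gap_wedge (A : MGraph V E) (hA : A.Connected) (hgap : A.mdgon < A.dgon) :
    ∃ (k : ℕ) (v0 : V), (wedge A (KG k) v0 0).Connected ∧
      (wedge A (KG k) v0 0).mdgonR 1 = (wedge A (KG k) v0 0).dgonR 1 ∧
      (wedge A (KG k) v0 0).mdgonR 2 < (wedge A (KG k) v0 0).dgonR 2 := by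
  classical
  obtain ⟨v0⟩ := hA.1
  obtain ⟨k0, hk0⟩ := A.many_chips hA v0
  obtain ⟨k, hk1, hk⟩ : ∃ k, 1 ≤ k ∧ k0 ≤ k := ⟨max k0 1, le_max_right _ _, le_max_left _ _⟩
  obtain ⟨⟨fA, hfA⟩, hwinA⟩ := hk0 k hk
  set G := wedge A (KG k) v0 0 with hG
  set RA := wedgeA A (KG k) v0 0 with hRA
  set RB := wedgeB A (KG k) v0 0 with hRB
  have hadj : ∀ i j : Fin (k + 1), i ≠ j → ∃ e, (G.src e = wβ v0 0 i ∧ G.tgt e = wβ v0 0 j) ∨
      (G.src e = wβ v0 0 j ∧ G.tgt e = wβ v0 0 i) := by
    intro i j h
    obtain ⟨e, ⟨h1, h2⟩ | ⟨h1, h2⟩⟩ := KG_adj k i j h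
    · exact ⟨Sum.inr e, Or.inl ⟨congrArg (wβ v0 0) h1, congrArg (wβ v0 0) h2⟩⟩
    · exact ⟨Sum.inr e, Or.inr ⟨congrArg (wβ v0 0) h1, congrArg (wβ v0 0) h2⟩⟩
  have hβinj : Function.Injective (wβ v0 (0 : Fin (k + 1))) := wβ_inj v0 0
  -- lower bounds for the first gonalities
  have l1 : k ≤ G.mdgon := G.clique_bound k (wβ v0 0) hβinj hadj
  have l2 : k ≤ G.dgon := G.clique_bound_int k (wβ v0 0) hβinj hadj
  -- all points
  have hpts : ∀ q : Pt (V ⊕ {w : Fin (k + 1) // w ≠ 0}) (E ⊕ KE k),
      (∃ x, RA.pt x = q) ∨ ∃ y, RB.pt y = q := by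
    rintro ((v | w) | ⟨e | e, x⟩)
    · exact Or.inl ⟨Sum.inl v, rfl⟩
    · refine Or.inr ⟨Sum.inl w.1, ?_⟩
      change Sum.inl (wβ v0 0 w.1) = _
      rw [wβ_ne v0 0 w.2]
    · exact Or.inl ⟨Sum.inr (e, x), rfl⟩
    · exact Or.inr ⟨Sum.inr (e, x), rfl⟩
  have hA0 : RA.pt (Sum.inl v0) = Sum.inl (Sum.inl v0) := rfl
  have hB0 : RB.pt (Sum.inl 0) = Sum.inl (Sum.inl v0) := by
    have h : RB.pt (Sum.inl 0) = Sum.inl (wβ v0 (0 : Fin (k + 1)) 0) := rfl
    rw [h, wβ_self]
  -- winning with `k` chips on both parts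
  have wA : ∀ x, G.Win (Finsupp.single (Sum.inl (Sum.inl v0)) (k : ℤ) -
      Finsupp.single (RA.pt x) 1) := by
    intro x
    have h := RA.win (hwinA x)
    rw [mapDomain_sub', Finsupp.mapDomain_single, Finsupp.mapDomain_single, hA0] at h
    exact h
  have wB2 : ∀ x y, G.Win (Finsupp.single (Sum.inl (Sum.inl v0)) ((k : ℤ) + 1) -
      (Finsupp.single (RB.pt x) 1 + Finsupp.single (RB.pt y) 1)) := by
    intro x y
    have h := RB.win (win_complete hk1 x y)
    rw [mapDomain_sub', Finsupp.mapDomain_add, Finsupp.mapDomain_single,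
      Finsupp.mapDomain_single, Finsupp.mapDomain_single, hB0] at h
    exact h
  have wB : ∀ y, G.Win (Finsupp.single (Sum.inl (Sum.inl v0)) (k : ℤ) -
      Finsupp.single (RB.pt y) 1) := by
    intro y
    have h := wB2 (Sum.inl 0) y
    rw [hB0] at h
    have e : Finsupp.single (Sum.inl (Sum.inl v0)) ((k : ℤ) + 1) -
        (Finsupp.single (Sum.inl (Sum.inl v0)) 1 + Finsupp.single (RB.pt y) 1) =
        Finsupp.single (Sum.inl (Sum.inl v0)) (k : ℤ) - Finsupp.single (RB.pt y) 1 := by
      rw [Finsupp.single_add]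
      abel
    rwa [e] at h
  have u1 : G.mdgon ≤ k := by
    refine Nat.sInf_le ⟨Finsupp.single (Sum.inl (Sum.inl v0)) (k : ℤ), ?_, fun q => ?_⟩
    · rw [CData.mdeg_single]
    · rcases hpts q with ⟨x, rfl⟩ | ⟨y, rfl⟩
      · exact wA x
      · exact wB y
  have u2 : G.dgon ≤ k := by
    refine Nat.sInf_le ⟨fun x => if x = Sum.inl v0 then (k : ℤ) else 0, by simp, ?_⟩
    rw [rankOne_iff]
    rintro (v | w)
    · refine ⟨fun x => fA (RA.r x), ?_, ?_⟩
      · rintro (u | w)
        · have h := RA.fire_ext fA u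
          change G.fire (fun x => fA (RA.r x)) (Sum.inl u) = _ at h
          rw [h]
          simp only [Sum.inl.injEq]
          have := hfA u
          linarith
        · have h := RA.fire_ext_zero fA (Sum.inr w) (fun u hu => by
            change (Sum.inl u : V ⊕ {w : Fin (k + 1) // w ≠ 0}) = Sum.inr w at hu
            simp at hu)
          rw [h]
          simp
      · have h := RA.fire_ext fA v
        change G.fire (fun x => fA (RA.r x)) (Sum.inl v) = _ at h
        rw [h]
        simp only [Sum.inl.injEq]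
        exact hfA v
    · set fB : Fin (k + 1) → ℤ := fun u => if u = 0 then 1 else 0 with hfB
      have f0 : (KG k).fire fB 0 = - k := by
        rw [KG_fire, Finset.sum_sub_distrib]
        simp [hfB]
      have f1 : ∀ u, u ≠ 0 → (KG k).fire fB u = 1 := by
        intro u hu
        rw [KG_fire, Finset.sum_sub_distrib]
        simp [hfB, hu]
      have hB : ∀ u : {w : Fin (k + 1) // w ≠ 0},
          G.fire (fun x => fB (RB.r x)) (Sum.inr u) = 1 := by
        intro u
        have h := RB.fire_ext fB u.1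
        change G.fire (fun x => fB (RB.r x)) (wβ v0 0 u.1) = _ at h
        rw [wβ_ne v0 0 u.2] at h
        rw [h, f1 u.1 u.2]
      refine ⟨fun x => fB (RB.r x), ?_, ?_⟩
      · rintro (u | u)
        · by_cases hu : u = v0
          · subst hu
            have h := RB.fire_ext fB 0
            change G.fire (fun x => fB (RB.r x)) (wβ u 0 0) = _ at h
            rw [wβ_self] at h
            rw [h, f0, if_pos rfl]
            linarith
          · have h := RB.fire_ext_zero fB (Sum.inl u) (fun w hw => by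
              change wβ v0 0 w = Sum.inl u at hw
              by_cases h : w = 0
              · rw [h, wβ_self] at hw
                exact hu (Sum.inl.inj hw).symm
              · rw [wβ_ne v0 0 h] at hw
                simp at hw)
            rw [h]
            simp [hu]
        · rw [hB]
          simp
      · rw [hB]
        simp
  have e1 : G.mdgonR 1 = k := by rw [mdgonR_one]; omega
  have e2 : G.dgonR 1 = k := by rw [dgonR_one]; omega
  -- upper bound for the second metric gonality
  obtain ⟨DA, hDA, hrA⟩ := Nat.sInf_mem A.mdgonSet_nonempty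
  change mdeg DA = (A.mdgon : ℤ) at hDA
  have wDA : ∀ x, G.Win (DA.mapDomain RA.pt - Finsupp.single (RA.pt x) 1) := by
    intro x
    have h := RA.win (hrA x)
    rw [mapDomain_sub', Finsupp.mapDomain_single] at h
    exact h
  have u3 : G.mdgonR 2 ≤ k + A.mdgon := by
    refine Nat.sInf_le ⟨Finsupp.single (Sum.inl (Sum.inl v0)) (k : ℤ) + DA.mapDomain RA.pt,
      ?_, fun E' h0 hs => ?_⟩
    · rw [mdeg_add, CData.mdeg_single]
      have : mdeg (DA.mapDomain RA.pt) = mdeg DA := by
        unfold mdeg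
        rw [Finsupp.sum_mapDomain_index_inj RA.pt_inj]
      rw [this, hDA]
      push_cast
      ring
    · obtain ⟨p, q, rfl⟩ := meff_two E' h0 hs
      change G.Win _
      rcases hpts p with ⟨x, rfl⟩ | ⟨x, rfl⟩
      · have e : ∀ y : Pt (V ⊕ {w : Fin (k + 1) // w ≠ 0}) (E ⊕ KE k),
            Finsupp.single (Sum.inl (Sum.inl v0)) (k : ℤ) + DA.mapDomain RA.pt -
            (Finsupp.single (RA.pt x) 1 + Finsupp.single y 1) =
            (DA.mapDomain RA.pt - Finsupp.single (RA.pt x) 1) +
            (Finsupp.single (Sum.inl (Sum.inl v0)) (k : ℤ) - Finsupp.single y 1) := by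
          intro y
          abel
        rw [e]
        rcases hpts q with ⟨y, rfl⟩ | ⟨y, rfl⟩
        · exact (wDA x).add (wA y)
        · exact (wDA x).add (wB y)
      · rcases hpts q with ⟨y, rfl⟩ | ⟨y, rfl⟩
        · have e : Finsupp.single (Sum.inl (Sum.inl v0)) (k : ℤ) + DA.mapDomain RA.pt -
              (Finsupp.single (RB.pt x) 1 + Finsupp.single (RA.pt y) 1) =
              (DA.mapDomain RA.pt - Finsupp.single (RA.pt y) 1) +
              (Finsupp.single (Sum.inl (Sum.inl v0)) (k : ℤ) -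
                Finsupp.single (RB.pt x) 1) := by abel
          rw [e]
          exact (wDA y).add (wB x)
        · have h1 := (wDA (Sum.inl v0)).add (wB2 x y)
          have e : DA.mapDomain RA.pt - Finsupp.single (RA.pt (Sum.inl v0)) 1 +
              (Finsupp.single (Sum.inl (Sum.inl v0)) ((k : ℤ) + 1) -
              (Finsupp.single (RB.pt x) 1 + Finsupp.single (RB.pt y) 1)) =
              Finsupp.single (Sum.inl (Sum.inl v0)) (k : ℤ) + DA.mapDomain RA.pt -
              (Finsupp.single (RB.pt x) 1 + Finsupp.single (RB.pt y) 1) := by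
            rw [hA0, Finsupp.single_add]
            abel
          rwa [e] at h1
  -- lower bound for the second gonality
  obtain ⟨D, hD, hr⟩ := G.dgonR_two_mem
  have l3 := wedge_lower A (KG k) v0 0 D hr
  rw [hD] at l3
  have l4 : k ≤ (KG k).dgon := (KG k).clique_bound_int k id Function.injective_id (KG_adj k)
  have l5 : A.dgon + (KG k).dgon ≤ G.dgonR 2 := by exact_mod_cast l3
  refine ⟨k, v0, wedge_connected A (KG k) v0 0 hA (KG_connected k), ?_, ?_⟩
  · rw [e1, e2]
  · change G.mdgonR 2 < G.dgonR 2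
    omega

end MGraph

/-- There is a graph whose first gonality equals that of its metric graph, while its second
gonality is larger. -/
theorem exists_higher_gap : ∃ (V E : Type) (_ : Fintype V) (_ : Fintype E) (_ : DecidableEq V)
    (_ : DecidableEq E) (G : MGraph V E), G.Connected ∧ G.mdgonR 1 = G.dgonR 1 ∧
      G.mdgonR 2 < G.dgonR 2 := by
  obtain ⟨V, E, i1, i2, i3, i4, A, hA, hlt⟩ := Tree.ratio 1 zero_le_one one_lt_two
  rw [one_mul] at hlt
  obtain ⟨k, v0, h1, h2, h3⟩ := A.gap_wedge hA (by exact_mod_cast hlt)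
  exact ⟨_, _, inferInstance, inferInstance, inferInstance, inferInstance, _, h1, h2, h3⟩

end Q122.Gon
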