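import Pool.Agent.Q122.Gon.MUpper

set_option autoImplicit false

/-!
# Divisors of rank at least `r`
-/

namespace Q122.Gon

namespace MGraph

variable {V E : Type} [Fintype V] [Fintype E] [DecidableEq V]

/-- A divisor `D` on the graph has rank at least `r` if for every effective divisor `E'` of degree
`r` the divisor `D - E'` is equivalent to an effective divisor. -/
def RankGe (G : MGraph V E) (r : ℕ) (D : V → ℤ) : Prop :=
  ∀ E' : V → ℤ, (∀ v, 0 ≤ E' v) → ∑ v, E' v = (r : ℤ) →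
    ∃ D' : V → ℤ, G.Equiv (fun w => D w - E' w) D' ∧ ∀ w, 0 ≤ D' w

/-- A divisor `D` on the metric graph has rank at least `r` if for every effective divisor `E'` of
degree `r` on the metric graph the divisor `D - E'` is equivalent to an effective divisor. -/
def MRankGe (G : MGraph V E) (r : ℕ) (D : Pt V E →₀ ℤ) : Prop :=
  ∀ E' : Pt V E →₀ ℤ, (∀ q, 0 ≤ E' q) → mdeg E' = (r : ℤ) →
    ∃ D' : Pt V E →₀ ℤ, G.MEquiv (D - E') D' ∧ ∀ w, 0 ≤ D' w

/-- The `r`-th divisorial gonality of the graph `G`: the minimal degree of a divisor of rank at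
least `r`. -/
noncomputable def dgonR (G : MGraph V E) (r : ℕ) : ℕ :=
  sInf {d : ℕ | ∃ D : V → ℤ, ∑ v, D v = (d : ℤ) ∧ G.RankGe r D}

/-- The `r`-th divisorial gonality of the metric graph `Γ(G)`. -/
noncomputable def mdgonR (G : MGraph V E) (r : ℕ) : ℕ :=
  sInf {d : ℕ | ∃ D : Pt V E →₀ ℤ, mdeg D = (d : ℤ) ∧ G.MRankGe r D}

/-! ### Splitting effective divisors into points -/

omit [Fintype E] in
theorem split_one (n : ℕ) (E' : V → ℤ) (h0 : ∀ v, 0 ≤ E' v) (hs : ∑ v, E' v = (n : ℤ) + 1) :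
    ∃ (v : V) (E'' : V → ℤ), (∀ w, E' w = (if w = v then 1 else 0) + E'' w) ∧ (∀ w, 0 ≤ E'' w) ∧
      ∑ w, E'' w = (n : ℤ) := by
  obtain ⟨v, hv⟩ : ∃ v, 1 ≤ E' v := by
    by_contra hcon
    push Not at hcon
    have : ∑ v, E' v ≤ ∑ _v : V, 0 := Finset.sum_le_sum fun v _ => by have := hcon v; omega
    rw [hs] at this
    simp at this
    omega
  refine ⟨v, fun w => E' w - if w = v then 1 else 0, fun w => by ring, fun w => ?_, ?_⟩
  · by_cases hw : w = v
    · subst hw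
      simp only [if_true]
      linarith
    · simp only [hw, if_false]
      have := h0 w
      linarith
  · rw [Finset.sum_sub_distrib, hs]
    simp

omit [Fintype E] [Fintype V] [DecidableEq V] in
theorem msplit_one (n : ℕ) (E' : Pt V E →₀ ℤ) (h0 : ∀ v, 0 ≤ E' v) (hs : mdeg E' = (n : ℤ) + 1) :
    ∃ q E'', E' = Finsupp.single q 1 + E'' ∧ (∀ w, 0 ≤ E'' w) ∧ mdeg E'' = (n : ℤ) := by
  classical
  obtain ⟨q, hq⟩ : ∃ q, 1 ≤ E' q := by
    by_contra hcon
    push Not at hcon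
    have : mdeg E' ≤ 0 := Finset.sum_nonpos fun v _ => by
      have h1 := hcon v
      change E' v ≤ 0
      omega
    omega
  refine ⟨q, E' - Finsupp.single q 1, by abel, fun w => ?_, ?_⟩
  · rw [Finsupp.sub_apply, Finsupp.single_apply]
    by_cases hw : q = w
    · rw [if_pos hw]
      rw [hw] at hq
      linarith
    · rw [if_neg hw]
      have := h0 w
      linarith
  · have h1 := mdeg_add (E' - Finsupp.single q 1) (Finsupp.single q 1)
    rw [sub_add_cancel, hs] at h1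
    have h2 : mdeg (Finsupp.single q (1 : ℤ)) = 1 := by
      unfold mdeg
      rw [Finsupp.sum_single_index rfl]
    rw [h2] at h1
    linarith

omit [Fintype E] in
theorem split_zero (E' : V → ℤ) (h0 : ∀ v, 0 ≤ E' v) (hs : ∑ v, E' v = ((0 : ℕ) : ℤ)) :
    ∀ w, E' w = 0 := by
  intro w
  rw [Nat.cast_zero, Finset.sum_eq_zero_iff_of_nonneg fun v _ => h0 v] at hs
  exact hs w (Finset.mem_univ w)

omit [Fintype E] [Fintype V] [DecidableEq V] in
theorem msplit_zero (E' : Pt V E →₀ ℤ) (h0 : ∀ v, 0 ≤ E' v) (hs : mdeg E' = ((0 : ℕ) : ℤ)) :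
    E' = 0 := by
  unfold mdeg at hs
  rw [Nat.cast_zero, Finsupp.sum, Finset.sum_eq_zero_iff_of_nonneg fun v _ => h0 v] at hs
  ext w
  by_cases hw : w ∈ E'.support
  · exact hs w hw
  · simpa using hw

omit [Fintype E] in
theorem eff_one (E' : V → ℤ) (h0 : ∀ v, 0 ≤ E' v) (hs : ∑ v, E' v = ((1 : ℕ) : ℤ)) :
    ∃ v, ∀ w, E' w = if w = v then 1 else 0 := by
  obtain ⟨v, E'', h1, h2, h3⟩ := split_one 0 E' h0 (by rw [hs]; norm_num)
  have h4 := split_zero E'' h2 h3
  exact ⟨v, fun w => by rw [h1, h4, add_zero]⟩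

omit [Fintype E] in
theorem eff_two (E' : V → ℤ) (h0 : ∀ v, 0 ≤ E' v) (hs : ∑ v, E' v = ((2 : ℕ) : ℤ)) :
    ∃ u v, ∀ w, E' w = (if w = u then 1 else 0) + (if w = v then 1 else 0) := by
  obtain ⟨u, E'', h1, h2, h3⟩ := split_one 1 E' h0 (by rw [hs]; norm_num)
  obtain ⟨v, h4⟩ := eff_one E'' h2 h3
  exact ⟨u, v, fun w => by rw [h1, h4]⟩

omit [Fintype E] [Fintype V] [DecidableEq V] in
theorem meff_one (E' : Pt V E →₀ ℤ) (h0 : ∀ v, 0 ≤ E' v) (hs : mdeg E' = ((1 : ℕ) : ℤ)) :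
    ∃ q, E' = Finsupp.single q 1 := by
  obtain ⟨v, E'', h1, h2, h3⟩ := msplit_one 0 E' h0 (by rw [hs]; norm_num)
  rw [msplit_zero E'' h2 h3, add_zero] at h1
  exact ⟨v, h1⟩

omit [Fintype E] [Fintype V] [DecidableEq V] in
theorem meff_two (E' : Pt V E →₀ ℤ) (h0 : ∀ v, 0 ≤ E' v) (hs : mdeg E' = ((2 : ℕ) : ℤ)) :
    ∃ p q, E' = Finsupp.single p 1 + Finsupp.single q 1 := by
  obtain ⟨u, E'', h1, h2, h3⟩ := msplit_one 1 E' h0 (by rw [hs]; norm_num)
  obtain ⟨v, h4⟩ := meff_one E'' h2 h3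
  exact ⟨u, v, by rw [h1, h4]⟩

theorem rankGe_one_iff (G : MGraph V E) (D : V → ℤ) : G.RankGe 1 D ↔ G.RankOne D := by
  constructor
  · intro h v
    exact h (fun w => if w = v then 1 else 0) (fun w => by split_ifs <;> norm_num) (by simp)
  · intro h E' h0 hs
    obtain ⟨v, hv⟩ := eff_one E' h0 hs
    have : (fun w => D w - E' w) = fun w => D w - if w = v then 1 else 0 := by
      funext w
      rw [hv]
    rw [this]
    exact h v

theorem mrankGe_one_iff (G : MGraph V E) (D : Pt V E →₀ ℤ) : G.MRankGe 1 D ↔ G.MRankOne D := by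
  classical
  constructor
  · intro h q
    refine h (Finsupp.single q 1) (fun w => ?_) ?_
    · rw [Finsupp.single_apply]
      split_ifs <;> norm_num
    · unfold mdeg
      rw [Finsupp.sum_single_index rfl]
      norm_num
  · intro h E' h0 hs
    obtain ⟨q, rfl⟩ := meff_one E' h0 hs
    exact h q

theorem dgonR_one (G : MGraph V E) : G.dgonR 1 = G.dgon := by
  unfold dgonR dgon dgonSet
  simp only [rankGe_one_iff]

theorem mdgonR_one (G : MGraph V E) : G.mdgonR 1 = G.mdgon := by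
  unfold mdgonR mdgon mdgonSet
  simp only [mrankGe_one_iff]

/-! ### Winnable divisors on the metric graph -/

/-- `D` is equivalent to an effective divisor. -/
def Win (G : MGraph V E) (D : Pt V E →₀ ℤ) : Prop :=
  ∃ D' : Pt V E →₀ ℤ, G.MEquiv D D' ∧ ∀ w, 0 ≤ D' w

omit [Fintype V] in
theorem MEquiv.refl (G : MGraph V E) (D : Pt V E →₀ ℤ) : G.MEquiv D D :=
  ⟨RatFun.zero G, fun q => by rw [RatFun.div_zero, add_zero]⟩

omit [Fintype V] in
theorem MEquiv.symm {G : MGraph V E} {D D' : Pt V E →₀ ℤ} (h : G.MEquiv D D') :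
    G.MEquiv D' D := by
  obtain ⟨f, hf⟩ := h
  exact ⟨f.neg, fun q => by rw [RatFun.div_neg, hf]; ring⟩

omit [Fintype V] in
theorem MEquiv.trans {G : MGraph V E} {D D' D'' : Pt V E →₀ ℤ} (h : G.MEquiv D D')
    (h' : G.MEquiv D' D'') : G.MEquiv D D'' := by
  obtain ⟨f, hf⟩ := h
  obtain ⟨g, hg⟩ := h'
  exact ⟨f.add g, fun q => by rw [RatFun.div_add, hg, hf]; ring⟩

omit [Fintype V] in
theorem MEquiv.add {G : MGraph V E} {D D' A A' : Pt V E →₀ ℤ} (h : G.MEquiv D D')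
    (h' : G.MEquiv A A') : G.MEquiv (D + A) (D' + A') := by
  obtain ⟨f, hf⟩ := h
  obtain ⟨g, hg⟩ := h'
  exact ⟨f.add g, fun q => by
    rw [RatFun.div_add, Finsupp.add_apply, Finsupp.add_apply, hg, hf]
    ring⟩

omit [Fintype V] in
theorem Win.add {G : MGraph V E} {D D' : Pt V E →₀ ℤ} (h : G.Win D) (h' : G.Win D') :
    G.Win (D + D') := by
  obtain ⟨A, h1, h2⟩ := h
  obtain ⟨A', h3, h4⟩ := h'
  refine ⟨A + A', h1.add h3, fun w => ?_⟩
  rw [Finsupp.add_apply]
  exact add_nonneg (h2 w) (h4 w)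

omit [Fintype V] in
theorem Win.of_nonneg (G : MGraph V E) {D : Pt V E →₀ ℤ} (h : ∀ w, 0 ≤ D w) : G.Win D :=
  ⟨D, MEquiv.refl G D, h⟩

omit [Fintype V] in
theorem Win.of_equiv {G : MGraph V E} {D D' : Pt V E →₀ ℤ} (h : G.MEquiv D D')
    (h' : G.Win D') : G.Win D := by
  obtain ⟨A, h1, h2⟩ := h'
  exact ⟨A, h.trans h1, h2⟩

omit [Fintype V] in
/-- If `D` is equivalent to `D'` then `D - F` is winnable if `D' - F` is. -/
theorem Win.of_equiv_sub {G : MGraph V E} {D D' F : Pt V E →₀ ℤ} (h : G.MEquiv D D')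
    (h' : G.Win (D' - F)) : G.Win (D - F) := by
  refine Win.of_equiv ?_ h'
  rw [sub_eq_add_neg, sub_eq_add_neg]
  exact h.add (MEquiv.refl G _)

/-- Two chips at the ends of an edge can be moved to any point of the edge. -/
theorem win_bump [DecidableEq E] (G : MGraph V E) (e : E) (x : ℝ) (hx : x ∈ Set.Icc (0 : ℝ) 1) :
    G.Win (Finsupp.single (Sum.inl (G.src e)) 1 + Finsupp.single (Sum.inl (G.tgt e)) 1 -
      Finsupp.single (mpt G e x) 1) := by
  classical
  set D : Pt V E →₀ ℤ := Finsupp.single (Sum.inl (G.src e)) 1 +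
    Finsupp.single (Sum.inl (G.tgt e)) 1 with hD
  have h0 : ∀ w, 0 ≤ D w := by
    intro w
    rw [hD, Finsupp.add_apply, Finsupp.single_apply, Finsupp.single_apply]
    split_ifs <;> norm_num
  have h1 : 1 ≤ D (Sum.inl (G.src e)) := by
    rw [hD, Finsupp.add_apply, Finsupp.single_apply, Finsupp.single_apply, if_pos rfl]
    split_ifs <;> norm_num
  have h2 : 1 ≤ D (Sum.inl (G.tgt e)) := by
    rw [hD, Finsupp.add_apply, Finsupp.single_apply, Finsupp.single_apply, if_pos rfl]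
    split_ifs <;> norm_num
  obtain ⟨f, ⟨D', h3⟩, h4, h5⟩ := mbump G D h0 e h1 h2 x hx
  refine ⟨D - Finsupp.single (mpt G e x) 1 + D', ⟨f, fun q => ?_⟩, fun w => ?_⟩
  · rw [Finsupp.add_apply, h3]
  · rw [Finsupp.add_apply, h3, Finsupp.sub_apply, Finsupp.single_apply]
    by_cases hw : mpt G e x = w
    · rw [if_pos hw]
      rw [hw] at h5
      linarith
    · rw [if_neg hw]
      have := h4 w
      linarith

end MGraph

end Q122.Gon
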