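import Pool.Agent.Q122.Gon.HRank

set_option autoImplicit false

/-!
# Retracts and wedges
-/

namespace Q122.Gon

/-- `A` is a subgraph of `G`, and `G` retracts onto `A` by contracting all other edges. -/
structure Retract {V E V' E' : Type} (A : MGraph V E) (G : MGraph V' E') where
  /-- vertices -/
  iV : V → V'
  /-- edges -/
  iE : E → E'
  /-- the retraction -/
  r : V' → V
  r_iV : ∀ v, r (iV v) = v
  iE_inj : Function.Injective iE
  src_iE : ∀ e, G.src (iE e) = iV (A.src e)
  tgt_iE : ∀ e, G.tgt (iE e) = iV (A.tgt e)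
  contr : ∀ e', (∀ e, iE e ≠ e') → r (G.src e') = r (G.tgt e')

namespace Retract

variable {V E V' E' : Type} {A : MGraph V E} {G : MGraph V' E'}

theorem iV_inj (R : Retract A G) : Function.Injective R.iV := by
  intro a b h
  rw [← R.r_iV a, h, R.r_iV]

open Classical in
/-- the edge of `A` -/
noncomputable def inv (R : Retract A G) (e' : E') : Option E :=
  if h : ∃ e, R.iE e = e' then some h.choose else none

theorem inv_some (R : Retract A G) {e' : E'} {e : E} (h : R.inv e' = some e) : R.iE e = e' := by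
  unfold inv at h
  split_ifs at h with h1
  rw [← Option.some.inj h]
  exact h1.choose_spec

theorem inv_none (R : Retract A G) {e' : E'} (h : R.inv e' = none) : ∀ e, R.iE e ≠ e' := by
  unfold inv at h
  split_ifs at h with h1
  intro e he
  exact h1 ⟨e, he⟩

theorem inv_iE (R : Retract A G) (e : E) : R.inv (R.iE e) = some e := by
  cases h : R.inv (R.iE e) with
  | none => exact absurd rfl (R.inv_none h e)
  | some e' => rw [R.iE_inj (R.inv_some h)]

/-- the points of `A` as points of `G` -/
def pt (R : Retract A G) : Pt V E → Pt V' E' := Sum.map R.iV (Prod.map R.iE id)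

theorem pt_inj (R : Retract A G) : Function.Injective R.pt :=
  Sum.map_injective.mpr ⟨R.iV_inj, Function.Injective.prodMap R.iE_inj Function.injective_id⟩

/-- extension of rational functions -/
noncomputable def ext (R : Retract A G) (f : RatFun A) : RatFun G where
  val := fun v => f.val (R.r v)
  fn := fun e' x => (R.inv e').elim (f.val (R.r (G.src e'))) (fun e => f.fn e x)
  fn_zero := by
    intro e'
    cases h : R.inv e' with
    | none => rfl
    | some e =>
      simp only [Option.elim_some]
      rw [f.fn_zero, ← R.inv_some h, R.src_iE, R.r_iV]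
  fn_one := by
    intro e'
    cases h : R.inv e' with
    | none =>
      simp only [Option.elim_none]
      rw [R.contr e' (R.inv_none h)]
    | some e =>
      simp only [Option.elim_some]
      rw [f.fn_one, ← R.inv_some h, R.tgt_iE, R.r_iV]
  pl := by
    intro e'
    cases h : R.inv e' with
    | none =>
      simp only [Option.elim_none]
      exact PLOn.affine 0 zero_lt_one (fun x _ => by simp)
    | some e =>
      simp only [Option.elim_some]
      exact f.pl e
  slR := fun e' x => (R.inv e').elim 0 (fun e => f.slR e x)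
  slL := fun e' x => (R.inv e').elim 0 (fun e => f.slL e x)
  slR_spec := by
    intro e' x hx
    cases h : R.inv e' with
    | none =>
      simp only [Option.elim_none]
      exact Filter.Eventually.of_forall fun y => by simp
    | some e =>
      simp only [Option.elim_some]
      exact f.slR_spec e x hx
  slL_spec := by
    intro e' x hx
    cases h : R.inv e' with
    | none =>
      simp only [Option.elim_none]
      exact Filter.Eventually.of_forall fun y => by simp
    | some e =>
      simp only [Option.elim_some]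
      exact f.slL_spec e x hx

variable [Fintype V] [Fintype E] [DecidableEq V] [Fintype V'] [Fintype E'] [DecidableEq V']

omit [Fintype V] [Fintype V'] in
theorem div_ext (R : Retract A G) (f : RatFun A) (q : Pt V E) :
    (R.ext f).div (R.pt q) = f.div q := by
  rcases q with v | ⟨e, x⟩
  · change ∑ e', ((if G.src e' = R.iV v then (R.inv e').elim 0 (fun e => f.slR e 0) else 0) +
      (if G.tgt e' = R.iV v then - (R.inv e').elim 0 (fun e => f.slL e 1) else 0)) =
      ∑ e, ((if A.src e = v then f.slR e 0 else 0) + (if A.tgt e = v then - f.slL e 1 else 0))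
    symm
    refine Fintype.sum_of_injective R.iE R.iE_inj _ _ (fun e' he' => ?_) (fun e => ?_)
    · have h : R.inv e' = none := by
        cases h : R.inv e' with
        | none => rfl
        | some e => exact absurd ⟨e, R.inv_some h⟩ he'
      rw [h]
      simp
    · rw [R.inv_iE, R.src_iE, R.tgt_iE]
      simp only [R.iV_inj.eq_iff, Option.elim_some]
  · change (R.inv (R.iE e)).elim 0 (fun e => f.slR e x) +
      - (R.inv (R.iE e)).elim 0 (fun e => f.slL e x) = f.slR e x + - f.slL e x
    rw [R.inv_iE]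
    rfl

omit [Fintype V] [Fintype E] [DecidableEq V] [Fintype V'] in
theorem div_ext_zero (R : Retract A G) (f : RatFun A) (q : Pt V' E') (hq : q ∉ Set.range R.pt) :
    (R.ext f).div q = 0 := by
  rcases q with v | ⟨e', x⟩
  · have hv : ∀ u, R.iV u ≠ v := fun u hu => hq ⟨Sum.inl u, by rw [← hu]; rfl⟩
    change ∑ e', ((if G.src e' = v then (R.inv e').elim 0 (fun e => f.slR e 0) else 0) +
      (if G.tgt e' = v then - (R.inv e').elim 0 (fun e => f.slL e 1) else 0)) = 0
    refine Finset.sum_eq_zero fun e' _ => ?_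
    cases h : R.inv e' with
    | none => simp
    | some e =>
      rw [← R.inv_some h, R.src_iE, R.tgt_iE, if_neg (hv _), if_neg (hv _), add_zero]
  · change (R.inv e').elim 0 (fun e => f.slR e x) +
      - (R.inv e').elim 0 (fun e => f.slL e x) = 0
    cases h : R.inv e' with
    | none => simp
    | some e =>
      exact absurd ⟨Sum.inr (e, x), by rw [← R.inv_some h]; rfl⟩ hq

omit [Fintype V] [Fintype V'] in
theorem mequiv (R : Retract A G) {D D' : Pt V E →₀ ℤ} (h : A.MEquiv D D') :
    G.MEquiv (D.mapDomain R.pt) (D'.mapDomain R.pt) := by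
  obtain ⟨f, hf⟩ := h
  refine ⟨R.ext f, fun q => ?_⟩
  by_cases hq : q ∈ Set.range R.pt
  · obtain ⟨p, rfl⟩ := hq
    rw [Finsupp.mapDomain_apply R.pt_inj, Finsupp.mapDomain_apply R.pt_inj, R.div_ext, hf]
  · rw [Finsupp.mapDomain_of_notMem_range _ _ hq, Finsupp.mapDomain_of_notMem_range _ _ hq,
      R.div_ext_zero f q hq, add_zero]

omit [Fintype V] [Fintype V'] in
theorem win (R : Retract A G) {D : Pt V E →₀ ℤ} (h : A.Win D) : G.Win (D.mapDomain R.pt) := by
  obtain ⟨D', h1, h2⟩ := h
  refine ⟨D'.mapDomain R.pt, R.mequiv h1, fun q => ?_⟩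
  by_cases hq : q ∈ Set.range R.pt
  · obtain ⟨p, rfl⟩ := hq
    rw [Finsupp.mapDomain_apply R.pt_inj]
    exact h2 p
  · rw [Finsupp.mapDomain_of_notMem_range _ _ hq]

omit [Fintype V] [Fintype V'] in
theorem fire_ext (R : Retract A G) (f : V → ℤ) (v : V) :
    G.fire (fun w => f (R.r w)) (R.iV v) = A.fire f v := by
  unfold MGraph.fire
  symm
  refine Fintype.sum_of_injective R.iE R.iE_inj _ _ (fun e' he' => ?_) (fun e => ?_)
  · have h := R.contr e' (fun e he => he' ⟨e, he⟩)
    simp only [R.r_iV]
    have h1 : G.src e' = R.iV v → f (R.r (G.tgt e')) - f v = 0 := by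
      intro h2
      rw [← h, h2, R.r_iV, sub_self]
    have h3 : G.tgt e' = R.iV v → f (R.r (G.src e')) - f v = 0 := by
      intro h2
      rw [h, h2, R.r_iV, sub_self]
    split_ifs with a b b
    · rw [h1 a, h3 b, add_zero]
    · rw [h1 a, add_zero]
    · rw [h3 b, add_zero]
    · rfl
  · rw [R.src_iE, R.tgt_iE]
    simp only [R.iV_inj.eq_iff, R.r_iV]

omit [Fintype V] [Fintype E] [DecidableEq V] [Fintype V'] in
theorem fire_ext_zero (R : Retract A G) (f : V → ℤ) (v : V') (hv : ∀ u, R.iV u ≠ v) :
    G.fire (fun w => f (R.r w)) v = 0 := by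
  unfold MGraph.fire
  refine Finset.sum_eq_zero fun e' _ => ?_
  by_cases he : ∃ e, R.iE e = e'
  · obtain ⟨e, rfl⟩ := he
    rw [R.src_iE, R.tgt_iE, if_neg (hv _), if_neg (hv _), add_zero]
  · have h := R.contr e' (fun e h => he ⟨e, h⟩)
    have h1 : G.src e' = v → f (R.r (G.tgt e')) - f (R.r v) = 0 := by
      intro h2
      rw [← h, h2, sub_self]
    have h3 : G.tgt e' = v → f (R.r (G.src e')) - f (R.r v) = 0 := by
      intro h2
      rw [h, h2, sub_self]
    split_ifs with a b b
    · rw [h1 a, h3 b, add_zero]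
    · rw [h1 a, add_zero]
    · rw [h3 b, add_zero]
    · rfl

end Retract

section wedge

variable {V E W F : Type}

/-- vertices of the second graph in the wedge -/
def wβ [DecidableEq W] (v0 : V) (w0 : W) (w : W) : V ⊕ {w : W // w ≠ w0} :=
  if h : w = w0 then Sum.inl v0 else Sum.inr ⟨w, h⟩

theorem wβ_self [DecidableEq W] (v0 : V) (w0 : W) : wβ v0 w0 w0 = Sum.inl v0 := by
  simp [wβ]

theorem wβ_ne [DecidableEq W] (v0 : V) (w0 : W) {w : W} (h : w ≠ w0) :
    wβ v0 w0 w = Sum.inr ⟨w, h⟩ := by
  simp [wβ, h]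

/-- back -/
def wr (w0 : W) : V ⊕ {w : W // w ≠ w0} → W := Sum.elim (fun _ => w0) (fun w => w.1)

theorem wr_wβ [DecidableEq W] (v0 : V) (w0 : W) (w : W) : wr w0 (wβ v0 w0 w) = w := by
  by_cases h : w = w0
  · rw [h, wβ_self]
    rfl
  · rw [wβ_ne v0 w0 h]
    rfl

/-- The wedge of two graphs: the vertex `v0` of `A` is glued to the vertex `w0` of `B`. -/
def wedge [DecidableEq W] (A : MGraph V E) (B : MGraph W F) (v0 : V) (w0 : W) :
    MGraph (V ⊕ {w : W // w ≠ w0}) (E ⊕ F) where
  src := Sum.elim (fun e => Sum.inl (A.src e)) (fun e => wβ v0 w0 (B.src e))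
  tgt := Sum.elim (fun e => Sum.inl (A.tgt e)) (fun e => wβ v0 w0 (B.tgt e))
  loopless := by
    rintro (e | e)
    · simp only [Sum.elim_inl]
      exact fun h => A.loopless e (Sum.inl.inj h)
    · simp only [Sum.elim_inr]
      intro h
      have := congrArg (wr w0) h
      rw [wr_wβ, wr_wβ] at this
      exact B.loopless e this

variable [DecidableEq W]

/-- the first graph -/
def wedgeA (A : MGraph V E) (B : MGraph W F) (v0 : V) (w0 : W) : Retract A (wedge A B v0 w0) where
  iV := Sum.inl
  iE := Sum.inl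
  r := Sum.elim id (fun _ => v0)
  r_iV := fun _ => rfl
  iE_inj := Sum.inl_injective
  src_iE := fun _ => rfl
  tgt_iE := fun _ => rfl
  contr := by
    rintro (e | e) he
    · exact absurd rfl (he e)
    · have h1 : ∀ w, (Sum.elim id (fun _ => v0) : V ⊕ {w : W // w ≠ w0} → V) (wβ v0 w0 w) =
          v0 := by
        intro w
        by_cases h : w = w0
        · rw [h, wβ_self]
          rfl
        · rw [wβ_ne v0 w0 h]
          rfl
      simp only [wedge, Sum.elim_inr, h1]

/-- the second graph -/
def wedgeB (A : MGraph V E) (B : MGraph W F) (v0 : V) (w0 : W) : Retract B (wedge A B v0 w0) where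
  iV := wβ v0 w0
  iE := Sum.inr
  r := wr w0
  r_iV := wr_wβ v0 w0
  iE_inj := Sum.inr_injective
  src_iE := fun _ => rfl
  tgt_iE := fun _ => rfl
  contr := by
    rintro (e | e) he
    · rfl
    · exact absurd rfl (he e)

theorem wedge_connected (A : MGraph V E) (B : MGraph W F) (v0 : V) (w0 : W)
    (hA : A.Connected) (hB : B.Connected) : (wedge A B v0 w0).Connected := by
  have a1 : ∀ u v : V, Relation.ReflTransGen (wedge A B v0 w0).Adj (Sum.inl u) (Sum.inl v) := by
    intro u v
    refine Relation.ReflTransGen.lift (p := (wedge A B v0 w0).Adj) Sum.inl ?_ u v (hA.2 u v)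
    rintro a b ⟨e, ⟨h1, h2⟩ | ⟨h1, h2⟩⟩
    · exact ⟨Sum.inl e, Or.inl ⟨congrArg Sum.inl h1, congrArg Sum.inl h2⟩⟩
    · exact ⟨Sum.inl e, Or.inr ⟨congrArg Sum.inl h1, congrArg Sum.inl h2⟩⟩
  have a2 : ∀ u v : W, Relation.ReflTransGen (wedge A B v0 w0).Adj (wβ v0 w0 u)
      (wβ v0 w0 v) := by
    intro u v
    refine Relation.ReflTransGen.lift (p := (wedge A B v0 w0).Adj) (wβ v0 w0) ?_ u v (hB.2 u v)
    rintro a b ⟨e, ⟨h1, h2⟩ | ⟨h1, h2⟩⟩
    · exact ⟨Sum.inr e, Or.inl ⟨congrArg (wβ v0 w0) h1, congrArg (wβ v0 w0) h2⟩⟩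
    · exact ⟨Sum.inr e, Or.inr ⟨congrArg (wβ v0 w0) h1, congrArg (wβ v0 w0) h2⟩⟩
  have a3 : ∀ x, Relation.ReflTransGen (wedge A B v0 w0).Adj (Sum.inl v0) x := by
    rintro (v | ⟨w, hw⟩)
    · exact a1 v0 v
    · have := a2 w0 w
      rwa [wβ_self, wβ_ne v0 w0 hw] at this
  have a4 : ∀ x, Relation.ReflTransGen (wedge A B v0 w0).Adj x (Sum.inl v0) := by
    rintro (v | ⟨w, hw⟩)
    · exact a1 v v0
    · have := a2 w w0
      rwa [wβ_self, wβ_ne v0 w0 hw] at this
  exact ⟨⟨Sum.inl v0⟩, fun u v => (a4 u).trans (a3 v)⟩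

end wedge

end Q122.Gon
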