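import Pool.Agent.Q122.Gon.HWedge

set_option autoImplicit false

/-!
# The second gonality of a wedge
-/

namespace Q122.Gon

namespace MGraph

variable {V E : Type} [Fintype V] [Fintype E] [DecidableEq V]

theorem sum_nonneg_of_rankOne (G : MGraph V E) (v : V) {D : V → ℤ} (h : G.RankOne D) :
    0 ≤ ∑ w, D w := by
  rw [rankOne_iff] at h
  obtain ⟨f, h1, -⟩ := h v
  have h2 : 0 ≤ ∑ w, (D w + G.fire f w) := Finset.sum_nonneg fun w _ => h1 w
  rw [Finset.sum_add_distrib, sum_fire, add_zero] at h2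
  exact h2

theorem dgon_le_sum (G : MGraph V E) (v : V) {D : V → ℤ} (h : G.RankOne D) :
    (G.dgon : ℤ) ≤ ∑ w, D w := by
  have h0 := G.sum_nonneg_of_rankOne v h
  have h1 : G.dgon ≤ (∑ w, D w).toNat := Nat.sInf_le ⟨D, by rw [Int.toNat_of_nonneg h0], h⟩
  have h2 : ((∑ w, D w).toNat : ℤ) = ∑ w, D w := Int.toNat_of_nonneg h0
  rw [← h2]
  exact_mod_cast h1

end MGraph

section

variable {V E W F : Type} [Fintype V] [Fintype E] [DecidableEq V] [Fintype W] [Fintype F]
  [DecidableEq W]

omit [Fintype V] [DecidableEq V] [Fintype W] [Fintype E] [Fintype F] in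
theorem wβ_inj (v0 : V) (w0 : W) : Function.Injective (wβ v0 w0) := by
  intro a b h
  rw [← wr_wβ v0 w0 a, h, wr_wβ]

omit [Fintype V] [Fintype W] in
theorem fire_wedge_inl (A : MGraph V E) (B : MGraph W F) (v0 : V) (w0 : W)
    (f : V ⊕ {w : W // w ≠ w0} → ℤ) (v : V) :
    (wedge A B v0 w0).fire f (Sum.inl v) = A.fire (fun u => f (Sum.inl u)) v +
      (if v = v0 then B.fire (fun w => f (wβ v0 w0 w)) w0 else 0) := by
  unfold MGraph.fire
  rw [Fintype.sum_sum_type]
  congr 1
  · refine Finset.sum_congr rfl fun e _ => ?_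
    simp only [wedge, Sum.elim_inl, Sum.inl.injEq]
  · by_cases hv : v = v0
    · subst hv
      rw [if_pos rfl]
      refine Finset.sum_congr rfl fun e _ => ?_
      have h1 : ∀ w, (wβ v w0 w = Sum.inl v ↔ w = w0) := by
        intro w
        rw [← wβ_self v w0]
        exact (wβ_inj v w0).eq_iff
      simp only [wedge, Sum.elim_inr, h1, wβ_self]
    · rw [if_neg hv]
      refine Finset.sum_eq_zero fun e _ => ?_
      have h1 : ∀ w, wβ v0 w0 w ≠ Sum.inl v := by
        intro w h
        by_cases hw : w = w0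
        · rw [hw, wβ_self] at h
          exact hv (Sum.inl.inj h).symm
        · rw [wβ_ne v0 w0 hw] at h
          exact absurd h (by simp)
      simp [wedge, h1]

omit [Fintype V] [Fintype W] in
theorem fire_wedge_inr (A : MGraph V E) (B : MGraph W F) (v0 : V) (w0 : W)
    (f : V ⊕ {w : W // w ≠ w0} → ℤ) (w : {w : W // w ≠ w0}) :
    (wedge A B v0 w0).fire f (Sum.inr w) = B.fire (fun w => f (wβ v0 w0 w)) w.1 := by
  unfold MGraph.fire
  rw [Fintype.sum_sum_type]
  have h0 : (Sum.inr w : V ⊕ {w : W // w ≠ w0}) = wβ v0 w0 w.1 := (wβ_ne v0 w0 w.2).symm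
  have h1 : ∀ u, (wβ v0 w0 u = Sum.inr w ↔ u = w.1) := by
    intro u
    rw [h0]
    exact (wβ_inj v0 w0).eq_iff
  have h2 : ∑ e : E, ((if (wedge A B v0 w0).src (Sum.inl e) = Sum.inr w then
      f ((wedge A B v0 w0).tgt (Sum.inl e)) - f (Sum.inr w) else 0) +
      (if (wedge A B v0 w0).tgt (Sum.inl e) = Sum.inr w then
      f ((wedge A B v0 w0).src (Sum.inl e)) - f (Sum.inr w) else 0)) = 0 := by
    refine Finset.sum_eq_zero fun e _ => ?_
    simp [wedge]
  rw [h2, zero_add]
  refine Finset.sum_congr rfl fun e _ => ?_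
  simp only [wedge, Sum.elim_inr, h1]
  rw [h0]

/-- The second gonality of a wedge is at least the sum of the gonalities of the two parts. -/
theorem wedge_lower (A : MGraph V E) (B : MGraph W F) (v0 : V) (w0 : W)
    (D : V ⊕ {w : W // w ≠ w0} → ℤ) (hD : (wedge A B v0 w0).RankGe 2 D) :
    (A.dgon : ℤ) + B.dgon ≤ ∑ x, D x := by
  classical
  set DA : V → ℤ := fun v => D (Sum.inl v) with hDA
  set DB : W → ℤ := fun w => if h : w = w0 then 0 else D (Sum.inr ⟨w, h⟩) with hDB
  have hDBne : ∀ w (h : w ≠ w0), DB w = D (Sum.inr ⟨w, h⟩) := fun w h => by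
    simp only [hDB]
    rw [dif_neg h]
  have hDB0 : DB w0 = 0 := by simp [hDB]
  have hsum : ∑ x, D x = ∑ v, DA v + ∑ w, DB w := by
    rw [Fintype.sum_sum_type]
    congr 1
    rw [Fintype.sum_eq_add_sum_subtype_ne DB w0, hDB0, zero_add]
    exact Finset.sum_congr rfl fun w _ => (hDBne w.1 w.2).symm
  set EA : ℤ → V → Prop := fun m a => ∃ g : V → ℤ, ∀ v,
    0 ≤ DA v + (if v = v0 then m else 0) - (if v = a then 1 else 0) + A.fire g v with hEA
  set EB : ℤ → W → Prop := fun m j => ∃ g : W → ℤ, ∀ w,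
    0 ≤ DB w - (if w = w0 then m else 0) - (if w = j then 1 else 0) + B.fire g w with hEB
  have monoA : ∀ m m' a, m ≤ m' → EA m a → EA m' a := by
    rintro m m' a hm ⟨g, hg⟩
    refine ⟨g, fun v => ?_⟩
    have := hg v
    split_ifs at this ⊢ <;> linarith
  have monoB : ∀ m m' j, m' ≤ m → EB m j → EB m' j := by
    rintro m m' a hm ⟨g, hg⟩
    refine ⟨g, fun v => ?_⟩
    have := hg v
    split_ifs at this ⊢ <;> linarith
  have key : ∀ a j, ∃ m, EA m a ∧ EB m j := by
    intro a j
    obtain ⟨D', ⟨f, hf⟩, h0⟩ := hD (fun x => (if x = Sum.inl a then 1 else 0) +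
      (if x = wβ v0 w0 j then 1 else 0)) (fun x => by split_ifs <;> norm_num)
      (by rw [Finset.sum_add_distrib]; simp)
    set τ : ℤ := B.fire (fun w => f (wβ v0 w0 w)) w0 with hτ
    have hA : ∀ v, 0 ≤ DA v - ((if v = a then 1 else 0) +
        (if (Sum.inl v : V ⊕ {w : W // w ≠ w0}) = wβ v0 w0 j then 1 else 0)) +
        (A.fire (fun u => f (Sum.inl u)) v + if v = v0 then τ else 0) := by
      intro v
      have h1 := h0 (Sum.inl v)
      rw [hf, fire_wedge_inl] at h1
      simpa only [Sum.inl.injEq] using h1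
    have hB : ∀ w (hw : w ≠ w0), 0 ≤ DB w - (if w = j then 1 else 0) +
        B.fire (fun w => f (wβ v0 w0 w)) w := by
      intro w hw
      have h1 := h0 (Sum.inr ⟨w, hw⟩)
      rw [hf, fire_wedge_inr] at h1
      have h2 : ((Sum.inr ⟨w, hw⟩ : V ⊕ {w : W // w ≠ w0}) = wβ v0 w0 j) ↔ w = j := by
        rw [← wβ_ne v0 w0 hw]
        exact (wβ_inj v0 w0).eq_iff
      simp only [h2, reduceCtorEq, if_false, zero_add] at h1
      rw [hDBne w hw]
      exact h1
    refine ⟨τ - (if j = w0 then 1 else 0), ⟨fun u => f (Sum.inl u), fun v => ?_⟩,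
      ⟨fun w => f (wβ v0 w0 w), fun w => ?_⟩⟩
    · have h1 := hA v
      by_cases hj : j = w0
      · subst hj
        rw [wβ_self] at h1
        simp only [Sum.inl.injEq] at h1
        simp only [if_true]
        split_ifs at h1 ⊢ <;> linarith
      · rw [wβ_ne v0 w0 hj] at h1
        simp only [reduceCtorEq, if_false] at h1
        simp only [hj, if_false]
        split_ifs at h1 ⊢ <;> linarith
    · by_cases hw : w = w0
      · subst hw
        rw [hDB0, if_pos rfl, ← hτ]
        by_cases hj : j = w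
        · subst hj
          simp
        · have hj' : ¬ w = j := fun h => hj h.symm
          simp [hj, hj']
      · have h1 := hB w hw
        rw [if_neg hw]
        linarith
  -- the largest shift for which the second part has rank at least one
  obtain ⟨m, hm, hmax⟩ : ∃ m, (∀ j, EB m j) ∧ ∀ m', (∀ j, EB m' j) → m' ≤ m := by
    refine Int.exists_greatest_of_bdd ⟨∑ w, DB w, fun m' h => ?_⟩ ?_
    · obtain ⟨g, hg⟩ := h w0
      have h1 : 0 ≤ ∑ w, (DB w - (if w = w0 then m' else 0) - (if w = w0 then 1 else 0) +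
          B.fire g w) := Finset.sum_nonneg fun w _ => hg w
      rw [Finset.sum_add_distrib, Finset.sum_sub_distrib, Finset.sum_sub_distrib,
        MGraph.sum_fire] at h1
      simp at h1
      linarith
    · choose mm hmm using fun j => key v0 j
      obtain ⟨lb, hlb⟩ := (Set.finite_range mm).bddBelow
      exact ⟨lb, fun j => monoB (mm j) lb j (hlb ⟨j, rfl⟩) (hmm j).2⟩
  have hA1 : ∀ a, EA m a := by
    obtain ⟨j, hj⟩ : ∃ j, ¬ EB (m + 1) j := by
      by_contra hcon
      push Not at hcon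
      have := hmax (m + 1) hcon
      omega
    intro a
    obtain ⟨m', h1, h2⟩ := key a j
    refine monoA m' m a ?_ h1
    by_contra hcon
    exact hj (monoB m' (m + 1) j (by omega) h2)
  have rA : A.RankOne (fun v => DA v + if v = v0 then m else 0) := by
    intro a
    obtain ⟨g, hg⟩ := hA1 a
    exact ⟨_, ⟨g, fun v => rfl⟩, fun v => hg v⟩
  have rB : B.RankOne (fun w => DB w - if w = w0 then m else 0) := by
    intro a
    obtain ⟨g, hg⟩ := hm a
    exact ⟨_, ⟨g, fun v => rfl⟩, fun v => hg v⟩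
  have h1 := A.dgon_le_sum v0 rA
  have h2 := B.dgon_le_sum w0 rB
  rw [Finset.sum_add_distrib, Finset.sum_ite_eq'] at h1
  rw [Finset.sum_sub_distrib, Finset.sum_ite_eq'] at h2
  simp only [Finset.mem_univ, if_true] at h1 h2
  rw [hsum]
  linarith

end

end Q122.Gon
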