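import Pool.Agent.Q122.Gon.Metric

set_option autoImplicit false

/-!
# Sliding chips along the edges of a metric graph
-/

namespace Q122.Gon

open Filter Topology

/-- A function that is affine away from finitely many points is piecewise linear. -/
theorem PLOn.of_breaks (g : ℝ → ℝ) (T : Finset ℝ)
    (h : ∀ a b : ℝ, a < b → (∀ x ∈ T, ¬ (a < x ∧ x < b)) →
      ∃ s : ℤ, ∀ x ∈ Set.Icc a b, g x = g a + s * (x - a)) (a b : ℝ) (hab : a < b) :
    PLOn g a b := by
  classical
  suffices H : ∀ n : ℕ, ∀ a b : ℝ, a < b → (T.filter (fun x => a < x ∧ x < b)).card = n →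
      PLOn g a b from H _ a b hab rfl
  intro n
  induction n using Nat.strong_induction_on with
  | _ n ih =>
    intro a b hab hn
    by_cases hc : ∃ x ∈ T, a < x ∧ x < b
    · obtain ⟨c, hcT, hac, hcb⟩ := hc
      have h1 : (T.filter (fun x => a < x ∧ x < c)).card < n := by
        rw [← hn]
        refine Finset.card_lt_card ⟨fun x hx => ?_, fun hsub => ?_⟩
        · simp only [Finset.mem_filter] at hx ⊢
          exact ⟨hx.1, hx.2.1, hx.2.2.trans hcb⟩
        · have : c ∈ T.filter (fun x => a < x ∧ x < c) :=
            hsub (by simp only [Finset.mem_filter]; exact ⟨hcT, hac, hcb⟩)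
          simp only [Finset.mem_filter] at this
          exact lt_irrefl _ this.2.2
      have h2 : (T.filter (fun x => c < x ∧ x < b)).card < n := by
        rw [← hn]
        refine Finset.card_lt_card ⟨fun x hx => ?_, fun hsub => ?_⟩
        · simp only [Finset.mem_filter] at hx ⊢
          exact ⟨hx.1, hac.trans hx.2.1, hx.2.2⟩
        · have : c ∈ T.filter (fun x => c < x ∧ x < b) :=
            hsub (by simp only [Finset.mem_filter]; exact ⟨hcT, hac, hcb⟩)
          simp only [Finset.mem_filter] at this
          exact lt_irrefl _ this.2.1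
      exact PLOn.glue (ih _ h1 a c hac rfl) (ih _ h2 c b hcb rfl)
    · push Not at hc
      obtain ⟨s, hs⟩ := h a b hab (fun x hx h3 => not_lt.mpr (hc x hx h3.1) h3.2)
      exact PLOn.affine s hab hs

/-- the ramp function -/
noncomputable def ramp (p x : ℝ) : ℝ := max (x - p) 0

theorem ramp_affine {p a b : ℝ} (hp : ¬ (a < p ∧ p < b)) {x : ℝ} (hx : x ∈ Set.Icc a b) :
    ramp p x = ramp p a + (if p ≤ a then (1 : ℤ) else 0 : ℤ) * (x - a) := by
  unfold ramp
  by_cases h : p ≤ a
  · rw [max_eq_left (by linarith [hx.1]), max_eq_left (by linarith)]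
    simp [h]
  · have h1 : b ≤ p := by
      by_contra h2
      exact hp ⟨not_le.mp h, not_le.mp h2⟩
    rw [max_eq_right (by linarith [hx.2]), max_eq_right (by linarith [hx.1, hx.2])]
    simp [h]

theorem ramp_right (p x : ℝ) : ∀ᶠ y in 𝓝[>] x,
    ramp p y = ramp p x + (if p ≤ x then (1 : ℤ) else 0 : ℤ) * (y - x) := by
  by_cases h : p ≤ x
  · filter_upwards [self_mem_nhdsWithin] with y hy
    have hy' : x < y := hy
    exact ramp_affine (a := x) (b := y) (fun h1 => not_lt.mpr h h1.1) ⟨hy'.le, le_rfl⟩
  · have h1 : x < p := not_le.mp h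
    filter_upwards [Ioc_mem_nhdsGT h1] with y hy
    exact ramp_affine (a := x) (b := p) (fun h2 => lt_irrefl _ h2.2) ⟨hy.1.le, hy.2⟩

theorem ramp_left (p x : ℝ) : ∀ᶠ y in 𝓝[<] x,
    ramp p y = ramp p x + (if p < x then (1 : ℤ) else 0 : ℤ) * (y - x) := by
  by_cases h : p < x
  · filter_upwards [Ico_mem_nhdsLT h] with y hy
    unfold ramp
    rw [max_eq_left (by linarith [hy.1]), max_eq_left (by linarith)]
    simp [h]
  · have h1 : x ≤ p := not_lt.mp h
    filter_upwards [self_mem_nhdsWithin] with y hy
    have hy' : y < x := hy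
    unfold ramp
    rw [max_eq_right (by linarith), max_eq_right (by linarith)]
    simp [h]

variable {V E : Type}

/-- the point with parameter `x` on the edge `e` -/
noncomputable def mpt (G : MGraph V E) (e : E) (x : ℝ) : Pt V E :=
  if h0 : x ≤ 0 then Sum.inl (G.src e)
  else if h1 : 1 ≤ x then Sum.inl (G.tgt e)
  else Sum.inr (e, ⟨x, not_le.mp h0, not_le.mp h1⟩)

theorem mpt_zero (G : MGraph V E) (e : E) : mpt G e 0 = Sum.inl (G.src e) := by
  simp [mpt]

theorem mpt_one (G : MGraph V E) (e : E) : mpt G e 1 = Sum.inl (G.tgt e) := by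
  simp [mpt]

theorem mpt_mem (G : MGraph V E) (e : E) (x : Set.Ioo (0 : ℝ) 1) :
    mpt G e x.1 = Sum.inr (e, x) := by
  have h0 : ¬ (x.1 ≤ 0) := not_le.mpr x.2.1
  have h1 : ¬ (1 ≤ x.1) := not_le.mpr x.2.2
  simp [mpt, h0, h1]

/-- indicator of a point of the metric graph -/
noncomputable def mind (a q : Pt V E) : ℤ := Finsupp.single a 1 q

theorem mind_nonneg (a q : Pt V E) : 0 ≤ mind a q := by
  classical
  unfold mind
  rw [Finsupp.single_apply]
  split_ifs <;> norm_num

theorem mind_self (a : Pt V E) : mind a a = 1 := by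
  simp [mind]

theorem mind_ne {a b : Pt V E} (h : a ≠ b) : mind a b = 0 := by
  classical
  unfold mind
  rw [Finsupp.single_apply, if_neg h]

theorem mind_inl (G : MGraph V E) [DecidableEq V] (e : E) (x : ℝ)
    (v : V) : mind (mpt G e x) (Sum.inl v) = (if G.src e = v then (if x ≤ 0 then (1 : ℤ) else 0)
      else 0) + (if G.tgt e = v then (if 1 ≤ x then (1 : ℤ) else 0) else 0) := by
  unfold mpt
  by_cases h0 : x ≤ 0
  · have h1 : ¬ (1 ≤ x) := by intro h; linarith
    simp only [h0, dif_pos, if_true, h1, if_false, ite_self, add_zero]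
    by_cases h : G.src e = v
    · rw [h, mind_self, if_pos rfl]
    · rw [mind_ne (by simpa using h), if_neg h]
  · by_cases h1 : 1 ≤ x
    · simp only [h0, h1, dif_neg, not_false_eq_true, dif_pos, if_false, ite_self, if_true, zero_add]
      by_cases h : G.tgt e = v
      · rw [h, mind_self, if_pos rfl]
      · rw [mind_ne (by simpa using h), if_neg h]
    · simp only [h0, h1, dif_neg, not_false_eq_true, if_false, ite_self, add_zero]
      exact mind_ne (by simp)

theorem mind_inr (G : MGraph V E) [DecidableEq E] (e : E) (x : ℝ)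
    (e' : E) (y : Set.Ioo (0 : ℝ) 1) :
    mind (mpt G e x) (Sum.inr (e', y)) = if e = e' then (if x = y.1 then (1 : ℤ) else 0) else 0 := by
  unfold mpt
  have hy := y.2
  by_cases h0 : x ≤ 0
  · have h1 : x ≠ y.1 := fun h => by rw [h] at h0; linarith [hy.1]
    simp only [h0, dif_pos, h1, if_false, ite_self]
    exact mind_ne (by simp)
  · by_cases h1 : 1 ≤ x
    · have h2 : x ≠ y.1 := fun h => by rw [h] at h1; linarith [hy.2]
      simp only [h0, h1, dif_neg, not_false_eq_true, dif_pos, h2, if_false, ite_self]
      exact mind_ne (by simp)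
    · simp only [h0, h1, dif_neg, not_false_eq_true]
      by_cases h : e = e'
      · subst h
        by_cases h3 : x = y.1
        · simp only [if_true, h3, Subtype.coe_eta]
          exact mind_self _
        · rw [if_pos rfl, if_neg h3]
          refine mind_ne fun h4 => h3 ?_
          have h5 := Sum.inr.inj h4
          have h6 := congrArg (fun z => (z.2 : ℝ)) h5
          exact h6
      · rw [if_neg h]
        refine mind_ne fun h4 => h ?_
        have h5 := Sum.inr.inj h4
        exact congrArg (fun z => z.1) h5

section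

variable [Fintype V] [Fintype E] [DecidableEq V] [DecidableEq E]

/-- Sliding chips along the edges. -/
theorem mslide (G : MGraph V E) {I : Type} [Fintype I] (ed : I → E) (p p' : I → ℝ) (φ : V → ℝ)
    (hp : ∀ i, p i ∈ Set.Icc (0 : ℝ) 1) (hp' : ∀ i, p' i ∈ Set.Icc (0 : ℝ) 1)
    (hφ : ∀ e, φ (G.tgt e) - φ (G.src e) = ∑ i, if ed i = e then p i - p' i else 0) :
    ∃ f : RatFun G, ∀ q, f.div q =
      ∑ i, (mind (mpt G (ed i) (p' i)) q - mind (mpt G (ed i) (p i)) q) := by
  classical
  set g : E → ℝ → ℝ := fun e x => φ (G.src e) +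
    ∑ i, if ed i = e then ramp (p' i) x - ramp (p i) x else 0 with hg
  have aff : ∀ e a b, (∀ i, ¬ (a < p i ∧ p i < b)) → (∀ i, ¬ (a < p' i ∧ p' i < b)) →
      ∀ x ∈ Set.Icc a b, g e x = g e a + ((∑ i, if ed i = e then
        ((if p' i ≤ a then (1 : ℤ) else 0) - (if p i ≤ a then 1 else 0)) else 0 : ℤ) : ℝ) *
        (x - a) := by
    intro e a b h1 h2 x hx
    simp only [hg]
    push_cast
    rw [add_assoc, Finset.sum_mul, ← Finset.sum_add_distrib]
    congr 1
    refine Finset.sum_congr rfl fun i _ => ?_
    by_cases h : ed i = e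
    · simp only [h, if_true]
      have e1 := ramp_affine (h1 i) hx
      have e2 := ramp_affine (h2 i) hx
      rw [e1, e2]
      push_cast
      ring
    · simp [h]
  let f : RatFun G :=
    { val := φ
      fn := g
      fn_zero := by
        intro e
        simp only [hg]
        rw [Finset.sum_eq_zero, add_zero]
        intro i _
        have h1 := (hp i).1
        have h2 := (hp' i).1
        simp [ramp, h1, h2]
      fn_one := by
        intro e
        simp only [hg]
        have h3 : ∑ i, (if ed i = e then ramp (p' i) 1 - ramp (p i) 1 else 0) =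
            ∑ i, if ed i = e then p i - p' i else 0 := by
          refine Finset.sum_congr rfl fun i _ => ?_
          have h1 := (hp i).2
          have h2 := (hp' i).2
          by_cases h : ed i = e
          · simp only [h, if_true, ramp]
            rw [max_eq_left (by linarith), max_eq_left (by linarith)]
            ring
          · simp [h]
        rw [h3, ← hφ e]
        ring
      pl := by
        intro e
        refine PLOn.of_breaks (g e) (Finset.univ.image p ∪ Finset.univ.image p') ?_ 0 1
          zero_lt_one
        intro a b _ hT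
        refine ⟨_, aff e a b (fun i => hT _ ?_) (fun i => hT _ ?_)⟩
        · simp
        · simp
      slR := fun e x => ∑ i, if ed i = e then
        ((if p' i ≤ x then (1 : ℤ) else 0) - (if p i ≤ x then 1 else 0)) else 0
      slL := fun e x => ∑ i, if ed i = e then
        ((if p' i < x then (1 : ℤ) else 0) - (if p i < x then 1 else 0)) else 0
      slR_spec := by
        intro e x _
        have h1 : ∀ᶠ y in 𝓝[>] x, ∀ i, ramp (p i) y = ramp (p i) x +
            (if p i ≤ x then (1 : ℤ) else 0 : ℤ) * (y - x) :=
          Filter.eventually_all.mpr fun i => ramp_right (p i) x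
        have h2 : ∀ᶠ y in 𝓝[>] x, ∀ i, ramp (p' i) y = ramp (p' i) x +
            (if p' i ≤ x then (1 : ℤ) else 0 : ℤ) * (y - x) :=
          Filter.eventually_all.mpr fun i => ramp_right (p' i) x
        filter_upwards [h1, h2] with y hy1 hy2
        simp only [hg]
        push_cast
        rw [add_assoc, Finset.sum_mul, ← Finset.sum_add_distrib]
        congr 1
        refine Finset.sum_congr rfl fun i _ => ?_
        by_cases h : ed i = e
        · simp only [h, if_true]
          rw [hy1 i, hy2 i]
          push_cast
          ring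
        · simp [h]
      slL_spec := by
        intro e x _
        have h1 : ∀ᶠ y in 𝓝[<] x, ∀ i, ramp (p i) y = ramp (p i) x +
            (if p i < x then (1 : ℤ) else 0 : ℤ) * (y - x) :=
          Filter.eventually_all.mpr fun i => ramp_left (p i) x
        have h2 : ∀ᶠ y in 𝓝[<] x, ∀ i, ramp (p' i) y = ramp (p' i) x +
            (if p' i < x then (1 : ℤ) else 0 : ℤ) * (y - x) :=
          Filter.eventually_all.mpr fun i => ramp_left (p' i) x
        filter_upwards [h1, h2] with y hy1 hy2
        simp only [hg]
        push_cast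
        rw [add_assoc, Finset.sum_mul, ← Finset.sum_add_distrib]
        congr 1
        refine Finset.sum_congr rfl fun i _ => ?_
        by_cases h : ed i = e
        · simp only [h, if_true]
          rw [hy1 i, hy2 i]
          push_cast
          ring
        · simp [h] }
  refine ⟨f, ?_⟩
  rintro (v | ⟨e, x⟩)
  · change ∑ e, ((if G.src e = v then (∑ i, if ed i = e then
        ((if p' i ≤ 0 then (1 : ℤ) else 0) - (if p i ≤ 0 then 1 else 0)) else 0) else 0) +
      (if G.tgt e = v then - (∑ i, if ed i = e then
        ((if p' i < 1 then (1 : ℤ) else 0) - (if p i < 1 then 1 else 0)) else 0) else 0)) = _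
    have h1 : ∀ e, ((if G.src e = v then (∑ i, if ed i = e then
        ((if p' i ≤ 0 then (1 : ℤ) else 0) - (if p i ≤ 0 then 1 else 0)) else 0) else 0) +
      (if G.tgt e = v then - (∑ i, if ed i = e then
        ((if p' i < 1 then (1 : ℤ) else 0) - (if p i < 1 then 1 else 0)) else 0) else 0)) =
        ∑ i, if ed i = e then (mind (mpt G e (p' i)) (Sum.inl v) -
          mind (mpt G e (p i)) (Sum.inl v)) else 0 := by
      intro e
      have h2 : (if G.src e = v then (∑ i, if ed i = e then
          ((if p' i ≤ 0 then (1 : ℤ) else 0) - (if p i ≤ 0 then 1 else 0)) else 0) else 0) =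
          ∑ i, if ed i = e then (if G.src e = v then
          ((if p' i ≤ 0 then (1 : ℤ) else 0) - (if p i ≤ 0 then 1 else 0)) else 0) else 0 := by
        by_cases h : G.src e = v <;> simp [h]
      have h3 : (if G.tgt e = v then - (∑ i, if ed i = e then
          ((if p' i < 1 then (1 : ℤ) else 0) - (if p i < 1 then 1 else 0)) else 0) else 0) =
          ∑ i, if ed i = e then (if G.tgt e = v then
          - ((if p' i < 1 then (1 : ℤ) else 0) - (if p i < 1 then 1 else 0)) else 0) else 0 := by
        by_cases h : G.tgt e = v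
        · simp only [h, if_true]
          rw [← Finset.sum_neg_distrib]
          refine Finset.sum_congr rfl fun i _ => ?_
          by_cases h4 : ed i = e <;> simp [h4]
        · simp [h]
      rw [h2, h3, ← Finset.sum_add_distrib]
      refine Finset.sum_congr rfl fun i _ => ?_
      by_cases h4 : ed i = e
      · simp only [h4, if_true]
        rw [mind_inl G e, mind_inl G e]
        have e1 : (if p' i < 1 then (1 : ℤ) else 0) = 1 - (if 1 ≤ p' i then (1 : ℤ) else 0) := by
          by_cases h5 : p' i < 1
          · simp [h5, not_le.mpr h5]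
          · simp [h5, not_lt.mp h5]
        have e2 : (if p i < 1 then (1 : ℤ) else 0) = 1 - (if 1 ≤ p i then (1 : ℤ) else 0) := by
          by_cases h5 : p i < 1
          · simp [h5, not_le.mpr h5]
          · simp [h5, not_lt.mp h5]
        rw [e1, e2]
        by_cases h6 : G.src e = v <;> by_cases h7 : G.tgt e = v <;> simp only [h6, h7, if_true,
          if_false] <;> ring
      · simp [h4]
    rw [Finset.sum_congr rfl fun e _ => h1 e, Finset.sum_comm]
    refine Finset.sum_congr rfl fun i _ => ?_
    rw [Finset.sum_ite_eq]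
    simp
  · change (∑ i, if ed i = e then
        ((if p' i ≤ x.1 then (1 : ℤ) else 0) - (if p i ≤ x.1 then 1 else 0)) else 0) +
      - (∑ i, if ed i = e then
        ((if p' i < x.1 then (1 : ℤ) else 0) - (if p i < x.1 then 1 else 0)) else 0) = _
    rw [← Finset.sum_neg_distrib, ← Finset.sum_add_distrib]
    refine Finset.sum_congr rfl fun i _ => ?_
    rw [mind_inr, mind_inr]
    by_cases h4 : ed i = e
    · simp only [h4, if_true]
      have key : ∀ t : ℝ, (if t ≤ x.1 then (1 : ℤ) else 0) - (if t < x.1 then (1 : ℤ) else 0) =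
          if t = x.1 then 1 else 0 := by
        intro t
        rcases lt_trichotomy t x.1 with h5 | h5 | h5
        · simp [h5, h5.le, h5.ne]
        · simp [h5]
        · simp [not_le.mpr h5, not_lt.mpr h5.le, h5.ne']
      have k1 := key (p' i)
      have k2 := key (p i)
      linarith
    · simp [h4]

/-- If both ends of an edge carry a chip, then every point of the edge can be reached. -/
theorem mbump (G : MGraph V E) (D : Pt V E → ℤ) (hD : ∀ w, 0 ≤ D w) (e : E)
    (h0 : 1 ≤ D (Sum.inl (G.src e))) (h1 : 1 ≤ D (Sum.inl (G.tgt e))) (x : ℝ)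
    (hx : x ∈ Set.Icc (0 : ℝ) 1) :
    ∃ f : RatFun G, (∃ D' : Pt V E →₀ ℤ, ∀ q, D' q = f.div q) ∧
      (∀ w, 0 ≤ D w + f.div w) ∧ 1 ≤ D (mpt G e x) + f.div (mpt G e x) := by
  obtain ⟨f, key⟩ := mslide G (I := Bool) (fun _ => e) (fun b => if b then 0 else 1)
    (fun b => if b then x else 1 - x) (fun _ => 0) (by intro b; cases b <;> simp)
    (by
      intro b
      cases b
      · simp only [Bool.false_eq_true, if_false]
        exact ⟨by linarith [hx.2], by linarith [hx.1]⟩
      · simpa using hx) (by
      intro e'
      by_cases h : e = e'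
      · simp [h]
      · simp [h])
  have hl := G.loopless e
  refine ⟨f, ⟨∑ b : Bool, (Finsupp.single (mpt G e (if b then x else 1 - x)) 1 -
    Finsupp.single (mpt G e (if b then 0 else 1)) 1), fun q => ?_⟩, fun w => ?_, ?_⟩
  · rw [key q]
    simp [mind]
  · rw [key w]
    simp only [Fintype.sum_bool, if_true, mpt_zero, Bool.false_eq_true, if_false, mpt_one]
    have n1 := mind_nonneg (mpt G e x) w
    have n2 := mind_nonneg (mpt G e (1 - x)) w
    by_cases hw0 : (Sum.inl (G.src e) : Pt V E) = w
    · subst hw0
      rw [mind_self, mind_ne (a := Sum.inl (G.tgt e)) (by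
        intro h
        exact hl (Sum.inl.inj h).symm)]
      linarith
    · rw [mind_ne hw0]
      by_cases hw1 : (Sum.inl (G.tgt e) : Pt V E) = w
      · subst hw1
        rw [mind_self]
        linarith
      · rw [mind_ne hw1]
        have := hD w
        linarith
  · rw [key]
    simp only [Fintype.sum_bool, if_true, mpt_zero, Bool.false_eq_true, if_false, mpt_one]
    have n2 := mind_nonneg (mpt G e (1 - x)) (mpt G e x)
    rw [mind_self]
    by_cases hw0 : (Sum.inl (G.src e) : Pt V E) = mpt G e x
    · rw [← hw0] at n2 ⊢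
      rw [mind_self, mind_ne (a := Sum.inl (G.tgt e)) (by
        intro h
        exact hl (Sum.inl.inj h).symm)]
      linarith
    · rw [mind_ne hw0]
      by_cases hw1 : (Sum.inl (G.tgt e) : Pt V E) = mpt G e x
      · rw [← hw1] at n2 ⊢
        rw [mind_self]
        linarith
      · rw [mind_ne hw1]
        have := hD (mpt G e x)
        linarith

end

end Q122.Gon
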