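import Pool.Agent.Q122.Gon.Basic

set_option autoImplicit false

/-!
# Divisors on the metric graph of a multigraph
-/

namespace Q122.Gon

open Filter Topology

/-- `g` is piecewise linear on `[a, b]`, with finitely many pieces and integer slopes. -/
inductive PLOn (g : ℝ → ℝ) : ℝ → ℝ → Prop
  | affine {a b : ℝ} (s : ℤ) (hab : a < b)
      (h : ∀ x ∈ Set.Icc a b, g x = g a + s * (x - a)) : PLOn g a b
  | glue {a c b : ℝ} (h₁ : PLOn g a c) (h₂ : PLOn g c b) : PLOn g a b

/-- The points of the metric graph: the vertices, and on every edge the points of the open segment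
`(0, 1)` (the parameter runs from `src e` to `tgt e`). -/
abbrev Pt (V E : Type) : Type := V ⊕ E × Set.Ioo (0 : ℝ) 1

/-- A rational function on the metric graph `Γ(G)`: continuous and piecewise linear with finitely
many pieces and integer slopes. It is given by its values at the vertices and by a function on
each edge; `slR e x` and `slL e x` are its slopes on the edge `e` immediately to the right and to
the left of the parameter `x`. -/
structure RatFun {V E : Type} (G : MGraph V E) where
  /-- values at vertices -/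
  val : V → ℝ
  /-- values on edges -/
  fn : E → ℝ → ℝ
  fn_zero : ∀ e, fn e 0 = val (G.src e)
  fn_one : ∀ e, fn e 1 = val (G.tgt e)
  pl : ∀ e, PLOn (fn e) 0 1
  /-- right slopes -/
  slR : E → ℝ → ℤ
  /-- left slopes -/
  slL : E → ℝ → ℤ
  slR_spec : ∀ e, ∀ x ∈ Set.Ico (0 : ℝ) 1, ∀ᶠ y in 𝓝[>] x, fn e y = fn e x + slR e x * (y - x)
  slL_spec : ∀ e, ∀ x ∈ Set.Ioc (0 : ℝ) 1, ∀ᶠ y in 𝓝[<] x, fn e y = fn e x + slL e x * (y - x)

variable {V E : Type}

/-- The divisor of a rational function: at every point the sum of the slopes in all directions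
leaving that point. -/
def RatFun.div [Fintype E] [DecidableEq V] {G : MGraph V E} (f : RatFun G) : Pt V E → ℤ
  | Sum.inl v => ∑ e, ((if G.src e = v then f.slR e 0 else 0) +
      (if G.tgt e = v then - f.slL e 1 else 0))
  | Sum.inr (e, x) => f.slR e x + - f.slL e x

namespace MGraph

variable [Fintype V] [Fintype E] [DecidableEq V]

/-- Equivalence of divisors on the metric graph. -/
def MEquiv (G : MGraph V E) (D D' : Pt V E →₀ ℤ) : Prop :=
  ∃ f : RatFun G, ∀ q, D' q = D q + f.div q

/-- The degree of a divisor on the metric graph. -/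
def mdeg (D : Pt V E →₀ ℤ) : ℤ := D.sum fun _ a => a

/-- A divisor `D` on the metric graph has rank at least one if for every point `q` the divisor
`D - q` is equivalent to an effective divisor. -/
def MRankOne (G : MGraph V E) (D : Pt V E →₀ ℤ) : Prop :=
  ∀ q, ∃ D' : Pt V E →₀ ℤ, G.MEquiv (D - Finsupp.single q 1) D' ∧ ∀ w, 0 ≤ D' w

/-- degrees of divisors of rank at least one on the graph -/
def dgonSet (G : MGraph V E) : Set ℕ := {d | ∃ D : V → ℤ, ∑ v, D v = (d : ℤ) ∧ G.RankOne D}

/-- degrees of divisors of rank at least one on the metric graph -/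
def mdgonSet (G : MGraph V E) : Set ℕ :=
  {d | ∃ D : Pt V E →₀ ℤ, mdeg D = (d : ℤ) ∧ G.MRankOne D}

/-- The divisorial gonality of the graph `G`. -/
noncomputable def dgon (G : MGraph V E) : ℕ := sInf G.dgonSet

/-- The divisorial gonality of the metric graph `Γ(G)`. -/
noncomputable def mdgon (G : MGraph V E) : ℕ := sInf G.mdgonSet

end MGraph

/-! ### Slopes of piecewise linear functions -/

theorem slope_unique_right {g : ℝ → ℝ} {x : ℝ} {s t : ℤ}
    (h1 : ∀ᶠ y in 𝓝[>] x, g y = g x + s * (y - x))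
    (h2 : ∀ᶠ y in 𝓝[>] x, g y = g x + t * (y - x)) : s = t := by
  obtain ⟨y, hy, h3, h4⟩ := ((self_mem_nhdsWithin (a := x) (s := Set.Ioi x)) |>
    fun h => (Filter.Eventually.and (Filter.eventually_of_mem h fun _ hy => hy)
      (h1.and h2))).exists
  have hy' : 0 < y - x := sub_pos.mpr hy
  rw [h3] at h4
  have h5 : (s : ℝ) * (y - x) = t * (y - x) := by linarith
  have h6 := mul_right_cancel₀ hy'.ne' h5
  exact_mod_cast h6

theorem slope_unique_left {g : ℝ → ℝ} {x : ℝ} {s t : ℤ}
    (h1 : ∀ᶠ y in 𝓝[<] x, g y = g x + s * (y - x))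
    (h2 : ∀ᶠ y in 𝓝[<] x, g y = g x + t * (y - x)) : s = t := by
  obtain ⟨y, hy, h3, h4⟩ := ((self_mem_nhdsWithin (a := x) (s := Set.Iio x)) |>
    fun h => (Filter.Eventually.and (Filter.eventually_of_mem h fun _ hy => hy)
      (h1.and h2))).exists
  have hy' : y - x < 0 := sub_neg.mpr hy
  rw [h3] at h4
  have h5 : (s : ℝ) * (y - x) = t * (y - x) := by linarith
  have h6 := mul_right_cancel₀ hy'.ne h5
  exact_mod_cast h6

/-- The number of chips strictly between `a` and `b`. -/
noncomputable def between (T : Finset ℝ) (d : ℝ → ℤ) (a b : ℝ) : ℤ :=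
  ∑ x ∈ T.filter (fun x => a < x ∧ x < b), d x

theorem PLOn.lt {g : ℝ → ℝ} {a b : ℝ} (h : PLOn g a b) : a < b := by
  induction h with
  | affine s hab _ => exact hab
  | glue _ _ ih1 ih2 => exact ih1.trans ih2

theorem between_glue (T : Finset ℝ) (d : ℝ → ℤ) (hd : ∀ x, 0 ≤ d x)
    (hT : ∀ x, d x ≠ 0 → x ∈ T) (a c b : ℝ) (h1 : a < c) (h2 : c < b) :
    between T d a c + d c + between T d c b ≤ between T d a b := by
  unfold between
  have hsub : T.filter (fun x => a < x ∧ x < c) ∪ (T.filter (fun x => x = c)) ∪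
      T.filter (fun x => c < x ∧ x < b) ⊆ T.filter (fun x => a < x ∧ x < b) := by
    intro x hx
    simp only [Finset.mem_union, Finset.mem_filter] at hx ⊢
    rcases hx with (⟨hx, h3, h4⟩ | ⟨hx, h3⟩) | ⟨hx, h3, h4⟩
    · exact ⟨hx, h3, h4.trans h2⟩
    · exact ⟨hx, by rw [h3]; exact h1, by rw [h3]; exact h2⟩
    · exact ⟨hx, h1.trans h3, h4⟩
  refine le_trans ?_ (Finset.sum_le_sum_of_subset_of_nonneg hsub fun x _ _ => hd x)
  rw [Finset.sum_union, Finset.sum_union]
  · have : d c ≤ ∑ x ∈ T.filter (fun x => x = c), d x := by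
      by_cases hc : d c = 0
      · rw [hc]
        exact Finset.sum_nonneg fun x _ => hd x
      · exact Finset.single_le_sum (f := d) (fun x _ => hd x)
          (by simp [Finset.mem_filter, hT c hc])
    linarith
  · rw [Finset.disjoint_left]
    intro x hx hx'
    simp only [Finset.mem_filter] at hx hx'
    rw [hx'.2] at hx
    exact lt_irrefl _ hx.2.2
  · rw [Finset.disjoint_left]
    intro x hx hx'
    simp only [Finset.mem_union, Finset.mem_filter] at hx hx'
    rcases hx with ⟨_, _, h4⟩ | ⟨_, h3⟩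
    · exact lt_irrefl _ (h4.trans hx'.2.1)
    · rw [h3] at hx'
      exact lt_irrefl _ hx'.2.1

/-- The key estimate on slopes of piecewise linear functions whose slope can only drop at chips. -/
theorem PLOn.slope_bound {g : ℝ → ℝ} {a b : ℝ} (h : PLOn g a b) (R L : ℝ → ℤ)
    (T : Finset ℝ) (d : ℝ → ℤ) (hd : ∀ x, 0 ≤ d x) (hT : ∀ x, d x ≠ 0 → x ∈ T)
    (hR : ∀ x ∈ Set.Ico a b, ∀ᶠ y in 𝓝[>] x, g y = g x + R x * (y - x))
    (hL : ∀ x ∈ Set.Ioc a b, ∀ᶠ y in 𝓝[<] x, g y = g x + L x * (y - x))
    (hj : ∀ x ∈ Set.Ioo a b, - d x ≤ R x - L x) :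
    R a - between T d a b ≤ L b ∧
    ((R a - between T d a b : ℤ) : ℝ) * (b - a) ≤ g b - g a ∧
    g b - g a ≤ ((L b + between T d a b : ℤ) : ℝ) * (b - a) := by
  induction h with
  | @affine a b s hab hs =>
    have hRa : R a = s := by
      refine slope_unique_right (hR a ⟨le_rfl, hab⟩) ?_
      filter_upwards [Ioc_mem_nhdsGT hab] with y hy
      exact hs y ⟨hy.1.le, hy.2⟩
    have hLb : L b = s := by
      refine slope_unique_left (hL b ⟨hab, le_rfl⟩) ?_
      filter_upwards [Ico_mem_nhdsLT hab] with y hy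
      rw [hs y ⟨hy.1, hy.2.le⟩, hs b ⟨hab.le, le_rfl⟩]
      ring
    have h0 : 0 ≤ between T d a b := Finset.sum_nonneg fun x _ => hd x
    have h0' : (0 : ℝ) ≤ (between T d a b : ℤ) := by exact_mod_cast h0
    have hba : 0 < b - a := sub_pos.mpr hab
    have h1 : g b - g a = s * (b - a) := by
      rw [hs b ⟨hab.le, le_rfl⟩]
      ring
    refine ⟨by omega, ?_, ?_⟩
    · rw [h1, hRa]
      push_cast
      nlinarith
    · rw [h1, hLb]
      push_cast
      nlinarith
  | @glue a c b h1 h2 ih1 ih2 =>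
    have hac := h1.lt
    have hcb := h2.lt
    obtain ⟨i1, i2, i3⟩ := ih1
      (fun x hx => hR x ⟨hx.1, hx.2.trans hcb⟩)
      (fun x hx => hL x ⟨hx.1, hx.2.trans hcb.le⟩)
      (fun x hx => hj x ⟨hx.1, hx.2.trans hcb⟩)
    obtain ⟨j1, j2, j3⟩ := ih2
      (fun x hx => hR x ⟨hac.le.trans hx.1, hx.2⟩)
      (fun x hx => hL x ⟨hac.trans_le hx.1.le, hx.2⟩)
      (fun x hx => hj x ⟨hac.trans hx.1, hx.2⟩)
    have hc := hj c ⟨hac, hcb⟩
    have hb := between_glue T d hd hT a c b hac hcb
    have hn1 : 0 ≤ between T d a c := Finset.sum_nonneg fun x _ => hd x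
    have hn2 : 0 ≤ between T d c b := Finset.sum_nonneg fun x _ => hd x
    have hdc := hd c
    refine ⟨by omega, ?_, ?_⟩
    · have e1 : ((R a - between T d a b : ℤ) : ℝ) ≤ ((R a - between T d a c : ℤ) : ℝ) := by
        exact_mod_cast (by omega : R a - between T d a b ≤ R a - between T d a c)
      have e2 : ((R a - between T d a b : ℤ) : ℝ) ≤ ((R c - between T d c b : ℤ) : ℝ) := by
        exact_mod_cast (by omega : R a - between T d a b ≤ R c - between T d c b)
      have hca : 0 < c - a := sub_pos.mpr hac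
      have hbc : 0 < b - c := sub_pos.mpr hcb
      nlinarith
    · have e1 : ((L c + between T d a c : ℤ) : ℝ) ≤ ((L b + between T d a b : ℤ) : ℝ) := by
        exact_mod_cast (by omega : L c + between T d a c ≤ L b + between T d a b)
      have e2 : ((L b + between T d c b : ℤ) : ℝ) ≤ ((L b + between T d a b : ℤ) : ℝ) := by
        exact_mod_cast (by omega : L b + between T d c b ≤ L b + between T d a b)
      have hca : 0 < c - a := sub_pos.mpr hac
      have hbc : 0 < b - c := sub_pos.mpr hcb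
      nlinarith

end Q122.Gon
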