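import Pool.Agent.Q122.Gon.ClusterSub

set_option autoImplicit false
set_option synthInstance.maxSize 4000

/-!
# A cluster graph whose gonality drops under the `(n+1)`-regular subdivision
-/

namespace Q122.Gon

namespace Odd

/-- clusters: `q_0, ..., q_{n+1}` and `B_0, ..., B_{n-1}` -/
abbrev Cl (n : ℕ) : Type := Fin (n + 2) ⊕ Fin n

/-- types of long edges -/
abbrev Ty (n : ℕ) : Type := Fin n × Bool ⊕ Unit

/-- the cluster `q_j` -/
def qq (n j : ℕ) : Cl n := Sum.inl ⟨min j (n + 1), by omega⟩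

/-- ends of long edges -/
def ends (n : ℕ) : Ty n → Bool → Cl n
  | Sum.inl (i, _), false => Sum.inr i
  | Sum.inl (i, false), true => qq n i.val
  | Sum.inl (i, true), true => qq n (i.val + 2)
  | Sum.inr _, false => qq n 0
  | Sum.inr _, true => qq n (n + 1)

/-- the cluster data -/
def X (n N : ℕ) : CData (Cl n) (Fin n) (Fin n × Fin 3) (Ty n × Fin N) where
  cc := fun i => qq n (i.val + 1)
  sc := fun s => s.1
  st := fun s => if s.2 = 0 then qq n s.1.val else if s.2 = 1 then qq n (s.1.val + 2)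
    else Sum.inr s.1
  hd := fun e b => ends n e.1 b

/-- potentials of the configurations -/
def pot (n x t : ℕ) : Cl n → ℤ :=
  Sum.elim (fun j => ((min j.val x : ℕ) : ℤ))
    (fun i => ((min (i.val + 1) x + (if x = i.val + 1 then t else 0) : ℕ) : ℤ))

/-- base positions on long edges -/
def P (n N : ℕ) : Ty n × Fin N → ℤ
  | (Sum.inl (_, false), _) => n + 1
  | (Sum.inl (_, true), _) => n
  | (Sum.inr _, _) => 0

/-- base positions on spokes -/
def W (n : ℕ) : Fin n × Fin 3 → ℤ := fun s => if s.2 = 0 then 1 else 0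

theorem valid (n N x t : ℕ) (hx : x ≤ n + 1) (ht : t ≤ n) :
    (X n N).Valid (n + 1) (P n N) (W n) (pot n x t) := by
  refine ⟨?_, ?_, ?_, ?_, ?_⟩
  · rintro ⟨⟨i, b⟩ | u, ν⟩
    · have hi := i.isLt
      cases b <;> simp only [CData.pE, X, ends, P, pot, qq, Sum.elim_inl, Sum.elim_inr] <;>
        split_ifs <;> omega
    · simp only [CData.pE, X, ends, P, pot, qq, Sum.elim_inl]
      omega
  · rintro ⟨⟨i, b⟩ | u, ν⟩
    · have hi := i.isLt
      cases b <;> simp only [CData.pE, X, ends, P, pot, qq, Sum.elim_inl, Sum.elim_inr] <;>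
        split_ifs <;> omega
    · simp only [CData.pE, X, ends, P, pot, qq, Sum.elim_inl]
      omega
  · rintro ⟨i, a⟩
    have hi := i.isLt
    fin_cases a <;> simp [CData.wS, X, W, pot, qq] <;> (try split_ifs) <;> omega
  · rintro ⟨i, a⟩
    have hi := i.isLt
    fin_cases a <;> simp [CData.wS, X, W, pot, qq] <;> (try split_ifs) <;> omega
  · rintro ⟨i, a⟩ ⟨i', a'⟩ h1 h2 h3
    have h1' : i = i' := h1
    subst h1'
    have hi := i.isLt
    revert h2 h3
    fin_cases a <;> fin_cases a' <;> simp [CData.wS, X, W, pot, qq] <;>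
      (try split_ifs) <;> omega

theorem cover_edge (n N : ℕ) (e : Ty n × Fin N) (j : ℕ) (hj : j ≤ n + 1) :
    ∃ h, (X n N).Valid (n + 1) (P n N) (W n) h ∧ (X n N).pE (P n N) h e = j := by
  obtain ⟨⟨i, b⟩ | u, ν⟩ := e
  · have hi := i.isLt
    cases b
    · rcases Nat.lt_or_ge n j with h | h
      · refine ⟨pot n i.val 0, valid n N _ _ (by omega) (by omega), ?_⟩
        simp only [CData.pE, X, ends, P, pot, qq, Sum.elim_inl, Sum.elim_inr]
        split_ifs <;> omega
      · refine ⟨pot n (i.val + 1) (n - j), valid n N _ _ (by omega) (by omega), ?_⟩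
        simp only [CData.pE, X, ends, P, pot, qq, Sum.elim_inl, Sum.elim_inr]
        split_ifs <;> omega
    · rcases Nat.lt_or_ge n j with h | h
      · refine ⟨pot n (i.val + 2) 0, valid n N _ _ (by omega) (by omega), ?_⟩
        simp only [CData.pE, X, ends, P, pot, qq, Sum.elim_inl, Sum.elim_inr]
        split_ifs <;> omega
      · refine ⟨pot n (i.val + 1) (n - j), valid n N _ _ (by omega) (by omega), ?_⟩
        simp only [CData.pE, X, ends, P, pot, qq, Sum.elim_inl, Sum.elim_inr]
        split_ifs <;> omega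
  · refine ⟨pot n j 0, valid n N _ _ hj (by omega), ?_⟩
    simp only [CData.pE, X, ends, P, pot, qq, Sum.elim_inl]
    omega

theorem cover_centre (n N : ℕ) (i : Fin n) :
    ∃ h, (X n N).Valid (n + 1) (P n N) (W n) h ∧
      ∀ s, (X n N).sc s = i → (X n N).wS (W n) h s = 0 := by
  have hi := i.isLt
  refine ⟨pot n (i.val + 1) 0, valid n N _ _ (by omega) (by omega), ?_⟩
  rintro ⟨i', a⟩ h1
  have h1' : i' = i := h1
  subst h1'
  fin_cases a <;> simp [CData.wS, X, W, pot, qq] <;> omega

theorem upper (n N μ M : ℕ) (hμ : 1 ≤ μ) :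
    (n + 2 + n) + n * 3 + μ * n + (n * 2 + 1) * N ∈
      (((X n N).graph μ M).subdiv (n + 1)).gonSet := by
  have := (X n N).upper μ M (n + 1) hμ (by omega) (P n N) (W n) (pot n 0 0)
    (valid n N 0 0 (by omega) (by omega)) (cover_edge n N) (cover_centre n N)
  simpa using this

/-! ### The lower bound -/

section lower

variable {n N μ : ℕ} {d : ℤ} (st : CData.States (X n N) μ d)

/-- every long edge carries a chip -/
theorem na_pos (e : Ty n × Fin N) : 1 ≤ st.na e false + st.na e true := by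
  obtain ⟨h, hh, h1⟩ := st.cov0 e
  have h2 := st.ca1 h hh e
  linarith

/-- A long edge with one chip forces the difference of the potentials at its ends to take exactly
two consecutive values. -/
theorem single (e : Ty n × Fin N) (he : st.na e false + st.na e true ≤ 1) :
    ∃ c : ℤ, (∀ h ∈ st.P, c ≤ h (ends n e.1 false) - h (ends n e.1 true) ∧
      h (ends n e.1 false) - h (ends n e.1 true) ≤ c + 1) ∧
      (∃ h ∈ st.P, h (ends n e.1 false) - h (ends n e.1 true) = c) ∧
      (∃ h ∈ st.P, h (ends n e.1 false) - h (ends n e.1 true) = c + 1) := by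
  have h0 := na_pos st e
  refine ⟨- st.na e false, fun h hh => ⟨?_, ?_⟩, ?_, ?_⟩
  · have := st.ca0 h hh e
    simp only [X] at this
    linarith
  · have := st.ca1 h hh e
    simp only [X] at this
    linarith
  · obtain ⟨h, hh, h1⟩ := st.cov1 e
    refine ⟨h, hh, ?_⟩
    have := st.ca0 h hh e
    simp only [X] at this h1
    linarith
  · obtain ⟨h, hh, h1⟩ := st.cov0 e
    refine ⟨h, hh, ?_⟩
    have := st.ca1 h hh e
    simp only [X] at this h1
    linarith

/-- number of chips around a centre -/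
def cen (i : Fin n) : ℤ := st.nz i + (st.nu (i, 0) + st.nu (i, 1) + st.nu (i, 2))

theorem filter_sum (g : Fin n × Fin 3 → ℤ) (i : Fin n) :
    ∑ s ∈ Finset.univ.filter (fun s => (X n N).sc s = i), g s =
      g (i, 0) + g (i, 1) + g (i, 2) := by
  rw [Finset.sum_filter, Fintype.sum_prod_type]
  have : ∀ j : Fin n, ∑ a : Fin 3, (if (X n N).sc (j, a) = i then g (j, a) else 0) =
      if j = i then g (j, 0) + g (j, 1) + g (j, 2) else 0 := by
    intro j
    by_cases h : j = i
    · simp [X, h, Fin.sum_univ_three]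
    · simp [X, h]
  rw [Finset.sum_congr rfl fun j _ => this j, Finset.sum_ite_eq']
  simp

/-- the left spoke of a centre -/
def kL (i : Fin n) (h : Cl n → ℤ) : ℤ :=
  st.nu (i, 0) / μ + (h (qq n i.val) - h (qq n (i.val + 1)))

/-- the right spoke of a centre -/
def kR (i : Fin n) (h : Cl n → ℤ) : ℤ :=
  st.nu (i, 1) / μ + (h (qq n (i.val + 2)) - h (qq n (i.val + 1)))

/-- the third spoke of a centre -/
def kB (i : Fin n) (h : Cl n → ℤ) : ℤ :=
  st.nu (i, 2) / μ + (h (Sum.inr i) - h (qq n (i.val + 1)))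

theorem k_nonneg (hμ : 1 ≤ μ) (i : Fin n) (h : Cl n → ℤ) (hh : h ∈ st.P) :
    0 ≤ kL st i h ∧ 0 ≤ kR st i h ∧ 0 ≤ kB st i h := by
  have hμ' : (0 : ℤ) < μ := by exact_mod_cast hμ
  have key : ∀ x y : ℤ, 0 ≤ x + μ * y → 0 ≤ x / μ + y := by
    intro x y hxy
    have := Int.ediv_nonneg hxy hμ'.le
    rwa [Int.add_mul_ediv_left _ _ hμ'.ne'] at this
  refine ⟨key _ _ ?_, key _ _ ?_, key _ _ ?_⟩
  · have := st.cu h hh (i, 0)
    simpa [X] using this
  · have := st.cu h hh (i, 1)
    simpa [X] using this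
  · have := st.cu h hh (i, 2)
    simpa [X] using this

theorem k_sum (hμ : 1 ≤ μ) (i : Fin n) (h : Cl n → ℤ) (hh : h ∈ st.P) (t : ℤ)
    (ht : cen st i < μ * t) : kL st i h + kR st i h + kB st i h < t := by
  have hμ' : (0 : ℤ) < μ := by exact_mod_cast hμ
  have h1 := st.cz h hh i
  rw [filter_sum] at h1
  simp only [X, if_true, Fin.isValue, one_ne_zero, if_false, Fin.reduceEq] at h1
  have h2 := Int.ediv_mul_le (st.nu (i, 0)) hμ'.ne'
  have h3 := Int.ediv_mul_le (st.nu (i, 1)) hμ'.ne'
  have h4 := Int.ediv_mul_le (st.nu (i, 2)) hμ'.ne'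
  unfold cen at ht
  have h5 : μ * (kL st i h + kR st i h + kB st i h) < μ * t := by
    unfold kL kR kB
    linarith
  exact lt_of_mul_lt_mul_left h5 hμ'.le

/-- every type of long edges has a copy with one chip -/
theorem exists_single
    (hd : d ≤ (n + 2 + n) + n * 3 + μ * n + (n * 2 + 1) * N)
    (hN : μ * n + 5 * n + 2 < N) (τ : Ty n) :
    ∃ ν : Fin N, st.na (τ, ν) false + st.na (τ, ν) true ≤ 1 := by
  by_contra hcon
  push Not at hcon
  have h1 : ∑ e : Ty n × Fin N, (st.na e false + st.na e true) ≥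
      ∑ e : Ty n × Fin N, (1 + if e.1 = τ then (1 : ℤ) else 0) := by
    refine Finset.sum_le_sum fun e _ => ?_
    by_cases h : e.1 = τ
    · have h2 := hcon e.2
      rw [← h] at h2
      simp only [h, if_true]
      have h3 : ((e.1, e.2) : Ty n × Fin N) = e := rfl
      rw [h3] at h2
      linarith
    · have := na_pos st e
      simp only [h, if_false]
      linarith
  have h2 : ∑ e : Ty n × Fin N, (1 + if e.1 = τ then (1 : ℤ) else 0) =
      (n * 2 + 1) * N + N := by
    rw [Finset.sum_add_distrib, Fintype.sum_prod_type (f := fun e : Ty n × Fin N =>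
      if e.1 = τ then (1 : ℤ) else 0)]
    have h0 : ∀ a : Ty n, ∑ ν : Fin N, (if ((a, ν) : Ty n × Fin N).1 = τ then (1 : ℤ) else 0) =
        if a = τ then (N : ℤ) else 0 := by
      intro a
      by_cases h : a = τ <;> simp [h]
    rw [Finset.sum_congr rfl fun a _ => h0 a, Finset.sum_ite_eq']
    simp
  have h3 := st.total
  have h4 : 0 ≤ ∑ c, st.nh c := Finset.sum_nonneg fun c _ => st.nh0 c
  have h5 : 0 ≤ ∑ c, st.nz c := Finset.sum_nonneg fun c _ => st.nz0 c
  have h6 : 0 ≤ ∑ c, st.nu c := Finset.sum_nonneg fun c _ => st.nu0 c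
  have hN' : (μ : ℤ) * n + 5 * n + 2 < N := by exact_mod_cast hN
  linarith

theorem sum_cen : ∑ i, cen st i = ∑ c, st.nz c + ∑ s, st.nu s := by
  unfold cen
  rw [Finset.sum_add_distrib, Fintype.sum_prod_type (f := fun s => st.nu s)]
  congr 1
  refine Finset.sum_congr rfl fun i _ => ?_
  rw [Fin.sum_univ_three]

theorem cen_ge (hμ : 1 ≤ μ)
    (hd : d ≤ (n + 2 + n) + n * 3 + μ * n + (n * 2 + 1) * N)
    (hN : μ * n + 5 * n + 2 < N) (i : Fin n) : (μ : ℤ) ≤ cen st i := by
  by_contra hcon
  push Not at hcon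
  obtain ⟨ν, hν⟩ := exists_single st hd hN (Sum.inl (i, false))
  obtain ⟨c, -, ⟨h1, hh1, e1⟩, ⟨h2, hh2, e2⟩⟩ := single st _ hν
  simp only [ends] at e1 e2
  have k1 := k_nonneg st hμ i h1 hh1
  have k2 := k_nonneg st hμ i h2 hh2
  have s1 := k_sum st hμ i h1 hh1 1 (by linarith)
  have s2 := k_sum st hμ i h2 hh2 1 (by linarith)
  have l1 : kL st i h1 = 0 := by omega
  have l2 : kL st i h2 = 0 := by omega
  have b1 : kB st i h1 = 0 := by omega
  have b2 : kB st i h2 = 0 := by omega
  unfold kL at l1 l2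
  unfold kB at b1 b2
  linarith

theorem cen_lt (hμ : 5 * n + 3 ≤ μ)
    (hd : d ≤ (n + 2 + n) + n * 3 + μ * n + (n * 2 + 1) * N)
    (hN : μ * n + 5 * n + 2 < N) (i : Fin n) : cen st i < μ * 2 := by
  have hμ1 : 1 ≤ μ := by omega
  have h1 : cen st i - μ ≤ ∑ j, (cen st j - μ) :=
    Finset.single_le_sum (f := fun j => cen st j - (μ : ℤ))
      (fun j _ => by have := cen_ge st hμ1 hd hN j; linarith) (Finset.mem_univ i)
  rw [Finset.sum_sub_distrib, sum_cen] at h1
  simp only [Finset.sum_const, Finset.card_univ, Fintype.card_fin, nsmul_eq_mul] at h1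
  have h3 := st.total
  have h4 : 0 ≤ ∑ c, st.nh c := Finset.sum_nonneg fun c _ => st.nh0 c
  have h7 : ∑ e : Ty n × Fin N, (st.na e false + st.na e true) ≥ (n * 2 + 1) * N := by
    calc ∑ e : Ty n × Fin N, (st.na e false + st.na e true)
        ≥ ∑ e : Ty n × Fin N, (1 : ℤ) := Finset.sum_le_sum fun e _ => na_pos st e
      _ = (n * 2 + 1) * N := by simp
  have h8 : (5 : ℤ) * n + 3 ≤ μ := by exact_mod_cast hμ
  linarith

/-- The two possible types of centres. -/
theorem types (hμ : 5 * n + 3 ≤ μ)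
    (hd : d ≤ (n + 2 + n) + n * 3 + μ * n + (n * 2 + 1) * N)
    (hN : μ * n + 5 * n + 2 < N) (i : Fin n) :
    (∀ h ∈ st.P, kL st i h = 0 ∧ kR st i h = 0) ∨
    ((∃ h ∈ st.P, kL st i h = 1) ∧ (∃ h ∈ st.P, kR st i h = 1)) := by
  have hμ1 : 1 ≤ μ := by omega
  have kn := k_nonneg st hμ1 i
  have ks := fun h hh => k_sum st hμ1 i h hh 2 (cen_lt st hμ hd hN i)
  obtain ⟨ν, hν⟩ := exists_single st hd hN (Sum.inl (i, false))
  obtain ⟨c, hc, ⟨h1, hh1, e1⟩, ⟨h2, hh2, e2⟩⟩ := single st _ hν
  obtain ⟨ν', hν'⟩ := exists_single st hd hN (Sum.inl (i, true))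
  obtain ⟨c', hc', ⟨h1', hh1', e1'⟩, ⟨h2', hh2', e2'⟩⟩ := single st _ hν'
  simp only [ends] at hc e1 e2 hc' e1' e2'
  -- shifted constants
  set a : ℤ := c + st.nu (i, 2) / μ - st.nu (i, 0) / μ with ha
  set a' : ℤ := c' + st.nu (i, 2) / μ - st.nu (i, 1) / μ with ha'
  have d1 : ∀ h, kB st i h - kL st i h = (h (Sum.inr i) - h (qq n i.val)) +
      st.nu (i, 2) / μ - st.nu (i, 0) / μ := by
    intro h; unfold kB kL; ring
  have d2 : ∀ h, kB st i h - kR st i h = (h (Sum.inr i) - h (qq n (i.val + 2))) +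
      st.nu (i, 2) / μ - st.nu (i, 1) / μ := by
    intro h; unfold kB kR; ring
  have f1 : ∀ h ∈ st.P, a ≤ kB st i h - kL st i h ∧ kB st i h - kL st i h ≤ a + 1 := by
    intro h hh
    rw [d1 h]
    have := hc h hh
    constructor <;> linarith [this.1, this.2]
  have f1a : kB st i h1 - kL st i h1 = a := by rw [d1]; linarith
  have f1b : kB st i h2 - kL st i h2 = a + 1 := by rw [d1]; linarith
  have f2 : ∀ h ∈ st.P, a' ≤ kB st i h - kR st i h ∧ kB st i h - kR st i h ≤ a' + 1 := by
    intro h hh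
    rw [d2 h]
    have := hc' h hh
    constructor <;> linarith [this.1, this.2]
  have f2a : kB st i h1' - kR st i h1' = a' := by rw [d2]; linarith
  have f2b : kB st i h2' - kR st i h2' = a' + 1 := by rw [d2]; linarith
  clear_value a a'
  have n1 := kn h1 hh1
  have n2 := kn h2 hh2
  have n1' := kn h1' hh1'
  have n2' := kn h2' hh2'
  have s1 := ks h1 hh1
  have s2 := ks h2 hh2
  have s1' := ks h1' hh1'
  have s2' := ks h2' hh2'
  have g1 := f1 h1' hh1'
  have g2 := f1 h2' hh2'
  have g3 := f2 h1 hh1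
  have g4 := f2 h2 hh2
  have ha0 : a = -1 ∨ a = 0 := by omega
  rcases ha0 with ha0 | ha0
  · right
    have ha1 : a' = -1 := by omega
    exact ⟨⟨h1, hh1, by omega⟩, ⟨h1', hh1', by omega⟩⟩
  · left
    have ha1 : a' = 0 := by omega
    intro h hh
    have u1 := f1 h hh
    have u2 := f2 h hh
    have u3 := kn h hh
    have u4 := ks h hh
    constructor <;> omega

/-- There is no divisor of rank at least one and small degree. -/
theorem no_states (hn : 1 ≤ n) (hμ : 5 * n + 3 ≤ μ)
    (hd : d ≤ (n + 2 + n) + n * 3 + μ * n + (n * 2 + 1) * N)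
    (hN : μ * n + 5 * n + 2 < N) (st : CData.States (X n N) μ d) : False := by
  have hμ1 : 1 ≤ μ := by omega
  have kn := fun i => k_nonneg st hμ1 i
  have ks := fun i h hh => k_sum st hμ1 i h hh 2 (cen_lt st hμ hd hN i)
  have ty := types st hμ hd hN
  obtain ⟨ν, hν⟩ := exists_single st hd hN (Sum.inr ())
  obtain ⟨c, hc, ⟨h1, hh1, e1⟩, ⟨h2, hh2, e2⟩⟩ := single st _ hν
  simp only [ends] at hc e1 e2
  -- link between neighbouring centres
  have link : ∀ (i : ℕ) (hi : i + 1 < n), ∃ K : ℤ, ∀ h : Cl n → ℤ,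
      kR st ⟨i, by omega⟩ h + kL st ⟨i + 1, hi⟩ h = K := by
    intro i hi
    refine ⟨st.nu (⟨i, by omega⟩, 1) / μ + st.nu (⟨i + 1, hi⟩, 0) / μ, fun h => ?_⟩
    unfold kL kR
    simp only
    ring
  rcases ty ⟨0, hn⟩ with h0 | h0
  · -- all centres are of the first type
    have all : ∀ (i : ℕ) (hi : i < n), ∀ h ∈ st.P, kL st ⟨i, hi⟩ h = 0 ∧ kR st ⟨i, hi⟩ h = 0 := by
      intro i
      induction i with
      | zero => intro hi; exact h0
      | succ i ih =>
        intro hi
        have ih' := ih (by omega)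
        rcases ty ⟨i + 1, hi⟩ with h3 | ⟨⟨g1, hg1, k1⟩, ⟨g2, hg2, k2⟩⟩
        · exact h3
        · exfalso
          obtain ⟨K, hK⟩ := link i hi
          have a1 := hK g1
          have a2 := hK g2
          have b1 := (ih' g1 hg1).2
          have b2 := (ih' g2 hg2).2
          have c2 := kn ⟨i + 1, hi⟩ g2 hg2
          have d2 := ks ⟨i + 1, hi⟩ g2 hg2
          omega
    have const : ∀ j : ℕ, j ≤ n + 1 → h1 (qq n j) - h1 (qq n 0) = h2 (qq n j) - h2 (qq n 0) := by
      intro j
      induction j with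
      | zero => intro _; ring
      | succ j ih =>
        intro hj
        have ih' := ih (by omega)
        rcases Nat.eq_zero_or_pos j with h3 | h3
        · subst h3
          have a1 := (all 0 hn h1 hh1).1
          have a2 := (all 0 hn h2 hh2).1
          unfold kL at a1 a2
          simp only at a1 a2
          linarith
        · obtain ⟨i, rfl⟩ : ∃ i, j = i + 1 := ⟨j - 1, by omega⟩
          have a1 := (all i (by omega) h1 hh1).2
          have a2 := (all i (by omega) h2 hh2).2
          unfold kR at a1 a2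
          simp only at a1 a2
          have : i + 1 + 1 = i + 2 := by ring
          rw [this]
          linarith
    have := const (n + 1) le_rfl
    linarith
  · -- all centres are of the second type
    have all : ∀ (i : ℕ) (hi : i < n), (∃ h ∈ st.P, kL st ⟨i, hi⟩ h = 1) ∧
        (∃ h ∈ st.P, kR st ⟨i, hi⟩ h = 1) := by
      intro i
      induction i with
      | zero => intro hi; exact h0
      | succ i ih =>
        intro hi
        obtain ⟨⟨g1, hg1, k1⟩, ⟨g2, hg2, k2⟩⟩ := ih (by omega)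
        rcases ty ⟨i + 1, hi⟩ with h3 | h3
        · exfalso
          obtain ⟨K, hK⟩ := link i hi
          have a1 := hK g1
          have a2 := hK g2
          have b1 := (h3 g1 hg1).1
          have b2 := (h3 g2 hg2).1
          have c1 := kn ⟨i, by omega⟩ g1 hg1
          have d1 := ks ⟨i, by omega⟩ g1 hg1
          omega
        · exact h3
    have K1 : ∀ (i : ℕ) (hi : i + 1 < n), ∀ h : Cl n → ℤ,
        kR st ⟨i, by omega⟩ h + kL st ⟨i + 1, hi⟩ h = 1 := by
      intro i hi
      obtain ⟨K, hK⟩ := link i hi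
      obtain ⟨⟨g1, hg1, k1⟩, ⟨g2, hg2, k2⟩⟩ := all i (by omega)
      have a1 := hK g1
      have a2 := hK g2
      have c1 := kn ⟨i, by omega⟩ g1 hg1
      have d1 := ks ⟨i, by omega⟩ g1 hg1
      have c2 := kn ⟨i + 1, hi⟩ g1 hg1
      have d2 := ks ⟨i + 1, hi⟩ g1 hg1
      have c3 := kn ⟨i + 1, hi⟩ g2 hg2
      have : K = 1 := by omega
      intro h
      rw [hK h, this]
    have up : ∀ h ∈ st.P, kL st ⟨0, hn⟩ h = 1 → ∀ (i : ℕ) (hi : i < n), kL st ⟨i, hi⟩ h = 1 := by
      intro h hh h3 i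
      induction i with
      | zero => intro hi; exact h3
      | succ i ih =>
        intro hi
        have a := ih (by omega)
        have b := K1 i hi h
        have c1 := kn ⟨i, by omega⟩ h hh
        have d1 := ks ⟨i, by omega⟩ h hh
        omega
    obtain ⟨⟨g, hg, kg⟩, -⟩ := all 0 hn
    obtain ⟨-, ⟨g', hg', kg'⟩⟩ := all (n - 1) (by omega)
    have gL := up g hg kg
    have gR : ∀ (i : ℕ) (hi : i < n), kR st ⟨i, hi⟩ g = 0 := by
      intro i hi
      have a := gL i hi
      have c1 := kn ⟨i, hi⟩ g hg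
      have d1 := ks ⟨i, hi⟩ g hg
      omega
    have g'0 : kL st ⟨0, hn⟩ g' = 0 := by
      have c0 := kn ⟨0, hn⟩ g' hg'
      have d0 := ks ⟨0, hn⟩ g' hg'
      by_contra h3
      have h4 : kL st ⟨0, hn⟩ g' = 1 := by omega
      have h5 := up g' hg' h4 (n - 1) (by omega)
      have c1 := kn ⟨n - 1, by omega⟩ g' hg'
      have d1 := ks ⟨n - 1, by omega⟩ g' hg'
      omega
    have grow : ∀ j : ℕ, j + 1 ≤ n → 1 ≤ (g' (qq n (j + 1)) - g (qq n (j + 1))) -
        (g' (qq n 0) - g (qq n 0)) := by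
      intro j
      induction j with
      | zero =>
        intro _
        unfold kL at kg g'0
        simp only at kg g'0
        linarith
      | succ j ih =>
        intro hj
        have ih' := ih (by omega)
        have a1 := gR j (by omega)
        have a2 := (kn ⟨j, by omega⟩ g' hg').2.1
        unfold kR at a1 a2
        simp only at a1 a2
        have : j + 1 + 1 = j + 2 := by ring
        rw [this]
        linarith
    have last := grow (n - 1) (by omega)
    have a1 := gR (n - 1) (by omega)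
    unfold kR at a1 kg'
    simp only at a1 kg'
    have e3 : n - 1 + 1 = n := by omega
    have e4 : n - 1 + 2 = n + 1 := by omega
    rw [e3] at last
    rw [e3, e4] at a1 kg'
    have b1 := hc g hg
    have b2 := hc g' hg'
    linarith [b1.1, b1.2, b2.1, b2.2]

end lower

end Odd

end Q122.Gon
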