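import Pool.Agent.Q122.Gon.Odd

set_option autoImplicit false
set_option synthInstance.maxSize 4000

/-!
# Gonality can drop under every regular subdivision
-/

namespace Q122.Gon

namespace MGraph

variable {V E : Type}

theorem reach_symm (G : MGraph V E) {u v : V} (h : Relation.ReflTransGen G.Adj u v) :
    Relation.ReflTransGen G.Adj v u := by
  induction h with
  | refl => exact Relation.ReflTransGen.refl
  | tail _ h2 ih =>
    refine Relation.ReflTransGen.head ?_ ih
    obtain ⟨e, h | h⟩ := h2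
    · exact ⟨e, Or.inr h⟩
    · exact ⟨e, Or.inl h⟩

end MGraph

namespace CData

variable {Cl C S H : Type}

/-- A cluster graph is connected if the spokes connect all clusters. -/
theorem connected_of (X : CData Cl C S H) (μ M : ℕ) (hμ : 1 ≤ μ) (hM : 1 ≤ M) (c0 : Cl)
    (hcl : ∀ c, Relation.ReflTransGen (fun a b => ∃ s, (X.cc (X.sc s) = a ∧ X.st s = b) ∨
      (X.cc (X.sc s) = b ∧ X.st s = a)) c0 c) : (X.graph μ M).Connected := by
  have one : ∀ v : CV Cl C S H, Relation.ReflTransGen (X.graph μ M).Adj (Sum.inl (X.clu v)) v := by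
    rintro (c | c | s | q)
    · exact Relation.ReflTransGen.refl
    · exact Relation.ReflTransGen.single ⟨Sum.inr (Sum.inl c, ⟨0, hM⟩), Or.inr ⟨rfl, rfl⟩⟩
    · exact Relation.ReflTransGen.single
        ⟨Sum.inr (Sum.inr (Sum.inl s), ⟨0, hM⟩), Or.inr ⟨rfl, rfl⟩⟩
    · exact Relation.ReflTransGen.single
        ⟨Sum.inr (Sum.inr (Sum.inr q), ⟨0, hM⟩), Or.inr ⟨rfl, rfl⟩⟩
  have spoke : ∀ s, Relation.ReflTransGen (X.graph μ M).Adj (Sum.inl (X.cc (X.sc s)))
      (Sum.inl (X.st s)) := by
    intro s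
    refine (one (Sum.inr (Sum.inl (X.sc s)))).trans ?_
    refine Relation.ReflTransGen.trans ?_
      ((X.graph μ M).reach_symm (one (Sum.inr (Sum.inr (Sum.inl s)))))
    exact Relation.ReflTransGen.single ⟨Sum.inl (Sum.inl (s, ⟨0, hμ⟩)), Or.inl ⟨rfl, rfl⟩⟩
  have hubs : ∀ c, Relation.ReflTransGen (X.graph μ M).Adj (Sum.inl c0) (Sum.inl c) := by
    intro c
    induction hcl c with
    | refl => exact Relation.ReflTransGen.refl
    | tail _ h2 ih =>
      refine ih.trans ?_
      obtain ⟨s, ⟨h3, h4⟩ | ⟨h3, h4⟩⟩ := h2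
      · rw [← h3, ← h4]
        exact spoke s
      · rw [← h3, ← h4]
        exact (X.graph μ M).reach_symm (spoke s)
  have all : ∀ v, Relation.ReflTransGen (X.graph μ M).Adj (Sum.inl c0) v :=
    fun v => (hubs _).trans (one v)
  exact ⟨⟨Sum.inl c0⟩, fun u v => ((X.graph μ M).reach_symm (all u)).trans (all v)⟩

end CData

namespace Odd

theorem connected (n N μ M : ℕ) (hn : 1 ≤ n) (hμ : 1 ≤ μ) (hM : 1 ≤ M) :
    ((X n N).graph μ M).Connected := by
  have hq : ∀ j : ℕ, j ≤ n + 1 → Relation.ReflTransGen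
      (fun a b => ∃ s, ((X n N).cc ((X n N).sc s) = a ∧ (X n N).st s = b) ∨
        ((X n N).cc ((X n N).sc s) = b ∧ (X n N).st s = a)) (qq n 0) (qq n j) := by
    intro j
    induction j with
    | zero => intro _; exact Relation.ReflTransGen.refl
    | succ j ih =>
      intro hj
      refine (ih (by omega)).tail ?_
      rcases Nat.lt_or_ge j n with h | h
      · refine ⟨(⟨j, h⟩, 0), Or.inr ⟨rfl, ?_⟩⟩
        simp [X]
      · refine ⟨(⟨j - 1, by omega⟩, 1), Or.inl ⟨?_, ?_⟩⟩
        · have : j - 1 + 1 = j := by omega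
          simp [X, this]
        · have : j - 1 + 2 = j + 1 := by omega
          simp [X, this]
  refine (X n N).connected_of μ M hμ hM (qq n 0) ?_
  rintro (j | i)
  · have h1 : (Sum.inl j : Cl n) = qq n j.val := by
      have := j.isLt
      simp only [qq, Sum.inl.injEq]
      ext
      simp only
      omega
    rw [h1]
    exact hq _ (by omega)
  · refine (hq (i.val + 1) (by omega)).tail ?_
    refine ⟨(i, 2), Or.inl ⟨rfl, ?_⟩⟩
    simp [X]

/-- For every `k ≥ 2` there is a connected multigraph whose gonality is larger than that of its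
`k`-regular subdivision. -/
theorem gonality_drops (k : ℕ) (hk : 2 ≤ k) :
    ∃ (V E : Type) (_ : Fintype V) (_ : Fintype E) (_ : DecidableEq V) (_ : DecidableEq E)
      (G : MGraph V E), G.Connected ∧ (G.subdiv k).gon < G.gon := by
  obtain ⟨n, rfl⟩ : ∃ n, k = n + 1 := ⟨k - 1, by omega⟩
  have hn : 1 ≤ n := by omega
  set μ := 5 * n + 3 with hμ
  set N := μ * n + 5 * n + 3 with hN
  set B := (n + 2 + n) + n * 3 + μ * n + (n * 2 + 1) * N with hB
  refine ⟨CData.CV (Cl n) (Fin n) (Fin n × Fin 3) (Ty n × Fin N),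
    CData.CE (Fin n) (Fin n × Fin 3) (Ty n × Fin N) μ (B + 1), inferInstance, inferInstance,
    inferInstance, inferInstance, (X n N).graph μ (B + 1),
    connected n N μ (B + 1) hn (by omega) (by omega), ?_⟩
  have h1 : (((X n N).graph μ (B + 1)).subdiv (n + 1)).gon ≤ B :=
    Nat.sInf_le (upper n N μ (B + 1) (by omega))
  refine lt_of_le_of_lt h1 ?_
  by_contra hcon
  push Not at hcon
  obtain ⟨D, -, hsum, hr⟩ := Nat.sInf_mem ((X n N).graph μ (B + 1)).gonSet_nonempty
  have hle : ∑ v, D v ≤ (B : ℤ) := by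
    rw [hsum]
    exact_mod_cast hcon
  obtain ⟨st⟩ := (X n N).exists_states μ (B + 1) ⟨qq n 0⟩ D hr (by push_cast; linarith)
  refine no_states hn (by omega) ?_ (by omega) st
  rw [hB] at hle
  push_cast at hle
  linarith

end Odd

end Q122.Gon
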