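import Pool.Agent.Q122.Gon.HRank

set_option autoImplicit false
set_option maxRecDepth 100000

/-!
# A gonality-tight graph of genus 8 with gonality 5
-/

namespace Q122.Gon

namespace Tight

/-- first endpoints -/
def sv : Fin 15 → Fin 8 := ![0, 0, 0, 0, 0, 1, 2, 2, 2, 3, 3, 3, 4, 5, 5]
/-- second endpoints -/
def tv : Fin 15 → Fin 8 := ![1, 1, 1, 5, 7, 3, 5, 6, 7, 4, 4, 7, 6, 6, 6]

/-- The graph: 8 vertices, 15 edges. -/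
def G : MGraph (Fin 8) (Fin 15) := ⟨sv, tv, by decide⟩

/-- number of edges between two vertices -/
def W : Fin 8 → Fin 8 → ℤ := ![![0, 3, 0, 0, 0, 1, 0, 1],
  ![3, 0, 0, 1, 0, 0, 0, 0],
  ![0, 0, 0, 0, 0, 1, 1, 1],
  ![0, 1, 0, 0, 2, 0, 0, 1],
  ![0, 0, 0, 2, 0, 0, 1, 0],
  ![1, 0, 1, 0, 0, 0, 2, 0],
  ![0, 0, 1, 0, 1, 2, 0, 0],
  ![1, 0, 1, 1, 0, 0, 0, 0]]

theorem fire_eq' (f : Fin 8 → ℤ) (v : Fin 8) : G.fire f v = ∑ u, W v u * (f u - f v) := by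
  fin_cases v <;> simp [MGraph.fire, G, sv, tv, W, Fin.sum_univ_succ] <;> ring

theorem W_nonneg (v u : Fin 8) : 0 ≤ W v u := by
  revert v u
  decide

/-- a divisor of rank one -/
def D5 : Fin 8 → ℤ := ![3, 1, 0, 1, 0, 0, 0, 0]
/-- a divisor of rank two -/
def D6 : Fin 8 → ℤ := ![3, 1, 0, 1, 1, 0, 0, 0]
/-- a divisor of rank three -/
def D8 : Fin 8 → ℤ := ![3, 2, 0, 0, 1, 0, 1, 1]

/-- firing scripts -/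
def L5 : List (Fin 8 → ℤ) := [![1, 1, 0, 0, 0, 0, 0, 0],
  ![2, 2, 0, 1, 0, 0, 0, 1],
  ![0, 0, 0, 0, 0, 0, 0, 0],
  ![3, 3, 1, 2, 1, 1, 0, 2]]

/-- firing scripts -/
def L6 : List (Fin 8 → ℤ) := [![1, 1, 0, 0, 0, 0, 0, 0],
  ![1, 1, 0, 1, 1, 0, 0, 0],
  ![2, 2, 0, 1, 1, 0, 0, 1],
  ![2, 2, 0, 2, 2, 1, 1, 1],
  ![0, 0, 0, 0, 0, 0, 0, 0],
  ![3, 3, 1, 2, 1, 1, 0, 2],
  ![1, 0, 1, 1, 1, 1, 1, 1],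
  ![2, 2, 0, 1, 0, 0, 0, 1]]

/-- firing scripts -/
def L8 : List (Fin 8 → ℤ) := [![1, 1, 0, 0, 0, 0, 0, 0],
  ![2, 2, 0, 1, 1, 0, 0, 1],
  ![2, 2, 0, 1, 1, 1, 1, 1],
  ![1, 1, 0, 1, 1, 0, 0, 1],
  ![1, 1, 1, 0, 0, 1, 1, 1],
  ![2, 2, 0, 0, 0, 0, 0, 1],
  ![3, 3, 1, 1, 0, 1, 0, 2],
  ![0, 0, 0, 0, 0, 0, 0, 0],
  ![2, 2, 1, 0, 0, 1, 1, 1],
  ![1, 0, 1, 0, 0, 1, 1, 1],
  ![2, 2, 0, 1, 1, 1, 1, 0],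
  ![3, 3, 0, 2, 2, 1, 1, 2],
  ![2, 2, 1, 2, 2, 0, 1, 2],
  ![3, 3, 1, 1, 0, 1, 1, 2]]

/-- certificates -/
def certs : List (Fin 8 × Fin 8 × Fin 8 × Fin 8 × (Fin 8 → ℤ) × (Fin 8 → ℕ)) := [
  (0, 0, 0, 1, ![0, 0, 0, 0, 0, 0, 0, 0], ![7, 0, 4, 1, 2, 5, 3, 6]),
  (0, 0, 1, 6, ![1, 1, 0, 0, 0, 0, 0, 0], ![5, 4, 1, 3, 2, 6, 0, 7]),
  (0, 0, 2, 1, ![0, 0, 0, 0, 0, 0, 0, 0], ![5, 0, 6, 1, 2, 4, 3, 7]),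
  (0, 0, 3, 2, ![0, 0, 0, 0, 0, 0, 0, 0], ![6, 5, 0, 4, 3, 1, 2, 7]),
  (0, 0, 4, 1, ![0, 0, 0, 0, 0, 0, 0, 0], ![6, 0, 4, 1, 2, 5, 3, 7]),
  (0, 0, 5, 1, ![0, 0, 0, 0, 0, 0, 0, 0], ![6, 0, 4, 1, 2, 5, 3, 7]),
  (0, 0, 6, 1, ![0, 0, 0, 0, 0, 0, 0, 0], ![4, 0, 5, 1, 2, 6, 7, 3]),
  (0, 0, 7, 1, ![0, 0, 0, 0, 0, 0, 0, 0], ![6, 0, 4, 1, 2, 5, 3, 7]),
  (0, 1, 1, 6, ![1, 1, 0, 0, 0, 0, 0, 0], ![5, 6, 1, 3, 2, 4, 0, 7]),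
  (0, 1, 2, 6, ![1, 1, 0, 0, 0, 0, 0, 0], ![4, 3, 6, 2, 1, 5, 0, 7]),
  (0, 1, 3, 6, ![1, 1, 0, 0, 0, 0, 0, 0], ![4, 5, 1, 6, 2, 3, 0, 7]),
  (0, 1, 4, 6, ![1, 1, 0, 0, 0, 0, 0, 0], ![3, 4, 1, 6, 7, 2, 0, 5]),
  (0, 1, 5, 6, ![1, 1, 0, 0, 0, 0, 0, 0], ![5, 4, 1, 3, 2, 6, 0, 7]),
  (0, 1, 6, 4, ![1, 1, 0, 0, 0, 0, 0, 0], ![3, 2, 5, 1, 0, 6, 7, 4]),
  (0, 1, 7, 6, ![1, 1, 0, 0, 0, 0, 0, 0], ![5, 4, 1, 3, 2, 6, 0, 7]),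
  (0, 2, 2, 1, ![0, 0, 0, 0, 0, 0, 0, 0], ![1, 0, 7, 2, 3, 4, 5, 6]),
  (0, 2, 3, 1, ![0, 0, 0, 0, 0, 0, 0, 0], ![1, 0, 4, 6, 5, 2, 3, 7]),
  (0, 2, 4, 1, ![0, 0, 0, 0, 0, 0, 0, 0], ![1, 0, 6, 2, 3, 4, 5, 7]),
  (0, 2, 5, 1, ![0, 0, 0, 0, 0, 0, 0, 0], ![1, 0, 6, 2, 3, 5, 4, 7]),
  (0, 2, 6, 1, ![0, 0, 0, 0, 0, 0, 0, 0], ![1, 0, 6, 2, 3, 4, 5, 7]),
  (0, 2, 7, 1, ![0, 0, 0, 0, 0, 0, 0, 0], ![1, 0, 6, 2, 3, 4, 5, 7]),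
  (0, 3, 3, 1, ![0, 0, 0, 0, 0, 0, 0, 0], ![1, 0, 3, 6, 5, 2, 4, 7]),
  (0, 3, 4, 1, ![0, 0, 0, 0, 0, 0, 0, 0], ![1, 0, 3, 6, 7, 2, 4, 5]),
  (0, 3, 5, 1, ![0, 0, 0, 0, 0, 0, 0, 0], ![1, 0, 3, 4, 5, 6, 7, 2]),
  (0, 3, 6, 1, ![0, 0, 0, 0, 0, 0, 0, 0], ![1, 0, 3, 6, 5, 2, 4, 7]),
  (0, 3, 7, 1, ![0, 0, 0, 0, 0, 0, 0, 0], ![1, 0, 3, 6, 5, 2, 4, 7]),
  (0, 4, 4, 1, ![0, 0, 0, 0, 0, 0, 0, 0], ![1, 0, 4, 2, 6, 3, 5, 7]),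
  (0, 4, 5, 1, ![0, 0, 0, 0, 0, 0, 0, 0], ![1, 0, 5, 2, 3, 6, 4, 7]),
  (0, 4, 6, 1, ![0, 0, 0, 0, 0, 0, 0, 0], ![1, 0, 5, 2, 3, 4, 6, 7]),
  (0, 4, 7, 1, ![0, 0, 0, 0, 0, 0, 0, 0], ![1, 0, 5, 2, 3, 4, 6, 7]),
  (0, 5, 5, 1, ![0, 0, 0, 0, 0, 0, 0, 0], ![1, 0, 5, 2, 3, 6, 4, 7]),
  (0, 5, 6, 1, ![0, 0, 0, 0, 0, 0, 0, 0], ![1, 0, 5, 2, 3, 6, 7, 4]),
  (0, 5, 7, 1, ![0, 0, 0, 0, 0, 0, 0, 0], ![1, 0, 5, 2, 3, 6, 4, 7]),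
  (0, 6, 6, 1, ![0, 0, 0, 0, 0, 0, 0, 0], ![1, 0, 5, 2, 3, 4, 6, 7]),
  (0, 6, 7, 1, ![0, 0, 0, 0, 0, 0, 0, 0], ![1, 0, 5, 2, 3, 4, 6, 7]),
  (0, 7, 7, 1, ![0, 0, 0, 0, 0, 0, 0, 0], ![1, 0, 5, 2, 3, 4, 6, 7]),
  (1, 1, 1, 2, ![0, 0, 0, 0, 0, 0, 0, 0], ![6, 7, 0, 4, 3, 1, 2, 5]),
  (1, 1, 2, 3, ![0, 0, 0, 0, 0, 0, 0, 0], ![6, 7, 4, 0, 1, 3, 2, 5]),
  (1, 1, 3, 2, ![0, 0, 0, 0, 0, 0, 0, 0], ![6, 7, 0, 4, 3, 1, 2, 5]),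
  (1, 1, 4, 2, ![0, 0, 0, 0, 0, 0, 0, 0], ![4, 5, 0, 6, 7, 1, 2, 3]),
  (1, 1, 5, 2, ![0, 0, 0, 0, 0, 0, 0, 0], ![6, 7, 0, 3, 2, 4, 1, 5]),
  (1, 1, 6, 2, ![0, 0, 0, 0, 0, 0, 0, 0], ![6, 7, 0, 4, 3, 1, 2, 5]),
  (1, 1, 7, 2, ![0, 0, 0, 0, 0, 0, 0, 0], ![6, 7, 0, 4, 3, 1, 2, 5]),
  (1, 2, 2, 3, ![0, 0, 0, 0, 0, 0, 0, 0], ![5, 6, 7, 0, 1, 3, 2, 4]),
  (1, 2, 3, 4, ![0, 0, 0, 0, 0, 0, 0, 0], ![6, 7, 4, 1, 0, 3, 2, 5]),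
  (1, 2, 4, 3, ![0, 0, 0, 0, 0, 0, 0, 0], ![6, 7, 4, 0, 1, 3, 2, 5]),
  (1, 2, 5, 3, ![0, 0, 0, 0, 0, 0, 0, 0], ![6, 7, 4, 0, 1, 3, 2, 5]),
  (1, 2, 6, 5, ![0, 0, 0, 0, 0, 0, 0, 0], ![6, 7, 2, 4, 3, 0, 1, 5]),
  (1, 2, 7, 3, ![0, 0, 0, 0, 0, 0, 0, 0], ![6, 7, 4, 0, 1, 3, 2, 5]),
  (1, 3, 3, 2, ![0, 0, 0, 0, 0, 0, 0, 0], ![5, 6, 0, 7, 3, 1, 2, 4]),
  (1, 3, 4, 2, ![0, 0, 0, 0, 0, 0, 0, 0], ![4, 5, 0, 6, 7, 1, 2, 3]),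
  (1, 3, 5, 2, ![0, 0, 0, 0, 0, 0, 0, 0], ![6, 7, 0, 3, 2, 4, 1, 5]),
  (1, 3, 6, 2, ![0, 0, 0, 0, 0, 0, 0, 0], ![6, 7, 0, 4, 3, 1, 2, 5]),
  (1, 3, 7, 2, ![0, 0, 0, 0, 0, 0, 0, 0], ![6, 7, 0, 4, 3, 1, 2, 5]),
  (1, 4, 4, 2, ![0, 0, 0, 0, 0, 0, 0, 0], ![4, 5, 0, 6, 7, 1, 2, 3]),
  (1, 4, 5, 2, ![0, 0, 0, 0, 0, 0, 0, 0], ![4, 5, 0, 6, 7, 2, 1, 3]),
  (1, 4, 6, 2, ![0, 0, 0, 0, 0, 0, 0, 0], ![4, 5, 0, 6, 7, 1, 2, 3]),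
  (1, 4, 7, 3, ![0, 0, 0, 0, 0, 0, 0, 0], ![6, 7, 3, 0, 1, 4, 2, 5]),
  (1, 5, 5, 2, ![0, 0, 0, 0, 0, 0, 0, 0], ![6, 7, 0, 3, 2, 4, 1, 5]),
  (1, 5, 6, 2, ![0, 0, 0, 0, 0, 0, 0, 0], ![6, 7, 0, 2, 3, 5, 4, 1]),
  (1, 5, 7, 2, ![0, 0, 0, 0, 0, 0, 0, 0], ![6, 7, 0, 3, 2, 4, 1, 5]),
  (1, 6, 6, 2, ![0, 0, 0, 0, 0, 0, 0, 0], ![6, 7, 0, 4, 3, 1, 2, 5]),
  (1, 6, 7, 2, ![0, 0, 0, 0, 0, 0, 0, 0], ![6, 7, 0, 4, 3, 1, 2, 5]),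
  (1, 7, 7, 6, ![1, 1, 0, 0, 0, 0, 0, 1], ![3, 4, 5, 6, 1, 2, 0, 7]),
  (2, 2, 2, 4, ![0, 0, 1, 0, 0, 0, 0, 0], ![3, 2, 5, 1, 0, 6, 7, 4]),
  (2, 2, 3, 1, ![0, 0, 0, 0, 0, 0, 0, 0], ![1, 0, 7, 5, 4, 2, 3, 6]),
  (2, 2, 4, 1, ![0, 0, 0, 0, 0, 0, 0, 0], ![1, 0, 7, 2, 3, 4, 5, 6]),
  (2, 2, 5, 1, ![0, 0, 0, 0, 0, 0, 0, 0], ![1, 0, 7, 2, 3, 5, 4, 6]),
  (2, 2, 6, 1, ![0, 0, 0, 0, 0, 0, 0, 0], ![1, 0, 7, 2, 3, 4, 5, 6]),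
  (2, 2, 7, 1, ![0, 0, 0, 0, 0, 0, 0, 0], ![1, 0, 7, 2, 3, 4, 5, 6]),
  (2, 3, 3, 1, ![0, 0, 0, 0, 0, 0, 0, 0], ![1, 0, 4, 6, 5, 2, 3, 7]),
  (2, 3, 4, 1, ![0, 0, 0, 0, 0, 0, 0, 0], ![1, 0, 4, 6, 7, 2, 3, 5]),
  (2, 3, 5, 1, ![0, 0, 0, 0, 0, 0, 0, 0], ![1, 0, 6, 3, 4, 7, 5, 2]),
  (2, 3, 6, 1, ![0, 0, 0, 0, 0, 0, 0, 0], ![1, 0, 4, 6, 5, 2, 3, 7]),
  (2, 3, 7, 1, ![0, 0, 0, 0, 0, 0, 0, 0], ![1, 0, 4, 6, 5, 2, 3, 7]),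
  (2, 4, 4, 1, ![0, 0, 0, 0, 0, 0, 0, 0], ![1, 0, 5, 2, 6, 3, 4, 7]),
  (2, 4, 5, 1, ![0, 0, 0, 0, 0, 0, 0, 0], ![1, 0, 6, 2, 3, 5, 4, 7]),
  (2, 4, 6, 1, ![0, 0, 0, 0, 0, 0, 0, 0], ![1, 0, 6, 2, 3, 4, 5, 7]),
  (2, 4, 7, 1, ![0, 0, 0, 0, 0, 0, 0, 0], ![1, 0, 6, 2, 3, 4, 5, 7]),
  (2, 5, 5, 1, ![0, 0, 0, 0, 0, 0, 0, 0], ![1, 0, 6, 2, 3, 5, 4, 7]),
  (2, 5, 6, 3, ![0, 0, 1, 0, 0, 1, 1, 0], ![2, 1, 5, 0, 3, 4, 6, 7]),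
  (2, 5, 7, 1, ![0, 0, 0, 0, 0, 0, 0, 0], ![1, 0, 6, 2, 3, 5, 4, 7]),
  (2, 6, 6, 1, ![0, 0, 0, 0, 0, 0, 0, 0], ![1, 0, 6, 2, 3, 4, 5, 7]),
  (2, 6, 7, 1, ![0, 0, 0, 0, 0, 0, 0, 0], ![1, 0, 6, 2, 3, 4, 5, 7]),
  (2, 7, 7, 1, ![0, 0, 0, 0, 0, 0, 0, 0], ![1, 0, 6, 2, 3, 4, 5, 7]),
  (3, 3, 3, 1, ![0, 0, 0, 0, 0, 0, 0, 0], ![1, 0, 3, 7, 5, 2, 4, 6]),
  (3, 3, 4, 5, ![0, 0, 0, 1, 1, 0, 0, 0], ![6, 7, 1, 4, 3, 0, 2, 5]),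
  (3, 3, 5, 1, ![0, 0, 0, 0, 0, 0, 0, 0], ![1, 0, 3, 7, 6, 4, 5, 2]),
  (3, 3, 6, 1, ![0, 0, 0, 0, 0, 0, 0, 0], ![1, 0, 3, 6, 5, 2, 4, 7]),
  (3, 3, 7, 1, ![0, 0, 0, 0, 0, 0, 0, 0], ![1, 0, 3, 6, 5, 2, 4, 7]),
  (3, 4, 4, 1, ![0, 0, 0, 0, 0, 0, 0, 0], ![1, 0, 3, 6, 7, 2, 4, 5]),
  (3, 4, 5, 1, ![0, 0, 0, 0, 0, 0, 0, 0], ![1, 0, 3, 4, 5, 6, 7, 2]),
  (3, 4, 6, 1, ![0, 0, 0, 0, 0, 0, 0, 0], ![1, 0, 3, 6, 7, 2, 4, 5]),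
  (3, 4, 7, 1, ![0, 0, 0, 0, 0, 0, 0, 0], ![1, 0, 3, 6, 7, 2, 4, 5]),
  (3, 5, 5, 1, ![0, 0, 0, 0, 0, 0, 0, 0], ![1, 0, 3, 4, 5, 7, 6, 2]),
  (3, 5, 6, 1, ![0, 0, 0, 0, 0, 0, 0, 0], ![1, 0, 3, 4, 5, 6, 7, 2]),
  (3, 5, 7, 2, ![0, 0, 0, 0, 0, 0, 0, 0], ![5, 4, 0, 3, 2, 6, 1, 7]),
  (3, 6, 6, 1, ![0, 0, 0, 0, 0, 0, 0, 0], ![1, 0, 3, 6, 5, 2, 4, 7]),
  (3, 6, 7, 1, ![0, 0, 0, 0, 0, 0, 0, 0], ![1, 0, 3, 6, 5, 2, 4, 7]),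
  (3, 7, 7, 1, ![0, 0, 0, 0, 0, 0, 0, 0], ![1, 0, 3, 6, 5, 2, 4, 7]),
  (4, 4, 4, 7, ![0, 0, 0, 0, 1, 0, 0, 0], ![3, 4, 1, 7, 6, 2, 5, 0]),
  (4, 4, 5, 1, ![0, 0, 0, 0, 0, 0, 0, 0], ![1, 0, 4, 2, 7, 5, 6, 3]),
  (4, 4, 6, 1, ![0, 0, 0, 0, 0, 0, 0, 0], ![1, 0, 4, 2, 6, 3, 5, 7]),
  (4, 4, 7, 1, ![0, 0, 0, 0, 0, 0, 0, 0], ![1, 0, 4, 2, 6, 3, 5, 7]),
  (4, 5, 5, 1, ![0, 0, 0, 0, 0, 0, 0, 0], ![1, 0, 5, 2, 3, 6, 4, 7]),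
  (4, 5, 6, 1, ![0, 0, 0, 0, 0, 0, 0, 0], ![1, 0, 5, 2, 3, 6, 7, 4]),
  (4, 5, 7, 1, ![0, 0, 0, 0, 0, 0, 0, 0], ![1, 0, 5, 2, 3, 6, 4, 7]),
  (4, 6, 6, 1, ![0, 0, 0, 0, 0, 0, 0, 0], ![1, 0, 5, 2, 3, 4, 6, 7]),
  (4, 6, 7, 1, ![0, 0, 0, 0, 0, 0, 0, 0], ![1, 0, 5, 2, 3, 4, 6, 7]),
  (4, 7, 7, 1, ![0, 0, 0, 0, 0, 0, 0, 0], ![1, 0, 5, 2, 3, 4, 6, 7]),
  (5, 5, 5, 1, ![0, 0, 0, 0, 0, 0, 0, 0], ![1, 0, 5, 2, 3, 6, 4, 7]),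
  (5, 5, 6, 1, ![0, 0, 0, 0, 0, 0, 0, 0], ![1, 0, 5, 2, 3, 7, 6, 4]),
  (5, 5, 7, 1, ![0, 0, 0, 0, 0, 0, 0, 0], ![1, 0, 5, 2, 3, 6, 4, 7]),
  (5, 6, 6, 1, ![0, 0, 0, 0, 0, 0, 0, 0], ![1, 0, 5, 2, 3, 6, 7, 4]),
  (5, 6, 7, 1, ![0, 0, 0, 0, 0, 0, 0, 0], ![1, 0, 5, 2, 3, 6, 7, 4]),
  (5, 7, 7, 1, ![0, 0, 0, 0, 0, 0, 0, 0], ![1, 0, 5, 2, 3, 6, 4, 7]),
  (6, 6, 6, 1, ![0, 0, 0, 0, 0, 0, 0, 0], ![1, 0, 5, 2, 3, 4, 6, 7]),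
  (6, 6, 7, 1, ![0, 0, 0, 0, 0, 0, 0, 0], ![1, 0, 5, 2, 3, 4, 6, 7]),
  (6, 7, 7, 1, ![0, 0, 0, 0, 0, 0, 0, 0], ![1, 0, 5, 2, 3, 4, 6, 7]),
  (7, 7, 7, 6, ![0, 0, 0, 0, 0, 0, 0, 1], ![4, 3, 6, 2, 1, 5, 0, 7])]

/-- one chip -/
def pt (a v : Fin 8) : ℤ := if v = a then 1 else 0

theorem check5 : ∀ a : Fin 8, ∃ f ∈ L5, ∀ w : Fin 8,
    0 ≤ D5 w - pt a w + ∑ u, W w u * (f u - f w) := by
  decide +kernel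

theorem check6 : ∀ a b : Fin 8, ∃ f ∈ L6, ∀ w : Fin 8,
    0 ≤ D6 w - (pt a w + pt b w) + ∑ u, W w u * (f u - f w) := by
  decide +kernel

theorem check8 : ∀ a b c : Fin 8, ∃ f ∈ L8, ∀ w : Fin 8,
    0 ≤ D8 w - (pt a w + (pt b w + pt c w)) + ∑ u, W w u * (f u - f w) := by
  decide +kernel

/-- the divisor of a certificate after firing its script -/
def cd (t : Fin 8 × Fin 8 × Fin 8 × Fin 8 × (Fin 8 → ℤ) × (Fin 8 → ℕ)) (v : Fin 8) : ℤ :=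
  (pt 0 v + (pt t.1 v + (pt t.2.1 v + pt t.2.2.1 v))) +
    ∑ u, W v u * (t.2.2.2.2.1 u - t.2.2.2.2.1 v)

theorem check_certs : ∀ t ∈ certs, cd t t.2.2.2.1 ≤ 0 ∧ ∀ v, v ≠ t.2.2.2.1 →
    cd t v < ∑ u, if t.2.2.2.2.2 u < t.2.2.2.2.2 v then W v u else 0 := by
  decide +kernel

theorem check_cover : ∀ a b c : Fin 8, a ≤ b → b ≤ c → ∃ t ∈ certs, t.1 = a ∧ t.2.1 = b ∧
    t.2.2.1 = c := by
  decide +kernel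

/-- Dhar's burning algorithm. -/
theorem burn (D : Fin 8 → ℤ) (q : Fin 8) (hq : D q ≤ 0) (r : Fin 8 → ℕ)
    (hb : ∀ v, v ≠ q → D v < ∑ u, if r u < r v then W v u else 0) (f : Fin 8 → ℤ)
    (h0 : ∀ v, 0 ≤ D v + G.fire f v) (h1 : 1 ≤ D q + G.fire f q) : False := by
  obtain ⟨m, -, hm⟩ := Finset.exists_max_image Finset.univ f ⟨0, Finset.mem_univ 0⟩
  obtain ⟨v, hv, hmin⟩ := Finset.exists_min_image (Finset.univ.filter (fun v => f v = f m)) r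
    ⟨m, by simp⟩
  simp only [Finset.mem_filter, Finset.mem_univ, true_and] at hv hmin
  have hle : ∀ u, f u ≤ f v := fun u => by rw [hv]; exact hm u (Finset.mem_univ u)
  by_cases hvq : v = q
  · subst hvq
    have h2 : G.fire f v ≤ 0 := by
      rw [fire_eq']
      refine Finset.sum_nonpos fun u _ => ?_
      exact mul_nonpos_of_nonneg_of_nonpos (W_nonneg _ _) (by linarith [hle u])
    linarith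
  · have h2 := hb v hvq
    have h3 : G.fire f v ≤ - ∑ u, if r u < r v then W v u else 0 := by
      rw [fire_eq', ← Finset.sum_neg_distrib]
      refine Finset.sum_le_sum fun u _ => ?_
      have h4 := W_nonneg v u
      have h5 := hle u
      by_cases hr : r u < r v
      · rw [if_pos hr]
        have h6 : f u ≠ f v := by
          intro h
          have := hmin u (h.trans hv)
          omega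
        have h7 : f u - f v ≤ -1 := by
          have := lt_of_le_of_ne h5 h6
          omega
        nlinarith
      · rw [if_neg hr]
        have := mul_nonpos_of_nonneg_of_nonpos h4 (show f u - f v ≤ 0 by linarith)
        linarith
    have := h0 v
    linarith

open MGraph

theorem not_rank_sorted (a b c : Fin 8) (hab : a ≤ b) (hbc : b ≤ c) :
    ¬ G.RankOne (fun v => pt 0 v + (pt a v + (pt b v + pt c v))) := by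
  intro h
  rw [rankOne_iff] at h
  obtain ⟨t, ht, rfl, rfl, rfl⟩ := check_cover a b c hab hbc
  obtain ⟨h1, h2⟩ := check_certs t ht
  obtain ⟨g, h3, h4⟩ := h t.2.2.2.1
  have e : ∀ v, cd t v + G.fire (fun w => g w - t.2.2.2.2.1 w) v =
      (pt 0 v + (pt t.1 v + (pt t.2.1 v + pt t.2.2.1 v))) + G.fire g v := by
    intro v
    rw [fire_sub, fire_eq' t.2.2.2.2.1]
    unfold cd
    ring
  refine burn (cd t) t.2.2.2.1 h1 t.2.2.2.2.2 h2 (fun w => g w - t.2.2.2.2.1 w) (fun v => ?_) ?_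
  · rw [e]
    exact h3 v
  · rw [e]
    exact h4

theorem not_rank (a b c : Fin 8) :
    ¬ G.RankOne (fun v => pt 0 v + (pt a v + (pt b v + pt c v))) := by
  have s1 : ∀ a b c : Fin 8, (fun v => pt 0 v + (pt a v + (pt b v + pt c v))) =
      fun v => pt 0 v + (pt b v + (pt a v + pt c v)) := by
    intro a b c
    funext v
    ring
  have s2 : ∀ a b c : Fin 8, (fun v => pt 0 v + (pt a v + (pt b v + pt c v))) =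
      fun v => pt 0 v + (pt a v + (pt c v + pt b v)) := by
    intro a b c
    funext v
    ring
  rcases le_total a b with h1 | h1
  · rcases le_total b c with h2 | h2
    · exact not_rank_sorted a b c h1 h2
    · rcases le_total a c with h3 | h3
      · rw [s2 a b c]
        exact not_rank_sorted a c b h3 h2
      · rw [s2 a b c, s1 a c b]
        exact not_rank_sorted c a b h3 h1
  · rcases le_total a c with h2 | h2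
    · rw [s1 a b c]
      exact not_rank_sorted b a c h1 h2
    · rcases le_total b c with h3 | h3
      · rw [s1 a b c, s2 b a c]
        exact not_rank_sorted b c a h3 h2
      · rw [s1 a b c, s2 b a c, s1 b c a]
        exact not_rank_sorted c b a h3 h1

theorem rankOne_of_le {V E : Type} [Fintype V] [Fintype E] [DecidableEq V] (G : MGraph V E)
    {D D' : V → ℤ} (h : ∀ v, D v ≤ D' v) (hr : G.RankOne D) : G.RankOne D' := by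
  rw [rankOne_iff] at hr ⊢
  intro v
  obtain ⟨f, h1, h2⟩ := hr v
  exact ⟨f, fun w => (h1 w).trans (add_le_add (h w) le_rfl),
    h2.trans (add_le_add (h v) le_rfl)⟩

theorem rankOne_fire {V E : Type} [Fintype V] [Fintype E] [DecidableEq V] (G : MGraph V E)
    {D : V → ℤ} (g : V → ℤ) (hr : G.RankOne D) : G.RankOne (fun v => D v + G.fire g v) := by
  rw [rankOne_iff] at hr ⊢
  intro v
  obtain ⟨f, h1, h2⟩ := hr v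
  have e : ∀ w, D w + G.fire g w + G.fire (fun u => f u - g u) w = D w + G.fire f w := by
    intro w
    rw [fire_sub]
    ring
  exact ⟨fun u => f u - g u, fun w => by rw [e]; exact h1 w, by rw [e]; exact h2⟩

theorem five_le (D : Fin 8 → ℤ) (h : G.RankOne D) : 5 ≤ ∑ v, D v := by
  by_contra hcon
  push Not at hcon
  -- make the degree equal to four
  set s := ∑ v, D v with hs
  set D' : Fin 8 → ℤ := fun v => D v + (if v = 0 then 4 - s else 0) with hD'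
  have h1 : G.RankOne D' := rankOne_of_le G (fun v => by
    simp only [hD']
    split_ifs <;> linarith) h
  have hsum : ∑ v, D' v = 4 := by
    simp only [hD', Finset.sum_add_distrib, Finset.sum_ite_eq', Finset.mem_univ, if_true]
    linarith
  have h2 := h1
  rw [rankOne_iff] at h2
  obtain ⟨f0, h3, h4⟩ := h2 0
  have h5 := rankOne_fire G f0 h1
  set D0 : Fin 8 → ℤ := fun v => D' v + G.fire f0 v with hD0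
  have hsum0 : ∑ v, D0 v = 4 := by
    rw [hD0, Finset.sum_add_distrib, sum_fire, hsum, add_zero]
  obtain ⟨a, E1, e1, p1, q1⟩ := split_one 2 (fun v => D0 v - pt 0 v) (fun v => by
    unfold pt
    split_ifs with hv
    · subst hv
      have : 1 ≤ D0 0 := h4
      linarith
    · have : 0 ≤ D0 v := h3 v
      linarith) (by
    rw [Finset.sum_sub_distrib, hsum0]
    simp [pt])
  obtain ⟨b, c, e2⟩ := eff_two E1 p1 q1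
  refine not_rank a b c ?_
  have : (fun v => pt 0 v + (pt a v + (pt b v + pt c v))) = D0 := by
    funext v
    have := e1 v
    rw [e2 v] at this
    unfold pt at this ⊢
    linarith
  rw [this]
  exact h5

theorem rank5 : G.RankGe 1 D5 := by
  intro E' h0 hs
  obtain ⟨a, ha⟩ := eff_one E' h0 hs
  obtain ⟨f, -, hf⟩ := check5 a
  refine ⟨_, ⟨f, fun v => rfl⟩, fun w => ?_⟩
  rw [fire_eq']
  have := hf w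
  simp only [ha]
  exact this

theorem rank6 : G.RankGe 2 D6 := by
  intro E' h0 hs
  obtain ⟨a, b, ha⟩ := eff_two E' h0 hs
  obtain ⟨f, -, hf⟩ := check6 a b
  refine ⟨_, ⟨f, fun v => rfl⟩, fun w => ?_⟩
  rw [fire_eq']
  have := hf w
  simp only [ha]
  exact this

theorem rank8 : G.RankGe 3 D8 := by
  intro E' h0 hs
  obtain ⟨a, E1, e1, p1, q1⟩ := split_one 2 E' h0 (by rw [hs]; norm_num)
  obtain ⟨b, c, e2⟩ := eff_two E1 p1 q1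
  obtain ⟨f, -, hf⟩ := check8 a b c
  refine ⟨_, ⟨f, fun v => rfl⟩, fun w => ?_⟩
  rw [fire_eq']
  have := hf w
  simp only [e1, e2]
  exact this

theorem gon_one : G.dgonR 1 = 5 := by
  refine le_antisymm (Nat.sInf_le ⟨D5, by decide, rank5⟩) ?_
  refine le_csInf ⟨5, D5, by decide, rank5⟩ ?_
  rintro d ⟨D, hD, hr⟩
  rw [rankGe_one_iff] at hr
  have := five_le D hr
  rw [hD] at this
  exact_mod_cast this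

theorem gon_two : G.dgonR 2 = 6 := by
  refine le_antisymm (Nat.sInf_le ⟨D6, by decide, rank6⟩) ?_
  refine le_csInf ⟨6, D6, by decide, rank6⟩ ?_
  rintro d ⟨D, hD, hr⟩
  have h1 : G.RankOne (fun w => D w - pt 0 w) := by
    intro v
    obtain ⟨D', ⟨f, hf⟩, h2⟩ := hr (fun w => pt 0 w + (if w = v then 1 else 0))
      (fun w => by unfold pt; split_ifs <;> norm_num)
      (by rw [Finset.sum_add_distrib]; simp [pt])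
    refine ⟨D', ⟨f, fun w => ?_⟩, h2⟩
    rw [hf]
    ring
  have := five_le _ h1
  rw [Finset.sum_sub_distrib, hD] at this
  have h3 : ∑ w, pt 0 w = 1 := by decide
  rw [h3] at this
  omega

theorem gon_three : G.dgonR 3 ≤ 8 := Nat.sInf_le ⟨D8, by decide, rank8⟩

theorem connected : G.Connected := by
  have h : ∀ v : Fin 8, Relation.ReflTransGen G.Adj 0 v := by
    have s : ∀ u v : Fin 8, (∃ e, (sv e = u ∧ tv e = v) ∨ (sv e = v ∧ tv e = u)) →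
        Relation.ReflTransGen G.Adj u v := fun u v h => Relation.ReflTransGen.single h
    have h1 := s 0 1 (by decide)
    have h5 := s 0 5 (by decide)
    have h7 := s 0 7 (by decide)
    have h3 := h1.trans (s 1 3 (by decide))
    have h4 := h3.trans (s 3 4 (by decide))
    have h6 := h5.trans (s 5 6 (by decide))
    have h2 := h5.trans (s 5 2 (by decide))
    intro v
    fin_cases v
    · exact Relation.ReflTransGen.refl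
    · exact h1
    · exact h2
    · exact h3
    · exact h4
    · exact h5
    · exact h6
    · exact h7
  have hs : ∀ u v : Fin 8, G.Adj u v → G.Adj v u := by
    rintro u v ⟨e, h | h⟩
    · exact ⟨e, Or.inr h⟩
    · exact ⟨e, Or.inl h⟩
  refine ⟨⟨0⟩, fun u v => ?_⟩
  refine Relation.ReflTransGen.trans ?_ (h v)
  have := h u
  induction this with
  | refl => exact Relation.ReflTransGen.refl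
  | tail _ h2 ih => exact Relation.ReflTransGen.head (hs _ _ h2) ih

end Tight

end Q122.Gon
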