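import Mathlib

set_option autoImplicit false

/-!
# Windows, averaging and mixing: the combinatorial core
-/

namespace Q122.Gon

open Classical in
/-- indicator of a proposition -/
noncomputable def ip (p : Prop) : ℤ := if p then 1 else 0

theorem ip_nonneg (p : Prop) : 0 ≤ ip p := by
  unfold ip; split_ifs <;> norm_num

theorem ip_le_one (p : Prop) : ip p ≤ 1 := by
  unfold ip; split_ifs <;> norm_num

theorem ip_true {p : Prop} (h : p) : ip p = 1 := by simp [ip, h]

theorem ip_false {p : Prop} (h : ¬ p) : ip p = 0 := by simp [ip, h]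

theorem ip_congr {p q : Prop} (h : p ↔ q) : ip p = ip q := by
  by_cases hp : p
  · rw [ip_true hp, ip_true (h.mp hp)]
  · rw [ip_false hp, ip_false (fun hq => hp (h.mpr hq))]

/-- the predicate `P` holds somewhere in `[a, b)` -/
def hit (P : ℕ → Prop) (a b : ℕ) : Prop := ∃ l, a ≤ l ∧ l < b ∧ P l

theorem hit_shift (P : ℕ → Prop) (c a b : ℕ) :
    hit P (c + a) (c + b) ↔ hit (fun l => P (c + l)) a b := by
  constructor
  · rintro ⟨l, h1, h2, h3⟩
    refine ⟨l - c, by omega, by omega, ?_⟩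
    have : c + (l - c) = l := by omega
    simpa [this] using h3
  · rintro ⟨l, h1, h2, h3⟩
    exact ⟨c + l, by omega, by omega, h3⟩

theorem hit_union (P : ℕ → Prop) (a c b : ℕ) (h1 : a ≤ c) (h2 : c ≤ b) :
    hit P a b ↔ hit P a c ∨ hit P c b := by
  constructor
  · rintro ⟨l, h3, h4, h5⟩
    rcases Nat.lt_or_ge l c with h | h
    · exact Or.inl ⟨l, h3, h, h5⟩
    · exact Or.inr ⟨l, h, h4, h5⟩
  · rintro (⟨l, h3, h4, h5⟩ | ⟨l, h3, h4, h5⟩)
    · exact ⟨l, h3, by omega, h5⟩
    · exact ⟨l, by omega, h4, h5⟩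

/-- A multiset of windows at all dyadic scales such that every predicate separates few pairs of
adjacent halves. -/
theorem exists_windows (S : ℕ) : ∃ (W : Type) (_ : Fintype W) (_ : DecidableEq W)
    (lo len : W → ℕ), 2 * Fintype.card W = S * 2 ^ S ∧ (∀ w, 1 ≤ len w) ∧
    (∀ w, lo w + 2 * len w ≤ 2 ^ S) ∧ ∀ P : ℕ → Prop,
    ∑ w, ip (¬ (hit P (lo w + len w) (lo w + 2 * len w) ↔ hit P (lo w) (lo w + len w))) ≤
      2 ^ S * ip (hit P 0 (2 ^ S)) := by
  induction S with
  | zero =>
    refine ⟨Empty, inferInstance, inferInstance, fun _ => 0, fun _ => 1, by simp, by simp,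
      by simp, fun P => ?_⟩
    simp only [Finset.univ_eq_empty, Finset.sum_empty]
    exact mul_nonneg (by norm_num) (ip_nonneg _)
  | succ S ih =>
    obtain ⟨W, i1, i2, lo, len, hc, h1, h2, h3⟩ := ih
    refine ⟨W ⊕ W ⊕ Fin (2 ^ S), inferInstance, inferInstance,
      Sum.elim lo (Sum.elim (fun w => 2 ^ S + lo w) (fun _ => 0)),
      Sum.elim len (Sum.elim len (fun _ => 2 ^ S)), ?_, ?_, ?_, ?_⟩
    · simp only [Fintype.card_sum, Fintype.card_fin]
      rw [pow_succ]
      nlinarith
    · rintro (w | w | w)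
      · exact h1 w
      · exact h1 w
      · exact Nat.one_le_two_pow
    · rintro (w | w | w)
      · have := h2 w
        simp only [Sum.elim_inl]
        rw [pow_succ]
        omega
      · have := h2 w
        simp only [Sum.elim_inl, Sum.elim_inr]
        rw [pow_succ]
        omega
      · simp only [Sum.elim_inr]
        rw [pow_succ]
        omega
    · intro P
      rw [Fintype.sum_sum_type, Fintype.sum_sum_type]
      simp only [Sum.elim_inl, Sum.elim_inr, Finset.sum_const, Finset.card_univ,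
        Fintype.card_fin, nsmul_eq_mul, zero_add]
      have a1 := h3 P
      have a2 := h3 (fun l => P (2 ^ S + l))
      have a3 : ∑ w, ip (¬ (hit P (2 ^ S + lo w + len w) (2 ^ S + lo w + 2 * len w) ↔
          hit P (2 ^ S + lo w) (2 ^ S + lo w + len w))) =
          ∑ w, ip (¬ (hit (fun l => P (2 ^ S + l)) (lo w + len w) (lo w + 2 * len w) ↔
          hit (fun l => P (2 ^ S + l)) (lo w) (lo w + len w))) := by
        refine Finset.sum_congr rfl fun w _ => ip_congr ?_
        rw [← hit_shift, ← hit_shift, add_assoc, add_assoc]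
      rw [a3]
      have a4 : hit (fun l => P (2 ^ S + l)) 0 (2 ^ S) ↔ hit P (2 ^ S) (2 * 2 ^ S) := by
        rw [← hit_shift, add_zero, two_mul]
      rw [ip_congr a4] at a2
      have a5 : hit P 0 (2 ^ (S + 1)) ↔ hit P 0 (2 ^ S) ∨ hit P (2 ^ S) (2 * 2 ^ S) := by
        rw [pow_succ, mul_comm (2 ^ S) 2]
        exact hit_union P 0 (2 ^ S) (2 * 2 ^ S) (Nat.zero_le _) (Nat.le_mul_of_pos_left _ two_pos)
      rw [ip_congr a5]
      have hpos : (0 : ℤ) ≤ 2 ^ S := by positivity
      push_cast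
      rw [pow_succ]
      by_cases hl : hit P 0 (2 ^ S)
      · by_cases hr : hit P (2 ^ S) (2 * 2 ^ S)
        · rw [ip_true (Or.inl hl)]
          rw [ip_true hl] at a1
          rw [ip_true hr] at a2
          rw [ip_false (fun h => h ⟨fun _ => hl, fun _ => hr⟩)]
          linarith
        · rw [ip_true (Or.inl hl)]
          rw [ip_true hl] at a1
          rw [ip_false hr] at a2
          have := ip_le_one (¬ (hit P (2 ^ S) (2 * 2 ^ S) ↔ hit P 0 (2 ^ S)))
          nlinarith
      · by_cases hr : hit P (2 ^ S) (2 * 2 ^ S)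
        · rw [ip_true (Or.inr hr)]
          rw [ip_false hl] at a1
          rw [ip_true hr] at a2
          have := ip_le_one (¬ (hit P (2 ^ S) (2 * 2 ^ S) ↔ hit P 0 (2 ^ S)))
          nlinarith
        · rw [ip_false (not_or.mpr ⟨hl, hr⟩)]
          rw [ip_false hl] at a1
          rw [ip_false hr] at a2
          rw [ip_false (fun h => h ⟨fun h => absurd h hr, fun h => absurd h hl⟩)]
          linarith

section

variable {L b : ℕ}

/-- averaging over one coordinate -/
theorem average (F : (Fin L → Fin b) → ℤ) (i : Fin L) :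
    (b : ℤ) * ∑ x, F x = ∑ x, ∑ c : Fin b, F (Function.update x i c) := by
  have hinv : Function.Involutive (fun p : (Fin L → Fin b) × Fin b =>
      ((Function.update p.1 i p.2, p.1 i) : (Fin L → Fin b) × Fin b)) := by
    rintro ⟨x, c⟩
    simp
  have h1 : ∑ p : (Fin L → Fin b) × Fin b, F (Function.update p.1 i p.2) =
      ∑ p : (Fin L → Fin b) × Fin b, F p.1 :=
    Equiv.sum_comp hinv.toPerm (fun p : (Fin L → Fin b) × Fin b => F p.1)
  rw [Fintype.sum_prod_type, Fintype.sum_prod_type] at h1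
  simp only at h1
  rw [h1]
  simp only [Finset.sum_const, Finset.card_univ, Fintype.card_fin, nsmul_eq_mul]
  rw [Finset.mul_sum]

/-- `x` below `m`, `y` from `m` on -/
def mix (m : ℕ) (x y : Fin L → Fin b) : Fin L → Fin b := fun i => if i.val < m then x i else y i

theorem mix_mix (m : ℕ) (x y : Fin L → Fin b) : mix m (mix m x y) (mix m y x) = x := by
  funext i
  unfold mix
  by_cases h : i.val < m <;> simp [h]

theorem mix_update (m : ℕ) (x y : Fin L → Fin b) (i : Fin L) (hi : m ≤ i.val) (c : Fin b) :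
    mix m x (Function.update y i c) = Function.update (mix m x y) i c := by
  funext j
  unfold mix
  by_cases h : j = i
  · subst h
    simp [not_lt.mpr hi]
  · simp [h]

theorem sum_mix (m : ℕ) (F : (Fin L → Fin b) → (Fin L → Fin b) → ℤ) :
    ∑ x, ∑ y, F (mix m x y) (mix m y x) = ∑ x, ∑ y, F x y := by
  have hinv : Function.Involutive (fun p : (Fin L → Fin b) × (Fin L → Fin b) =>
      ((mix m p.1 p.2, mix m p.2 p.1) : (Fin L → Fin b) × (Fin L → Fin b))) := by
    rintro ⟨x, y⟩
    simp [mix_mix]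
  have h1 : ∑ p : (Fin L → Fin b) × (Fin L → Fin b), F (mix m p.1 p.2) (mix m p.2 p.1) =
      ∑ p : (Fin L → Fin b) × (Fin L → Fin b), F p.1 p.2 :=
    Equiv.sum_comp hinv.toPerm (fun p : (Fin L → Fin b) × (Fin L → Fin b) => F p.1 p.2)
  rw [Fintype.sum_prod_type, Fintype.sum_prod_type] at h1
  exact h1

theorem card_om : ∑ _x : Fin L → Fin b, (1 : ℤ) = (b : ℤ) ^ L := by
  simp

/-- The general bound for exceptional pairs. -/
theorem bad_bound (μ : ℤ) (nn : Fin L → (Fin L → Fin b) → ℤ)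
    (hn : ∀ l x, 0 ≤ nn l x)
    (R : (Fin L → Fin b) → Fin L → (Fin L → Fin b) → Prop)
    (hR : ∀ x l y, μ * ∑ c : Fin b, ip (R x l (Function.update y l c)) ≤ nn l y) (hμ : 0 ≤ μ)
    (m : ℕ) :
    μ * b * ∑ x, ∑ y, ip (∃ l : Fin L, m ≤ l.val ∧ R x l (mix m x y)) ≤
      (b : ℤ) ^ L * ∑ l, ∑ y, nn l y := by
  have h1 : ∀ x y, ip (∃ l : Fin L, m ≤ l.val ∧ R x l (mix m x y)) ≤
      ∑ l ∈ Finset.univ.filter (fun l : Fin L => m ≤ l.val), ip (R x l (mix m x y)) := by
    intro x y
    by_cases h : ∃ l : Fin L, m ≤ l.val ∧ R x l (mix m x y)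
    · rw [ip_true h]
      obtain ⟨l, h2, h3⟩ := h
      have := Finset.single_le_sum (f := fun l => ip (R x l (mix m x y)))
        (fun _ _ => ip_nonneg _) (show l ∈ Finset.univ.filter (fun l : Fin L => m ≤ l.val) by
          simpa using h2)
      simp only [ip_true h3] at this
      exact this
    · rw [ip_false h]
      exact Finset.sum_nonneg fun _ _ => ip_nonneg _
  have h2 : ∀ l : Fin L, m ≤ l.val → μ * b * ∑ x, ∑ y, ip (R x l (mix m x y)) ≤
      (b : ℤ) ^ L * ∑ y, nn l y := by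
    intro l hl
    have h3 : ∀ x, μ * b * ∑ y, ip (R x l (mix m x y)) ≤ ∑ y, nn l (mix m x y) := by
      intro x
      rw [mul_assoc, average (fun y => ip (R x l (mix m x y))) l, Finset.mul_sum]
      refine Finset.sum_le_sum fun y _ => ?_
      have h4 : ∀ c, ip (R x l (mix m x (Function.update y l c))) =
          ip (R x l (Function.update (mix m x y) l c)) := by
        intro c
        rw [mix_update m x y l hl c]
      rw [Finset.sum_congr rfl fun c _ => h4 c]
      exact hR x l (mix m x y)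
    calc μ * b * ∑ x, ∑ y, ip (R x l (mix m x y))
        = ∑ x, μ * b * ∑ y, ip (R x l (mix m x y)) := by rw [Finset.mul_sum]
      _ ≤ ∑ x, ∑ y, nn l (mix m x y) := Finset.sum_le_sum fun x _ => h3 x
      _ = ∑ x, ∑ _y : Fin L → Fin b, nn l x := sum_mix m (fun p _ => nn l p)
      _ = (b : ℤ) ^ L * ∑ y, nn l y := by
        simp only [Finset.sum_const, Finset.card_univ, nsmul_eq_mul]
        rw [Finset.mul_sum]
        simp
  calc μ * b * ∑ x, ∑ y, ip (∃ l : Fin L, m ≤ l.val ∧ R x l (mix m x y))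
      ≤ μ * b * ∑ x, ∑ y, ∑ l ∈ Finset.univ.filter (fun l : Fin L => m ≤ l.val),
          ip (R x l (mix m x y)) := by
        refine mul_le_mul_of_nonneg_left ?_ (mul_nonneg hμ (by positivity))
        exact Finset.sum_le_sum fun x _ => Finset.sum_le_sum fun y _ => h1 x y
    _ = ∑ l ∈ Finset.univ.filter (fun l : Fin L => m ≤ l.val),
          μ * b * ∑ x, ∑ y, ip (R x l (mix m x y)) := by
        rw [← Finset.mul_sum]
        congr 1
        rw [Finset.sum_comm]
        rw [Finset.sum_congr rfl fun y _ => Finset.sum_comm]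
        rw [Finset.sum_comm]
        refine Finset.sum_congr rfl fun l _ => ?_
        rw [Finset.sum_comm]
    _ ≤ ∑ l ∈ Finset.univ.filter (fun l : Fin L => m ≤ l.val),
          (b : ℤ) ^ L * ∑ y, nn l y := by
        refine Finset.sum_le_sum fun l hl => h2 l ?_
        simpa using hl
    _ ≤ ∑ l, (b : ℤ) ^ L * ∑ y, nn l y := by
        refine Finset.sum_le_sum_of_subset_of_nonneg (Finset.filter_subset _ _) fun l _ _ => ?_
        exact mul_nonneg (by positivity) (Finset.sum_nonneg fun y _ => hn l y)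
    _ = (b : ℤ) ^ L * ∑ l, ∑ y, nn l y := by rw [Finset.mul_sum]

/-- The same bound with the two coordinates exchanged. -/
theorem bad_bound' (μ : ℤ) (nn : Fin L → (Fin L → Fin b) → ℤ)
    (hn : ∀ l x, 0 ≤ nn l x)
    (R : (Fin L → Fin b) → Fin L → (Fin L → Fin b) → Prop)
    (hR : ∀ x l y, μ * ∑ c : Fin b, ip (R x l (Function.update y l c)) ≤ nn l y) (hμ : 0 ≤ μ)
    (m : ℕ) :
    μ * b * ∑ x, ∑ y, ip (∃ l : Fin L, m ≤ l.val ∧ R (mix m x y) l x) ≤
      (b : ℤ) ^ L * ∑ l, ∑ y, nn l y := by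
  have h := sum_mix m (fun p q : Fin L → Fin b => ip (∃ l : Fin L, m ≤ l.val ∧
    R p l (mix m p q)))
  simp only [mix_mix] at h
  rw [h]
  exact bad_bound μ nn hn R hR hμ m

/-- The main count. -/
theorem main_count (m : ℕ) (U U' : (Fin L → Fin b) → Prop)
    (hU' : ∀ x y, U' (mix m x y) ↔ U' x) :
    ∑ x, ∑ y, ip (¬ (U x ↔ U (mix m x y))) ≤ 2 * (b : ℤ) ^ L * ∑ x, ip (¬ (U x ↔ U' x)) := by
  have h1 : ∀ x y, ip (¬ (U x ↔ U (mix m x y))) ≤ ip (¬ (U x ↔ U' x)) +
      ip (¬ (U (mix m x y) ↔ U' (mix m x y))) := by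
    intro x y
    have n1 := ip_nonneg (¬ (U x ↔ U' x))
    have n2 := ip_nonneg (¬ (U (mix m x y) ↔ U' (mix m x y)))
    by_cases h : U x ↔ U (mix m x y)
    · rw [ip_false (fun h' => h' h)]
      linarith
    · rw [ip_true h]
      by_cases h2 : U x ↔ U' x
      · have h3 : ¬ (U (mix m x y) ↔ U' (mix m x y)) := by
          intro h4
          exact h (h2.trans ((hU' x y).symm.trans h4.symm))
        rw [ip_true h3]
        linarith
      · rw [ip_true h2]
        linarith
  calc ∑ x, ∑ y, ip (¬ (U x ↔ U (mix m x y)))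
      ≤ ∑ x, ∑ y, (ip (¬ (U x ↔ U' x)) + ip (¬ (U (mix m x y) ↔ U' (mix m x y)))) :=
        Finset.sum_le_sum fun x _ => Finset.sum_le_sum fun y _ => h1 x y
    _ = ∑ x, ∑ _y : Fin L → Fin b, ip (¬ (U x ↔ U' x)) +
        ∑ x, ∑ y, ip (¬ (U (mix m x y) ↔ U' (mix m x y))) := by
        rw [← Finset.sum_add_distrib]
        refine Finset.sum_congr rfl fun x _ => ?_
        rw [Finset.sum_add_distrib]
    _ = ∑ x, ∑ _y : Fin L → Fin b, ip (¬ (U x ↔ U' x)) +
        ∑ x, ∑ _y : Fin L → Fin b, ip (¬ (U x ↔ U' x)) := by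
        rw [sum_mix m (fun p _ => ip (¬ (U p ↔ U' p)))]
    _ = 2 * (b : ℤ) ^ L * ∑ x, ip (¬ (U x ↔ U' x)) := by
        simp only [Finset.sum_const, Finset.card_univ, nsmul_eq_mul]
        rw [← Finset.mul_sum]
        simp
        ring

end

end Q122.Gon
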