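import Pool.Agent.Q122.Gon.ClusterM
import Pool.Agent.Q122.Gon.OddFinal
import Pool.Agent.Q122.Gon.Windows

set_option autoImplicit false
set_option synthInstance.maxSize 4000

/-!
# The tree of clusters: definition, connectedness and the metric upper bound
-/

namespace Q122.Gon

namespace Tree

/-- strings -/
abbrev Om (L b : ℕ) : Type := Fin L → Fin b

/-- nodes of the tree: a level and a string which vanishes from that level on -/
abbrev Cl (L b : ℕ) [NeZero b] : Type :=
  {q : Fin (L + 1) × (Fin L → Fin b) // ∀ i : Fin L, q.1.val ≤ i.val → q.2 i = 0}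

section

variable {L b : ℕ} [NeZero b]

/-- the node at level `l` above the leaf `x` -/
def nd (l : ℕ) (x : Om L b) : Cl L b :=
  ⟨(⟨min l L, by omega⟩, fun i => if i.val < l then x i else 0), by
    intro i hi
    have h1 := i.isLt
    simp only at hi ⊢
    rw [if_neg (by omega)]⟩

theorem nd_congr {l : ℕ} {x y : Om L b} (h : ∀ i : Fin L, i.val < l → x i = y i) :
    nd l x = nd l y := by
  unfold nd
  congr 2
  funext i
  by_cases hi : i.val < l
  · simp [hi, h i hi]
  · simp [hi]

theorem nd_surj (q : Cl L b) : ∃ l : ℕ, l ≤ L ∧ ∃ x, q = nd l x := by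
  obtain ⟨⟨l, x⟩, hq⟩ := q
  refine ⟨l.val, by omega, x, ?_⟩
  unfold nd
  have h1 := l.isLt
  congr 2
  · ext
    simp only
    omega
  · funext i
    by_cases hi : i.val < l.val
    · simp [hi]
    · simp only [hi, if_false]
      exact hq i (by simpa using hi)

end

section

variable (L b : ℕ) [NeZero b] (W : Type) (mid : W → Fin L) (hi : W → ℕ)

/-- long edges -/
abbrev Ed : Type := {p : W × Om L b × Om L b // p.2.1 (mid p.1) ≠ p.2.2 (mid p.1)}

/-- The tree of clusters. -/
def X : CData (Cl L b) (Fin L × Om L b) ((Fin L × Om L b) × Fin b) (Ed L b W mid) where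
  cc := fun c => nd c.1.val c.2
  sc := fun s => s.1
  st := fun s => nd (s.1.1.val + 1) (Function.update s.1.2 s.1.1 s.2)
  hd := fun e t => nd (hi e.1.1) (cond t (mix (mid e.1.1).val e.1.2.1 e.1.2.2) e.1.2.1)

theorem connected (μ M : ℕ) (hμ : 1 ≤ μ) (hM : 1 ≤ M) :
    ((X L b W mid hi).graph μ M).Connected := by
  have h0 : ∀ (z : Om L b) (l : ℕ), l ≤ L → Relation.ReflTransGen (fun u v =>
      ∃ s, ((X L b W mid hi).cc ((X L b W mid hi).sc s) = u ∧ (X L b W mid hi).st s = v) ∨
      ((X L b W mid hi).cc ((X L b W mid hi).sc s) = v ∧ (X L b W mid hi).st s = u))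
      (nd 0 (fun _ => 0)) (nd l z) := by
    intro z l
    induction l with
    | zero =>
      intro _
      rw [nd_congr (l := 0) (x := fun _ => 0) (y := z) (fun i hi => absurd hi (by omega))]
    | succ l ih =>
      intro hl
      refine (ih (by omega)).tail ?_
      refine ⟨((⟨l, by omega⟩, z), z ⟨l, by omega⟩), Or.inl ⟨rfl, ?_⟩⟩
      simp [X]
  refine (X L b W mid hi).connected_of μ M hμ hM (nd 0 (fun _ => 0)) ?_
  intro c
  obtain ⟨l, hl, x, rfl⟩ := nd_surj c
  exact h0 x l hl

/-- the potential of a subtree -/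
noncomputable def pot (m : ℕ) (z : Om L b) (t : ℝ) (q : Cl L b) : ℝ :=
  if m ≤ q.1.1.val ∧ ∀ i : Fin L, i.val < m → q.1.2 i = z i then t else 0

variable {L b}

theorem pot_nd (m : ℕ) (z : Om L b) (t : ℝ) (hm : m ≤ L) (l : ℕ) (x : Om L b) :
    pot L b m z t (nd l x) = if m ≤ l ∧ ∀ i : Fin L, i.val < m → x i = z i then t else 0 := by
  unfold pot nd
  have : (m ≤ min l L ∧ ∀ i : Fin L, i.val < m → (if i.val < l then x i else 0) = z i) ↔
      (m ≤ l ∧ ∀ i : Fin L, i.val < m → x i = z i) := by
    constructor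
    · rintro ⟨h1, h2⟩
      refine ⟨by omega, fun i hi => ?_⟩
      have := h2 i hi
      rwa [if_pos (by omega)] at this
    · rintro ⟨h1, h2⟩
      refine ⟨by omega, fun i hi => ?_⟩
      rw [if_pos (by omega)]
      exact h2 i hi
  by_cases h : m ≤ l ∧ ∀ i : Fin L, i.val < m → x i = z i
  · rw [if_pos h, if_pos (this.mpr h)]
  · rw [if_neg h, if_neg (fun h' => h (this.mp h'))]

theorem pot_st (m : ℕ) (z : Om L b) (t : ℝ) (hm : m ≤ L) (hm1 : 1 ≤ m)
    (s : (Fin L × Om L b) × Fin b) :
    (X L b W mid hi).wM (pot L b m z t) s = 0 ∨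
    ((X L b W mid hi).wM (pot L b m z t) s = t ∧ s.1.1.val + 1 = m ∧ s.2 = z s.1.1) := by
  obtain ⟨⟨l, x⟩, c⟩ := s
  unfold CData.wM X
  simp only
  rw [pot_nd m z t hm, pot_nd m z t hm]
  by_cases h1 : m ≤ l.val
  · left
    have h2 : ∀ i : Fin L, i.val < m → Function.update x l c i = x i := by
      intro i hi
      rw [Function.update_of_ne]
      intro h
      rw [h] at hi
      omega
    by_cases h3 : ∀ i : Fin L, i.val < m → x i = z i
    · rw [if_pos ⟨by omega, fun i hi => by rw [h2 i hi, h3 i hi]⟩, if_pos ⟨h1, h3⟩, sub_self]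
    · rw [if_neg, if_neg (fun h => h3 h.2), sub_self]
      rintro ⟨-, h4⟩
      exact h3 fun i hi => by rw [← h2 i hi]; exact h4 i hi
  · rw [if_neg (fun h : m ≤ l.val ∧ _ => h1 h.1), sub_zero]
    by_cases h2 : m ≤ l.val + 1 ∧ ∀ i : Fin L, i.val < m → Function.update x l c i = z i
    · right
      rw [if_pos h2]
      refine ⟨rfl, by omega, ?_⟩
      have := h2.2 l (by omega)
      simpa using this
    · left
      rw [if_neg h2]

theorem pot_valid (m : ℕ) (z : Om L b) (t : ℝ) (hm : m ≤ L) (hm1 : 1 ≤ m) (ht0 : 0 ≤ t)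
    (ht : t ≤ 1 / 2) : (X L b W mid hi).MValid (fun _ => 1 / 2) (pot L b m z t) := by
  have hp : ∀ q, 0 ≤ pot L b m z t q ∧ pot L b m z t q ≤ 1 / 2 := by
    intro q
    unfold pot
    split_ifs
    · exact ⟨ht0, ht⟩
    · exact ⟨le_rfl, by norm_num⟩
  constructor
  · intro e
    unfold CData.pM
    have h1 := hp ((X L b W mid hi).hd e true)
    have h2 := hp ((X L b W mid hi).hd e false)
    linarith
  · intro e
    unfold CData.pM
    have h1 := hp ((X L b W mid hi).hd e true)
    have h2 := hp ((X L b W mid hi).hd e false)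
    linarith
  · intro s
    rcases pot_st W mid hi m z t hm hm1 s with h | ⟨h, -, -⟩
    · rw [h]
    · rw [h]
      exact ht0
  · intro s
    rcases pot_st W mid hi m z t hm hm1 s with h | ⟨h, -, -⟩
    · rw [h]
      norm_num
    · rw [h]
      linarith
  · intro s s' hs h1 h2
    rcases pot_st W mid hi m z t hm hm1 s with h | ⟨-, -, h3⟩
    · rw [h] at h1
      exact absurd h1 (lt_irrefl _)
    rcases pot_st W mid hi m z t hm hm1 s' with h | ⟨-, -, h4⟩
    · rw [h] at h2
      exact absurd h2 (lt_irrefl _)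
    have hs' : s.1 = s'.1 := hs
    refine Prod.ext hs' ?_
    rw [h3, h4, hs']

variable [Fintype W] [DecidableEq W]

theorem upper (μ M : ℕ) (hμ : 1 ≤ μ) (hL : 1 ≤ L) (hhi : ∀ w, (mid w).val < hi w) :
    Fintype.card (Cl L b) + Fintype.card ((Fin L × Om L b) × Fin b) +
      μ * Fintype.card (Fin L × Om L b) + Fintype.card (Ed L b W mid) ∈
      ((X L b W mid hi).graph μ M).mdgonSet := by
  have hv0 : (X L b W mid hi).MValid (fun _ => 1 / 2) (pot L b 1 (fun _ => 0) 0) :=
    pot_valid W mid hi 1 (fun _ => 0) 0 hL le_rfl le_rfl (by norm_num)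
  refine (X L b W mid hi).upperM μ M hμ (fun _ => 1 / 2) _ hv0 ?_ ?_
  · intro e x hx
    obtain ⟨⟨w, y, z⟩, hyz⟩ := e
    simp only at hyz
    have hw := hhi w
    have hm := (mid w).isLt
    have hx0 := hx.1
    have hx1 := hx.2
    rcases le_total (1 / 2) x with h | h
    · refine ⟨pot L b ((mid w).val + 1) (mix (mid w).val y z) (x - 1 / 2),
        pot_valid W mid hi _ _ _ (by omega) (by omega) (by linarith) (by linarith), ?_⟩
      unfold CData.pM X
      simp only [cond_true, cond_false]
      rw [pot_nd _ _ _ (by omega), pot_nd _ _ _ (by omega),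
        if_pos ⟨by omega, fun i _ => rfl⟩, if_neg]
      · ring
      · rintro ⟨-, h2⟩
        have := h2 (mid w) (by omega)
        simp only [mix, lt_irrefl, if_false] at this
        exact hyz this
    · refine ⟨pot L b ((mid w).val + 1) y (1 / 2 - x),
        pot_valid W mid hi _ _ _ (by omega) (by omega) (by linarith) (by linarith), ?_⟩
      unfold CData.pM X
      simp only [cond_true, cond_false]
      rw [pot_nd _ _ _ (by omega), pot_nd _ _ _ (by omega), if_neg,
        if_pos ⟨by omega, fun i _ => rfl⟩]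
      · ring
      · rintro ⟨-, h2⟩
        have := h2 (mid w) (by omega)
        simp only [mix, lt_irrefl, if_false] at this
        exact hyz this.symm
  · intro c
    refine ⟨_, hv0, fun s _ => ?_⟩
    rcases pot_st W mid hi 1 (fun _ => 0) 0 hL le_rfl s with h | ⟨h, -, -⟩
    · exact h
    · exact h

end

end Tree

end Q122.Gon
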