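import Pool.Agent.Q122.Gon.Tree

set_option autoImplicit false
set_option synthInstance.maxSize 4000

/-!
# The tree of clusters: the integral lower bound
-/

namespace Q122.Gon

namespace Tree

section

variable {L b : ℕ} [NeZero b]

theorem mono_of (h : Cl L b → ℤ) (x : Om L b) (m k : ℕ) (hmk : m ≤ k)
    (hdn : ∀ l, m ≤ l → l < k → h (nd l x) ≤ h (nd (l + 1) x)) : h (nd m x) ≤ h (nd k x) := by
  induction k, hmk using Nat.le_induction with
  | base => exact le_rfl
  | succ k hk ih =>
    exact (ih fun l h1 h2 => hdn l h1 (by omega)).trans (hdn k hk (by omega))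

theorem anti_of (h : Cl L b → ℤ) (x : Om L b) (m k : ℕ) (hmk : m ≤ k)
    (hdn : ∀ l, m ≤ l → l < k → h (nd (l + 1) x) ≤ h (nd l x)) : h (nd k x) ≤ h (nd m x) := by
  have := mono_of (fun q => - h q) x m k hmk (fun l h1 h2 => by
    have := hdn l h1 h2
    linarith)
  linarith

theorem strict_of (h : Cl L b → ℤ) (x : Om L b) (m k : ℕ)
    (hdn : ∀ l, m ≤ l → l < k → h (nd l x) ≤ h (nd (l + 1) x))
    (hup : ∃ l, m ≤ l ∧ l < k ∧ h (nd l x) < h (nd (l + 1) x)) : h (nd m x) < h (nd k x) := by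
  obtain ⟨l, h1, h2, h3⟩ := hup
  have a1 := mono_of h x m l h1 (fun i h4 h5 => hdn i h4 (by omega))
  have a2 := mono_of h x (l + 1) k (by omega) (fun i h4 h5 => hdn i (by omega) h5)
  linarith

theorem edge_key (P : Set (Cl L b → ℤ)) (m k : ℕ) (hmk : m ≤ k) (hk : k ≤ L) (x z : Om L b)
    (hxz : nd m x = nd m z)
    (hdx : ¬ ∃ l : Fin L, m ≤ l.val ∧ ∃ h ∈ P, h (nd (l.val + 1) x) < h (nd l.val x))
    (hdz : ¬ ∃ l : Fin L, m ≤ l.val ∧ ∃ h ∈ P, h (nd (l.val + 1) z) < h (nd l.val z))
    (h : Cl L b → ℤ) (hP : h ∈ P) (hlt : h (nd k x) < h (nd k z))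
    (hall : ∀ h ∈ P, h (nd k x) ≤ h (nd k z))
    (hU : hit (fun l => ∃ h ∈ P, h (nd l z) < h (nd (l + 1) z)) m k →
      hit (fun l => ∃ h ∈ P, h (nd l x) < h (nd (l + 1) x)) m k)
    (wx : Cl L b → ℤ)
    (hw : hit (fun l => ∃ h ∈ P, h (nd l x) < h (nd (l + 1) x)) m k →
      wx ∈ P ∧ ∃ l, m ≤ l ∧ l < k ∧ wx (nd l x) < wx (nd (l + 1) x))
    (hb : ¬ ∃ l : Fin L, m ≤ l.val ∧ (hit (fun l => ∃ h ∈ P, h (nd l x) < h (nd (l + 1) x)) m k ∧
      wx (nd l.val z) < wx (nd (l.val + 1) z))) : False := by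
  have dx : ∀ g ∈ P, ∀ l, m ≤ l → l < k → g (nd l x) ≤ g (nd (l + 1) x) := by
    intro g hg l h1 h2
    by_contra hcon
    exact hdx ⟨⟨l, by omega⟩, h1, g, hg, not_le.mp hcon⟩
  have hz : hit (fun l => ∃ h ∈ P, h (nd l z) < h (nd (l + 1) z)) m k := by
    by_contra hcon
    have h1 : h (nd k z) ≤ h (nd m z) := by
      refine anti_of h z m k hmk fun l h2 h3 => ?_
      by_contra h4
      exact hcon ⟨l, h2, h3, h, hP, not_le.mp h4⟩
    have h2 := mono_of h x m k hmk (dx h hP)
    rw [hxz] at h2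
    linarith
  have hx := hU hz
  obtain ⟨h1, h2⟩ := hw hx
  have h3 := strict_of wx x m k (dx wx h1) h2
  have h4 : wx (nd k z) ≤ wx (nd m z) := by
    refine anti_of wx z m k hmk fun l h5 h6 => ?_
    by_contra h7
    exact hb ⟨⟨l, by omega⟩, h5, hx, not_le.mp h7⟩
  have h5 := hall wx h1
  rw [hxz] at h3
  linarith

end

section

variable {L b : ℕ} [NeZero b] {W : Type} {mid : W → Fin L} {hi : W → ℕ} {μ : ℕ} {d : ℤ}
  [Fintype W] [DecidableEq W]

/-- chips at a centre and on its spokes -/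
def nn (st : CData.States (X L b W mid hi) μ d) (l : Fin L) (x : Om L b) : ℤ :=
  st.nz (l, x) + ∑ c : Fin b, st.nu ((l, x), c)

theorem nn_nonneg (st : CData.States (X L b W mid hi) μ d) (l : Fin L) (x : Om L b) :
    0 ≤ nn st l x :=
  add_nonneg (st.nz0 _) (Finset.sum_nonneg fun c _ => st.nu0 _)

theorem sum_nn (st : CData.States (X L b W mid hi) μ d) :
    ∑ l, ∑ x, nn st l x = ∑ c, st.nz c + ∑ s, st.nu s := by
  unfold nn
  rw [Fintype.sum_prod_type, Fintype.sum_prod_type, Fintype.sum_prod_type]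
  simp only [Finset.sum_add_distrib]

theorem sum_fst {C : Type} [Fintype C] [DecidableEq C] (c : C) (f : C × Fin b → ℤ) :
    ∑ s ∈ Finset.univ.filter (fun s : C × Fin b => s.1 = c), f s = ∑ a, f (c, a) := by
  rw [Finset.sum_filter, Fintype.sum_prod_type]
  rw [Finset.sum_eq_single c]
  · simp
  · intro c' _ hc'
    simp [hc']
  · intro h
    exact absurd (Finset.mem_univ c) h

theorem key1 (st : CData.States (X L b W mid hi) μ d) (h : Cl L b → ℤ) (hP : h ∈ st.P)
    (l : Fin L) (x : Om L b) :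
    (μ : ℤ) * ∑ c : Fin b, ip (h (nd l.val x) < h (nd (l.val + 1) (Function.update x l c))) ≤
      nn st l x := by
  have h1 := st.cz h hP (l, x)
  have h2 : ∑ s ∈ Finset.univ.filter (fun s => (X L b W mid hi).sc s = (l, x)),
      (h ((X L b W mid hi).st s) - h ((X L b W mid hi).cc (l, x))) =
      ∑ c : Fin b, (h (nd (l.val + 1) (Function.update x l c)) - h (nd l.val x)) :=
    sum_fst (l, x) (fun s => h ((X L b W mid hi).st s) - h ((X L b W mid hi).cc (l, x)))
  rw [h2] at h1
  have h3 : ∀ c : Fin b, (μ : ℤ) * ip (h (nd l.val x) < h (nd (l.val + 1)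
      (Function.update x l c))) ≤ μ * (h (nd (l.val + 1) (Function.update x l c)) -
        h (nd l.val x)) + st.nu ((l, x), c) := by
    intro c
    have h4 := st.cu h hP ((l, x), c)
    have h4' : 0 ≤ st.nu ((l, x), c) + μ * (h (nd (l.val + 1) (Function.update x l c)) -
      h (nd l.val x)) := h4
    have h5 := st.nu0 ((l, x), c)
    have h6 : (0 : ℤ) ≤ μ := by positivity
    by_cases h7 : h (nd l.val x) < h (nd (l.val + 1) (Function.update x l c))
    · rw [ip_true h7]
      nlinarith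
    · rw [ip_false h7]
      linarith
  have h4 := Finset.sum_le_sum (s := Finset.univ) fun (c : Fin b) _ => h3 c
  rw [← Finset.mul_sum, Finset.sum_add_distrib, ← Finset.mul_sum] at h4
  unfold nn
  linarith

theorem key2 (st : CData.States (X L b W mid hi) μ d) (l : Fin L) (x : Om L b) :
    (μ : ℤ) * ∑ c : Fin b, ip (∃ h ∈ st.P, h (nd (l.val + 1) (Function.update x l c)) <
      h (nd l.val (Function.update x l c))) ≤ nn st l x := by
  have h3 : ∀ c : Fin b, (μ : ℤ) * ip (∃ h ∈ st.P, h (nd (l.val + 1) (Function.update x l c)) <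
      h (nd l.val (Function.update x l c))) ≤ st.nu ((l, x), c) := by
    intro c
    have h5 := st.nu0 ((l, x), c)
    by_cases h7 : ∃ h ∈ st.P, h (nd (l.val + 1) (Function.update x l c)) <
      h (nd l.val (Function.update x l c))
    · rw [ip_true h7]
      obtain ⟨h, hP, h8⟩ := h7
      have h4' : 0 ≤ st.nu ((l, x), c) + μ * (h (nd (l.val + 1) (Function.update x l c)) -
        h (nd l.val x)) := st.cu h hP ((l, x), c)
      have h9 : nd l.val (Function.update x l c) = nd l.val x := by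
        refine nd_congr fun i hi => ?_
        rw [Function.update_of_ne]
        intro h
        rw [h] at hi
        omega
      rw [h9] at h8
      have h6 : (0 : ℤ) ≤ μ := by positivity
      nlinarith
    · rw [ip_false h7]
      linarith
  have h4 := Finset.sum_le_sum (s := Finset.univ) fun (c : Fin b) _ => h3 c
  rw [← Finset.mul_sum] at h4
  unfold nn
  have := st.nz0 (l, x)
  linarith

/-- some potential jumps up along the string between `mid` and `hi` -/
def UU (st : CData.States (X L b W mid hi) μ d) (w : W) (x : Om L b) : Prop :=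
  hit (fun l => ∃ h ∈ st.P, h (nd l x) < h (nd (l + 1) x)) (mid w).val (hi w)

theorem exists_wit (st : CData.States (X L b W mid hi) μ d) (w : W) (x : Om L b) :
    ∃ g : Cl L b → ℤ, UU st w x → g ∈ st.P ∧ ∃ l, (mid w).val ≤ l ∧ l < hi w ∧
      g (nd l x) < g (nd (l + 1) x) := by
  by_cases h : UU st w x
  · obtain ⟨l, h1, h2, g, h3, h4⟩ := h
    exact ⟨g, fun _ => ⟨h3, l, h1, h2, h4⟩⟩
  · exact ⟨fun _ => 0, fun h' => absurd h' h⟩

/-- a witness -/
noncomputable def wit (st : CData.States (X L b W mid hi) μ d) (w : W) (x : Om L b) :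
    Cl L b → ℤ := (exists_wit st w x).choose

theorem wit_spec (st : CData.States (X L b W mid hi) μ d) (w : W) (x : Om L b) (h : UU st w x) :
    wit st w x ∈ st.P ∧ ∃ l, (mid w).val ≤ l ∧ l < hi w ∧
      wit st w x (nd l x) < wit st w x (nd (l + 1) x) := (exists_wit st w x).choose_spec h

/-- the witness of `x` jumps up along `z` -/
def RR (st : CData.States (X L b W mid hi) μ d) (w : W) (x : Om L b) (l : Fin L) (z : Om L b) :
    Prop := UU st w x ∧ wit st w x (nd l.val z) < wit st w x (nd (l.val + 1) z)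

/-- some potential drops -/
def DD (st : CData.States (X L b W mid hi) μ d) (l : Fin L) (z : Om L b) : Prop :=
  ∃ h ∈ st.P, h (nd (l.val + 1) z) < h (nd l.val z)

theorem RR_bound (st : CData.States (X L b W mid hi) μ d) (w : W) (x : Om L b) (l : Fin L)
    (z : Om L b) : (μ : ℤ) * ∑ c : Fin b, ip (RR st w x l (Function.update z l c)) ≤
      nn st l z := by
  have h9 : ∀ c, nd l.val (Function.update z l c) = nd l.val z := by
    intro c
    refine nd_congr fun i hi => ?_
    rw [Function.update_of_ne]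
    intro h
    rw [h] at hi
    omega
  by_cases hU : UU st w x
  · refine le_trans ?_ (key1 st (wit st w x) (wit_spec st w x hU).1 l z)
    refine le_of_eq ?_
    congr 1
    refine Finset.sum_congr rfl fun c _ => ip_congr ?_
    unfold RR
    rw [h9]
    exact ⟨fun h => h.2, fun h => ⟨hU, h⟩⟩
  · have : ∀ c, ip (RR st w x l (Function.update z l c)) = 0 := by
      intro c
      exact ip_false fun h => hU h.1
    simp only [this, Finset.sum_const_zero, mul_zero]
    exact nn_nonneg st l z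

theorem DD_bound (st : CData.States (X L b W mid hi) μ d) (l : Fin L)
    (z : Om L b) : (μ : ℤ) * ∑ c : Fin b, ip (DD st l (Function.update z l c)) ≤
      nn st l z := key2 st l z

/-- the exceptions at an edge -/
noncomputable def bad (st : CData.States (X L b W mid hi) μ d) (w : W) (x y : Om L b) : ℤ :=
  ip (∃ l : Fin L, (mid w).val ≤ l.val ∧ RR st w x l (mix (mid w).val x y)) +
  ip (∃ l : Fin L, (mid w).val ≤ l.val ∧ RR st w (mix (mid w).val x y) l x) +
  ip (∃ l : Fin L, (mid w).val ≤ l.val ∧ DD st l (mix (mid w).val x y)) +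
  ip (∃ l : Fin L, (mid w).val ≤ l.val ∧ DD st l x)

theorem bad_nonneg (st : CData.States (X L b W mid hi) μ d) (w : W) (x y : Om L b) :
    0 ≤ bad st w x y := by
  unfold bad
  have h1 := ip_nonneg (∃ l : Fin L, (mid w).val ≤ l.val ∧ RR st w x l (mix (mid w).val x y))
  have h2 := ip_nonneg (∃ l : Fin L, (mid w).val ≤ l.val ∧ RR st w (mix (mid w).val x y) l x)
  have h3 := ip_nonneg (∃ l : Fin L, (mid w).val ≤ l.val ∧ DD st l (mix (mid w).val x y))
  have h4 := ip_nonneg (∃ l : Fin L, (mid w).val ≤ l.val ∧ DD st l x)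
  linarith

theorem per_edge (st : CData.States (X L b W mid hi) μ d) (hhi : ∀ w, (mid w).val < hi w)
    (hhL : ∀ w, hi w ≤ L) (e : Ed L b W mid) :
    2 ≤ (st.na e false + st.na e true) +
      (ip (¬ (UU st e.1.1 e.1.2.1 ↔ UU st e.1.1 (mix (mid e.1.1).val e.1.2.1 e.1.2.2))) +
      bad st e.1.1 e.1.2.1 e.1.2.2) := by
  have n0 := st.na0 e false
  have n1 := st.na0 e true
  have c0 := st.ca0
  have c1 := st.ca1
  obtain ⟨g0, hg0, k0⟩ := st.cov0 e
  obtain ⟨g1, hg1, k1⟩ := st.cov1 e
  have c00 := c0 g0 hg0 e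
  have c01 := c1 g0 hg0 e
  have c10 := c0 g1 hg1 e
  have c11 := c1 g1 hg1 e
  set w := e.1.1 with hw
  set x := e.1.2.1 with hx
  set z := mix (mid w).val e.1.2.1 e.1.2.2 with hz
  have hxz : nd (mid w).val x = nd (mid w).val z := by
    refine nd_congr fun i hi => ?_
    rw [hz]
    simp [mix, hi, hx]
  have e0 : (X L b W mid hi).hd e false = nd (hi w) x := rfl
  have e1 : (X L b W mid hi).hd e true = nd (hi w) z := rfl
  unfold bad
  rw [← hz]
  have m1 := ip_nonneg (¬ (UU st w x ↔ UU st w z))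
  have m2 := ip_nonneg (∃ l : Fin L, (mid w).val ≤ l.val ∧ RR st w x l z)
  have m3 := ip_nonneg (∃ l : Fin L, (mid w).val ≤ l.val ∧ RR st w z l x)
  have m4 := ip_nonneg (∃ l : Fin L, (mid w).val ≤ l.val ∧ DD st l z)
  have m5 := ip_nonneg (∃ l : Fin L, (mid w).val ≤ l.val ∧ DD st l x)
  have hT : 1 ≤ st.na e false + st.na e true := by linarith
  by_cases a1 : UU st w x ↔ UU st w z
  swap
  · rw [ip_true a1]
    linarith
  by_cases a2 : ∃ l : Fin L, (mid w).val ≤ l.val ∧ RR st w x l z
  · rw [ip_true a2]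
    linarith
  by_cases a3 : ∃ l : Fin L, (mid w).val ≤ l.val ∧ RR st w z l x
  · rw [ip_true a3]
    linarith
  by_cases a4 : ∃ l : Fin L, (mid w).val ≤ l.val ∧ DD st l z
  · rw [ip_true a4]
    linarith
  by_cases a5 : ∃ l : Fin L, (mid w).val ≤ l.val ∧ DD st l x
  · rw [ip_true a5]
    linarith
  by_contra hcon
  have hT1 : st.na e false + st.na e true = 1 := by linarith
  rcases (show (st.na e false = 1 ∧ st.na e true = 0) ∨ (st.na e false = 0 ∧ st.na e true = 1) by
    omega) with ⟨t0, t1⟩ | ⟨t0, t1⟩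
  · -- all potentials satisfy `h (hd f) ≤ h (hd t)`
    refine edge_key st.P (mid w).val (hi w) (hhi w).le (hhL w) x z hxz a5 a4 g1 hg1 ?_ ?_ a1.mpr
      (wit st w x) (wit_spec st w x) a2
    · rw [e0, e1] at k1
      linarith
    · intro g hg
      have := c1 g hg e
      rw [e0, e1] at this
      linarith
  · refine edge_key st.P (mid w).val (hi w) (hhi w).le (hhL w) z x hxz.symm a4 a5 g0 hg0 ?_ ?_
      a1.mp (wit st w z) (wit_spec st w z) a3
    · rw [e0, e1] at k0
      linarith
    · intro g hg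
      have := c0 g hg e
      rw [e0, e1] at this
      linarith

end

end Tree

end Q122.Gon
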