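import Pool.Agent.Q122.Gon.TreeLow

set_option autoImplicit false
set_option synthInstance.maxSize 4000

/-!
# The tree of clusters: summing up
-/

namespace Q122.Gon

namespace Tree

section

variable {L b : ℕ} [NeZero b] {W : Type} {mid : W → Fin L} {hi : W → ℕ} {μ : ℕ} {d : ℤ}
  [Fintype W] [DecidableEq W]

theorem sum_subtype_ip {α : Type} [Fintype α] (p : α → Prop) [DecidablePred p] (f : α → ℤ) :
    ∑ e : {a // p a}, f e.1 = ∑ a, ip (p a) * f a := by
  classical
  have h1 : ∑ a, ip (p a) * f a = ∑ a ∈ Finset.univ.filter p, f a := by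
    rw [Finset.sum_filter]
    refine Finset.sum_congr rfl fun a _ => ?_
    by_cases h : p a
    · rw [ip_true h, if_pos h, one_mul]
    · rw [ip_false h, if_neg h, zero_mul]
  rw [h1]
  exact (Finset.sum_subtype (Finset.univ.filter p) (by simp) f).symm

theorem card_Ed (L b : ℕ) [NeZero b] (W : Type) [Fintype W] [DecidableEq W] (mid : W → Fin L) :
    (b : ℤ) * (Fintype.card (Ed L b W mid) : ℤ) =
      Fintype.card W * ((b : ℤ) ^ L * ((b : ℤ) ^ L * (b - 1))) := by
  have h1 : (Fintype.card (Ed L b W mid) : ℤ) = ∑ e : Ed L b W mid, (1 : ℤ) := by simp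
  rw [h1, sum_subtype_ip (fun p : W × Om L b × Om L b => p.2.1 (mid p.1) ≠ p.2.2 (mid p.1))
    (fun _ => 1), Fintype.sum_prod_type]
  simp only [mul_one, Fintype.sum_prod_type]
  rw [Finset.mul_sum]
  have h2 : ∀ w : W, (b : ℤ) * ∑ x : Om L b, ∑ y : Om L b, ip (x (mid w) ≠ y (mid w)) =
      (b : ℤ) ^ L * ((b : ℤ) ^ L * (b - 1)) := by
    intro w
    rw [Finset.mul_sum]
    have h3 : ∀ x : Om L b, (b : ℤ) * ∑ y : Om L b, ip (x (mid w) ≠ y (mid w)) =
        (b : ℤ) ^ L * (b - 1) := by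
      intro x
      rw [average (fun y => ip (x (mid w) ≠ y (mid w))) (mid w)]
      have h4 : ∀ y : Om L b, ∑ c : Fin b, ip (x (mid w) ≠ Function.update y (mid w) c (mid w)) =
          (b : ℤ) - 1 := by
        intro y
        have h5 : ∀ c : Fin b, ip (x (mid w) ≠ Function.update y (mid w) c (mid w)) =
            1 - if x (mid w) = c then 1 else 0 := by
          intro c
          rw [Function.update_self]
          by_cases h : x (mid w) = c
          · rw [ip_false (not_not.mpr h), if_pos h]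
            norm_num
          · rw [ip_true h, if_neg h]
            norm_num
        rw [Finset.sum_congr rfl fun c _ => h5 c, Finset.sum_sub_distrib]
        simp
      rw [Finset.sum_congr rfl fun y _ => h4 y]
      simp
      ring
    rw [Finset.sum_congr rfl fun x _ => h3 x]
    simp
  rw [Finset.sum_congr rfl fun w _ => h2 w]
  simp

theorem lower (hb : 1 ≤ b) (st : CData.States (X L b W mid hi) (b ^ L) d)
    (hhi : ∀ w, (mid w).val < hi w) (hhL : ∀ w, hi w ≤ L) (lo : W → ℕ) (K : ℤ)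
    (hwin : ∀ P : ℕ → Prop, ∑ w, ip (¬ (hit P (mid w).val (hi w) ↔ hit P (lo w) (mid w).val)) ≤
      K) :
    2 * (Fintype.card W : ℤ) * ((b : ℤ) ^ L * (b : ℤ) ^ L * (b - 1)) ≤
      b * d + 2 * b * K * ((b : ℤ) ^ L * (b : ℤ) ^ L) + 4 * Fintype.card W * d := by
  set β : ℤ := (b : ℤ) ^ L with hβ
  have hbpos : (0 : ℤ) < b := by exact_mod_cast hb
  have hβpos : 0 < β := pow_pos hbpos L
  set T : ℤ := ∑ e, (st.na e false + st.na e true) with hT
  set N : ℤ := ∑ l, ∑ x, nn st l x with hN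
  have hT0 : 0 ≤ T := Finset.sum_nonneg fun e _ => add_nonneg (st.na0 _ _) (st.na0 _ _)
  have hN0 : 0 ≤ N := Finset.sum_nonneg fun l _ => Finset.sum_nonneg fun x _ => nn_nonneg st l x
  have hTN : T + N ≤ d := by
    have h1 := st.total
    have h2 : 0 ≤ ∑ c, st.nh c := Finset.sum_nonneg fun c _ => st.nh0 c
    have h3 := sum_nn st
    rw [← hN] at h3
    rw [h3]
    linarith
  -- main terms
  have hmain : ∑ w, ∑ x, ∑ y, ip (¬ (UU st w x ↔ UU st w (mix (mid w).val x y))) ≤
      2 * K * (β * β) := by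
    have h1 : ∀ w, ∑ x, ∑ y, ip (¬ (UU st w x ↔ UU st w (mix (mid w).val x y))) ≤
        2 * β * ∑ x, ip (¬ (UU st w x ↔
          hit (fun l => ∃ h ∈ st.P, h (nd l x) < h (nd (l + 1) x)) (lo w) (mid w).val)) := by
      intro w
      refine main_count (mid w).val (UU st w) (fun x =>
        hit (fun l => ∃ h ∈ st.P, h (nd l x) < h (nd (l + 1) x)) (lo w) (mid w).val) ?_
      intro x y
      have h2 : ∀ l, l < (mid w).val → ((∃ h ∈ st.P, h (nd l (mix (mid w).val x y)) <
          h (nd (l + 1) (mix (mid w).val x y))) ↔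
          (∃ h ∈ st.P, h (nd l x) < h (nd (l + 1) x))) := by
        intro l hl
        have h3 : nd l (mix (mid w).val x y) = nd l x := by
          refine nd_congr fun i hi => ?_
          have : i.val < (mid w).val := by omega
          simp [mix, this]
        have h4 : nd (l + 1) (mix (mid w).val x y) = nd (l + 1) x := by
          refine nd_congr fun i hi => ?_
          have : i.val < (mid w).val := by omega
          simp [mix, this]
        rw [h3, h4]
      constructor
      · rintro ⟨l, h3, h4, h5⟩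
        exact ⟨l, h3, h4, (h2 l h4).mp h5⟩
      · rintro ⟨l, h3, h4, h5⟩
        exact ⟨l, h3, h4, (h2 l h4).mpr h5⟩
    refine (Finset.sum_le_sum fun w _ => h1 w).trans ?_
    rw [← Finset.mul_sum, Finset.sum_comm]
    have h2 : ∑ x : Om L b, ∑ w, ip (¬ (UU st w x ↔
          hit (fun l => ∃ h ∈ st.P, h (nd l x) < h (nd (l + 1) x)) (lo w) (mid w).val)) ≤
        ∑ _x : Om L b, K := Finset.sum_le_sum fun x _ => hwin _
    have h3 : ∑ _x : Om L b, K = β * K := by simp [hβ]
    rw [h3] at h2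
    have := mul_le_mul_of_nonneg_left h2 (show (0 : ℤ) ≤ 2 * β by positivity)
    linarith
  -- exceptional terms
  have hbad : ∀ w, (b : ℤ) * ∑ x, ∑ y, bad st w x y ≤ 4 * N := by
    intro w
    have hμ0 : (0 : ℤ) ≤ ((b ^ L : ℕ) : ℤ) := by positivity
    have h1 := bad_bound ((b ^ L : ℕ) : ℤ) (nn st) (nn_nonneg st) (RR st w)
      (fun x l y => RR_bound st w x l y) hμ0 (mid w).val
    have h2 := bad_bound' ((b ^ L : ℕ) : ℤ) (nn st) (nn_nonneg st) (RR st w)
      (fun x l y => RR_bound st w x l y) hμ0 (mid w).val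
    have h3 := bad_bound ((b ^ L : ℕ) : ℤ) (nn st) (nn_nonneg st) (fun _ l z => DD st l z)
      (fun x l y => DD_bound st l y) hμ0 (mid w).val
    have h4 := bad_bound' ((b ^ L : ℕ) : ℤ) (nn st) (nn_nonneg st) (fun _ l z => DD st l z)
      (fun x l y => DD_bound st l y) hμ0 (mid w).val
    rw [← hN] at h1 h2 h3 h4
    have h5 : ((b ^ L : ℕ) : ℤ) = β := by simp [hβ]
    rw [h5, ← hβ] at h1 h2 h3 h4
    have h6 : ∑ x, ∑ y, bad st w x y =
        ∑ x, ∑ y, ip (∃ l : Fin L, (mid w).val ≤ l.val ∧ RR st w x l (mix (mid w).val x y)) +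
        ∑ x, ∑ y, ip (∃ l : Fin L, (mid w).val ≤ l.val ∧ RR st w (mix (mid w).val x y) l x) +
        ∑ x, ∑ y, ip (∃ l : Fin L, (mid w).val ≤ l.val ∧ DD st l (mix (mid w).val x y)) +
        ∑ x : Om L b, ∑ _y : Om L b, ip (∃ l : Fin L, (mid w).val ≤ l.val ∧ DD st l x) := by
      unfold bad
      simp only [Finset.sum_add_distrib]
    rw [h6]
    have h7 : β * ((b : ℤ) * (∑ x, ∑ y, ip (∃ l : Fin L, (mid w).val ≤ l.val ∧
          RR st w x l (mix (mid w).val x y)) +
        ∑ x, ∑ y, ip (∃ l : Fin L, (mid w).val ≤ l.val ∧ RR st w (mix (mid w).val x y) l x) +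
        ∑ x, ∑ y, ip (∃ l : Fin L, (mid w).val ≤ l.val ∧ DD st l (mix (mid w).val x y)) +
        ∑ x : Om L b, ∑ _y : Om L b, ip (∃ l : Fin L, (mid w).val ≤ l.val ∧ DD st l x))) ≤
        β * (4 * N) := by
      linarith
    exact le_of_mul_le_mul_left h7 hβpos
  -- summing over the edges
  have hedge : 2 * (Fintype.card (Ed L b W mid) : ℤ) ≤ T + ∑ w, ∑ x, ∑ y,
      (ip (¬ (UU st w x ↔ UU st w (mix (mid w).val x y))) + bad st w x y) := by
    have h1 : 2 * (Fintype.card (Ed L b W mid) : ℤ) = ∑ _e : Ed L b W mid, (2 : ℤ) := by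
      simp [mul_comm]
    rw [h1]
    refine (Finset.sum_le_sum fun e _ => per_edge st hhi hhL e).trans ?_
    rw [Finset.sum_add_distrib]
    refine add_le_add le_rfl ?_
    rw [sum_subtype_ip (fun p : W × Om L b × Om L b => p.2.1 (mid p.1) ≠ p.2.2 (mid p.1))
      (fun p => ip (¬ (UU st p.1 p.2.1 ↔ UU st p.1 (mix (mid p.1).val p.2.1 p.2.2))) +
      bad st p.1 p.2.1 p.2.2), Fintype.sum_prod_type]
    simp only [Fintype.sum_prod_type]
    refine Finset.sum_le_sum fun w _ => Finset.sum_le_sum fun x _ => Finset.sum_le_sum fun y _ => ?_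
    have h2 := ip_le_one (x (mid w) ≠ y (mid w))
    have h3 := ip_nonneg (x (mid w) ≠ y (mid w))
    have h4 := bad_nonneg st w x y
    have h5 := ip_nonneg (¬ (UU st w x ↔ UU st w (mix (mid w).val x y)))
    nlinarith
  have hsplit : ∑ w, ∑ x, ∑ y,
      (ip (¬ (UU st w x ↔ UU st w (mix (mid w).val x y))) + bad st w x y) =
      ∑ w, ∑ x, ∑ y, ip (¬ (UU st w x ↔ UU st w (mix (mid w).val x y))) +
      ∑ w, ∑ x, ∑ y, bad st w x y := by
    simp only [Finset.sum_add_distrib]
  rw [hsplit] at hedge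
  have hbads : (b : ℤ) * ∑ w, ∑ x, ∑ y, bad st w x y ≤ 4 * Fintype.card W * N := by
    rw [Finset.mul_sum]
    refine (Finset.sum_le_sum fun w _ => hbad w).trans ?_
    simp
    linarith
  have hc := card_Ed L b W mid
  rw [← hβ] at hc
  have hN' : N ≤ d := by linarith
  have hT' : T ≤ d := by linarith
  have e1 := mul_le_mul_of_nonneg_left hedge hbpos.le
  have e2 := mul_le_mul_of_nonneg_left hmain hbpos.le
  have e3 : 4 * (Fintype.card W : ℤ) * N ≤ 4 * Fintype.card W * d :=
    mul_le_mul_of_nonneg_left hN' (by positivity)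
  have e4 : (b : ℤ) * T ≤ b * d := mul_le_mul_of_nonneg_left hT' hbpos.le
  have e5 : (b : ℤ) * (2 * (Fintype.card (Ed L b W mid) : ℤ)) =
      2 * (Fintype.card W * (β * (β * (b - 1)))) := by
    rw [← hc]
    ring
  rw [e5] at e1
  rw [mul_add, mul_add] at e1
  linarith

end

end Tree

end Q122.Gon
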